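import Pool.Agent.Lib.MP_ae0f86_nt.StmE

/-!
# MP_ae0f86_nt : the relations in the formal period algebra
-/

open CategoryTheory CategoryTheory.Limits MonoidalCategory
open scoped TensorProduct

universe v u

namespace Pool.Agent.Lib.MP_ae0f86_nt

attribute [local instance] CategoryTheory.Abelian.hasFiniteBiproducts

theorem p_algrel_tdual {A : Type u} [Category.{v} A] [Abelian A] [MonoidalCategory A]
    [SymmetricCategory A] (HB : A ⥤ ModuleCat.{0} ℚ) [FibreFunctor HB] {M N : A}
    (x : HB.obj M) (y : HB.obj N)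
    (σ : Module.Dual ℚ (HB.obj M)) (τ : Module.Dual ℚ (HB.obj N)) :
    tdual HB σ τ (FibreFunctor.mul M N x y) = σ x * τ y := by
  have h1 : FibreFunctor.mul (H := HB) M N x y =
      LinearEquiv.ofBijective _ (FibreFunctor.bij (H := HB) M N) (x ⊗ₜ[ℚ] y) := by
    rw [LinearEquiv.ofBijective_apply, TensorProduct.lift.tmul]
  rw [h1]
  show TensorProduct.dualDistrib ℚ (HB.obj M) (HB.obj N) (σ ⊗ₜ τ)
    ((LinearEquiv.ofBijective _ (FibreFunctor.bij (H := HB) M N)).symm
      (LinearEquiv.ofBijective _ (FibreFunctor.bij (H := HB) M N) (x ⊗ₜ[ℚ] y))) = _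
  rw [LinearEquiv.symm_apply_apply, TensorProduct.dualDistrib_apply]

theorem p_algrel {A : Type u} [Category.{v} A] [Abelian A] [MonoidalCategory A]
    [SymmetricCategory A] : S_algrel (A := A) := by
  intro K _ H HB _ _ S
  refine ⟨?_, ?_, ?_, fun x y σ τ => p_algrel_tdual HB x y σ τ⟩
  · intro N hN ω σ
    show Submodule.liftQ _ (Finsupp.linearCombination K _) _
      (Submodule.Quotient.mk (Symb.fin ⟨N, hN, ω, σ⟩)) = _
    rw [Submodule.liftQ_apply, Finsupp.linearCombination_single, one_smul]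
    rfl
  · intro M N hM hN hMN ω η σ τ
    have h := AlgRel.mul (H := H) (HB := HB) (S := S) ⟨M, hM, ω, σ⟩ ⟨N, hN, η, τ⟩ hMN
      (tdual HB σ τ) (fun x y => p_algrel_tdual HB x y σ τ)
    have h2 := Ideal.Quotient.eq.2 (Ideal.subset_span h :
      _ ∈ Ideal.span {r | AlgRel H HB S r})
    show Ideal.Quotient.mk _ _ * Ideal.Quotient.mk _ _ = _
    rw [← map_mul]
    exact h2
  · intro h1 σ hσ
    have h := AlgRel.one (H := H) (HB := HB) (S := S) h1 σ hσ
    have h2 := Ideal.Quotient.eq.2 (Ideal.subset_span h :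
      _ ∈ Ideal.span {r | AlgRel H HB S r})
    rw [map_one] at h2
    exact h2

end Pool.Agent.Lib.MP_ae0f86_nt
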