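import Pool.Agent.Lib.MP_ae0f86_nt.StmE

/-!
# MP_ae0f86_nt : [GP fprel] relations between the classes of symbols
-/

open CategoryTheory CategoryTheory.Limits Opposite MonoidalCategory

universe v u

namespace Pool.Agent.Lib.MP_ae0f86_nt

theorem p_fprel {A : Type u} [Category.{v} A] [Abelian A] {K : Type} [Field K]
    (H : A ⥤ ModuleCat.{0} K) (HB : A ⥤ ModuleCat.{0} ℚ) : S_fprel H HB := by
  intro S
  have e0 : ∀ r : Symb H HB S →₀ K, LinRel H HB S r →
      (Submodule.Quotient.mk r : FP H HB S) = 0 := fun r hr =>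
    (Submodule.Quotient.mk_eq_zero _).2 (Submodule.subset_span hr)
  have h1 : ∀ {N : A} (hN : S N) (ω ω' : H.obj N) (σ : Module.Dual ℚ (HB.obj N)),
      sym H HB hN (ω + ω') σ = sym H HB hN ω σ + sym H HB hN ω' σ := by
    intro N hN ω ω' σ
    have := e0 _ (LinRel.add_left N hN ω ω' σ)
    rw [Submodule.Quotient.mk_sub, Submodule.Quotient.mk_sub, sub_sub, sub_eq_zero] at this
    exact this
  have h2 : ∀ {N : A} (hN : S N) (a : K) (ω : H.obj N) (σ : Module.Dual ℚ (HB.obj N)),
      sym H HB hN (a • ω) σ = a • sym H HB hN ω σ := by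
    intro N hN a ω σ
    have := e0 _ (LinRel.smul_left N hN a ω σ)
    rw [Submodule.Quotient.mk_sub, Submodule.Quotient.mk_smul, sub_eq_zero] at this
    exact this
  have h3 : ∀ {N : A} (hN : S N) (ω : H.obj N) (σ σ' : Module.Dual ℚ (HB.obj N)),
      sym H HB hN ω (σ + σ') = sym H HB hN ω σ + sym H HB hN ω σ' := by
    intro N hN ω σ σ'
    have := e0 _ (LinRel.add_right N hN ω σ σ')
    rw [Submodule.Quotient.mk_sub, Submodule.Quotient.mk_sub, sub_sub, sub_eq_zero] at this
    exact this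
  have h4 : ∀ {N : A} (hN : S N) (q : ℚ) (ω : H.obj N) (σ : Module.Dual ℚ (HB.obj N)),
      sym H HB hN ω (q • σ) = (q : K) • sym H HB hN ω σ := by
    intro N hN q ω σ
    have := e0 _ (LinRel.smul_right N hN q ω σ)
    rw [Submodule.Quotient.mk_sub, Submodule.Quotient.mk_smul, sub_eq_zero] at this
    exact this
  refine ⟨h1, h2, h3, h4, ?_, ?_, ?_⟩
  · intro N N' hN hN' f ω σ'
    have := e0 _ (LinRel.funct N N' hN hN' f ω σ')
    rw [Submodule.Quotient.mk_sub, sub_eq_zero] at this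
    exact this
  · intro N hN σ
    have := h2 hN (0 : K) 0 σ
    rwa [smul_zero, zero_smul] at this
  · intro N hN ω
    have := h4 hN (0 : ℚ) ω 0
    rwa [smul_zero, Rat.cast_zero, zero_smul] at this

end Pool.Agent.Lib.MP_ae0f86_nt
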