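import Pool.Agent.Lib.MP_ae0f86_nt.StmT
import Pool.Agent.Lib.MP_ae0f86_nt.P.Fprel
import Pool.Agent.Lib.MP_ae0f86_nt.P.Algrel

/-!
# MP_ae0f86_nt : [GP base] comparison of `X(M)` and `G(M)`
-/

open CategoryTheory CategoryTheory.Limits Opposite MonoidalCategory
open scoped TensorProduct

universe w v u

namespace Pool.Agent.Lib.MP_ae0f86_nt

noncomputable section

set_option linter.unusedSectionVars false

attribute [local instance] CategoryTheory.Abelian.hasFiniteBiproducts

theorem p_base_sms {R : Type*} [CommRing R] {I J : Type*} [Fintype I] [Fintype J]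
    (f : I → R) (g : J → R) : (∑ i, f i) * (∑ j, g j) = ∑ i, ∑ j, f i * g j :=
  Finset.sum_mul_sum _ _ _ _

theorem p_base_contr {V V' W : Type*} [AddCommGroup V] [AddCommGroup V'] [AddCommGroup W]
    [Module ℚ V] [Module ℚ V'] [Module ℚ W] {J J' : Type*} [Fintype J] [Fintype J']
    (b : Module.Basis J ℚ V) (b' : Module.Basis J' ℚ V') (g : V →ₗ[ℚ] V')
    (B : Module.Dual ℚ V →ₗ[ℚ] V' →ₗ[ℚ] W) :
    ∑ j, B (b.coord j) (g (b j)) = ∑ k, B (b'.coord k ∘ₗ g) (b' k) := by
  classical
  have h1 : ∀ j, g (b j) = ∑ k, (b'.coord k (g (b j))) • b' k := by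
    intro j
    conv_lhs => rw [← b'.sum_repr (g (b j))]
    rfl
  have h2 : ∀ k, b'.coord k ∘ₗ g = ∑ j, (b'.coord k (g (b j))) • b.coord j := by
    intro k
    apply b.ext
    intro i
    rw [LinearMap.sum_apply]
    simp only [LinearMap.smul_apply, Module.Basis.coord_apply, Module.Basis.repr_self,
      LinearMap.comp_apply, smul_eq_mul]
    rw [Finset.sum_eq_single i]
    · simp
    · intro j _ hj
      rw [Finsupp.single_eq_of_ne hj, mul_zero]
    · intro h
      exact absurd (Finset.mem_univ i) h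
  calc ∑ j, B (b.coord j) (g (b j))
      = ∑ j, ∑ k, (b'.coord k (g (b j))) • B (b.coord j) (b' k) := by
        refine Finset.sum_congr rfl fun j _ => ?_
        conv_lhs => rw [h1 j]
        rw [map_sum]
        refine Finset.sum_congr rfl fun k _ => ?_
        rw [map_smul]
    _ = ∑ k, ∑ j, (b'.coord k (g (b j))) • B (b.coord j) (b' k) := Finset.sum_comm
    _ = ∑ k, B (b'.coord k ∘ₗ g) (b' k) := by
        refine Finset.sum_congr rfl fun k _ => ?_
        conv_rhs => rw [h2 k]
        rw [map_sum, LinearMap.sum_apply]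
        refine Finset.sum_congr rfl fun j _ => ?_
        rw [map_smul, LinearMap.smul_apply]

section

variable {A : Type u} [Category.{v} A] [Abelian A] [MonoidalCategory A] [SymmetricCategory A]

theorem p_base_tspan (HB : A ⥤ ModuleCat.{0} ℚ) [FibreFunctor HB] {M N : A}
    (P : Module.Dual ℚ (HB.obj (M ⊗ N)) → Prop)
    (h0 : P 0) (hadd : ∀ a b, P a → P b → P (a + b))
    (ht : ∀ (σ : Module.Dual ℚ (HB.obj M)) (τ : Module.Dual ℚ (HB.obj N)), P (tdual HB σ τ))
    (ρ : Module.Dual ℚ (HB.obj (M ⊗ N))) : P ρ := by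
  let e := LinearEquiv.ofBijective _ (FibreFunctor.bij (H := HB) M N)
  have key : ∀ t : Module.Dual ℚ (HB.obj M) ⊗[ℚ] Module.Dual ℚ (HB.obj N),
      P ((TensorProduct.dualDistrib ℚ (HB.obj M) (HB.obj N) t) ∘ₗ e.symm.toLinearMap) := by
    intro t
    induction t with
    | zero => rw [map_zero, LinearMap.zero_comp]; exact h0
    | tmul σ τ => exact ht σ τ
    | add x y hx hy => rw [map_add, LinearMap.add_comp]; exact hadd _ _ hx hy
  have h1 := key ((TensorProduct.dualDistribEquiv ℚ (HB.obj M) (HB.obj N)).symm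
    (ρ ∘ₗ e.toLinearMap))
  have h2 : (TensorProduct.dualDistrib ℚ (HB.obj M) (HB.obj N)
      ((TensorProduct.dualDistribEquiv ℚ (HB.obj M) (HB.obj N)).symm (ρ ∘ₗ e.toLinearMap))) =
      ρ ∘ₗ e.toLinearMap :=
    (TensorProduct.dualDistribEquiv ℚ (HB.obj M) (HB.obj N)).apply_symm_apply _
  rw [h2] at h1
  have h3 : (ρ ∘ₗ e.toLinearMap) ∘ₗ e.symm.toLinearMap = ρ := by
    ext y
    simp
  rwa [h3] at h1

variable {K : Type} [Field K] {H : A ⥤ ModuleCat.{0} K} {HB : A ⥤ ModuleCat.{0} ℚ}
  [FibreFunctor H] [FibreFunctor HB] {S : A → Prop}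

theorem p_base_al {N : A} (hN : S N) (ω ω' : H.obj N) (σ : Module.Dual ℚ (HB.obj N)) :
    asym H HB hN (ω + ω') σ = asym H HB hN ω σ + asym H HB hN ω' σ := by
  rw [← (p_algrel H HB S).1 hN, ← (p_algrel H HB S).1 hN, ← (p_algrel H HB S).1 hN,
    (p_fprel H HB S).1 hN, map_add]

theorem p_base_sl {N : A} (hN : S N) (a : K) (ω : H.obj N) (σ : Module.Dual ℚ (HB.obj N)) :
    asym H HB hN (a • ω) σ = a • asym H HB hN ω σ := by
  rw [← (p_algrel H HB S).1 hN, ← (p_algrel H HB S).1 hN,
    (p_fprel H HB S).2.1 hN, map_smul]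

theorem p_base_ar {N : A} (hN : S N) (ω : H.obj N) (σ σ' : Module.Dual ℚ (HB.obj N)) :
    asym H HB hN ω (σ + σ') = asym H HB hN ω σ + asym H HB hN ω σ' := by
  rw [← (p_algrel H HB S).1 hN, ← (p_algrel H HB S).1 hN, ← (p_algrel H HB S).1 hN,
    (p_fprel H HB S).2.2.1 hN, map_add]

theorem p_base_sr {N : A} (hN : S N) (q : ℚ) (ω : H.obj N) (σ : Module.Dual ℚ (HB.obj N)) :
    asym H HB hN ω (q • σ) = (q : K) • asym H HB hN ω σ := by
  rw [← (p_algrel H HB S).1 hN, ← (p_algrel H HB S).1 hN,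
    (p_fprel H HB S).2.2.2.1 hN, map_smul]

theorem p_base_nat {N N' : A} (hN : S N) (hN' : S N') (f : N ⟶ N') (ω : H.obj N)
    (σ' : Module.Dual ℚ (HB.obj N')) :
    asym H HB hN ω (σ' ∘ₗ (HB.map f).hom) = asym H HB hN' ((H.map f).hom ω) σ' := by
  rw [← (p_algrel H HB S).1 hN, ← (p_algrel H HB S).1 hN',
    (p_fprel H HB S).2.2.2.2.1 hN hN']

theorem p_base_zr {N : A} (hN : S N) (ω : H.obj N) :
    asym H HB hN ω 0 = 0 := by
  rw [← (p_algrel H HB S).1 hN, (p_fprel H HB S).2.2.2.2.2.2 hN, map_zero]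

theorem p_base_zl {N : A} (hN : S N) (σ : Module.Dual ℚ (HB.obj N)) :
    asym H HB hN 0 σ = 0 := by
  rw [← (p_algrel H HB S).1 hN, (p_fprel H HB S).2.2.2.2.2.1 hN, map_zero]


section Iota

variable [RigidCategory A] [CharZero K] (h1 : S_pointbij H HB) (hS : DClosed S)
  (x : PerAlg H HB S →ₐ[K] K)

/-- The functional `σ ↦ σ(b)` with values in `K`. -/
def p_base_phi (K : Type) [Field K] [CharZero K] {V : Type} [AddCommGroup V] [Module ℚ V] (b : V) :
    Module.Dual ℚ V →ₗ[ℚ] K :=
  (Algebra.linearMap ℚ K) ∘ₗ (Module.Dual.eval ℚ V b)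

/-- The lift of `b ∈ HB(N)` to `H(N)` given by the point `x`. -/
def p_base_iota {N : A} (hN : S N) (b : HB.obj N) : H.obj N :=
  (h1 S hS x hN (p_base_phi K b)).choose

theorem p_base_iota_spec {N : A} (hN : S N) (b : HB.obj N) (σ : Module.Dual ℚ (HB.obj N)) :
    x (asym H HB hN (p_base_iota h1 hS x hN b) σ) = ((σ b : ℚ) : K) :=
  (h1 S hS x hN (p_base_phi K b)).choose_spec.1 σ

include h1 hS in
theorem p_base_ext {N : A} (hN : S N) (ω ω' : H.obj N)
    (h : ∀ σ, x (asym H HB hN ω σ) = x (asym H HB hN ω' σ)) : ω = ω' := by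
  let φ : Module.Dual ℚ (HB.obj N) →ₗ[ℚ] K :=
    { toFun := fun σ => x (asym H HB hN ω σ)
      map_add' := fun a b => by rw [p_base_ar, map_add]
      map_smul' := fun q a => by
        rw [p_base_sr, map_smul, RingHom.id_apply, smul_eq_mul, Rat.smul_def] }
  exact (h1 S hS x hN φ).unique (fun σ => rfl) (fun σ => (h σ).symm)

theorem p_base_iota_add {N : A} (hN : S N) (b b' : HB.obj N) :
    p_base_iota h1 hS x hN (b + b') = p_base_iota h1 hS x hN b + p_base_iota h1 hS x hN b' := by
  apply p_base_ext h1 hS x hN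
  intro σ
  rw [p_base_al, map_add, p_base_iota_spec, p_base_iota_spec, p_base_iota_spec, map_add,
    Rat.cast_add]

theorem p_base_iota_smul {N : A} (hN : S N) (q : ℚ) (b : HB.obj N) :
    p_base_iota h1 hS x hN (q • b) = (q : K) • p_base_iota h1 hS x hN b := by
  apply p_base_ext h1 hS x hN
  intro σ
  rw [p_base_sl, map_smul, p_base_iota_spec, p_base_iota_spec, map_smul, smul_eq_mul,
    smul_eq_mul, Rat.cast_mul]

theorem p_base_iota_nat {N N' : A} (hN : S N) (hN' : S N') (f : N ⟶ N') (b : HB.obj N) :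
    p_base_iota h1 hS x hN' ((HB.map f).hom b) = (H.map f).hom (p_base_iota h1 hS x hN b) := by
  apply p_base_ext h1 hS x hN'
  intro σ
  rw [p_base_iota_spec, ← p_base_nat hN hN', p_base_iota_spec]
  rfl

theorem p_base_iota_mul {M N : A} (hM : S M) (hN : S N) (hMN : S (M ⊗ N)) (a : HB.obj M)
    (b : HB.obj N) :
    p_base_iota h1 hS x hMN (FibreFunctor.mul M N a b) =
      FibreFunctor.mul M N (p_base_iota h1 hS x hM a) (p_base_iota h1 hS x hN b) := by
  apply p_base_ext h1 hS x hMN
  intro ρ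
  induction ρ using p_base_tspan HB with
  | h0 => rw [p_base_zr, p_base_zr]
  | hadd s t hs ht => rw [p_base_ar, p_base_ar, map_add, map_add, hs, ht]
  | ht σ τ =>
    rw [p_base_iota_spec, ← (p_algrel H HB S).2.1 hM hN hMN, map_mul, p_base_iota_spec,
      p_base_iota_spec, p_algrel_tdual, Rat.cast_mul]

theorem p_base_one (h1' : S (𝟙_ A)) (σ : Module.Dual ℚ (HB.obj (𝟙_ A))) :
    asym H HB h1' FibreFunctor.one σ = algebraMap K _ ((σ FibreFunctor.one : ℚ) : K) := by
  by_cases hc : σ FibreFunctor.one = 0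
  · have h0 : σ = 0 := by
      ext y
      obtain ⟨q, hq⟩ := (FibreFunctor.one_bij (H := HB)).2 y
      rw [← hq]
      simp only [map_smul, hc, smul_zero, LinearMap.zero_apply]
    rw [h0, p_base_zr, LinearMap.zero_apply, Rat.cast_zero, map_zero]
  · have h2 := (p_algrel H HB S).2.2.1 h1' ((σ FibreFunctor.one)⁻¹ • σ) (by
      rw [LinearMap.smul_apply, smul_eq_mul, inv_mul_cancel₀ hc])
    rw [p_base_sr] at h2
    have h3 : ((σ FibreFunctor.one : ℚ) : K) • (((σ FibreFunctor.one)⁻¹ : ℚ) : K) •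
        asym H HB h1' FibreFunctor.one σ = asym H HB h1' FibreFunctor.one σ := by
      rw [smul_smul, ← Rat.cast_mul, mul_inv_cancel₀ hc, Rat.cast_one, one_smul]
    rw [← h3, h2, Algebra.algebraMap_eq_smul_one]

theorem p_base_iota_one (h1' : S (𝟙_ A)) :
    p_base_iota h1 hS x h1' FibreFunctor.one = FibreFunctor.one := by
  apply p_base_ext h1 hS x h1'
  intro σ
  rw [p_base_iota_spec, p_base_one, AlgHom.commutes, Algebra.algebraMap_self, RingHom.id_apply]

/-- the point defining `β` -/
def p_base_ptB : Pt HB HB S (PerAlg H HB S) where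
  p := fun hN b σ => asym H HB hN (p_base_iota h1 hS x hN b) σ
  add_left := fun hN b b' σ => by rw [p_base_iota_add, p_base_al]
  smul_left := fun hN q b σ => by
    rw [p_base_iota_smul, p_base_sl, ← algebraMap_smul K q, eq_ratCast]
  add_right := fun hN b σ σ' => p_base_ar hN _ _ _
  smul_right := fun hN q b σ => by
    rw [p_base_sr, Rat.cast_id, ← algebraMap_smul K q, eq_ratCast]
  nat := fun hN hN' f ω σ' => by
    rw [p_base_nat hN hN', p_base_iota_nat]
  mul := fun hM hN hMN ω η σ τ => by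
    rw [p_base_iota_mul h1 hS x hM hN hMN, (p_algrel H HB S).2.1 hM hN hMN]
  one := fun h1' σ hσ => by
    rw [p_base_iota_one, (p_algrel H HB S).2.2.1 h1' σ hσ]

/-- the bilinear form behind the point defining `α` -/
def p_base_B {N N' : A} (hN : S N) (hN' : S N') (ω : H.obj N) (σ : Module.Dual ℚ (HB.obj N')) :
    Module.Dual ℚ (HB.obj N) →ₗ[ℚ] HB.obj N' →ₗ[ℚ] K ⊗[ℚ] PerAlg HB HB S :=
  LinearMap.mk₂ ℚ (fun σ' b => x (asym H HB hN ω σ') ⊗ₜ[ℚ] asym HB HB hN' b σ)
    (fun a b c => by rw [p_base_ar, map_add, TensorProduct.add_tmul])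
    (fun q a c => by
      rw [p_base_sr, map_smul, ← eq_ratCast (algebraMap ℚ K), algebraMap_smul,
        TensorProduct.smul_tmul'])
    (fun a b c => by rw [p_base_al, TensorProduct.tmul_add])
    (fun q a c => by rw [p_base_sl, TensorProduct.tmul_smul])

/-- the pairing defining `α` -/
def p_base_pA {N : A} (hN : S N) (ω : H.obj N) (σ : Module.Dual ℚ (HB.obj N)) :
    K ⊗[ℚ] PerAlg HB HB S :=
  ∑ j, p_base_B x hN hN ω σ ((Module.finBasis ℚ (HB.obj N)).coord j)
    (Module.finBasis ℚ (HB.obj N) j)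

theorem p_base_pA_eq {N : A} (hN : S N) (ω : H.obj N) (σ : Module.Dual ℚ (HB.obj N))
    {J : Type} [Fintype J] (b : Module.Basis J ℚ (HB.obj N)) :
    p_base_pA x hN ω σ = ∑ j, x (asym H HB hN ω (b.coord j)) ⊗ₜ[ℚ] asym HB HB hN (b j) σ := by
  have h := p_base_contr (Module.finBasis ℚ (HB.obj N)) b LinearMap.id (p_base_B x hN hN ω σ)
  simp only [LinearMap.id_apply, LinearMap.comp_id] at h
  exact h

/-- the point defining `α` -/
def p_base_ptA : Pt H HB S (K ⊗[ℚ] PerAlg HB HB S) where
  p := fun hN ω σ => p_base_pA x hN ω σ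
  add_left := fun hN ω ω' σ => by
    simp only [p_base_pA, ← Finset.sum_add_distrib]
    refine Finset.sum_congr rfl fun j _ => ?_
    simp only [p_base_B, LinearMap.mk₂_apply]
    rw [p_base_al, map_add, TensorProduct.add_tmul]
  smul_left := fun hN a ω σ => by
    simp only [p_base_pA, Finset.smul_sum]
    refine Finset.sum_congr rfl fun j _ => ?_
    simp only [p_base_B, LinearMap.mk₂_apply]
    rw [p_base_sl, map_smul, TensorProduct.smul_tmul']
  add_right := fun hN ω σ σ' => by
    simp only [p_base_pA, ← Finset.sum_add_distrib]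
    refine Finset.sum_congr rfl fun j _ => ?_
    simp only [p_base_B, LinearMap.mk₂_apply]
    rw [p_base_ar, TensorProduct.tmul_add]
  smul_right := fun hN q ω σ => by
    simp only [p_base_pA, Finset.smul_sum]
    refine Finset.sum_congr rfl fun j _ => ?_
    simp only [p_base_B, LinearMap.mk₂_apply]
    rw [p_base_sr, Rat.cast_id, TensorProduct.tmul_smul, ← algebraMap_smul K q, eq_ratCast]
  nat := fun {N N'} hN hN' f ω σ' => by
    have h := p_base_contr (Module.finBasis ℚ (HB.obj N)) (Module.finBasis ℚ (HB.obj N'))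
      (HB.map f).hom (p_base_B x hN hN' ω σ')
    simp only [p_base_pA]
    refine Eq.trans (Finset.sum_congr rfl fun j _ => ?_) (h.trans
      (Finset.sum_congr rfl fun k _ => ?_))
    · simp only [p_base_B, LinearMap.mk₂_apply]
      rw [p_base_nat hN hN']
    · simp only [p_base_B, LinearMap.mk₂_apply]
      rw [p_base_nat hN hN']
  mul := fun {M N} hM hN hMN ω η σ τ => by
    classical
    let b := Module.finBasis ℚ (HB.obj M)
    let b' := Module.finBasis ℚ (HB.obj N)
    let e := LinearEquiv.ofBijective _ (FibreFunctor.bij (H := HB) M N)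
    let c := (b.tensorProduct b').map e
    have hc : ∀ i j, c (i, j) = FibreFunctor.mul M N (b i) (b' j) := by
      intro i j
      show e ((b.tensorProduct b') (i, j)) = _
      rw [Module.Basis.tensorProduct_apply]
      show TensorProduct.lift (FibreFunctor.mul M N) (b i ⊗ₜ[ℚ] b' j) = _
      rw [TensorProduct.lift.tmul]
    have hcc : ∀ i j, c.coord (i, j) = tdual HB (b.coord i) (b'.coord j) := by
      intro i j
      apply c.ext
      rintro ⟨k, l⟩
      rw [hc k l, p_algrel_tdual, ← hc k l, Module.Basis.coord_apply, Module.Basis.coord_apply,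
        Module.Basis.coord_apply, Module.Basis.repr_self, Module.Basis.repr_self,
        Module.Basis.repr_self, Finsupp.single_apply, Finsupp.single_apply, Finsupp.single_apply]
      simp only [Prod.mk.injEq]
      by_cases h1 : k = i <;> by_cases h2 : l = j <;> simp [h1, h2]
    rw [p_base_pA_eq x hMN _ _ c, p_base_pA_eq x hM _ _ b, p_base_pA_eq x hN _ _ b']
    refine Eq.trans ?_ (p_base_sms (R := K ⊗[ℚ] PerAlg HB HB S)
      (fun i => x (asym H HB hM ω (b.coord i)) ⊗ₜ[ℚ] asym HB HB hM (b i) σ)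
      (fun j => x (asym H HB hN η (b'.coord j)) ⊗ₜ[ℚ] asym HB HB hN (b' j) τ)).symm
    rw [Fintype.sum_prod_type]
    refine Finset.sum_congr rfl fun i _ => Finset.sum_congr rfl fun j _ => ?_
    rw [hcc, hc, ← (p_algrel H HB S).2.1 hM hN hMN, ← (p_algrel HB HB S).2.1 hM hN hMN,
      map_mul, Algebra.TensorProduct.tmul_mul_tmul]
  one := fun h1' σ hσ => by
    let e : ℚ ≃ₗ[ℚ] HB.obj (𝟙_ A) :=
      LinearEquiv.ofBijective (LinearMap.toSpanSingleton ℚ _ (FibreFunctor.one (H := HB)))
        FibreFunctor.one_bij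
    let c := (Module.Basis.singleton Unit ℚ).map e
    have hc : ∀ i, c i = FibreFunctor.one := by
      intro i
      show e (Module.Basis.singleton Unit ℚ i) = _
      rw [Module.Basis.singleton_apply]
      show (1 : ℚ) • FibreFunctor.one (H := HB) = _
      rw [one_smul]
    have hcc : ∀ i, c.coord i = σ := by
      intro i
      apply c.ext
      intro j
      rw [hc j, hσ, ← hc j, Module.Basis.coord_apply, Module.Basis.repr_self]
      simp
    rw [p_base_pA_eq x h1' _ _ c]
    simp only [Finset.univ_unique, Finset.sum_singleton]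
    rw [hcc, hc, (p_algrel H HB S).2.2.1 h1' σ hσ, (p_algrel HB HB S).2.2.1 h1' σ hσ, map_one]
    rfl

theorem p_base_pA_iota {N : A} (hN : S N) (b : HB.obj N) (σ : Module.Dual ℚ (HB.obj N)) :
    p_base_pA x hN (p_base_iota h1 hS x hN b) σ = 1 ⊗ₜ[ℚ] asym HB HB hN b σ := by
  rw [p_base_pA_eq x hN _ _ (Module.finBasis ℚ (HB.obj N))]
  have h2 : ∀ j, x (asym H HB hN (p_base_iota h1 hS x hN b)
      ((Module.finBasis ℚ (HB.obj N)).coord j)) ⊗ₜ[ℚ] asym HB HB hN
        (Module.finBasis ℚ (HB.obj N) j) σ =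
      (1 : K) ⊗ₜ[ℚ] asym HB HB hN (((Module.finBasis ℚ (HB.obj N)).coord j b) •
        (Module.finBasis ℚ (HB.obj N) j)) σ := by
    intro j
    rw [p_base_iota_spec, p_base_sl, ← TensorProduct.smul_tmul, Rat.smul_def, mul_one]
  rw [Finset.sum_congr rfl fun j _ => h2 j, ← TensorProduct.tmul_sum]
  congr 1
  let L : HB.obj N →+ PerAlg HB HB S :=
    { toFun := fun y => asym HB HB hN y σ
      map_zero' := p_base_zl hN σ
      map_add' := fun y z => p_base_al hN y z σ }
  have h3 : ∑ j, L (((Module.finBasis ℚ (HB.obj N)).coord j b) •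
      (Module.finBasis ℚ (HB.obj N) j)) = L b := by
    rw [← map_sum]
    congr 1
    exact (Module.finBasis ℚ (HB.obj N)).sum_repr b
  exact h3

theorem p_base_expand {N : A} (hN : S N) (ω : H.obj N) :
    ω = ∑ j, x (asym H HB hN ω ((Module.finBasis ℚ (HB.obj N)).coord j)) •
      p_base_iota h1 hS x hN (Module.finBasis ℚ (HB.obj N) j) := by
  apply p_base_ext h1 hS x hN
  intro σ
  let L : H.obj N →+ K :=
    { toFun := fun y => x (asym H HB hN y σ)
      map_zero' := by rw [p_base_zl, map_zero]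
      map_add' := fun y z => by rw [p_base_al, map_add] }
  let L' : Module.Dual ℚ (HB.obj N) →+ K :=
    { toFun := fun y => x (asym H HB hN ω y)
      map_zero' := by rw [p_base_zr, map_zero]
      map_add' := fun y z => by rw [p_base_ar, map_add] }
  have e1 : σ = ∑ j, (σ (Module.finBasis ℚ (HB.obj N) j)) •
      (Module.finBasis ℚ (HB.obj N)).coord j := by
    apply (Module.finBasis ℚ (HB.obj N)).ext
    intro i
    rw [LinearMap.sum_apply]
    simp only [LinearMap.smul_apply, Module.Basis.coord_apply, Module.Basis.repr_self,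
      smul_eq_mul]
    rw [Finset.sum_eq_single i]
    · simp
    · intro j _ hj
      rw [Finsupp.single_eq_of_ne hj, mul_zero]
    · intro h
      exact absurd (Finset.mem_univ i) h
  have e2 : L' σ = ∑ j, L' ((σ (Module.finBasis ℚ (HB.obj N) j)) •
      (Module.finBasis ℚ (HB.obj N)).coord j) := by
    rw [← map_sum, ← e1]
  have e3 : L (∑ j, x (asym H HB hN ω ((Module.finBasis ℚ (HB.obj N)).coord j)) •
      p_base_iota h1 hS x hN (Module.finBasis ℚ (HB.obj N) j)) =
      ∑ j, L (x (asym H HB hN ω ((Module.finBasis ℚ (HB.obj N)).coord j)) •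
      p_base_iota h1 hS x hN (Module.finBasis ℚ (HB.obj N) j)) := map_sum _ _ _
  show L' σ = L _
  rw [e2, e3]
  refine Finset.sum_congr rfl fun j _ => ?_
  show x (asym H HB hN ω _) = x (asym H HB hN _ σ)
  rw [p_base_sr, p_base_sl, map_smul, map_smul, p_base_iota_spec, smul_eq_mul, smul_eq_mul,
    mul_comm]

end Iota

theorem p_base_induct (P : PerAlg H HB S → Prop) (hC : ∀ a : K, P (algebraMap K _ a))
    (hadd : ∀ a b, P a → P b → P (a + b)) (hmul : ∀ a b, P a → P b → P (a * b))
    (hsym : ∀ {N : A} (hN : S N) ω σ, P (asym H HB hN ω σ)) (r : PerAlg H HB S) : P r := by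
  obtain ⟨p, rfl⟩ := Ideal.Quotient.mk_surjective r
  induction p using MvPolynomial.induction_on with
  | C a => exact hC a
  | add p q hp hq => rw [map_add]; exact hadd _ _ hp hq
  | mul_X p s hp => rw [map_mul]; exact hmul _ _ hp (hsym s.mem s.ω s.σ)

end

theorem p_base {A : Type u} [Category.{v} A] [Abelian A] [MonoidalCategory A]
    [SymmetricCategory A] {K : Type} [Field K] (H : A ⥤ ModuleCat.{0} K)
    (HB : A ⥤ ModuleCat.{0} ℚ) [FibreFunctor H] [FibreFunctor HB] [RigidCategory A] [CharZero K]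
    (h1 : S_pointbij H HB) (h2 : S_points.{u,v,u} HB HB) (h3 : S_points.{u,v,u} H HB)
    (_h4 : S_algrel (A := A)) : S_base H HB := by
  intro S hS x
  obtain ⟨β, hβ⟩ := h2 S (PerAlg H HB S) (p_base_ptB h1 hS x)
  obtain ⟨α, hα⟩ := h3 S (K ⊗[ℚ] PerAlg HB HB S) (p_base_ptA x)
  refine ⟨β.toRingHom, ?_, ?_⟩
  · have key : ∀ r : PerAlg HB HB S, α (β r) = (1 : K) ⊗ₜ[ℚ] r := by
      intro r
      induction r using p_base_induct with
      | hC a =>
        rw [AlgHom.commutes]
        have e1 : (algebraMap ℚ (PerAlg H HB S)) a =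
          algebraMap K (PerAlg H HB S) (algebraMap ℚ K a) :=
          IsScalarTower.algebraMap_apply ℚ K (PerAlg H HB S) a
        rw [e1, AlgHom.commutes, Algebra.TensorProduct.algebraMap_apply,
          Algebra.algebraMap_eq_smul_one (R := ℚ) (A := PerAlg HB HB S),
          TensorProduct.tmul_smul, TensorProduct.smul_tmul', Algebra.algebraMap_self,
          RingHom.id_apply, Algebra.algebraMap_eq_smul_one (R := ℚ) (A := K)]
      | hadd a b ha hb => rw [map_add, map_add, ha, hb, TensorProduct.tmul_add]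
      | hmul a b ha hb =>
        rw [map_mul, map_mul, ha, hb, Algebra.TensorProduct.tmul_mul_tmul, one_mul]
      | hsym hN b σ =>
        rw [hβ hN b σ]
        show α (asym H HB hN (p_base_iota h1 hS x hN b) σ) = _
        rw [hα]
        exact p_base_pA_iota h1 hS x hN b σ
    intro a b hab
    have h5 : Function.Injective (Algebra.TensorProduct.includeRight :
        PerAlg HB HB S →ₐ[ℚ] K ⊗[ℚ] PerAlg HB HB S) :=
      Algebra.TensorProduct.includeRight_injective (algebraMap ℚ K).injective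
    apply h5
    show (1 : K) ⊗ₜ[ℚ] a = (1 : K) ⊗ₜ[ℚ] b
    rw [← key, ← key]
    exact congrArg α hab
  · intro r
    have hcl : (Submonoid.closure (Set.range β.toRingHom) : Set (PerAlg H HB S)) ⊆
        (Submodule.span K (Set.range β.toRingHom) : Set (PerAlg H HB S)) := by
      have : Submonoid.closure (Set.range β.toRingHom) ≤ MonoidHom.mrange
          (β.toRingHom : PerAlg HB HB S →* PerAlg H HB S) := by
        rw [Submonoid.closure_le]
        rintro _ ⟨y, rfl⟩
        exact ⟨y, rfl⟩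
      intro y hy
      obtain ⟨z, hz⟩ := this hy
      exact Submodule.subset_span ⟨z, hz⟩
    have hspan := Algebra.adjoin_eq_span_of_subset (R := K) hcl
    rw [← hspan, Subalgebra.mem_toSubmodule]
    induction r using p_base_induct with
    | hC a => exact Subalgebra.algebraMap_mem _ a
    | hadd a b ha hb => exact add_mem ha hb
    | hmul a b ha hb => exact mul_mem ha hb
    | hsym hN ω σ =>
      rw [← Subalgebra.mem_toSubmodule, hspan]
      let L : H.obj _ →+ PerAlg H HB S :=
        { toFun := fun y => asym H HB hN y σ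
          map_zero' := p_base_zl hN σ
          map_add' := fun y z => p_base_al hN y z σ }
      have e1 : L ω = ∑ j, L (x (asym H HB hN ω ((Module.finBasis ℚ (HB.obj _)).coord j)) •
          p_base_iota h1 hS x hN (Module.finBasis ℚ (HB.obj _) j)) := by
        rw [← map_sum, ← p_base_expand h1 hS x hN ω]
      show L ω ∈ _
      rw [e1]
      refine Submodule.sum_mem _ fun j _ => ?_
      show asym H HB hN (_ • _) σ ∈ _
      rw [p_base_sl]
      exact Submodule.smul_mem _ _ (Submodule.subset_span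
        ⟨asym HB HB hN (Module.finBasis ℚ (HB.obj _) j) σ, hβ hN _ σ⟩)

end

end Pool.Agent.Lib.MP_ae0f86_nt
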