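import Pool.Agent.Lib.MP_ae0f86_nt.StmB

/-!
# MP_ae0f86_nt : piece `[GP cubic]`
-/

open CategoryTheory CategoryTheory.Limits Opposite MonoidalCategory

universe v u

namespace Pool.Agent.Lib.MP_ae0f86_nt

noncomputable section

attribute [local instance] CategoryTheory.Abelian.hasFiniteBiproducts

/-- The cohomology of an affine space vanishes in positive degrees. -/
theorem p_cubic_affine {k : Type} [Field k] {A : Type u} [Category.{v} A] [Abelian A]
    [MonoidalCategory A] (T : CohTheory k A) (μ : Type) [Finite μ] (j : ℤ) (hj : 0 < j) :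
    IsZero ((T.h j).obj (op (AffPair.abs (IsAlg.univ : IsAlg (Set.univ : Set (μ → k)))))) := by
  let P0 : AffPair k := AffPair.abs (IsAlg.univ : IsAlg (Set.univ : Set (Empty → k)))
  let Q : AffPair k := AffPair.abs (IsAlg.univ : IsAlg (Set.univ : Set (μ → k)))
  have h0 : IsZero ((T.h j).obj (op P0)) := by
    refine T.bounded j P0 (Or.inr ?_)
    have : Nat.card P0.ι = 0 := Nat.card_eq_zero.2 (Or.inl (inferInstanceAs (IsEmpty Empty)))
    rw [this]
    simpa using hj
  have h1 : IsZero ((T.h j).obj (op (P0.cyl μ))) := by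
    have := T.homotopy j P0 μ
    exact h0.of_iso (asIso ((T.h j).map (P0.proj μ).op)).symm
  let f : Q ⟶ P0.cyl μ :=
    ⟨fun x => ⟨Sum.elim (fun e => e.elim) x.1, trivial⟩,
      ⟨fun j => j.elim (fun e => e.elim) (fun i => MvPolynomial.X i), by
        intro x j
        rcases j with e | i
        · exact e.elim
        · simp⟩, fun x hx => hx.elim⟩
  let g : P0.cyl μ ⟶ Q :=
    ⟨fun z => ⟨fun i => z.1 (Sum.inr i), trivial⟩,
      ⟨fun i => MvPolynomial.X (Sum.inr i), by intro x j; simp⟩, fun z hz => hz.elim⟩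
  have hf : IsIso f := by
    refine isIso_of_inv f g (fun x => ?_) (fun y => ?_)
    · funext i
      rfl
    · funext i
      rcases i with e | i
      · exact e.elim
      · rfl
  exact h1.of_iso (asIso ((T.h j).map f.op)).symm

theorem p_cubic_zero_tensor {A : Type u} [Category.{v} A] [Abelian A]
    [MonoidalCategory A] [MonoidalPreadditive A] {X : A} (hX : IsZero X) (Y : A) :
    IsZero (X ⊗ Y) := by
  rw [IsZero.iff_id_eq_zero] at hX ⊢
  rw [← id_whiskerRight, hX, MonoidalPreadditive.zero_whiskerRight]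

theorem p_cubic {k : Type} [Field k] {A : Type u} [Category.{v} A] [Abelian A]
    [MonoidalCategory A] [MonoidalPreadditive A] [SymmetricCategory A] (T : CohTheory k A)
    (h1 : S_subsum A) (h2 : S_subq A) : S_cubic T := by
  intro ι κ _ _ g c hc hs i
  obtain ⟨s1, -, -, -, s5, s6, s7⟩ := h1
  obtain ⟨-, -, -, q4, q5, -⟩ := h2
  rw [← s7]
  rcases lt_or_ge i 0 with hi | hi
  · exact s6 _ _ (p_cubic_zero_tensor (T.bounded i _ (Or.inl hi)) _)
  · obtain ⟨j, hj⟩ : ∃ j : ℤ, i + 2 * (c : ℤ) = j + 1 := ⟨i + 2 * c - 1, by ring⟩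
    have hj1 : 1 ≤ j := by
      have : (1 : ℤ) ≤ c := by exact_mod_cast hc
      omega
    have hp := T.purity i g c hs
    rw [hj] at hp
    obtain ⟨φ⟩ := hp
    let t : AffTriple k := ⟨ι ⊕ κ, inferInstance, Set.univ, hyp g, ∅, IsAlg.univ, hyp_alg g,
      IsAlg.empty, Set.subset_univ _, Set.empty_subset _⟩
    have hz : IsZero ((T.h (j + 1)).obj (op t.XZ)) :=
      p_cubic_affine T (ι ⊕ κ) (j + 1) (by omega)
    obtain ⟨w, hw⟩ := T.exact_XY j t
    have he : Epi (T.δ j t) :=
      (ShortComplex.exact_iff_epi _ (hz.eq_of_tgt _ _)).1 hw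
    let p : (T.h j).obj (op (AffPair.abs (hyp_alg g))) ⟶
        (T.h i).obj (op (AffPair.abs (zl_alg g))) ⊗ tpow T.L c := T.δ j t ≫ φ.hom
    have hpe : Epi p := epi_comp' he inferInstance
    by_cases hjc : j ≤ 2 * (Nat.card (ι ⊕ κ) : ℤ)
    · have hidx : j.toNat < 2 * Nat.card (AffPair.abs (hyp_alg g)).ι + 1 := by
        have : Nat.card (AffPair.abs (hyp_alg g)).ι = Nat.card (ι ⊕ κ) := rfl
        omega
      have hjt : ((⟨j.toNat, hidx⟩ : Fin (2 * Nat.card (AffPair.abs (hyp_alg g)).ι + 1)) : ℤ) = j := by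
        simp only [Int.toNat_of_nonneg (by omega : 0 ≤ j)]
      refine s1 _ (T.total (AffPair.abs (hyp_alg g))) _ (s5 _ _ rfl) ?_
      let m := biproduct.ι (fun i : Fin (2 * Nat.card (AffPair.abs (hyp_alg g)).ι + 1) =>
        (T.h (i : ℤ)).obj (op (AffPair.abs (hyp_alg g)))) ⟨j.toNat, hidx⟩
      have hm : Mono m := inferInstanceAs (Mono (biproduct.ι
        (fun i : Fin (2 * Nat.card (AffPair.abs (hyp_alg g)).ι + 1) =>
        (T.h (i : ℤ)).obj (op (AffPair.abs (hyp_alg g)))) ⟨j.toNat, hidx⟩))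
      refine ⟨(T.h j).obj (op (AffPair.abs (hyp_alg g))), eqToHom (by rw [hjt]) ≫ m, p,
        mono_comp' inferInstance hm, hpe⟩
    · have hz2 : IsZero ((T.h j).obj (op (AffPair.abs (hyp_alg g)))) :=
        T.bounded j _ (Or.inr (by
          have : Nat.card (AffPair.abs (hyp_alg g)).ι = Nat.card (ι ⊕ κ) := rfl
          rw [this]
          omega))
      exact s6 _ _ (IsZero.of_epi p hz2)

end

end Pool.Agent.Lib.MP_ae0f86_nt
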