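import Pool.Agent.Lib.MP_ae0f86_nt.StmB

/-! Piece [GP slpext]. -/

open MvPolynomial

universe v u

namespace Pool.Agent.Lib.MP_ae0f86_nt

noncomputable section

theorem p_slpext_add {τ : Type} {P : MvPolynomial τ ℤ} (hP : SignQuadric P) (s : τ →₀ ℕ)
    (hs : (s.sum fun _ => id) ≤ 2) (h0 : P.coeff s = 0) (c : ℤ) (hc : c = 1 ∨ c = -1) :
    SignQuadric (P + monomial s c) := by
  constructor
  · refine (totalDegree_add _ _).trans (max_le hP.1 ?_)
    exact (totalDegree_monomial_le s c).trans hs
  · intro m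
    classical
    rw [coeff_add, coeff_monomial]
    split_ifs with h
    · subst h
      rw [h0, zero_add]
      rcases hc with h | h
      · exact Or.inr (Or.inl h)
      · exact Or.inr (Or.inr h)
    · rw [add_zero]
      exact hP.2 m

theorem p_slpext_zero {τ : Type} : SignQuadric (0 : MvPolynomial τ ℤ) :=
  ⟨by simp, fun m => Or.inl (by simp)⟩

theorem p_slpext_rename {τ ρ : Type} (f : τ → ρ) (hf : Function.Injective f)
    {P : MvPolynomial τ ℤ} (hP : SignQuadric P) : SignQuadric (rename f P) := by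
  constructor
  · exact (totalDegree_rename_le f P).trans hP.1
  · intro m
    by_cases h : ∃ s : τ →₀ ℕ, s.mapDomain f = m
    · obtain ⟨s, rfl⟩ := h
      rw [coeff_rename_mapDomain f hf]
      exact hP.2 s
    · left
      apply coeff_rename_eq_zero
      intro s hs
      exact absurd ⟨s, hs⟩ h

theorem p_slpext_map_rename {τ ρ : Type} (f : τ → ρ) (P : MvPolynomial τ ℤ) (z : ρ → QBar) :
    eval z (MvPolynomial.map (Int.castRingHom QBar) (rename f P))
      = eval (z ∘ f) (MvPolynomial.map (Int.castRingHom QBar) P) := by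
  rw [map_rename, eval_rename]

theorem p_slpext_step {σ : Type} (p : MvPolynomial σ ℤ) {κ : Type} (w : κ → MvPolynomial σ ℤ)
    {r : ℕ} (q : Fin r → MvPolynomial (σ ⊕ κ) ℤ) (h : IsProgram w q)
    (e : MvPolynomial (σ ⊕ Option κ) ℤ) (he : SignQuadric e)
    (hez : ∀ z : σ ⊕ Option κ → QBar,
      (∀ j, z (Sum.inr (some j)) =
        eval (z ∘ Sum.inl) (MvPolynomial.map (Int.castRingHom QBar) (w j))) →
      (eval z (MvPolynomial.map (Int.castRingHom QBar) e) = 0 ↔
        z (Sum.inr none) = eval (z ∘ Sum.inl) (MvPolynomial.map (Int.castRingHom QBar) p))) :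
    ∃ (r' : ℕ) (q' : Fin r' → MvPolynomial (σ ⊕ Option κ) ℤ),
      IsProgram (fun o : Option κ => o.elim p w) q' := by
  refine ⟨r + 1, Fin.cons e (fun i => rename (Sum.map id some) (q i)), ?_, ?_⟩
  · intro j
    refine Fin.cases ?_ (fun i => ?_) j
    · simpa using he
    · simp only [Fin.cons_succ]
      apply p_slpext_rename _ _ (h.1 i)
      exact Function.Injective.sumMap Function.injective_id (Option.some_injective κ)
  · intro z
    have key : (∀ i, eval z (MvPolynomial.map (Int.castRingHom QBar)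
        (rename (Sum.map id some) (q i))) = 0) ↔
        ∀ j, z (Sum.inr (some j)) =
          eval (z ∘ Sum.inl) (MvPolynomial.map (Int.castRingHom QBar) (w j)) := by
      have h2 := h.2 (z ∘ Sum.map id some)
      simp only [p_slpext_map_rename]
      rw [h2]
      rfl
    constructor
    · intro hz
      have h0 := hz 0
      have h1 : ∀ i, eval z (MvPolynomial.map (Int.castRingHom QBar)
          (rename (Sum.map id some) (q i))) = 0 := fun i => by
        have := hz i.succ
        simpa using this
      have h3 := key.mp h1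
      rintro (_ | j)
      · exact (hez z h3).mp (by simpa using h0)
      · exact h3 j
    · intro hz
      have h3 : ∀ j, z (Sum.inr (some j)) =
          eval (z ∘ Sum.inl) (MvPolynomial.map (Int.castRingHom QBar) (w j)) :=
        fun j => hz (some j)
      have h0 := (hez z h3).mpr (hz none)
      have h1 := key.mpr h3
      intro i
      refine Fin.cases ?_ (fun i => ?_) i
      · simpa using h0
      · simpa using h1 i

theorem p_slpext_cne {τ : Type} {s t : τ →₀ ℕ} (c : ℤ) (h : s ≠ t) :
    (monomial s c : MvPolynomial τ ℤ).coeff t = 0 := by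
  classical
  rw [coeff_monomial, if_neg h]

theorem p_slpext_sne {τ : Type} {a b : τ} (h : a ≠ b) :
    (Finsupp.single a 1 : τ →₀ ℕ) ≠ Finsupp.single b 1 := fun h' =>
  h (Finsupp.single_left_injective one_ne_zero h')

theorem p_slpext_ev {τ : Type} (z : τ → QBar) (a : τ) (c : ℤ) :
    eval z (MvPolynomial.map (Int.castRingHom QBar) (monomial (Finsupp.single a 1) c))
      = (c : QBar) * z a := by
  rw [map_monomial, eval_monomial, Finsupp.prod_single_index (by simp)]
  simp

theorem p_slpext_ev2 {τ : Type} (z : τ → QBar) (a b : τ) (c : ℤ) :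
    eval z (MvPolynomial.map (Int.castRingHom QBar)
      (monomial (Finsupp.single a 1 + Finsupp.single b 1) c))
      = (c : QBar) * (z a * z b) := by
  rw [map_monomial, eval_monomial, Finsupp.prod_add_index' (by simp) (by simp [pow_add]),
    Finsupp.prod_single_index (by simp), Finsupp.prod_single_index (by simp)]
  simp

theorem p_slpext_ev0 {τ : Type} (z : τ → QBar) (c : ℤ) :
    eval z (MvPolynomial.map (Int.castRingHom QBar) (monomial 0 c)) = (c : QBar) := by
  rw [map_monomial, eval_monomial]
  simp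

/-- `p` can be added to every program. -/
def p_slpext_Comp {σ : Type} (p : MvPolynomial σ ℤ) : Prop :=
  ∀ (κ : Type) [Finite κ]
  (w : κ → MvPolynomial σ ℤ) {r : ℕ} (q : Fin r → MvPolynomial (σ ⊕ κ) ℤ), IsProgram w q →
  ∃ (κ' : Type) (_ : Finite κ') (w' : κ' → MvPolynomial σ ℤ) (r' : ℕ)
    (q' : Fin r' → MvPolynomial (σ ⊕ κ') ℤ), IsProgram w' q' ∧
      (∀ j, ∃ j', w' j' = w j) ∧ ∃ j', w' j' = p

theorem p_slpext_of_step {σ : Type} {p : MvPolynomial σ ℤ} {κ : Type} [Finite κ]
    {w : κ → MvPolynomial σ ℤ} {r : ℕ} {q : Fin r → MvPolynomial (σ ⊕ κ) ℤ} (h : IsProgram w q)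
    (e : MvPolynomial (σ ⊕ Option κ) ℤ) (he : SignQuadric e)
    (hez : ∀ z : σ ⊕ Option κ → QBar,
      (∀ j, z (Sum.inr (some j)) =
        eval (z ∘ Sum.inl) (MvPolynomial.map (Int.castRingHom QBar) (w j))) →
      (eval z (MvPolynomial.map (Int.castRingHom QBar) e) = 0 ↔
        z (Sum.inr none) = eval (z ∘ Sum.inl) (MvPolynomial.map (Int.castRingHom QBar) p))) :
    ∃ (r' : ℕ) (q' : Fin r' → MvPolynomial (σ ⊕ Option κ) ℤ),
      IsProgram (fun o : Option κ => o.elim p w) q' :=
  p_slpext_step p w q h e he hez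

/-- composition: extend by `p`, then by something else. -/
theorem p_slpext_trans {σ : Type} {p p1 : MvPolynomial σ ℤ} (h1 : p_slpext_Comp p1)
    (h2 : ∀ {κ : Type} [Finite κ]
      (w : κ → MvPolynomial σ ℤ) {r : ℕ} (q : Fin r → MvPolynomial (σ ⊕ κ) ℤ), IsProgram w q →
      (∃ j, w j = p1) → ∃ (κ' : Type) (_ : Finite κ') (w' : κ' → MvPolynomial σ ℤ) (r' : ℕ)
      (q' : Fin r' → MvPolynomial (σ ⊕ κ') ℤ), IsProgram w' q' ∧
      (∀ j, ∃ j', w' j' = w j) ∧ ∃ j', w' j' = p) : p_slpext_Comp p := by
  intro κ _ w r q hwq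
  obtain ⟨κ1, _, w1, r1, q1, hp1, hm1, hj1⟩ := h1 κ w q hwq
  obtain ⟨κ2, _, w2, r2, q2, hp2, hm2, hj2⟩ := h2 w1 q1 hp1 hj1
  refine ⟨κ2, inferInstance, w2, r2, q2, hp2, fun j => ?_, hj2⟩
  obtain ⟨j', hj'⟩ := hm1 j
  obtain ⟨j'', hj''⟩ := hm2 j'
  exact ⟨j'', hj''.trans hj'⟩

theorem p_slpext_C0 {σ : Type} : p_slpext_Comp (0 : MvPolynomial σ ℤ) := by
  intro κ _ w r q hwq
  obtain ⟨r', q', hq'⟩ := p_slpext_of_step (p := 0) hwq
    (0 + monomial (Finsupp.single (Sum.inr none) 1) 1)
    (p_slpext_add p_slpext_zero _ (by simp) (by simp) 1 (Or.inl rfl))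
    (by
      intro z _
      simp only [zero_add, RingHom.map_add, p_slpext_ev, RingHom.map_zero]
      simp)
  exact ⟨Option κ, inferInstance, _, r', q', hq', fun j => ⟨some j, rfl⟩, none, rfl⟩

theorem p_slpext_C1 {σ : Type} : p_slpext_Comp (1 : MvPolynomial σ ℤ) := by
  intro κ _ w r q hwq
  obtain ⟨r', q', hq'⟩ := p_slpext_of_step (p := 1) hwq
    (0 + monomial (Finsupp.single (Sum.inr none) 1) 1 + monomial 0 (-1))
    (p_slpext_add (p_slpext_add p_slpext_zero _ (by simp) (by simp) 1 (Or.inl rfl)) _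
      (by simp) (by
        rw [zero_add]
        exact p_slpext_cne _ (by simp)) (-1) (Or.inr rfl))
    (by
      intro z _
      simp only [zero_add, RingHom.map_add, p_slpext_ev, p_slpext_ev0, RingHom.map_one]
      simp [← sub_eq_add_neg, sub_eq_zero])
  exact ⟨Option κ, inferInstance, _, r', q', hq', fun j => ⟨some j, rfl⟩, none, rfl⟩

theorem p_slpext_neg {σ : Type} {p : MvPolynomial σ ℤ} (hp : p_slpext_Comp p) :
    p_slpext_Comp (-p) := by
  refine p_slpext_trans hp ?_
  intro κ _ w r q hwq ⟨j, hj⟩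
  obtain ⟨r', q', hq'⟩ := p_slpext_of_step (p := -p) hwq
    (0 + monomial (Finsupp.single (Sum.inr none) 1) 1
      + monomial (Finsupp.single (Sum.inr (some j)) 1) 1)
    (p_slpext_add (p_slpext_add p_slpext_zero _ (by simp) (by simp) 1 (Or.inl rfl)) _
      (by simp) (by
        rw [zero_add]
        exact p_slpext_cne _ (p_slpext_sne (by simp))) 1 (Or.inl rfl))
    (by
      intro z hz
      have := hz j
      rw [hj] at this
      simp only [zero_add, RingHom.map_add, p_slpext_ev, RingHom.map_neg]
      rw [this]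
      simp [add_eq_zero_iff_eq_neg])
  exact ⟨Option κ, inferInstance, _, r', q', hq', fun j => ⟨some j, rfl⟩, none, rfl⟩

theorem p_slpext_mulX {σ : Type} {p : MvPolynomial σ ℤ} (hp : p_slpext_Comp p) (i : σ) :
    p_slpext_Comp (p * X i) := by
  refine p_slpext_trans hp ?_
  intro κ _ w r q hwq ⟨j, hj⟩
  obtain ⟨r', q', hq'⟩ := p_slpext_of_step (p := p * X i) hwq
    (0 + monomial (Finsupp.single (Sum.inr none) 1) 1
      + monomial (Finsupp.single (Sum.inr (some j)) 1 + Finsupp.single (Sum.inl i) 1) (-1))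
    (p_slpext_add (p_slpext_add p_slpext_zero _ (by simp) (by simp) 1 (Or.inl rfl)) _
      (by
        rw [Finsupp.sum_add_index' (by simp) (by simp)]
        simp) (by
        rw [zero_add]
        refine p_slpext_cne _ ?_
        intro h
        have := DFunLike.congr_fun h (Sum.inr none)
        simp at this) (-1) (Or.inr rfl))
    (by
      intro z hz
      have h1 := hz j
      rw [hj] at h1
      have h2 : eval z (MvPolynomial.map (Int.castRingHom QBar)
          (0 + monomial (Finsupp.single (Sum.inr none : σ ⊕ Option κ) 1) 1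
      + monomial (Finsupp.single (Sum.inr (some j)) 1 + Finsupp.single (Sum.inl i) 1) (-1)))
          = z (Sum.inr none) - z (Sum.inr (some j)) * z (Sum.inl i) := by
        simp only [zero_add, RingHom.map_add, p_slpext_ev, p_slpext_ev2]
        push_cast
        ring
      rw [h2, h1, sub_eq_zero]
      simp)
  exact ⟨Option κ, inferInstance, _, r', q', hq', fun j => ⟨some j, rfl⟩, none, rfl⟩

theorem p_slpext_addp {σ : Type} {p1 p2 : MvPolynomial σ ℤ} (hp1 : p_slpext_Comp p1)
    (hp2 : p_slpext_Comp p2) : p_slpext_Comp (p1 + p2) := by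
  refine p_slpext_trans hp1 ?_
  intro κ _ w r q hwq hj1
  obtain ⟨κ2, _, w2, r2, q2, hq2, hm2, j2, hj2⟩ := hp2 κ w q hwq
  obtain ⟨j1, hj1⟩ := hj1
  obtain ⟨j1', hj1'⟩ := hm2 j1
  rw [hj1] at hj1'
  -- copy `p2`
  obtain ⟨r3, q3, hq3⟩ := p_slpext_of_step (p := p2) hq2
    (0 + monomial (Finsupp.single (Sum.inr none) 1) 1
      + monomial (Finsupp.single (Sum.inr (some j2)) 1) (-1))
    (p_slpext_add (p_slpext_add p_slpext_zero _ (by simp) (by simp) 1 (Or.inl rfl)) _
      (by simp) (by
        rw [zero_add]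
        exact p_slpext_cne _ (p_slpext_sne (by simp))) (-1) (Or.inr rfl))
    (by
      intro z hz
      have := hz j2
      rw [hj2] at this
      simp only [zero_add, RingHom.map_add, p_slpext_ev]
      rw [this]
      simp [← sub_eq_add_neg, sub_eq_zero])
  -- the sum
  obtain ⟨r4, q4, hq4⟩ := p_slpext_of_step (p := p1 + p2) hq3
    (0 + monomial (Finsupp.single (Sum.inr none) 1) 1
      + monomial (Finsupp.single (Sum.inr (some (some j1'))) 1) (-1)
      + monomial (Finsupp.single (Sum.inr (some none)) 1) (-1))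
    (p_slpext_add (p_slpext_add (p_slpext_add p_slpext_zero _ (by simp) (by simp) 1 (Or.inl rfl)) _
      (by simp) (by
        rw [zero_add]
        exact p_slpext_cne _ (p_slpext_sne (by simp))) (-1) (Or.inr rfl)) _ (by simp) (by
        rw [zero_add, coeff_add, p_slpext_cne _ (p_slpext_sne (by simp)),
          p_slpext_cne _ (p_slpext_sne (by simp)), add_zero]) (-1) (Or.inr rfl))
    (by
      intro z hz
      have h1 := hz (some j1')
      have h2 := hz none
      simp only [Option.elim] at h1 h2
      rw [hj1'] at h1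
      have h3 : eval z (MvPolynomial.map (Int.castRingHom QBar)
          (0 + monomial (Finsupp.single (Sum.inr none : σ ⊕ Option (Option κ2)) 1) 1
      + monomial (Finsupp.single (Sum.inr (some (some j1'))) 1) (-1)
      + monomial (Finsupp.single (Sum.inr (some none)) 1) (-1)))
          = z (Sum.inr none) - (z (Sum.inr (some (some j1'))) + z (Sum.inr (some none))) := by
        simp only [zero_add, RingHom.map_add, p_slpext_ev]
        push_cast
        ring
      rw [h3, h1, h2, sub_eq_zero]
      simp)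
  refine ⟨Option (Option κ2), inferInstance, _, r4, q4, hq4, fun j => ?_, none, rfl⟩
  obtain ⟨j', hj'⟩ := hm2 j
  exact ⟨some (some j'), hj'⟩

theorem p_slpext_C {σ : Type} (a : ℤ) : p_slpext_Comp (C a : MvPolynomial σ ℤ) := by
  induction a using Int.induction_on with
  | zero => simpa using p_slpext_C0
  | succ i ih =>
    have := p_slpext_addp ih p_slpext_C1
    simpa using this
  | pred i ih =>
    have := p_slpext_addp ih (p_slpext_neg p_slpext_C1)
    simpa [sub_eq_add_neg] using this

theorem p_slpext : S_slpext := by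
  intro σ _ p
  have : p_slpext_Comp p := by
    induction p using MvPolynomial.induction_on with
    | C a => exact p_slpext_C a
    | add p q hp hq => exact p_slpext_addp hp hq
    | mul_X p i hp => exact p_slpext_mulX hp i
  intro κ _ w r q h
  exact this κ w q h

end

end Pool.Agent.Lib.MP_ae0f86_nt
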