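import Pool.Agent.Lib.MP_ae0f86_nt.StmA

open CategoryTheory CategoryTheory.Limits Opposite

universe v u

namespace Pool.Agent.Lib.MP_ae0f86_nt

theorem p_zero {k : Type} [Field k] {A : Type u} [Category.{v} A] [Abelian A]
    [MonoidalCategory A] (T : CohTheory k A) : S_zero T := by
  intro P hP i
  obtain ⟨ι, fin, X, Y, algX, algY, sub⟩ := P
  dsimp only at hP
  subst hP
  obtain ⟨w, -⟩ := T.exact_XZ i
    (⟨ι, fin, Y, Y, Y, algX, algX, algX, subset_rfl, subset_rfl⟩ : AffTriple k)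
  rw [IsZero.iff_id_eq_zero]
  have h1 : (AffTriple.quot (⟨ι, fin, Y, Y, Y, algX, algX, algX, subset_rfl, subset_rfl⟩ :
      AffTriple k)) = 𝟙 _ := AffPair.hom_ext _ _ (fun x => rfl)
  have h2 : (AffTriple.incl (⟨ι, fin, Y, Y, Y, algX, algX, algX, subset_rfl, subset_rfl⟩ :
      AffTriple k)) = 𝟙 _ := AffPair.hom_ext _ _ (fun x => rfl)
  rw [h1, h2] at w
  dsimp only [Map] at w
  simpa using w

end Pool.Agent.Lib.MP_ae0f86_nt
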