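import Pool.Agent.Lib.MP_ae0f86_nt.StmB

/-! Piece [GP quadrics]. -/

open CategoryTheory MvPolynomial

universe v u

namespace Pool.Agent.Lib.MP_ae0f86_nt

noncomputable section

theorem p_quadrics_rename {τ ρ : Type} (f : τ → ρ) (hf : Function.Injective f)
    {P : MvPolynomial τ ℤ} (hP : SignQuadric P) : SignQuadric (rename f P) := by
  constructor
  · exact (totalDegree_rename_le f P).trans hP.1
  · intro m
    by_cases h : ∃ s : τ →₀ ℕ, s.mapDomain f = m
    · obtain ⟨s, rfl⟩ := h
      rw [coeff_rename_mapDomain f hf]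
      exact hP.2 s
    · left
      apply coeff_rename_eq_zero
      intro s hs
      exact absurd ⟨s, hs⟩ h

/-- A clopen embedding followed by an isomorphism is a clopen embedding. -/
theorem p_quadrics_comp {ι ι' ι'' : Type} [Finite ι] [Finite ι'] [Finite ι'']
    {X : Set (ι → QBar)} {X' : Set (ι' → QBar)} {X'' : Set (ι'' → QBar)}
    (hX : IsAlg X) (hX' : IsAlg X') (hX'' : IsAlg X'')
    (g : AffPair.abs hX ⟶ AffPair.abs hX') (hg : IsClopenEmb hX hX' g)
    (F : ι'' → MvPolynomial ι' QBar) (G : ι' → MvPolynomial ι'' QBar)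
    (hF : ∀ x ∈ X', (fun j => eval x (F j)) ∈ X'')
    (hG : ∀ x ∈ X'', (fun j => eval x (G j)) ∈ X')
    (hFG : ∀ x ∈ X', (fun i => eval (fun j => eval x (F j)) (G i)) = x)
    (hGF : ∀ x ∈ X'', (fun i => eval (fun j => eval x (G j)) (F i)) = x) :
    ∃ g' : AffPair.abs hX ⟶ AffPair.abs hX'', IsClopenEmb hX hX'' g' := by
  obtain ⟨E, R, hE, hR, hU, hI, e, he, hge⟩ := hg
  have hEX : E ⊆ X' := fun x hx => hU ▸ Or.inl hx
  have hRX : R ⊆ X' := fun x hx => hU ▸ Or.inr hx
  -- images
  set E' : Set (ι'' → QBar) := X'' ∩ {x | (fun j => eval x (G j)) ∈ E} with hE'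
  set R' : Set (ι'' → QBar) := X'' ∩ {x | (fun j => eval x (G j)) ∈ R} with hR'
  have hE'a : IsAlg E' := hX''.inter (hE.preimage G)
  have hR'a : IsAlg R' := hX''.inter (hR.preimage G)
  have hFE : ∀ x ∈ E, (fun j => eval x (F j)) ∈ E' := fun x hx => by
    refine ⟨hF x (hEX hx), ?_⟩
    show (fun i => eval (fun j => eval x (F j)) (G i)) ∈ E
    rw [hFG x (hEX hx)]
    exact hx
  have hGE : ∀ x ∈ E', (fun j => eval x (G j)) ∈ E := fun x hx => hx.2
  -- the isomorphism `E ≅ E'`
  let a : AffPair.abs hE ⟶ AffPair.abs hE'a :=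
    AffPair.mk' (AffPair.abs hE) (AffPair.abs hE'a) F hFE (fun x hx => hx.elim)
  let b : AffPair.abs hE'a ⟶ AffPair.abs hE :=
    AffPair.mk' (AffPair.abs hE'a) (AffPair.abs hE) G hGE (fun x hx => hx.elim)
  have hab : a ≫ b = 𝟙 _ := by
    apply AffPair.hom_ext
    intro x
    exact hFG x.1 (hEX x.2)
  have hba : b ≫ a = 𝟙 _ := by
    apply AffPair.hom_ext
    intro x
    exact hGF x.1 x.2.1
  have hai : IsIso a := ⟨b, hab, hba⟩
  let c : AffPair.abs hX' ⟶ AffPair.abs hX'' :=
    AffPair.mk' (AffPair.abs hX') (AffPair.abs hX'') F hF (fun x hx => hx.elim)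
  refine ⟨g ≫ c, E', R', hE'a, hR'a, ?_, ?_, e ≫ a, inferInstance, ?_⟩
  · ext x
    constructor
    · rintro (h | h)
      · exact h.1
      · exact h.1
    · intro h
      have h2 := hG x h
      rw [← hU] at h2
      rcases h2 with h2 | h2
      · exact Or.inl ⟨h, h2⟩
      · exact Or.inr ⟨h, h2⟩
  · ext x
    constructor
    · rintro ⟨h1, h2⟩
      have : (fun j => eval x (G j)) ∈ E ∩ R := ⟨h1.2, h2.2⟩
      rw [hI] at this
      exact this
    · intro h
      exact h.elim
  · intro x
    show (fun j => eval (AffPair.Hom.toFun g x).1 (F j))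
      = (fun j => eval (AffPair.Hom.toFun e x).1 (F j))
    rw [hge x]

theorem p_quadrics (h1 : S_descent) (h2 : S_slp) (h3 : S_smgraph QBar) (h4 : S_smreindex QBar) :
    S_quadrics := by
  intro ι _ c X hX
  obtain ⟨ι', _, r, c', f, hsm, g, hg⟩ := h1 X hX
  obtain ⟨κ, _, _, w, r', q, hq, hz⟩ := h2 f
  classical
  have : Fintype κ := Fintype.ofFinite κ
  have : Fintype ι' := Fintype.ofFinite ι'
  let n := Fintype.card (ι' ⊕ κ)
  let ε : ι' ⊕ κ ≃ Fin n := Fintype.equivFin (ι' ⊕ κ)
  have hpos : 1 ≤ Fintype.card κ := Fintype.card_pos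
  -- the zero locus of the `q`
  have hzl : ∀ z : ι' ⊕ κ → QBar,
      z ∈ zl (fun j => MvPolynomial.map (Int.castRingHom QBar) (q j)) ↔
      (z ∘ Sum.inl ∈ zl (fun j => MvPolynomial.map (Int.castRingHom QBar) (f j)) ∧
        ∀ j, z (Sum.inr j) =
          eval (z ∘ Sum.inl) (MvPolynomial.map (Int.castRingHom QBar) (w j))) := fun z => hz z
  have hmem : ∀ z : Fin n → QBar,
      z ∈ zl (fun j => MvPolynomial.map (Int.castRingHom QBar) (rename ε (q j))) ↔
      z ∘ ε ∈ zl (fun j => MvPolynomial.map (Int.castRingHom QBar) (q j)) := by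
    intro z
    unfold zl
    simp only [Set.mem_ofPred_eq, map_rename, eval_rename]
  have hsm2 : IsSmooth (c' + Fintype.card κ)
      (zl (fun j => MvPolynomial.map (Int.castRingHom QBar) (q j))) := by
    have h := h3 _ (fun j => MvPolynomial.map (Int.castRingHom QBar) (w j)) hsm
    have e : zl (fun j => MvPolynomial.map (Int.castRingHom QBar) (q j))
        = {z : ι' ⊕ κ → QBar | z ∘ Sum.inl ∈
            zl (fun j => MvPolynomial.map (Int.castRingHom QBar) (f j)) ∧
            ∀ j, z (Sum.inr j) = eval (z ∘ Sum.inl)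
              (MvPolynomial.map (Int.castRingHom QBar) (w j))} := by
      ext z
      exact hzl z
    rw [e]
    exact h
  have hsm3 : IsSmooth (c' + Fintype.card κ)
      (zl (fun j => MvPolynomial.map (Int.castRingHom QBar) (rename ε (q j)))) := by
    have h := h4 ε _ hsm2
    have e : zl (fun j => MvPolynomial.map (Int.castRingHom QBar) (rename ε (q j)))
        = {z : Fin n → QBar | z ∘ ε ∈
            zl (fun j => MvPolynomial.map (Int.castRingHom QBar) (q j))} := by
      ext z
      exact hmem z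
    rw [e]
    exact h
  refine ⟨n, r', c' + Fintype.card κ, fun j => rename ε (q j), by omega,
    fun j => p_quadrics_rename _ ε.injective (hq j), hsm3, ?_⟩
  refine p_quadrics_comp hX.1 _ _ g hg
    (fun i => match ε.symm i with
      | Sum.inl a => MvPolynomial.X a
      | Sum.inr b => MvPolynomial.map (Int.castRingHom QBar) (w b))
    (fun a => MvPolynomial.X (ε (Sum.inl a))) ?_ ?_ ?_ ?_
  · intro x hx
    rw [hmem, hzl]
    have e1 : ((fun j => eval x ((match ε.symm j with
      | Sum.inl a => MvPolynomial.X a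
      | Sum.inr b => MvPolynomial.map (Int.castRingHom QBar) (w b)) : MvPolynomial ι' QBar)) ∘ ε)
        ∘ Sum.inl = x := by
      funext a
      simp
    rw [e1]
    refine ⟨hx, fun j => ?_⟩
    simp
  · intro x hx
    rw [hmem, hzl] at hx
    have e1 : (fun j => eval x (MvPolynomial.X (ε (Sum.inl j)) : MvPolynomial (Fin n) QBar))
        = (x ∘ ε) ∘ Sum.inl := by
      funext a
      simp
    rw [e1]
    exact hx.1
  · intro x hx
    funext a
    simp
  · intro x hx
    rw [hmem, hzl] at hx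
    funext i
    obtain ⟨s, rfl⟩ := ε.surjective i
    have e1 : (fun j => eval x (MvPolynomial.X (ε (Sum.inl j)) : MvPolynomial (Fin n) QBar))
        = (x ∘ ε) ∘ Sum.inl := by
      funext a
      simp
    rw [e1]
    rcases s with a | b
    · simp
    · simp only [Equiv.symm_apply_apply]
      exact (hx.2 b).symm

end

end Pool.Agent.Lib.MP_ae0f86_nt
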