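import Pool.Agent.Lib.MP_ae0f86_nt.StmB

open CategoryTheory CategoryTheory.Limits Opposite MonoidalCategory

universe v u

namespace Pool.Agent.Lib.MP_ae0f86_nt

attribute [local instance] CategoryTheory.Abelian.hasFiniteBiproducts

theorem p_domall {k : Type} [Field k] {A : Type u} [Category.{v} A] [Abelian A]
    [MonoidalCategory A] [MonoidalPreadditive A] [SymmetricCategory A] (T : CohTheory k A)
    (h1 : S_domfam T) (h2 : S_snc T) (h3 : S_twist T) (h4 : S_subq A) (h5 : S_subsum A)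
    (h6 : S_subtens T) : S_domall T := by
  intro N
  obtain ⟨r, P, i, m, hsub⟩ := T.gen N
  have key : ∀ a, ∃ (e : ℕ) (ι : Type) (_ : Finite ι) (c : ℕ) (X : Set (ι → k))
      (hX : IsSmooth c X),
      Dom T ((T.h (i a)).obj (op (P a).pair) ⊗ tpow T.tate (m a)) e hX.1 := by
    intro a
    obtain ⟨ι, hι, c, X, hX, f, hf⟩ := h2 (P a) (i a)
    obtain ⟨φ⟩ := h3.2.1 ((T.h (i a)).obj (op (P a).pair)) (m a) (Nat.card (P a).J)
    refine ⟨m a + Nat.card (P a).J, ι, hι, c, X, hX, ?_⟩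
    have s1 : SubSum (T.cl (AffPair.abs hX.1))
        ((T.h (i a + (Nat.card (P a).J : ℤ))).obj (op (AffPair.abs hX.1))) :=
      h5.2.2.2.2.1 _ _ ⟨_, rfl⟩
    exact h5.1 _ _ _ s1 (h4.1 _ _ _ (h4.2.2.1 _ _ φ) (h4.2.2.2.1 _ _ f hf))
  obtain ⟨e, ι, hι, c, X, hX, hdom⟩ := h1 r _ key
  refine ⟨e, ι, hι, c, X, hX, ?_⟩
  refine h6 (fun W => ∃ a, W = (T.h (i a)).obj (op (P a).pair) ⊗ tpow T.tate (m a)) _ e N ?_
    ⟨r, _, fun a => ⟨a, rfl⟩, hsub⟩
  rintro _ ⟨a, rfl⟩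
  exact hdom a

end Pool.Agent.Lib.MP_ae0f86_nt
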