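import Pool.Agent.Lib.MP_ae0f86_nt.StmB

/-!
# MP_ae0f86_nt : piece [GP domfam]

Simultaneous domination of a finite family by one smooth variety.
-/

open CategoryTheory CategoryTheory.Limits MvPolynomial Opposite MonoidalCategory

universe v u

namespace Pool.Agent.Lib.MP_ae0f86_nt

noncomputable section

attribute [local instance] CategoryTheory.Abelian.hasFiniteBiproducts

section

variable {k : Type} [Field k] {A : Type u} [Category.{v} A] [Abelian A] [MonoidalCategory A]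
  (T : CohTheory k A)

/-- If `X'` is empty, whatever is dominated by `X'` is dominated by every `X`. -/
theorem p_domfam_empty (h6 : S_zero T) (h7 : S_subsum A) (N : A) (e : ℕ)
    {ι ι' : Type} [Finite ι] [Finite ι'] {X : Set (ι → k)} {X' : Set (ι' → k)}
    (hX : IsAlg X) (hX' : IsAlg X') (he : X' = ∅) (h : Dom T N e hX') : Dom T N e hX := by
  subst he
  obtain ⟨-, -, hc, -, -, hf, -⟩ := h7
  refine hc _ _ _ ?_ h
  rintro M ⟨i, rfl⟩
  exact hf _ _ (h6 (AffPair.abs hX') rfl i)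

/-- The exponent can be raised. -/
theorem p_domfam_raise (h1 : S_domraise T) (h4 : S_smgm k) {r : ℕ} (M : Fin r → A) (e : ℕ)
    {ι : Type} [Finite ι] {c : ℕ} (X : Set (ι → k)) (hX : IsSmooth c X)
    (h : ∀ a, Dom T (M a) e hX.1) (n : ℕ) :
    ∃ (ι' : Type) (_ : Finite ι') (c' : ℕ) (X' : Set (ι' → k)) (hX' : IsSmooth c' X'),
      ∀ a, Dom T (M a) (e + n) hX'.1 := by
  induction n with
  | zero => exact ⟨ι, inferInstance, c, X, hX, h⟩
  | succ n ih =>
    obtain ⟨ι', hι', c', X', hX', h'⟩ := ih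
    exact ⟨ι' ⊕ Fin 2, inferInstance, c' + 1, _, h4 X' hX',
      fun a => h1 (M a) (e + n) hX'.1 (h4 X' hX').1 rfl (h' a)⟩

/-- The point is a smooth variety. -/
theorem p_domfam_point : IsSmooth 0 (Set.univ : Set (Fin 0 → k)) :=
  ⟨IsAlg.univ, fun _ _ => ⟨Fin.elim0, 1, by simp, fun _ _ => by simp,
    linearIndependent_empty_type⟩⟩

end

theorem p_domfam {k : Type} [Field k] {A : Type u} [Category.{v} A] [Abelian A]
    [MonoidalCategory A] [MonoidalPreadditive A] [SymmetricCategory A] (T : CohTheory k A)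
    (h1 : S_domraise T) (h2 : S_domprod T) (h3 : S_smprod k) (h4 : S_smgm k) (_h5 : S_twist T)
    (h6 : S_zero T) (h7 : S_subsum A) : S_domfam T := by
  intro r
  induction r with
  | zero =>
    intro M _
    exact ⟨0, Fin 0, inferInstance, 0, Set.univ, p_domfam_point, fun a => a.elim0⟩
  | succ r ih =>
    intro M hM
    obtain ⟨e, ι, hι, c, X, hX, h⟩ := ih (fun a => M a.castSucc) (fun a => hM a.castSucc)
    obtain ⟨e', ι', hι', c', X', hX', h'⟩ := hM (Fin.last r)
    obtain ⟨ι1, hι1, c1, X1, hX1, g1⟩ := p_domfam_raise T h1 h4 (fun a => M a.castSucc) e X hX h e'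
    obtain ⟨ι2, hι2, c2, X2, hX2, g2⟩ := p_domfam_raise T h1 h4
      (fun _ : Fin 1 => M (Fin.last r)) e' X' hX' (fun _ => h') e
    have g2' : Dom T (M (Fin.last r)) (e + e') hX2.1 := by
      rw [Nat.add_comm]; exact g2 0
    rcases Set.eq_empty_or_nonempty X2 with hE | hE
    · refine ⟨e + e', ι1, hι1, c1, X1, hX1, fun a => ?_⟩
      refine Fin.lastCases ?_ (fun a => g1 a) a
      exact p_domfam_empty T h6 h7 _ _ hX1.1 hX2.1 hE g2'
    rcases Set.eq_empty_or_nonempty X1 with hE1 | hE1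
    · refine ⟨e + e', ι2, hι2, c2, X2, hX2, fun a => ?_⟩
      refine Fin.lastCases g2' (fun a => ?_) a
      exact p_domfam_empty T h6 h7 _ _ hX2.1 hX1.1 hE1 (g1 a)
    · refine ⟨e + e', ι1 ⊕ ι2, inferInstance, c1 + c2, _, h3 X1 X2 hX1 hX2, fun a => ?_⟩
      refine Fin.lastCases ?_ (fun a => ?_) a
      · exact (h2 _ _ hX1.1 hX2.1 (h3 X1 X2 hX1 hX2).1 rfl).2 hE1 g2'
      · exact (h2 _ _ hX1.1 hX2.1 (h3 X1 X2 hX1 hX2).1 rfl).1 hE (g1 a)

end

end Pool.Agent.Lib.MP_ae0f86_nt
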