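import Pool.Agent.Lib.MP_ae0f86_nt.StmB

/-!
# MP_ae0f86_nt : [GP domprod]
-/

open CategoryTheory CategoryTheory.Limits MvPolynomial Opposite MonoidalCategory

universe v u

namespace Pool.Agent.Lib.MP_ae0f86_nt

noncomputable section

attribute [local instance] CategoryTheory.Abelian.hasFiniteBiproducts

theorem p_domprod {k : Type} [Field k] {A : Type u} [Category.{v} A] [Abelian A]
    [MonoidalCategory A] [MonoidalPreadditive A] [SymmetricCategory A] (T : CohTheory k A)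
    (h1 : S_prodsub T) (h2 : S_subsum A) (h3 : S_subq A) : S_domprod T := by
  intro N e ι ι' _ _ X X' hX hX' Y hY hYe
  obtain ⟨sa, -, sc, -, se, -, -⟩ := h2
  obtain ⟨-, -, -, qd, -, -⟩ := h3
  constructor
  · intro hne hdom
    refine sc (T.cl (AffPair.abs hX)) (T.cl (AffPair.abs hY)) _ ?_ hdom
    rintro M ⟨i, rfl⟩
    obtain ⟨f, hf⟩ := (h1 hX hX' hY hYe i).1 hne
    exact sa _ _ _ (se _ _ ⟨i, rfl⟩) (qd _ _ f hf)
  · intro hne hdom
    refine sc (T.cl (AffPair.abs hX')) (T.cl (AffPair.abs hY)) _ ?_ hdom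
    rintro M ⟨i, rfl⟩
    obtain ⟨f, hf⟩ := (h1 hX hX' hY hYe i).2 hne
    exact sa _ _ _ (se _ _ ⟨i, rfl⟩) (qd _ _ f hf)

end

end Pool.Agent.Lib.MP_ae0f86_nt
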