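import Pool.Agent.Lib.MP_ae0f86_nt.StmB

/-!
# MP_ae0f86_nt : [GP domraise]
-/

open CategoryTheory CategoryTheory.Limits MvPolynomial Opposite MonoidalCategory

universe v u

namespace Pool.Agent.Lib.MP_ae0f86_nt

noncomputable section

attribute [local instance] CategoryTheory.Abelian.hasFiniteBiproducts

theorem p_domraise {k : Type} [Field k] {A : Type u} [Category.{v} A] [Abelian A]
    [MonoidalCategory A] [MonoidalPreadditive A] [SymmetricCategory A] (T : CohTheory k A)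
    (h1 : S_gmsub T) (h2 : S_subtens T) (h3 : S_subsum A) (h4 : S_subq A) (h5 : S_twist T) :
    S_domraise T := by
  intro N e ι _ X hX Y hY hYe hdom
  obtain ⟨sa, -, -, -, se, -, -⟩ := h3
  obtain ⟨-, -, qc, qd, -, -⟩ := h4
  have key : SubSum (T.cl (AffPair.abs hY)) ((N ⊗ tpow T.L e) ⊗ tpow T.L 1) := by
    refine h2 (T.cl (AffPair.abs hX)) (T.cl (AffPair.abs hY)) 1 (N ⊗ tpow T.L e) ?_ hdom
    rintro M ⟨i, rfl⟩
    obtain ⟨f, hf⟩ := h1 hX hY hYe i
    have a1 : SubSum (T.cl (AffPair.abs hY)) ((T.h (i + 1)).obj (op (AffPair.abs hY))) :=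
      se _ _ ⟨i + 1, rfl⟩
    have a2 : SubSum (T.cl (AffPair.abs hY)) ((T.h i).obj (op (AffPair.abs hX)) ⊗ T.L) :=
      sa _ _ _ a1 (qd _ _ f hf)
    exact sa _ _ _ a2 (qc _ _ (whiskerLeftIso ((T.h i).obj (op (AffPair.abs hX)))
      (λ_ T.L)))
  obtain ⟨φ⟩ := h5.1 N e 1
  exact sa _ _ _ key (qc _ _ φ.symm)

end

end Pool.Agent.Lib.MP_ae0f86_nt
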