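import Pool.Agent.Lib.MP_ae0f86_nt.StmB

/-!
# MP_ae0f86_nt : [GP prodsub]
-/

open CategoryTheory Opposite

universe v u

namespace Pool.Agent.Lib.MP_ae0f86_nt

noncomputable section

variable {k : Type} [Field k] {A : Type u} [Category.{v} A] [Abelian A] [MonoidalCategory A]

/-- A morphism of pairs with a right inverse on the geometric side gives a mono on cohomology. -/
theorem p_prodsub_mono (T : CohTheory k A) {P Q : AffPair k} (s : P ⟶ Q) (p : Q ⟶ P)
    (h : s ≫ p = 𝟙 P) (i : ℤ) : Mono ((T.h i).map p.op) := by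
  have e : (T.h i).map p.op ≫ (T.h i).map s.op = 𝟙 _ := by
    rw [← CategoryTheory.Functor.map_comp, ← op_comp, h, op_id, CategoryTheory.Functor.map_id]
  exact mono_of_mono_fac (h := 𝟙 _) e

theorem p_prodsub {k : Type} [Field k] {A : Type u} [Category.{v} A] [Abelian A]
    [MonoidalCategory A] (T : CohTheory k A) : S_prodsub T := by
  intro ι ι' _ _ X X' hX hX' Y hY hYe i
  subst hYe
  constructor
  · rintro ⟨c, hc⟩
    let p : AffPair.abs hY ⟶ AffPair.abs hX :=
      ⟨fun z => ⟨z.1 ∘ Sum.inl, z.2.1⟩, ⟨fun j => MvPolynomial.X (Sum.inl j), fun x j => by simp⟩,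
        fun _ h => h.elim⟩
    let s : AffPair.abs hX ⟶ AffPair.abs hY :=
      ⟨fun x => ⟨Sum.elim x.1 c, by
          refine ⟨?_, ?_⟩
          · rw [Sum.elim_comp_inl]; exact x.2
          · rw [Sum.elim_comp_inr]; exact hc⟩,
        ⟨fun j => j.elim (fun i => MvPolynomial.X i) (fun l => MvPolynomial.C (c l)), by
          intro x j
          rcases j with i | l <;> simp⟩,
        fun _ h => h.elim⟩
    refine ⟨(T.h i).map p.op, p_prodsub_mono T s p ?_ i⟩
    apply AffPair.hom_ext
    intro x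
    show Sum.elim x.1 c ∘ Sum.inl = x.1
    rw [Sum.elim_comp_inl]
  · rintro ⟨c, hc⟩
    let p : AffPair.abs hY ⟶ AffPair.abs hX' :=
      ⟨fun z => ⟨z.1 ∘ Sum.inr, z.2.2⟩, ⟨fun j => MvPolynomial.X (Sum.inr j), fun x j => by simp⟩,
        fun _ h => h.elim⟩
    let s : AffPair.abs hX' ⟶ AffPair.abs hY :=
      ⟨fun x => ⟨Sum.elim c x.1, by
          refine ⟨?_, ?_⟩
          · rw [Sum.elim_comp_inl]; exact hc
          · rw [Sum.elim_comp_inr]; exact x.2⟩,
        ⟨fun j => j.elim (fun l => MvPolynomial.C (c l)) (fun i => MvPolynomial.X i), by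
          intro x j
          rcases j with i | l <;> simp⟩,
        fun _ h => h.elim⟩
    refine ⟨(T.h i).map p.op, p_prodsub_mono T s p ?_ i⟩
    apply AffPair.hom_ext
    intro x
    show Sum.elim c x.1 ∘ Sum.inr = x.1
    rw [Sum.elim_comp_inr]

end

end Pool.Agent.Lib.MP_ae0f86_nt
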