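import Pool.Agent.Lib.MP_ae0f86_nt.StmB

/-! [GP subtens] -/

open CategoryTheory CategoryTheory.Limits MonoidalCategory

universe v u

namespace Pool.Agent.Lib.MP_ae0f86_nt

attribute [local instance] CategoryTheory.Abelian.hasFiniteBiproducts

theorem p_subtens {k : Type} [Field k] {A : Type u} [Category.{v} A] [Abelian A]
    [MonoidalCategory A] [MonoidalPreadditive A] [SymmetricCategory A] (T : CohTheory k A)
    (h1 : S_tensmono T) (h2 : S_subq A) (h3 : S_subsum A) : S_subtens T := by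
  rintro G G' n N hG ⟨r, M, hM, N', i, p, hi, hp⟩
  have hb : SubSum G' (⨁ fun a => M a ⊗ tpow T.L n) := h3.2.1 G' r _ fun a => hG _ (hM a)
  refine h3.1 G' _ _ hb ⟨N' ⊗ tpow T.L n,
    (i ▷ tpow T.L n) ≫ (rightDistributor M (tpow T.L n)).hom, p ▷ tpow T.L n, ?_, ?_⟩
  · have := (h1 i n).1 hi
    infer_instance
  · exact (h1 p n).2 hp

end Pool.Agent.Lib.MP_ae0f86_nt
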