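import Pool.Agent.Lib.MP_ae0f86_nt.StmA

/-!
# MP_ae0f86_nt : piece abs
-/

open CategoryTheory CategoryTheory.Limits MvPolynomial Opposite MonoidalCategory

universe v u

namespace Pool.Agent.Lib.MP_ae0f86_nt

noncomputable section

/-- the `DivPair` `(X'(X), u)` -/
private abbrev p_abs_DX {k : Type} [Field k] (h5 : S_divX k) (D : LineDiv k) : DivPair k :=
  haveI := D.fin
  { ι := D.ι ⊕ Option (Fin D.m)
    fin := inferInstance
    W := XP D.e D.s D.X
    algW := XP_alg _ _ D.algX
    t := MvPolynomial.X (Sum.inr none)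
    c := D.c + D.m
    cut := h5 D }

private theorem p_abs_Yalg {k : Type} [Field k] (D : LineDiv k) (κ : Type) :
    IsAlg {z : D.ι ⊕ κ → k | z ∘ Sum.inl ∈ D.X ∧ ∀ a, eval (z ∘ Sum.inl) (D.s a) = 0} := by
  have h := (D.algX.cyl (κ := κ)).inter
    (IsAlg.zeros (fun a => (rename Sum.inl (D.s a) : MvPolynomial (D.ι ⊕ κ) k)))
  convert h using 1
  ext z
  simp [eval_rename]

/-- the `DivPair` `(Y × A^1, u)` -/
private abbrev p_abs_DY {k : Type} [Field k] (h6 : S_divY k) (D : LineDiv k) : DivPair k :=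
  haveI := D.fin
  { ι := D.ι ⊕ Unit
    fin := inferInstance
    W := {z : D.ι ⊕ Unit → k | z ∘ Sum.inl ∈ D.X ∧ ∀ a, eval (z ∘ Sum.inl) (D.s a) = 0}
    algW := p_abs_Yalg D Unit
    t := MvPolynomial.X (Sum.inr ())
    c := D.c + 1
    cut := h6 D }

/-- the polynomials of `(x, u) ↦ (x, u, 0)` -/
private def p_abs_fP {k : Type} [Field k] (ι : Type) (m : ℕ) :
    ι ⊕ Option (Fin m) → MvPolynomial (ι ⊕ Unit) k
  | Sum.inl i => MvPolynomial.X (Sum.inl i)
  | Sum.inr none => MvPolynomial.X (Sum.inr ())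
  | Sum.inr (some _) => 0

private theorem p_abs_fP_mem {k : Type} [Field k] (D : LineDiv k) (z : D.ι ⊕ Unit → k)
    (hz : z ∘ Sum.inl ∈ D.X ∧ ∀ a, eval (z ∘ Sum.inl) (D.s a) = 0) :
    (fun j => eval z (p_abs_fP D.ι D.m j)) ∈ XP D.e D.s D.X := by
  have h0 : (fun j => eval z (p_abs_fP D.ι D.m j)) ∘ Sum.inl = z ∘ Sum.inl := by
    funext i
    simp [p_abs_fP]
  refine ⟨by rw [h0]; exact hz.1, fun a => ?_, fun a => ?_⟩
  · rw [h0, hz.2 a]
    simp [p_abs_fP]
  · simp [p_abs_fP]

/-- the map `(x, u) ↦ (x, u, 0)` -/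
private def p_abs_f {k : Type} [Field k] (h5 : S_divX k) (h6 : S_divY k) (D : LineDiv k) :
    (p_abs_DY h6 D).Hom (p_abs_DX h5 D) where
  toFun z := ⟨fun j => eval z.1 (p_abs_fP D.ι D.m j), p_abs_fP_mem D z.1 z.2⟩
  poly := ⟨p_abs_fP D.ι D.m, fun _ _ => rfl⟩
  comp_t := by
    intro z
    simp [p_abs_fP]

private theorem p_abs_GM_alg {k : Type} [Field k] (D : LineDiv k) :
    IsAlg {z : D.ι ⊕ Fin 2 → k | z ∘ Sum.inl ∈ D.X ∧ z (Sum.inr 0) * z (Sum.inr 1) = 1} := by
  have h := (D.algX.cyl (κ := Fin 2)).inter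
    (IsAlg.zero (MvPolynomial.X (Sum.inr 0) * MvPolynomial.X (Sum.inr 1) - 1 :
      MvPolynomial (D.ι ⊕ Fin 2) k))
  convert h using 1
  ext z
  simp [sub_eq_zero]

/-- the polynomials of `(x, u, w) ↦ ((x, u, s(x) w), w)` -/
private def p_abs_gP {k : Type} [Field k] (D : LineDiv k) :
    (D.ι ⊕ Option (Fin D.m)) ⊕ Unit → MvPolynomial (D.ι ⊕ Fin 2) k
  | Sum.inl j => phiPoly D.s j
  | Sum.inr _ => MvPolynomial.X (Sum.inr 1)

private theorem p_abs_gP_mem {k : Type} [Field k] (D : LineDiv k) (z : D.ι ⊕ Fin 2 → k)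
    (hz : z ∈ PP D.s D.X) :
    (fun j => eval z (p_abs_gP D j)) ∘ Sum.inl ∈ XP D.e D.s D.X := phi_mem D.sec z hz

/-- the source triple -/
private abbrev p_abs_t {k : Type} [Field k] (D : LineDiv k) : AffTriple k :=
  haveI := D.fin
  { ι := D.ι ⊕ Fin 2
    fin := inferInstance
    X := PP D.s D.X
    Y := {z : D.ι ⊕ Fin 2 → k | z ∘ Sum.inl ∈ D.X ∧ z (Sum.inr 0) * z (Sum.inr 1) = 1}
    Z := PP D.s ∅
    algX := PP_alg _ D.algX
    algY := p_abs_GM_alg D
    algZ := PP_alg _ IsAlg.empty
    subY := fun _ hz => ⟨hz.1, Or.inl hz.2⟩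
    subZ := fun _ hz => hz.1.elim }

/-- the target triple -/
private abbrev p_abs_t' {k : Type} [Field k] (h5 : S_divX k) (D : LineDiv k) : AffTriple k :=
  haveI := D.fin
  { ι := (D.ι ⊕ Option (Fin D.m)) ⊕ Unit
    fin := inferInstance
    X := {z | z ∘ Sum.inl ∈ XP D.e D.s D.X}
    Y := {z | z ∘ Sum.inl ∈ XP D.e D.s D.X ∧
      z (Sum.inr ()) * eval (z ∘ Sum.inl) (MvPolynomial.X (Sum.inr none)) = 1}
    Z := {z | z ∘ Sum.inl ∈ XP D.e D.s (∅ : Set (D.ι → k))}
    algX := (p_abs_DX h5 D).U.algX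
    algY := (p_abs_DX h5 D).U.algY
    algZ := (XP_alg _ _ IsAlg.empty).cyl
    subY := fun _ hz => hz.1
    subZ := fun _ hz => hz.1.elim }

/-- the morphism of triples -/
private def p_abs_G {k : Type} [Field k] (h5 : S_divX k) (D : LineDiv k) :
    (p_abs_t D).Hom (p_abs_t' h5 D) where
  toFun z := ⟨fun j => eval z.1 (p_abs_gP D j), p_abs_gP_mem D z.1 z.2⟩
  poly := ⟨p_abs_gP D, fun _ _ => rfl⟩
  mapsY := by
    intro z hz
    refine ⟨p_abs_gP_mem D z.1 z.2, ?_⟩
    have h2 := hz.2
    simp only [p_abs_gP, phiPoly, eval_X, Function.comp_apply]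
    rw [mul_comm]
    exact h2
  mapsZ := fun z hz => (hz.1 : z.1 ∘ Sum.inl ∈ (∅ : Set (D.ι → k))).elim

theorem p_abs {k : Type} [Field k] {A : Type u} [Category.{v} A] [Abelian A]
    [MonoidalCategory A] (T : CohTheory k A) (h1 : S_exc T) (h2 : S_absD T) (h3 : S_thomQI T)
    (h4 : S_triA T) (h5 : S_divX k) (h6 : S_divY k) : S_abs T := by
  intro D
  have := D.fin
  -- `f.D` and `f.U`
  have hfD : T.QI (p_abs_f h5 h6 D).D := by
    refine h2 D.e D.s D.sec (p_abs_DY h6 D).D.algX (p_abs_DX h5 D).D.algX ?_ ?_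
      (p_abs_f h5 h6 D).D ?_
    · ext z
      simp [and_assoc]
    · ext z
      simp
    · intro z
      funext j
      rcases j with i | o
      · show eval z.1 (p_abs_fP D.ι D.m (Sum.inl i)) = _
        simp [p_abs_fP]
      · rcases o with _ | a
        · show eval z.1 (p_abs_fP D.ι D.m (Sum.inr none)) = _
          simp [p_abs_fP]
        · show eval z.1 (p_abs_fP D.ι D.m (Sum.inr (some a))) = _
          simp [p_abs_fP]
  have hfU : T.QI (p_abs_f h5 h6 D).U := h3 _ hfD
  -- (1)
  have hXY : T.QI (p_abs_G h5 D).XY := by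
    have hYA := p_abs_Yalg D (Fin 2)
    have hYG := hYA.inter (p_abs_GM_alg D)
    have hinc := h1 hYA hYG Set.inter_subset_left (PP_alg D.s D.algX) (p_abs_GM_alg D)
      (fun z hz => ⟨hz.1, Or.inl hz.2⟩) (fun z hz => ⟨hz.1, Or.inr hz.2⟩) (fun z hz => hz.2)
      (by
        ext z
        simp only [PP, Set.mem_ofPred_eq, Set.mem_union]
        tauto) rfl
    -- the isomorphism
    let ψ : pr hYA hYG Set.inter_subset_left ⟶ (p_abs_DY h6 D).U :=
      ⟨fun z => ⟨fun j : (D.ι ⊕ Unit) ⊕ Unit => j.elim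
        (fun j' => j'.elim (fun i => z.1 (Sum.inl i))
          (fun _ => z.1 (Sum.inr 0))) (fun _ => z.1 (Sum.inr 1)), by exact z.2⟩,
        ⟨fun j : (D.ι ⊕ Unit) ⊕ Unit => j.elim
        (fun j' => j'.elim (fun i => MvPolynomial.X (Sum.inl i))
          (fun _ => MvPolynomial.X (Sum.inr 0))) (fun _ => MvPolynomial.X (Sum.inr 1)), by
          intro z j
          rcases j with (i | _) | _ <;> simp⟩,
        by
          intro z hz
          refine ⟨z.2, ?_⟩
          have := hz.2.2
          simp only [eval_X, Function.comp_apply, Sum.elim_inl, Sum.elim_inr]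
          rw [mul_comm]
          exact this⟩
    have hψ : IsIso ψ := by
      refine isIso_of_inv ψ
        ⟨fun z => ⟨fun j : D.ι ⊕ Fin 2 => j.elim (fun i => z.1 (Sum.inl (Sum.inl i)))
          (fun a => if a = 0 then z.1 (Sum.inl (Sum.inr ())) else z.1 (Sum.inr ())),
            by exact z.2⟩,
          ⟨fun j : D.ι ⊕ Fin 2 => j.elim (fun i => MvPolynomial.X (Sum.inl (Sum.inl i)))
          (fun a => if a = 0 then MvPolynomial.X (Sum.inl (Sum.inr ()))
            else MvPolynomial.X (Sum.inr ())), by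
            intro z j
            rcases j with i | a
            · simp
            · simp only [Sum.elim_inr]
              split_ifs <;> simp⟩,
          by
            intro z hz
            refine ⟨z.2, z.2.1, ?_⟩
            have := hz.2
            simp only [eval_X, Function.comp_apply] at this
            simp only [Sum.elim_inr, if_true, one_ne_zero, if_false]
            rw [mul_comm]
            exact this⟩ ?_ ?_
      · intro z
        funext j
        rcases j with i | a
        · rfl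
        · fin_cases a <;> rfl
      · intro z
        funext j
        rcases j with (i | _) | _ <;> rfl
    have hcomp : inc hYA hYG Set.inter_subset_left (PP_alg D.s D.algX) (p_abs_GM_alg D)
        (fun z hz => ⟨hz.1, Or.inl hz.2⟩) (fun z hz => ⟨hz.1, Or.inr hz.2⟩)
        (fun z hz => hz.2) ≫ (p_abs_G h5 D).XY = ψ ≫ (p_abs_f h5 h6 D).U := by
      apply AffPair.hom_ext
      intro z
      funext j
      rcases j with (i | _ | a) | _
      · show eval z.1 (phiPoly D.s (Sum.inl i)) = eval _ (p_abs_fP D.ι D.m (Sum.inl i))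
        simp [phiPoly, p_abs_fP, ψ]
      · show eval z.1 (phiPoly D.s (Sum.inr none)) = eval _ (p_abs_fP D.ι D.m (Sum.inr none))
        simp [phiPoly, p_abs_fP, ψ]
      · show eval z.1 (phiPoly D.s (Sum.inr (some a))) =
          eval _ (p_abs_fP D.ι D.m (Sum.inr (some a)))
        have := z.2.2 a
        simp [phiPoly, p_abs_fP, eval_rename, this]
      · show eval z.1 (MvPolynomial.X (Sum.inr 1)) = z.1 (Sum.inr 1)
        simp
    have h5' : T.QI (ψ ≫ (p_abs_f h5 h6 D).U) := (CohTheory.QI.of_isIso T ψ).comp hfU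
    rw [← hcomp] at h5'
    exact hinc.of_comp_left h5'
  -- (2)
  have hYZ : T.QI (p_abs_G h5 D).YZ := by
    have : IsIso (p_abs_G h5 D).YZ := by
      refine isIso_of_inv _
        ⟨fun z => ⟨fun j : D.ι ⊕ Fin 2 => j.elim (fun i => z.1 (Sum.inl (Sum.inl i)))
          (fun a => if a = 0 then z.1 (Sum.inl (Sum.inr none)) else z.1 (Sum.inr ())),
            z.2.1.1, by
            have := z.2.2
            simp only [eval_X, Function.comp_apply] at this
            simp only [Sum.elim_inr, if_true, one_ne_zero, if_false]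
            rw [mul_comm]
            exact this⟩,
          ⟨fun j : D.ι ⊕ Fin 2 => j.elim (fun i => MvPolynomial.X (Sum.inl (Sum.inl i)))
          (fun a => if a = 0 then MvPolynomial.X (Sum.inl (Sum.inr none))
            else MvPolynomial.X (Sum.inr ())), by
            intro z j
            rcases j with i | a
            · simp
            · simp only [Sum.elim_inr]
              split_ifs <;> simp⟩,
          fun z hz => (hz.1 : (z.1 ∘ Sum.inl) ∘ Sum.inl ∈ (∅ : Set (D.ι → k))).elim⟩ ?_ ?_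
      · intro z
        funext j
        rcases j with i | a
        · show eval z.1 (phiPoly D.s (Sum.inl i)) = _
          simp [phiPoly]
        · fin_cases a
          · show eval z.1 (phiPoly D.s (Sum.inr none)) = z.1 (Sum.inr 0)
            simp [phiPoly]
          · show eval z.1 (MvPolynomial.X (Sum.inr 1)) = z.1 (Sum.inr 1)
            simp
      · intro z
        have hz1 := z.2.1
        have hz2 := z.2.2
        simp only [eval_X, Function.comp_apply] at hz2
        funext j
        rcases j with (i | _ | a) | _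
        · show eval _ (phiPoly D.s (Sum.inl i)) = _
          simp [phiPoly]
        · show eval _ (phiPoly D.s (Sum.inr none)) = _
          simp [phiPoly]
        · show eval _ (phiPoly D.s (Sum.inr (some a))) = z.1 (Sum.inl (Sum.inr (some a)))
          have e1 := hz1.2.1 a
          simp only [Function.comp_apply] at e1
          simp only [phiPoly, map_mul, eval_rename, eval_X]
          have e0 : (fun j : D.ι ⊕ Fin 2 => (j.elim (fun i => z.1 (Sum.inl (Sum.inl i)))
            (fun a => if a = 0 then z.1 (Sum.inl (Sum.inr none)) else z.1 (Sum.inr ())) : k)) ∘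
              Sum.inl = (z.1 ∘ Sum.inl) ∘ Sum.inl := rfl
          rw [e0, ← e1]
          show z.1 (Sum.inl (Sum.inr none)) * z.1 (Sum.inl (Sum.inr (some a))) * z.1 (Sum.inr ())
            = _
          linear_combination (z.1 (Sum.inl (Sum.inr (some a)))) * hz2
        · show eval _ (MvPolynomial.X (Sum.inr 1)) = z.1 (Sum.inr ())
          simp
    exact CohTheory.QI.of_isIso T _
  have hXZ : T.QI (p_abs_G h5 D).XZ := h4 _ hYZ hXY
  -- (3)
  have hfin : phi D.algX IsAlg.empty (Set.empty_subset _) D.sec =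
      (p_abs_G h5 D).XZ ≫ AffPair.proj
        (XPp D.e D.s D.algX IsAlg.empty (Set.empty_subset _)) Unit := by
    apply AffPair.hom_ext
    intro z
    rfl
  rw [hfin]
  exact hXZ.comp (CohTheory.QI.proj T _ Unit)

end

end Pool.Agent.Lib.MP_ae0f86_nt
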