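import Pool.Agent.Lib.MP_ae0f86_nt.StmA

open CategoryTheory CategoryTheory.Limits MvPolynomial Opposite

universe v u

namespace Pool.Agent.Lib.MP_ae0f86_nt

private theorem p_absD_W {k : Type} [Field k] {ι : Type} {m : ℕ}
    (e : Fin m → Fin m → MvPolynomial ι k) (s : Fin m → MvPolynomial ι k) {X : Set (ι → k)}
    (z : ι ⊕ Option (Fin m) → k) (hz : z ∈ XP e s X ∩ {z | z (Sum.inr none) = 0}) :
    (∀ a, eval (z ∘ Sum.inl) (s a) = 0) := by
  intro a
  have h1 := hz.1.2.1 a
  have h2 : z (Sum.inr none) = 0 := hz.2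
  rw [← h1, h2, zero_mul]

/-- the polynomials of the retraction -/
private noncomputable def p_absD_gF (k : Type) [Field k] (ι : Type) (m : ℕ) :
    ι ⊕ Unit → MvPolynomial (ι ⊕ Option (Fin m)) k :=
  fun j => j.elim (fun i => MvPolynomial.X (Sum.inl i)) (fun _ => MvPolynomial.X (Sum.inr none))

/-- the polynomials of the homotopy -/
private noncomputable def p_absD_hF (k : Type) [Field k] (ι : Type) (m : ℕ) :
    ι ⊕ Option (Fin m) → MvPolynomial ((ι ⊕ Option (Fin m)) ⊕ Unit) k :=
  fun j => j.elim (fun i => MvPolynomial.X (Sum.inl (Sum.inl i)))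
    (fun o => o.elim (MvPolynomial.X (Sum.inl (Sum.inr none)))
      (fun a => MvPolynomial.X (Sum.inr ()) * MvPolynomial.X (Sum.inl (Sum.inr (some a)))))

theorem p_absD {k : Type} [Field k] {A : Type u} [Category.{v} A] [Abelian A] [MonoidalCategory A]
    (T : CohTheory k A) (h1 : S_homot T) : S_absD T := by
  intro ι _ m e s X _ W D hW hD eW eD f hf
  have hgX : ∀ z ∈ D, (fun j => eval z (p_absD_gF k ι m j)) ∈ W := by
    intro z hz
    have hz' := hz
    rw [eD] at hz'
    have hc : (fun j => eval z (p_absD_gF k ι m j)) ∘ Sum.inl = z ∘ Sum.inl := by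
      funext i
      simp [p_absD_gF]
    rw [eW]
    refine ⟨?_, ?_, ?_⟩
    · rw [hc]
      exact hz'.1.1
    · rw [hc]
      exact p_absD_W e s z hz'
    · simp only [p_absD_gF, Sum.elim_inr, eval_X]
      exact hz'.2
  have hFX : ∀ z : (ι ⊕ Option (Fin m)) ⊕ Unit → k, z ∘ Sum.inl ∈ D →
      (fun j => eval z (p_absD_hF k ι m j)) ∈ D := by
    intro z hz
    rw [eD] at hz ⊢
    have hc : (fun j => eval z (p_absD_hF k ι m j)) ∘ Sum.inl = (z ∘ Sum.inl) ∘ Sum.inl := by
      funext i
      simp [p_absD_hF]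
    have h2 : z (Sum.inl (Sum.inr none)) = 0 := hz.2
    refine ⟨⟨?_, ?_, ?_⟩, ?_⟩
    · rw [hc]
      exact hz.1.1
    · intro a
      rw [hc, p_absD_W e s _ hz a]
      simp only [p_absD_hF, Sum.elim_inr, Option.elim_none, eval_X]
      rw [h2, zero_mul]
    · intro a
      rw [hc]
      have h3 := hz.1.2.2 a
      simp only [p_absD_hF, Sum.elim_inr, Option.elim_some, eval_X, map_mul]
      simp only [Function.comp_apply] at h3
      rw [← h3, Finset.mul_sum]
      exact Finset.sum_congr rfl fun b _ => by ring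
    · show eval z (p_absD_hF k ι m (Sum.inr none)) = 0
      simp only [p_absD_hF, Sum.elim_inr, Option.elim_none, eval_X]
      exact h2
  let g : AffPair.abs hD ⟶ AffPair.abs hW :=
    AffPair.mk' (AffPair.abs hD) (AffPair.abs hW) (p_absD_gF k ι m) hgX (fun x hx => hx.elim)
  let F : (AffPair.abs hD).cyl Unit ⟶ AffPair.abs hD :=
    AffPair.mk' ((AffPair.abs hD).cyl Unit) (AffPair.abs hD) (p_absD_hF k ι m) hFX
      (fun x hx => hx.elim)
  refine h1 f g F ?_ ?_ ?_
  · refine AffPair.hom_ext _ _ fun x => ?_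
    funext j
    show eval (AffPair.Hom.toFun f x).1 (p_absD_gF k ι m j) = x.1 j
    rw [hf x]
    rcases j with i | i
    · simp [p_absD_gF]
    · simp [p_absD_gF]
  · refine AffPair.hom_ext _ _ fun x => ?_
    funext j
    show eval (Sum.elim x.1 (fun _ : Unit => (0 : k))) (p_absD_hF k ι m j) =
      (AffPair.Hom.toFun f (AffPair.Hom.toFun g x)).1 j
    rw [hf]
    rcases j with i | (_ | a)
    · show _ = eval x.1 (p_absD_gF k ι m (Sum.inl i))
      simp [p_absD_gF, p_absD_hF]
    · show _ = eval x.1 (p_absD_gF k ι m (Sum.inr ()))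
      simp [p_absD_gF, p_absD_hF]
    · simp [p_absD_hF]
  · refine AffPair.hom_ext _ _ fun x => ?_
    funext j
    show eval (Sum.elim x.1 (fun _ : Unit => (1 : k))) (p_absD_hF k ι m j) = x.1 j
    rcases j with i | (_ | a)
    · simp [p_absD_hF]
    · simp [p_absD_hF]
    · simp [p_absD_hF]

end Pool.Agent.Lib.MP_ae0f86_nt
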