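import Pool.Agent.Lib.MP_ae0f86_nt.StmB

open MvPolynomial

namespace Pool.Agent.Lib.MP_ae0f86_nt

theorem p_autext : S_autext := by
  intro α _ θ t h
  have hA : Algebra.IsAlgebraic ℚ QBar := algebraicClosure.isAlgebraic ℚ ℂ
  have hC : IsAlgClosed QBar := (algebraicClosure.isAlgClosure ℚ ℂ).isAlgClosed
  -- the kernel of evaluation at θ is contained in that of t
  let S : Subalgebra ℚ QBar := (aeval θ : MvPolynomial α ℚ →ₐ[ℚ] QBar).range
  have hS : IsField S := Subalgebra.isField_of_algebraic S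
  let L : IntermediateField ℚ QBar := S.toIntermediateField' hS
  let φ0 : MvPolynomial α ℚ →ₐ[ℚ] S := (aeval θ : MvPolynomial α ℚ →ₐ[ℚ] QBar).rangeRestrict
  have hsurj : Function.Surjective φ0 := AlgHom.rangeRestrict_surjective _
  have hker : RingHom.ker φ0 ≤ RingHom.ker (aeval t : MvPolynomial α ℚ →ₐ[ℚ] QBar) := by
    intro p hp
    rw [RingHom.mem_ker] at hp ⊢
    refine h p ?_
    have := congrArg (Subtype.val) hp
    simpa [φ0] using this
  let g : S →ₐ[ℚ] QBar := AlgHom.liftOfSurjective φ0 hsurj (aeval t) hker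
  have hg : ∀ p, g (φ0 p) = aeval t p := fun p => AlgHom.liftOfSurjective_apply φ0 hsurj (aeval t) hker p
  let f : L →ₐ[ℚ] QBar := g
  obtain ⟨ψ, hψ⟩ := IntermediateField.exists_algHom_of_splits (F := ℚ) (E := QBar) (K := QBar) (L := L)
    (fun s => ⟨(Algebra.IsAlgebraic.isAlgebraic s).isIntegral, IsAlgClosed.splits _⟩) f
  refine ⟨AlgEquiv.ofBijective ψ (Algebra.IsAlgebraic.algHom_bijective ψ), fun a => ?_⟩
  have h1 : ψ (θ a) = f ⟨θ a, ⟨X a, by simp⟩⟩ := by
    rw [← hψ]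
    rfl
  have h2 : (⟨θ a, ⟨X a, by simp⟩⟩ : S) = φ0 (X a) := by
    apply Subtype.ext
    simp [φ0]
  have h3 : ψ (θ a) = t a := by
    rw [h1]
    change g ⟨θ a, ⟨X a, by simp⟩⟩ = t a
    rw [h2, hg]
    simp
  simpa using h3

end Pool.Agent.Lib.MP_ae0f86_nt
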