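import Pool.Agent.Lib.MP_ae0f86_nt.StmT

/-!
# MP_ae0f86_nt : piece `basedim`
-/

open CategoryTheory CategoryTheory.Limits Opposite MonoidalCategory

universe w v u

namespace Pool.Agent.Lib.MP_ae0f86_nt

noncomputable section

private theorem p_basedim_int {B R : Type*} [CommRing B] [CommRing R] [Algebra QBar R]
    [Algebra ℚ B] (β : B →+* R) (a : QBar) : β.IsIntegralElem (algebraMap QBar R a) := by
  have ha : IsIntegral ℚ a := by
    have : Algebra.IsAlgebraic ℚ QBar := algebraicClosure.isAlgebraic ℚ ℂ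
    exact this.isIntegral.isIntegral a
  obtain ⟨p, hp, hp0⟩ := ha
  refine ⟨p.map (algebraMap ℚ B), hp.map _, ?_⟩
  rw [Polynomial.eval₂_map]
  have h : β.comp (algebraMap ℚ B) = (algebraMap QBar R).comp (algebraMap ℚ QBar) :=
    Subsingleton.elim _ _
  rw [h, ← Polynomial.hom_eval₂, hp0, map_zero]

theorem p_basedim {A : Type u} [Category.{v} A] [Abelian A] [MonoidalCategory A]
    [SymmetricCategory A] [RigidCategory A] {HdR : A ⥤ ModuleCat.{0} QBar}
    {HB : A ⥤ ModuleCat.{0} ℚ} [FibreFunctor HdR] [FibreFunctor HB]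
    (h1 : S_base HdR HB) (h2 : S_fintype HdR HB) (h3 : S_nullst.{u}) (h4 : S_intdim.{u,u})
    (h5 : S_genclosed (A := A)) : S_basedim (HdR := HdR) (HB := HB) := by
  intro c M
  have : IsAlgClosed QBar := (algebraicClosure.isAlgClosure ℚ ℂ).isAlgClosed
  have hcl : DClosed (Gen M) := { toTClosed := h5.1 M, dual := fun h => Gen.dual h }
  have : Nontrivial (PerAlg HdR HB (Gen M)) :=
    RingHom.domain_nontrivial (c.evAlg (Gen M)).toRingHom
  have := h2 M
  obtain ⟨m, hm⟩ := Ideal.exists_maximal (PerAlg HdR HB (Gen M))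
  obtain ⟨x, hx⟩ := h3 QBar (PerAlg HdR HB (Gen M)) m
  obtain ⟨β, hβ, hs⟩ := h1 (Gen M) hcl x
  refine h4 _ _ β hβ ?_
  intro r
  have hr := hs r
  induction hr using Submodule.span_induction with
  | mem y hy =>
    obtain ⟨b, rfl⟩ := hy
    exact β.isIntegralElem_map
  | zero => exact β.isIntegralElem_zero
  | add y z _ _ hy hz => exact RingHom.IsIntegralElem.add β hy hz
  | smul a y _ hy =>
    have h : a • y = algebraMap QBar _ a * y := Algebra.smul_def a y
    have h' := RingHom.IsIntegralElem.mul β (p_basedim_int β a) hy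
    rw [← h] at h'
    exact h'

end

end Pool.Agent.Lib.MP_ae0f86_nt
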