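import Pool.Agent.Lib.MP_ae0f86_nt.StmA

/-!
# MP_ae0f86_nt : [GP blow]
-/

open MvPolynomial

universe v u

namespace Pool.Agent.Lib.MP_ae0f86_nt

private theorem p_blow_reindex {k : Type} [Field k] {ι : Type} {c : ℕ} {X : Set (ι → k)}
    {x : ι → k} {J J' : Type} {l : J → MvPolynomial ι k} (h : Cut c X x l) (φ : J' → J)
    (hφ : Function.Injective φ) : Cut c X x (fun j => l (φ j)) := by
  obtain ⟨p, s, hs, hX, hl⟩ := h
  refine ⟨p, s, hs, hX, ?_⟩
  have h2 := hl.comp (Sum.map id φ) (Function.Injective.sumMap Function.injective_id hφ)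
  convert h2 using 1
  funext a
  rcases a with a | a <;> rfl

theorem p_blow {k : Type} [Field k] (h1 : S_blowcut k) : S_blow k := by
  intro P j z hz
  have := P.fin
  obtain ⟨b, hb, hcut⟩ := P.cut (z ∘ Sum.inl) hz.1
  refine ⟨fun i => b i.1, fun i => ?_, ?_⟩
  · rw [eval_rename]
    exact hb i.1
  · let l : {i : {i : P.J // i ≠ j} // ∀ a, eval (z ∘ Sum.inl) (P.s i.1 a) = 0} →
      MvPolynomial P.ι k := fun i => P.s i.1.1 (b i.1.1)
    have hc : Cut P.c P.X (z ∘ Sum.inl) (Sum.elim l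
        (fun _ : {_u : Unit // ∀ a, eval (z ∘ Sum.inl) (P.s j a) = 0} => P.s j (b j))) := by
      let φ : {i : {i : P.J // i ≠ j} // ∀ a, eval (z ∘ Sum.inl) (P.s i.1 a) = 0} ⊕
          {_u : Unit // ∀ a, eval (z ∘ Sum.inl) (P.s j a) = 0} →
          {j : P.J // ∀ a, eval (z ∘ Sum.inl) (P.s j a) = 0} :=
        Sum.elim (fun i => ⟨i.1.1, i.2⟩) (fun u => ⟨j, u.2⟩)
      have hφ : Function.Injective φ := by
        rintro (a | a) (a' | a') h
        · have h2 : a.1.1 = a'.1.1 := Subtype.mk.inj h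
          congr 1
          exact Subtype.ext (Subtype.ext h2)
        · have h2 : a.1.1 = j := Subtype.mk.inj h
          exact absurd h2 a.1.2
        · have h2 : j = a'.1.1 := Subtype.mk.inj h
          exact absurd h2.symm a'.1.2
        · exact congrArg Sum.inr (Subsingleton.elim a a')
      have h3 := p_blow_reindex hcut φ hφ
      convert h3 using 1
      funext a
      rcases a with a | a <;> rfl
    have h4 := h1 P.X (P.e j) (P.s j) (P.sec j) (z ∘ Sum.inl) (b j) l hz.1 (hb j) hc z hz rfl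
    let ψ : {i : {i : P.J // i ≠ j} // ∀ a, eval z (rename Sum.inl (P.s i.1 a) :
        MvPolynomial (P.ι ⊕ Option (Fin (P.m j))) k) = 0} →
        {i : {i : P.J // i ≠ j} // ∀ a, eval (z ∘ Sum.inl) (P.s i.1 a) = 0} ⊕
          {_u : Unit // z (Sum.inr none) = 0} :=
      fun i => Sum.inl ⟨i.1, fun a => by rw [← eval_rename]; exact i.2 a⟩
    have hψ : Function.Injective ψ := by
      intro a a' h
      have h2 : a.1 = a'.1 := Subtype.mk.inj (Sum.inl_injective h)
      exact Subtype.ext h2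
    exact p_blow_reindex h4 ψ hψ

end Pool.Agent.Lib.MP_ae0f86_nt
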