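import Pool.Agent.Lib.MP_ae0f86_nt.StmA

/-!
# MP_ae0f86_nt : [GP blowcut]
-/

open MvPolynomial

namespace Pool.Agent.Lib.MP_ae0f86_nt

noncomputable section

theorem p_blowcut_congr {k : Type} [Field k] {V I : Type*} [AddCommGroup V] [Module k V]
    {v w : I → V} (h : LinearIndependent k w) (e : ∀ t, v t = w t) : LinearIndependent k v := by
  rw [show v = w from funext e]
  exact h

/-- Block triangular families are linearly independent. -/
theorem p_blowcut_block {k : Type} [Field k] {V W I K : Type*} [AddCommGroup V] [Module k V]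
    [AddCommGroup W] [Module k W] (f : V →ₗ[k] W) (v : I → V) (w : K → V)
    (h1 : LinearIndependent k (fun i => f (v i))) (h0 : ∀ a, f (w a) = 0)
    (h2 : LinearIndependent k w) : LinearIndependent k (Sum.elim v w) := by
  refine LinearIndependent.sum_type (LinearIndependent.of_comp f h1) h2 ?_
  rw [Submodule.disjoint_def]
  intro x hx hy
  have hfx : f x = 0 := by
    have : Submodule.span k (Set.range w) ≤ LinearMap.ker f := by
      rw [Submodule.span_le]
      rintro _ ⟨a, rfl⟩
      exact h0 a
    exact this hy
  rw [Finsupp.mem_span_range_iff_exists_finsupp] at hx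
  obtain ⟨l, rfl⟩ := hx
  have hl : l = 0 := by
    rw [linearIndependent_iff] at h1
    apply h1
    rw [Finsupp.linearCombination_apply]
    rw [map_finsuppSum] at hfx
    simpa using hfx
  rw [hl]
  simp

theorem p_blowcut_grad_inl {k : Type} [Field k] {ι κ : Type} (z : ι ⊕ κ → k)
    (f : MvPolynomial ι k) (i : ι) :
    grad z (rename Sum.inl f) (Sum.inl i) = grad (z ∘ Sum.inl) f i := by
  rw [grad, grad, pderiv_rename Sum.inl_injective, eval_rename]

theorem p_blowcut_grad_inr {k : Type} [Field k] {ι κ : Type} (z : ι ⊕ κ → k)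
    (f : MvPolynomial ι k) (i : κ) :
    grad z (rename Sum.inl f) (Sum.inr i) = 0 := by
  classical
  rw [grad, pderiv_eq_zero_of_notMem_vars, map_zero]
  intro h
  have := vars_rename Sum.inl f h
  simp at this

theorem p_blowcut_grad_sub {k : Type} [Field k] {ι : Type} (z : ι → k)
    (f g : MvPolynomial ι k) (i : ι) : grad z (f - g) i = grad z f i - grad z g i := by
  simp [grad]

theorem p_blowcut_grad_mul {k : Type} [Field k] {ι : Type} (z : ι → k)
    (f g : MvPolynomial ι k) (i : ι) :
    grad z (f * g) i = eval z f * grad z g i + eval z g * grad z f i := by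
  simp [grad, Derivation.leibniz]

theorem p_blowcut_grad_X {k : Type} [Field k] {ι : Type} [DecidableEq ι] (z : ι → k)
    (j i : ι) : grad z (X j : MvPolynomial ι k) i = if i = j then 1 else 0 := by
  rw [grad, pderiv_X]
  by_cases h : i = j
  · subst h; simp
  · simp [h, Ne.symm h]

section Main

variable {k : Type} [Field k] {ι : Type} {m c : ℕ}

/-- The equations of `X'` near a point with `e_{bb} ≠ 0`. -/
private def eqn (e : Fin m → Fin m → MvPolynomial ι k) (s : Fin m → MvPolynomial ι k) (b : Fin m)
    (p : Fin c → MvPolynomial ι k) :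
    ({i : Fin m // i ≠ b} ⊕ Option (Fin c)) → MvPolynomial (ι ⊕ Option (Fin m)) k
  | Sum.inl i => rename Sum.inl (e b b) * MvPolynomial.X (Sum.inr (some i.1)) -
      rename Sum.inl (e i.1 b) * MvPolynomial.X (Sum.inr (some b))
  | Sum.inr none => rename Sum.inl (s b) -
      MvPolynomial.X (Sum.inr none) * MvPolynomial.X (Sum.inr (some b))
  | Sum.inr (some a) => rename Sum.inl (p a)

private theorem eqn_iff {e : Fin m → Fin m → MvPolynomial ι k} {s : Fin m → MvPolynomial ι k}
    {b : Fin m} {p : Fin c → MvPolynomial ι k} {X : Set (ι → k)} (hs : LineSection X e s)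
    {s0 : MvPolynomial ι k} (h : ∀ z, eval z s0 ≠ 0 → (z ∈ X ↔ ∀ a, eval z (p a) = 0))
    (w : ι ⊕ Option (Fin m) → k) (h0 : eval (w ∘ Sum.inl) s0 ≠ 0)
    (hb : eval (w ∘ Sum.inl) (e b b) ≠ 0) :
    w ∈ XP e s X ↔ ∀ a, eval w (eqn e s b p a) = 0 := by
  constructor
  · rintro ⟨hx, h1, h2⟩ (i | _ | a)
    · simp only [eqn, map_sub, map_mul, eval_rename, eval_X]
      rw [← h2 i.1, ← h2 b, Finset.mul_sum, Finset.mul_sum, ← Finset.sum_sub_distrib]
      refine Finset.sum_eq_zero fun d _ => ?_
      linear_combination (w (Sum.inr (some d))) * hs.minors _ hx b b i.1 d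
    · simp only [eqn, map_sub, map_mul, eval_rename, eval_X]
      rw [h1 b, sub_self]
    · simp only [eqn, eval_rename]
      exact (h _ h0).1 hx a
  · intro hq
    have hx : w ∘ Sum.inl ∈ X := (h _ h0).2 fun a => by
      have := hq (Sum.inr (some a))
      simpa only [eqn, eval_rename] using this
    have hv : ∀ i, eval (w ∘ Sum.inl) (e b b) * w (Sum.inr (some i)) =
        eval (w ∘ Sum.inl) (e i b) * w (Sum.inr (some b)) := by
      intro i
      by_cases hi : i = b
      · rw [hi]
      · have := hq (Sum.inl ⟨i, hi⟩)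
        simp only [eqn, map_sub, map_mul, eval_rename, eval_X] at this
        exact sub_eq_zero.1 this
    have hu : eval (w ∘ Sum.inl) (s b) = w (Sum.inr none) * w (Sum.inr (some b)) := by
      have := hq (Sum.inr none)
      simp only [eqn, map_sub, map_mul, eval_rename, eval_X] at this
      exact sub_eq_zero.1 this
    refine ⟨hx, fun a => ?_, fun a => ?_⟩
    · apply mul_left_cancel₀ hb
      have key : eval (w ∘ Sum.inl) (e a b) * eval (w ∘ Sum.inl) (s b) =
          eval (w ∘ Sum.inl) (e b b) * eval (w ∘ Sum.inl) (s a) := by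
        rw [← hs.sec _ hx b, ← hs.sec _ hx a, Finset.mul_sum, Finset.mul_sum]
        refine Finset.sum_congr rfl fun d _ => ?_
        linear_combination (-eval (w ∘ Sum.inl) (s d)) * hs.minors _ hx b b a d
      linear_combination w (Sum.inr none) * hv a - eval (w ∘ Sum.inl) (e a b) * hu + key
    · apply mul_left_cancel₀ hb
      have key : ∑ d, eval (w ∘ Sum.inl) (e a d) * (eval (w ∘ Sum.inl) (e d b) *
          w (Sum.inr (some b))) = eval (w ∘ Sum.inl) (e a b) * w (Sum.inr (some b)) := by
        calc _ = ∑ d, eval (w ∘ Sum.inl) (e a b) * w (Sum.inr (some b)) *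
                eval (w ∘ Sum.inl) (e d d) :=
              Finset.sum_congr rfl fun d _ => by
                linear_combination (w (Sum.inr (some b))) * hs.minors _ hx a d d b
          _ = _ := by rw [← Finset.mul_sum, hs.trace _ hx, mul_one]
      rw [hv a, ← key, Finset.mul_sum]
      refine Finset.sum_congr rfl fun d _ => ?_
      linear_combination (eval (w ∘ Sum.inl) (e a d)) * hv d

private theorem indep {J : Type} {e : Fin m → Fin m → MvPolynomial ι k}
    {s : Fin m → MvPolynomial ι k} {b : Fin m} {p : Fin c → MvPolynomial ι k}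
    (l : J → MvPolynomial ι k) (z : ι ⊕ Option (Fin m) → k)
    (hz : ∀ a, z (Sum.inr none) * z (Sum.inr (some a)) = eval (z ∘ Sum.inl) (s a))
    (hb : eval (z ∘ Sum.inl) (e b b) ≠ 0)
    (H : LinearIndependent k (Sum.elim (fun a => grad (z ∘ Sum.inl) (p a))
      (fun j : J ⊕ {_u : Unit // ∀ a, eval (z ∘ Sum.inl) (s a) = 0} =>
        grad (z ∘ Sum.inl) (Sum.elim l (fun _ => s b) j)))) :
    LinearIndependent k (Sum.elim (fun a => grad z (eqn e s b p a))
      (fun j : J ⊕ {_u : Unit // z (Sum.inr none) = 0} =>
        grad z (Sum.elim (fun j => rename Sum.inl (l j))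
          (fun _ => (MvPolynomial.X (Sum.inr none) : MvPolynomial (ι ⊕ Option (Fin m)) k)) j))) := by
  classical
  -- reorder
  have hre : ∀ F : ({i : Fin m // i ≠ b} ⊕ Option (Fin c)) ⊕
      (J ⊕ {_u : Unit // z (Sum.inr none) = 0}) → (ι ⊕ Option (Fin m) → k),
      LinearIndependent k (Sum.elim (fun i : {i : Fin m // i ≠ b} => F (Sum.inl (Sum.inl i)))
        (fun t : Option (Fin c) ⊕ (J ⊕ {_u : Unit // z (Sum.inr none) = 0}) =>
          F (t.elim (fun o => Sum.inl (Sum.inr o)) Sum.inr))) → LinearIndependent k F := by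
    intro F hF
    rw [← linearIndependent_equiv (Equiv.sumAssoc _ _ _).symm]
    convert hF using 1
    funext t
    rcases t with i | o | j <;> rfl
  apply hre
  refine p_blowcut_block (LinearMap.funLeft k k
    (fun i : {i : Fin m // i ≠ b} => (Sum.inr (some i.1) : ι ⊕ Option (Fin m)))) _ _ ?_ ?_ ?_
  · have h := Pi.linearIndependent_single_of_ne_zero (ι := {i : Fin m // i ≠ b}) (R := k)
      (v := fun _ => eval (z ∘ Sum.inl) (e b b)) (fun _ => hb)
    refine p_blowcut_congr h fun i => ?_
    funext i'
    rw [LinearMap.funLeft_apply, Sum.elim_inl, eqn, p_blowcut_grad_sub, p_blowcut_grad_mul,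
      p_blowcut_grad_mul, p_blowcut_grad_inr, p_blowcut_grad_inr, p_blowcut_grad_X,
      p_blowcut_grad_X, eval_rename, eval_rename]
    by_cases h : i' = i
    · subst h
      simp [i'.2]
    · have h' : i'.1 ≠ i.1 := fun h' => h (Subtype.ext h')
      simp [h, h', i'.2]
  · rintro ((_ | a) | (j | j))
    · funext i'
      rw [LinearMap.funLeft_apply, Sum.elim_inl, Sum.elim_inl, eqn, p_blowcut_grad_sub,
        p_blowcut_grad_mul, p_blowcut_grad_inr, p_blowcut_grad_X, p_blowcut_grad_X]
      simp [i'.2]
    · funext i'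
      rw [LinearMap.funLeft_apply, Sum.elim_inl, Sum.elim_inl, eqn, p_blowcut_grad_inr]
      rfl
    · funext i'
      rw [LinearMap.funLeft_apply, Sum.elim_inr, Sum.elim_inr, Sum.elim_inl, p_blowcut_grad_inr]
      rfl
    · funext i'
      rw [LinearMap.funLeft_apply, Sum.elim_inr, Sum.elim_inr, Sum.elim_inr, p_blowcut_grad_X]
      simp
  · by_cases hu : z (Sum.inr none) = 0
    · -- `u = 0`
      have hs0 : ∀ a, eval (z ∘ Sum.inl) (s a) = 0 := fun a => by rw [← hz a, hu, zero_mul]
      have hre2 : ∀ F : Option (Fin c) ⊕ (J ⊕ {_u : Unit // z (Sum.inr none) = 0}) →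
          (ι ⊕ Option (Fin m) → k),
          LinearIndependent k (Sum.elim (fun t : Option (Fin c) ⊕ J =>
            F (t.elim (fun o => Sum.inl o) (fun j => Sum.inr (Sum.inl j))))
            (fun t : {_u : Unit // z (Sum.inr none) = 0} => F (Sum.inr (Sum.inr t)))) →
          LinearIndependent k F := by
        intro F hF
        rw [← linearIndependent_equiv (Equiv.sumAssoc _ _ _)]
        refine p_blowcut_congr hF fun t => ?_
        rcases t with (o | j) | j <;> rfl
      apply hre2
      refine p_blowcut_block (LinearMap.funLeft k k (Sum.inl : ι → ι ⊕ Option (Fin m)))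
        _ _ ?_ ?_ ?_
      · let θ : Option (Fin c) ⊕ J → Fin c ⊕ (J ⊕ {_u : Unit // ∀ a, eval (z ∘ Sum.inl) (s a) = 0})
          | Sum.inl (some a) => Sum.inl a
          | Sum.inl none => Sum.inr (Sum.inr ⟨(), hs0⟩)
          | Sum.inr j => Sum.inr (Sum.inl j)
        have hθ : Function.Injective θ := by
          rintro ((_ | a) | j) ((_ | a') | j') h <;> simp_all [θ]
        refine p_blowcut_congr (H.comp θ hθ) fun t => ?_
        funext i
        rw [LinearMap.funLeft_apply]
        rcases t with (_ | a) | j
        · simp only [Sum.elim_inl, Sum.elim_inr, Function.comp_apply, eqn, θ]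
          rw [p_blowcut_grad_sub, p_blowcut_grad_mul, p_blowcut_grad_inl, p_blowcut_grad_X,
            p_blowcut_grad_X]
          simp
        · simp only [Sum.elim_inl, Function.comp_apply, eqn, θ]
          rw [p_blowcut_grad_inl]
        · simp only [Sum.elim_inl, Sum.elim_inr, Function.comp_apply, θ]
          rw [p_blowcut_grad_inl]
      · intro j
        funext i
        rw [LinearMap.funLeft_apply]
        simp only [Sum.elim_inr]
        rw [p_blowcut_grad_X]
        simp
      · refine LinearIndependent.of_subsingleton ⟨(), hu⟩ fun h => ?_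
        have := congrFun h (Sum.inr none)
        simp only [Sum.elim_inr] at this
        rw [p_blowcut_grad_X] at this
        simp at this
    · -- `u ≠ 0`
      have hre2 : ∀ F : Option (Fin c) ⊕ (J ⊕ {_u : Unit // z (Sum.inr none) = 0}) →
          (ι ⊕ Option (Fin m) → k),
          LinearIndependent k (Sum.elim (fun _ : Unit => F (Sum.inl none))
            (fun t : Fin c ⊕ J => F (t.elim (fun a => Sum.inl (some a))
              (fun j => Sum.inr (Sum.inl j))))) →
          LinearIndependent k F := by
        intro F hF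
        let θ : Option (Fin c) ⊕ (J ⊕ {_u : Unit // z (Sum.inr none) = 0}) → Unit ⊕ (Fin c ⊕ J)
          | Sum.inl (some a) => Sum.inr (Sum.inl a)
          | Sum.inl none => Sum.inl ()
          | Sum.inr (Sum.inl j) => Sum.inr (Sum.inr j)
          | Sum.inr (Sum.inr j) => (hu j.2).elim
        have hθ : Function.Injective θ := by
          rintro ((_ | a) | (j | j)) ((_ | a') | (j' | j')) h <;>
            first | exact (hu j.2).elim | exact (hu j'.2).elim | simp_all [θ]
        refine p_blowcut_congr (hF.comp θ hθ) fun t => ?_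
        rcases t with (_ | a) | (j | j)
        · rfl
        · rfl
        · rfl
        · exact (hu j.2).elim
      apply hre2
      refine p_blowcut_block (LinearMap.proj (Sum.inr (some b)) :
        (ι ⊕ Option (Fin m) → k) →ₗ[k] k) _ _ ?_ ?_ ?_
      · refine LinearIndependent.of_subsingleton () fun h => hu ?_
        simp only [Sum.elim_inl, eqn, LinearMap.proj_apply] at h
        rw [p_blowcut_grad_sub, p_blowcut_grad_mul, p_blowcut_grad_inr, p_blowcut_grad_X,
            p_blowcut_grad_X] at h
        simpa using h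
      · rintro (a | j)
        · simp only [Sum.elim_inl, eqn, LinearMap.proj_apply]
          rw [p_blowcut_grad_inr]
        · simp only [Sum.elim_inl, Sum.elim_inr, LinearMap.proj_apply]
          rw [p_blowcut_grad_inr]
      · let θ : Fin c ⊕ J → Fin c ⊕ (J ⊕ {_u : Unit // ∀ a, eval (z ∘ Sum.inl) (s a) = 0})
          | Sum.inl a => Sum.inl a
          | Sum.inr j => Sum.inr (Sum.inl j)
        have hθ : Function.Injective θ := by
          rintro (a | j) (a' | j') h <;> simp_all [θ]
        refine LinearIndependent.of_comp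
          (LinearMap.funLeft k k (Sum.inl : ι → ι ⊕ Option (Fin m))) ?_
        refine p_blowcut_congr (H.comp θ hθ) fun t => ?_
        funext i
        rw [Function.comp_apply, LinearMap.funLeft_apply]
        rcases t with a | j
        · simp only [Sum.elim_inl, Function.comp_apply, eqn, θ]
          rw [p_blowcut_grad_inl]
        · simp only [Sum.elim_inl, Sum.elim_inr, Function.comp_apply, θ]
          rw [p_blowcut_grad_inl]

end Main

theorem p_blowcut {k : Type} [Field k] (h1 : S_cutcard k) : S_blowcut k := by
  classical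
  intro ι _ m c X e s hs x b J l hx hb ⟨p, s0, hs0, hX, H⟩ z hz hzx
  subst hzx
  have hcard : Fintype.card ({i : Fin m // i ≠ b} ⊕ Option (Fin c)) = c + m := by
    have hm : 0 < m := b.pos
    rw [Fintype.card_sum, Fintype.card_option, Fintype.card_fin, Fintype.card_subtype_compl,
      Fintype.card_subtype_eq, Fintype.card_fin]
    omega
  rw [← hcard]
  refine h1 _ z _ (eqn e s b p) (rename Sum.inl s0 * rename Sum.inl (e b b)) ?_ ?_ ?_
  · rw [map_mul, eval_rename, eval_rename]
    exact mul_ne_zero hs0 hb
  · intro w hw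
    rw [map_mul, eval_rename, eval_rename] at hw
    exact eqn_iff hs hX w (left_ne_zero_of_mul hw) (right_ne_zero_of_mul hw)
  · exact indep l z hz.2.1 hb H

end

end Pool.Agent.Lib.MP_ae0f86_nt
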