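import Pool.Agent.Lib.MP_ae0f86_nt.StmT

/-!
# MP_ae0f86_nt : piece cartier
-/

universe w v u

namespace Pool.Agent.Lib.MP_ae0f86_nt

open CategoryTheory CategoryTheory.Limits Opposite MonoidalCategory

private theorem p_cartier_krull {R : Type w} [CommRing R] [IsNoetherianRing R] (m : Ideal R)
    (a : R) (ha : ∀ n : ℕ, a ∈ m ^ n) : ∃ r ∈ m, r * a = a := by
  have h : a ∈ (⨅ i : ℕ, m ^ i • (⊤ : Submodule R R)) := by
    rw [Submodule.mem_iInf]
    intro i
    have : m ^ i • (⊤ : Submodule R R) = m ^ i := by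
      rw [smul_eq_mul]
      exact Ideal.mul_top _
    rw [this]
    exact ha i
  obtain ⟨r, hr⟩ := (Ideal.mem_iInf_smul_pow_eq_bot_iff m a).mp h
  exact ⟨r, r.2, hr⟩

private theorem p_cartier_order {R : Type w} [CommRing R] (m : Ideal R)
    (a : R) (ha : ¬ ∀ n : ℕ, a ∈ m ^ n) : ∃ r : ℕ, a ∈ m ^ r ∧ a ∉ m ^ (r + 1) := by
  classical
  have ha' : ∃ n : ℕ, a ∉ m ^ n := not_forall.mp ha
  have h0 : Nat.find ha' ≠ 0 := by
    intro h
    have := Nat.find_spec ha'
    rw [h] at this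
    apply this
    simp
  obtain ⟨r, hr⟩ := Nat.exists_eq_succ_of_ne_zero h0
  refine ⟨r, ?_, ?_⟩
  · have := Nat.find_min ha' (m := r) (by omega)
    exact not_not.mp this
  · have := Nat.find_spec ha'
    rw [hr] at this
    exact this

theorem p_cartier (h1 : S_lead.{w}) (h2 : S_leadphi.{w}) : S_cartier.{w} := by
  intro K _ _ R _ _ _ x hD a b hab
  classical
  have hkrull : ∀ a : R, (∀ n : ℕ, a ∈ (RingHom.ker x) ^ n) → ∃ s, x s ≠ 0 ∧ s * a = 0 := by
    intro a ha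
    obtain ⟨r, hr, hra⟩ := p_cartier_krull _ a ha
    refine ⟨1 - r, ?_, ?_⟩
    · rw [map_sub, map_one, (RingHom.mem_ker).mp hr, sub_zero]
      exact one_ne_zero
    · rw [sub_mul, one_mul, hra, sub_self]
  by_cases ha : ∀ n : ℕ, a ∈ (RingHom.ker x) ^ n
  · exact Or.inl (hkrull a ha)
  by_cases hb : ∀ n : ℕ, b ∈ (RingHom.ker x) ^ n
  · exact Or.inr (hkrull b hb)
  exfalso
  obtain ⟨r, har, har'⟩ := p_cartier_order _ a ha
  obtain ⟨s, hbs, hbs'⟩ := p_cartier_order _ b hb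
  obtain ⟨d, e, he, hlead, hder⟩ := h1 K R x
  obtain ⟨P, hP, haP⟩ := hlead r a har
  obtain ⟨Q, hQ, hbQ⟩ := hlead s b hbs
  have hP0 : P ≠ 0 := by
    rintro rfl
    apply har'
    simpa using haP
  have hQ0 : Q ≠ 0 := by
    rintro rfl
    apply hbs'
    simpa using hbQ
  have : Infinite K := inferInstance
  obtain ⟨c, hc⟩ : ∃ c : Fin d → K, MvPolynomial.eval c (P * Q) ≠ 0 := by
    by_contra hcon
    push Not at hcon
    have : P * Q = 0 := MvPolynomial.funext (fun c => by rw [hcon c, map_zero])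
    rcases mul_eq_zero.mp this with h | h
    · exact hP0 h
    · exact hQ0 h
  obtain ⟨D, hDl, hDe⟩ := hder c
  obtain ⟨Φ, hΦ⟩ := hD D hDl
  have hce : (fun i => PowerSeries.coeff 1 (Φ (e i))) = c := by
    funext i
    rw [(hΦ (e i)).2, hDe i]
  have ea := (h2 K R x Φ (fun a => (hΦ a).1) d e he r a har P hP haP).1
  have eb := (h2 K R x Φ (fun a => (hΦ a).1) d e he s b hbs Q hQ hbQ).1
  rw [hce] at ea eb
  rw [map_mul] at hc
  have hprod : Φ a * Φ b = 0 := by rw [← map_mul, hab, map_zero]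
  rcases mul_eq_zero.mp hprod with h | h
  · rw [h, map_zero] at ea
    exact hc (by rw [← ea, zero_mul])
  · rw [h, map_zero] at eb
    exact hc (by rw [← eb, mul_zero])

end Pool.Agent.Lib.MP_ae0f86_nt
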