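import Pool.Agent.Lib.MP_ae0f86_nt.StmB

/-! [GP clopen] -/

open CategoryTheory CategoryTheory.Limits Opposite MonoidalCategory

universe v u

namespace Pool.Agent.Lib.MP_ae0f86_nt

theorem p_clopen {k : Type} [Field k] {A : Type u} [Category.{v} A] [Abelian A]
    [MonoidalCategory A] (T : CohTheory k A) (h1 : S_exc T) : S_clopen T := by
  intro ι ι' _ _ X X' hX hX' g hg i
  obtain ⟨E, R, hE, hR, hER, hER', e, he, hge⟩ := hg
  have hEX : E ⊆ X' := hER ▸ Set.subset_union_left
  have hRX : R ⊆ X' := hER ▸ Set.subset_union_right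
  -- the inclusions
  let j : AffPair.abs hE ⟶ AffPair.abs hX' :=
    inc hE IsAlg.empty (Set.empty_subset _) hX' IsAlg.empty (Set.empty_subset _) hEX
      (Set.empty_subset _)
  let q : AffPair.abs hX' ⟶ pr hX' hR hRX :=
    inc hX' IsAlg.empty (Set.empty_subset _) hX' hR hRX subset_rfl (Set.empty_subset _)
  have hq : T.QI (j ≫ q) := by
    have h := h1 hE IsAlg.empty (Set.empty_subset _) hX' hR hRX hEX (Set.empty_subset _)
      hER.symm hER'.symm
    have e' : j ≫ q = inc hE IsAlg.empty (Set.empty_subset _) hX' hR hRX hEX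
      (Set.empty_subset _) := AffPair.hom_ext _ _ fun x => rfl
    rw [e']
    exact h
  have hj : Epi ((T.h i).map j.op) := by
    have h := hq i
    rw [op_comp, Functor.map_comp] at h
    have : Epi ((T.h i).map q.op ≫ (T.h i).map j.op) := inferInstance
    exact epi_of_epi ((T.h i).map q.op) _
  have hgj : g = e ≫ j := AffPair.hom_ext _ _ fun x => hge x
  rw [hgj, op_comp, Functor.map_comp]
  infer_instance

end Pool.Agent.Lib.MP_ae0f86_nt
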