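import Pool.Agent.Lib.MP_ae0f86_nt.StmB

/-! Piece conj (helper88): conjugates of smooth sets are smooth. -/

universe v u

namespace Pool.Agent.Lib.MP_ae0f86_nt

open MvPolynomial

noncomputable section

theorem p_conj_eval {ι : Type} (τ : QBar ≃ₐ[ℚ] QBar) (x : ι → QBar) (f : MvPolynomial ι QBar) :
    eval x (map (τ : QBar →+* QBar) f) = τ (eval (fun i => τ.symm (x i)) f) := by
  rw [eval_map]
  induction f using MvPolynomial.induction_on with
  | C a => simp
  | add p q hp hq => rw [eval₂_add, hp, hq, map_add, map_add]
  | mul_X p i hp => rw [eval₂_mul, hp, eval₂_X, map_mul, map_mul, eval_X, AlgEquiv.apply_symm_apply]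

theorem p_conj_zero {ι : Type} (τ : QBar ≃ₐ[ℚ] QBar) (x : ι → QBar) (f : MvPolynomial ι QBar) :
    eval x (map (τ : QBar →+* QBar) f) = 0 ↔ eval (fun i => τ.symm (x i)) f = 0 := by
  rw [p_conj_eval, map_eq_zero_iff τ τ.injective]

theorem p_conj_grad {ι : Type} (τ : QBar ≃ₐ[ℚ] QBar) (x : ι → QBar) (f : MvPolynomial ι QBar)
    (i : ι) :
    grad x (map (τ : QBar →+* QBar) f) i = τ (grad (fun i => τ.symm (x i)) f i) := by
  unfold grad
  rw [MvPolynomial.pderiv_map, p_conj_eval]

/-- [GP conj] -/
theorem p_conj : S_conj := by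
  intro ι τ c X hX
  obtain ⟨⟨S, hS⟩, hcut⟩ := hX
  refine ⟨⟨(map (τ : QBar →+* QBar)) '' S, ?_⟩, ?_⟩
  · ext x
    simp only [Set.mem_setOf_eq, Set.forall_mem_image, p_conj_zero]
    rw [hS]
    simp only [Set.mem_setOf_eq]
  · intro x hx
    obtain ⟨p, s, hs, hz, hli⟩ := hcut _ hx
    refine ⟨fun a => map (τ : QBar →+* QBar) (p a), map (τ : QBar →+* QBar) s, ?_, ?_, ?_⟩
    · rwa [Ne, p_conj_zero]
    · intro z hzs
      rw [Ne, p_conj_zero] at hzs
      simp only [Set.mem_setOf_eq, p_conj_zero]
      exact hz _ hzs
    · let j : (ι → QBar) →+ (ι → QBar) :=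
        { toFun := fun m i => τ (m i)
          map_zero' := by funext i; simp
          map_add' := fun m n => by funext i; simp }
      have h := hli.map_of_injective_injective (fun r : QBar => τ.symm r) j
        (fun r hr => by simpa using hr)
        (fun m hm => by
          funext i
          have h1 : τ (m i) = 0 := congrFun hm i
          simpa using h1)
        (fun r m => by
          funext i
          change τ ((τ.symm r) * m i) = r * τ (m i)
          rw [map_mul, AlgEquiv.apply_symm_apply])
      have he : (Sum.elim (fun a => grad x (map (τ : QBar →+* QBar) (p a)))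
          (fun e => grad x ((fun e : Empty => (e.elim : MvPolynomial ι QBar)) e))) =
          (j ∘ (Sum.elim (fun a => grad (fun i => τ.symm (x i)) (p a))
            (fun e => grad (fun i => τ.symm (x i))
              ((fun e : Empty => (e.elim : MvPolynomial ι QBar)) e)))) := by
        funext a
        rcases a with a | e
        · funext i
          exact p_conj_grad τ x (p a) i
        · exact e.elim
      rw [he]
      exact h

end

end Pool.Agent.Lib.MP_ae0f86_nt
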