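import Pool.Agent.Lib.MP_ae0f86_nt.StmA

/-! [GP contract] -/

open CategoryTheory CategoryTheory.Limits Opposite MonoidalCategory

universe v u

namespace Pool.Agent.Lib.MP_ae0f86_nt

noncomputable section

section

variable {k : Type} [Field k]

/-- The set `B × {(1, 1)}`. -/
private def p_contract_one {ι : Type} (B : Set (ι → k)) : Set (ι ⊕ Fin 2 → k) :=
  {z | z ∘ Sum.inl ∈ B ∧ z (Sum.inr 0) = 1 ∧ z (Sum.inr 1) = 1}

private theorem p_contract_one_alg {ι : Type} {B : Set (ι → k)} (hB : IsAlg B) :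
    IsAlg (p_contract_one B) := by
  have h := (hB.cyl (κ := Fin 2)).inter
    ((IsAlg.zero (MvPolynomial.X (Sum.inr 0) - 1 : MvPolynomial (ι ⊕ Fin 2) k)).inter
      (IsAlg.zero (MvPolynomial.X (Sum.inr 1) - 1 : MvPolynomial (ι ⊕ Fin 2) k)))
  convert h using 1
  ext z
  simp [p_contract_one, sub_eq_zero]

private theorem p_contract_ext {ι : Type} {B : Set (ι → k)} {z : ι ⊕ Fin 2 → k}
    (hz : z ∈ p_contract_one B) : Sum.elim (z ∘ Sum.inl) (fun _ : Fin 2 => (1 : k)) = z := by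
  funext j
  rcases j with i | j
  · rfl
  · show (1 : k) = z (Sum.inr j)
    fin_cases j
    · exact hz.2.1.symm
    · exact hz.2.2.symm

end

theorem p_contract {k : Type} [Field k] {A : Type u} [Category.{v} A] [Abelian A]
    [MonoidalCategory A] (T : CohTheory k A) (h1 : S_zero T) (h2 : S_exc T) (h3 : S_sect T)
    (h4 : S_triB T) : S_contract T := by
  intro ι _ B C hB hC hCB hc hs
  let t : AffTriple k := ⟨ι, inferInstance, B, B, C, hB, hB, hC, subset_rfl, hCB⟩
  let t' : AffTriple k := ⟨ι ⊕ Fin 2, inferInstance, {z | z ∘ Sum.inl ∈ B}, conSet B C,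
    {z | z ∘ Sum.inl ∈ C}, hB.cyl, hc, hC.cyl, hs, fun z hz => Or.inl hz⟩
  have hel : ∀ x : ι → k, Sum.elim x (fun _ : Fin 2 => (1 : k)) ∘ Sum.inl = x := fun x =>
    Sum.elim_comp_inl _ _
  let f : t.Hom t' :=
    { toFun := fun x => ⟨Sum.elim x.1 (fun _ => 1), by
        show Sum.elim x.1 _ ∘ Sum.inl ∈ B
        rw [hel]
        exact x.2⟩
      poly := ⟨fun j => j.elim (fun i => MvPolynomial.X i) (fun _ => MvPolynomial.C 1), by
        intro x j
        rcases j with i | l <;> simp⟩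
      mapsY := fun x hx => Or.inr ⟨by
        show Sum.elim x.1 _ ∘ Sum.inl ∈ B
        rw [hel]
        exact hx, rfl, rfl⟩
      mapsZ := fun x hx => by
        show Sum.elim x.1 _ ∘ Sum.inl ∈ C
        rw [hel]
        exact hx }
  -- the map `(B, C) → (B × A^2, C × A^2)`
  have hXZ : T.QI f.XZ := (h3 (pr hB hC hCB) (Fin 2) (fun _ => 1) (fun _ => 1)).1
  -- the map `(B, C) → (C × A^2 ∪ B × 1, C × A^2)`
  have hsub1 : p_contract_one C ⊆ p_contract_one B := fun z hz => ⟨hCB hz.1, hz.2⟩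
  let g1 : pr hB hC hCB ⟶ pr (p_contract_one_alg hB) (p_contract_one_alg hC) hsub1 :=
    ⟨fun x => ⟨Sum.elim x.1 (fun _ => 1), by
        show Sum.elim x.1 _ ∘ Sum.inl ∈ B
        rw [hel]
        exact x.2, rfl, rfl⟩,
      ⟨fun j => j.elim (fun i => MvPolynomial.X i) (fun _ => MvPolynomial.C 1), by
        intro x j
        rcases j with i | l <;> simp⟩,
      fun x hx => ⟨by
        show Sum.elim x.1 _ ∘ Sum.inl ∈ C
        rw [hel]
        exact hx, rfl, rfl⟩⟩
  let g1' : pr (p_contract_one_alg hB) (p_contract_one_alg hC) hsub1 ⟶ pr hB hC hCB :=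
    ⟨fun z => ⟨z.1 ∘ Sum.inl, z.2.1⟩, ⟨fun j => MvPolynomial.X (Sum.inl j), fun x j => by simp⟩,
      fun z hz => hz.1⟩
  have hg1 : IsIso g1 := isIso_of_inv g1 g1' (fun x => hel x.1) (fun z => p_contract_ext z.2)
  have hinc1 : p_contract_one B ⊆ conSet B C := fun z hz => Or.inr hz
  have hinc2 : p_contract_one C ⊆ {z : ι ⊕ Fin 2 → k | z ∘ Sum.inl ∈ C} := fun z hz => hz.1
  have hexc : T.QI (inc (p_contract_one_alg hB) (p_contract_one_alg hC) hsub1 hc hC.cyl
      (fun z hz => Or.inl hz) hinc1 hinc2) := by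
    refine h2 _ _ _ _ _ _ _ _ ?_ ?_
    · exact Set.union_comm _ _
    · ext z
      constructor
      · intro hz
        exact ⟨hsub1 hz, hz.1⟩
      · rintro ⟨hz1, hz2⟩
        exact ⟨hz2, hz1.2⟩
  have hYZ : T.QI f.YZ := by
    have h := (CohTheory.QI.of_isIso T g1).comp hexc
    have e : g1 ≫ inc (p_contract_one_alg hB) (p_contract_one_alg hC) hsub1 hc hC.cyl
      (fun z hz => Or.inl hz) hinc1 hinc2 = f.YZ := AffPair.hom_ext _ _ (fun x => rfl)
    rw [e] at h
    exact h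
  have hXY : T.QI f.XY := h4 f hXZ hYZ
  intro i
  have := hXY i
  exact (h1 t.XY rfl i).of_iso (asIso ((T.h i).map f.XY.op))

end

end Pool.Agent.Lib.MP_ae0f86_nt
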