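import Pool.Agent.Lib.MP_ae0f86_nt.StmU
import Pool.Agent.Lib.MP_ae0f86_nt.P.Cubic

/-!
# MP_ae0f86_nt : piece `[GP cubic1]`
-/

open CategoryTheory CategoryTheory.Limits Opposite MonoidalCategory

universe v u

namespace Pool.Agent.Lib.MP_ae0f86_nt

noncomputable section

attribute [local instance] CategoryTheory.Abelian.hasFiniteBiproducts

theorem p_cubic1 {k : Type} [Field k] {A : Type u} [Category.{v} A] [Abelian A]
    [MonoidalCategory A] (T : CohTheory k A) : S_cubic1 T := by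
  intro ι κ _ _ g c hc hs i
  refine ⟨fun hi => ?_, fun hi => T.bounded i _ (Or.inl hi)⟩
  obtain ⟨j, hj⟩ : ∃ j : ℤ, i + 2 * (c : ℤ) = j + 1 := ⟨i + 2 * c - 1, by ring⟩
  have hj1 : 1 ≤ j := by
    have : (1 : ℤ) ≤ c := by exact_mod_cast hc
    omega
  have hj2 : i + 2 * (c : ℤ) - 1 = j := by omega
  have hp := T.purity i g c hs
  rw [hj] at hp
  rw [hj2]
  obtain ⟨φ⟩ := hp
  let t : AffTriple k := ⟨ι ⊕ κ, inferInstance, Set.univ, hyp g, ∅, IsAlg.univ, hyp_alg g,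
    IsAlg.empty, Set.subset_univ _, Set.empty_subset _⟩
  have hz : IsZero ((T.h (j + 1)).obj (op t.XZ)) :=
    p_cubic_affine T (ι ⊕ κ) (j + 1) (by omega)
  obtain ⟨w, hw⟩ := T.exact_XY j t
  have he : Epi (T.δ j t) :=
    (ShortComplex.exact_iff_epi _ (hz.eq_of_tgt _ _)).1 hw
  let p : (T.h j).obj (op (AffPair.abs (hyp_alg g))) ⟶
      (T.h i).obj (op (AffPair.abs (zl_alg g))) ⊗ tpow T.L c := T.δ j t ≫ φ.hom
  exact ⟨p, epi_comp' he inferInstance⟩

end

end Pool.Agent.Lib.MP_ae0f86_nt
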