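import Pool.Agent.Lib.MP_ae0f86_nt.StmA

/-!
# MP_ae0f86_nt : [GP cutcard]
-/

open MvPolynomial

namespace Pool.Agent.Lib.MP_ae0f86_nt

theorem p_cutcard {k : Type} [Field k] : S_cutcard k := by
  intro ι X x J α _ l p s hs hX hli
  let e : Fin (Fintype.card α) ≃ α := (Fintype.equivFin α).symm
  refine ⟨fun a => p (e a), s, hs, fun z hz => ?_, ?_⟩
  · rw [hX z hz]
    exact ⟨fun h a => h (e a), fun h a => by simpa using h (e.symm a)⟩
  · have h := (linearIndependent_equiv (Equiv.sumCongr e (Equiv.refl J))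
      (f := Sum.elim (fun a => grad x (p a)) (fun j => grad x (l j)))).2 hli
    convert h using 1
    funext i
    rcases i with i | i <;> rfl

end Pool.Agent.Lib.MP_ae0f86_nt
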