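import Pool.Agent.Lib.MP_ae0f86_nt.StmU

/-! [GP d1all] -/

open CategoryTheory CategoryTheory.Limits Opposite MonoidalCategory

universe w v u

namespace Pool.Agent.Lib.MP_ae0f86_nt

attribute [local instance] CategoryTheory.Abelian.hasFiniteBiproducts

private theorem p_d1all_tens {k : Type} [Field k] {A : Type u} [Category.{v} A] [Abelian A]
    [MonoidalCategory A] [SymmetricCategory A] (T : CohTheory k A) (h5 : S_tensmono T)
    {N M : A} (n : ℕ) (h : IsSubquot N M) : IsSubquot (N ⊗ tpow T.L n) (M ⊗ tpow T.L n) := by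
  obtain ⟨N', i, p, hi, hp⟩ := h
  exact ⟨N' ⊗ tpow T.L n, i ▷ _, p ▷ _, (h5 i n).1 hi, (h5 p n).2 hp⟩

private theorem p_d1all_step {A : Type u} [Category.{v} A] [Abelian A] {r : ℕ}
    (M : Fin (r + 1) → A) : Mono (biprod.lift
      (biproduct.lift (fun a : Fin r => biproduct.π M a.castSucc)) (biproduct.π M (Fin.last r))) := by
  constructor
  intro Z g g' h
  have h1 := congrArg (fun t => t ≫ biprod.fst) h
  have h2 := congrArg (fun t => t ≫ biprod.snd) h
  simp only [Category.assoc, biprod.lift_fst, biprod.lift_snd] at h1 h2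
  apply biproduct.hom_ext
  intro j
  induction j using Fin.lastCases with
  | last => exact h2
  | cast a =>
    have h3 := congrArg (fun t => t ≫ biproduct.π (fun a : Fin r => M a.castSucc) a) h1
    simp only [Category.assoc, biproduct.lift_π] at h3
    exact h3

theorem p_d1all {k : Type} [Field k] {A : Type u} [Category.{v} A] [Abelian A]
    [MonoidalCategory A] [MonoidalPreadditive A] [SymmetricCategory A] (T : CohTheory k A)
    (h1 : S_d1sum T) (h2 : S_snc T) (h3 : S_twist T) (h4 : S_subq A) (h5 : S_tensmono T) :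
    S_d1all T := by
  obtain ⟨ht, -, hi, hm, -, -⟩ := h4
  -- subquotients
  have hsub : ∀ N N0 : A, IsSubquot N N0 →
      (∃ (e : ℕ) (i : ℤ) (ι : Type) (_ : Finite ι) (c : ℕ) (X : Set (ι → k)) (hX : IsSmooth c X),
        Dom1 T N0 e i hX.1) →
      ∃ (e : ℕ) (i : ℤ) (ι : Type) (_ : Finite ι) (c : ℕ) (X : Set (ι → k)) (hX : IsSmooth c X),
        Dom1 T N e i hX.1 := by
    rintro N N0 hN ⟨e, i, ι, fin, c, X, hX, hd⟩
    exact ⟨e, i, ι, fin, c, X, hX, ht _ _ _ (p_d1all_tens T h5 e hN) hd⟩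
  -- sums
  have hsum : ∀ (r : ℕ) (M : Fin r → A), (∀ a, ∃ (e : ℕ) (i : ℤ) (ι : Type) (_ : Finite ι)
      (c : ℕ) (X : Set (ι → k)) (hX : IsSmooth c X), Dom1 T (M a) e i hX.1) →
      ∃ (e : ℕ) (i : ℤ) (ι : Type) (_ : Finite ι) (c : ℕ) (X : Set (ι → k)) (hX : IsSmooth c X),
        Dom1 T (⨁ M) e i hX.1 := by
    intro r
    induction r with
    | zero =>
      intro M _
      refine ⟨0, 0, Empty, inferInstance, 0, Set.univ, ⟨IsAlg.univ, fun x _ => ?_⟩, ?_⟩
      · exact ⟨fun a => a.elim0, 1, by simp, fun z _ => by simp, linearIndependent_empty_type⟩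
      · have hz : IsZero (⨁ M) := by
          rw [IsZero.iff_id_eq_zero]
          apply biproduct.hom_ext
          intro j
          exact j.elim0
        have hz' : IsZero ((⨁ M) ⊗ tpow T.L 0) := by
          rw [IsZero.iff_id_eq_zero] at hz ⊢
          rw [← id_whiskerRight, hz, MonoidalPreadditive.zero_whiskerRight]
        exact hm _ _ 0 (hz'.mono _)
    | succ r ih =>
      intro M hM
      exact hsub _ _ (hm _ _ _ (p_d1all_step M))
        (h1 _ _ (ih (fun a => M a.castSucc) fun a => hM a.castSucc) (hM (Fin.last r)))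
  intro N
  obtain ⟨r, P, i, m, hN⟩ := T.gen N
  refine hsub _ _ hN (hsum r _ fun a => ?_)
  obtain ⟨ι, fin, c, X, hX, f, hf⟩ := h2 (P a) (i a)
  obtain ⟨τ⟩ := h3.2.1 ((T.h (i a)).obj (op (P a).pair)) (m a) (Nat.card (P a).J)
  exact ⟨m a + Nat.card (P a).J, _, ι, fin, c, X, hX, ht _ _ _ (hi _ _ τ) (hm _ _ f hf)⟩

end Pool.Agent.Lib.MP_ae0f86_nt
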