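import Pool.Agent.Lib.MP_ae0f86_nt.StmU

/-!
# MP_ae0f86_nt : [GP d1gm]
-/

open CategoryTheory CategoryTheory.Limits Opposite MonoidalCategory

universe w v u

namespace Pool.Agent.Lib.MP_ae0f86_nt

noncomputable section

attribute [local instance] CategoryTheory.Abelian.hasFiniteBiproducts

theorem p_d1gm {k : Type} [Field k] {A : Type u} [Category.{v} A] [Abelian A]
    [MonoidalCategory A] [SymmetricCategory A] (T : CohTheory k A) (h1 : S_gmsub T)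
    (h2 : S_tensmono T) (h3 : S_subq A) : S_d1gm T := by
  intro N e i ι _ X hX Y hY hYe hdom
  obtain ⟨qa, -, qc, qd, -, -⟩ := h3
  obtain ⟨N', a, p, ha, hp⟩ := hdom
  obtain ⟨f, hf⟩ := h1 hX hY hYe i
  have b1 : IsSubquot ((N ⊗ tpow T.L e) ⊗ tpow T.L 1)
      ((T.h i).obj (op (AffPair.abs hX)) ⊗ tpow T.L 1) :=
    ⟨N' ⊗ tpow T.L 1, a ▷ tpow T.L 1, p ▷ tpow T.L 1, (h2 a 1).1 ha, (h2 p 1).2 hp⟩
  have b2 : IsSubquot ((T.h i).obj (op (AffPair.abs hX)) ⊗ tpow T.L 1)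
      ((T.h i).obj (op (AffPair.abs hX)) ⊗ T.L) :=
    qc _ _ (whiskerLeftIso ((T.h i).obj (op (AffPair.abs hX))) (λ_ T.L))
  have b3 : IsSubquot ((T.h i).obj (op (AffPair.abs hX)) ⊗ T.L)
      ((T.h (i + 1)).obj (op (AffPair.abs hY))) := qd _ _ f hf
  have b4 : IsSubquot (N ⊗ tpow T.L (e + 1)) ((N ⊗ tpow T.L e) ⊗ tpow T.L 1) :=
    qc _ _ ((α_ N (tpow T.L e) T.L).symm ≪≫ (whiskerLeftIso (N ⊗ tpow T.L e) (λ_ T.L)).symm)
  exact qa _ _ _ b4 (qa _ _ _ b1 (qa _ _ _ b2 b3))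

end

end Pool.Agent.Lib.MP_ae0f86_nt
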