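import Pool.Agent.Lib.MP_ae0f86_nt.StmU

/-! [GP d1sum] -/

open CategoryTheory CategoryTheory.Limits Opposite MonoidalCategory

universe w v u

namespace Pool.Agent.Lib.MP_ae0f86_nt

attribute [local instance] CategoryTheory.Abelian.hasFiniteBiproducts

private theorem p_d1sum_dist {A : Type u} [Category.{v} A] [Abelian A] [MonoidalCategory A]
    [MonoidalPreadditive A] (N N' W : A) :
    Mono (biprod.lift ((biprod.fst : N ⊞ N' ⟶ N) ▷ W) ((biprod.snd : N ⊞ N' ⟶ N') ▷ W)) := by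
  have h : biprod.lift ((biprod.fst : N ⊞ N' ⟶ N) ▷ W) ((biprod.snd : N ⊞ N' ⟶ N') ▷ W) ≫
      biprod.desc ((biprod.inl : N ⟶ N ⊞ N') ▷ W) ((biprod.inr : N' ⟶ N ⊞ N') ▷ W) = 𝟙 _ := by
    rw [biprod.lift_desc, ← comp_whiskerRight, ← comp_whiskerRight,
      ← MonoidalPreadditive.add_whiskerRight, biprod.total, id_whiskerRight]
  have : Mono (biprod.lift ((biprod.fst : N ⊞ N' ⟶ N) ▷ W) ((biprod.snd : N ⊞ N' ⟶ N') ▷ W) ≫
      biprod.desc ((biprod.inl : N ⟶ N ⊞ N') ▷ W) ((biprod.inr : N' ⟶ N ⊞ N') ▷ W)) := by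
    rw [h]; infer_instance
  exact mono_of_mono _
    (biprod.desc ((biprod.inl : N ⟶ N ⊞ N') ▷ W) ((biprod.inr : N' ⟶ N ⊞ N') ▷ W))

private theorem p_d1sum_zero {A : Type u} [Category.{v} A] [Abelian A] {N M : A}
    (h : IsSubquot N M) (hM : IsZero M) : IsZero N := by
  obtain ⟨N', i, p, hi, hp⟩ := h
  have hN' : IsZero N' := by
    rw [IsZero.iff_id_eq_zero, ← cancel_mono i]
    exact hM.eq_of_tgt _ _
  rw [IsZero.iff_id_eq_zero, ← cancel_epi p]
  exact hN'.eq_of_src _ _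

theorem p_d1sum {k : Type} [Field k] {A : Type u} [Category.{v} A] [Abelian A]
    [MonoidalCategory A] [MonoidalPreadditive A] [SymmetricCategory A] (T : CohTheory k A)
    (h1 : S_d1gm T) (h2 : S_d1susp T) (h3 : S_sumemb T) (h4 : S_smprod k) (h5 : S_smgm k)
    (h6 : S_subq A) (h7 : S_twist T) (h8 : S_zero T) : S_d1sum T := by
  obtain ⟨ht, -, hi, hm, -, hs⟩ := h6
  -- raising
  have hgm : ∀ (N : A) (m : ℕ) (e : ℕ) (i : ℤ),
      (∃ (ι : Type) (_ : Finite ι) (c : ℕ) (X : Set (ι → k)) (hX : IsSmooth c X),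
        Dom1 T N e i hX.1) →
      ∃ (ι : Type) (_ : Finite ι) (c : ℕ) (X : Set (ι → k)) (hX : IsSmooth c X),
        Dom1 T N (e + m) (i + m) hX.1 := by
    intro N m
    induction m with
    | zero =>
      intro e i h
      simpa using h
    | succ m ih =>
      intro e i h
      obtain ⟨ι, fin, c, X, hX, hd⟩ := ih e i h
      have hY := h5 X hX
      have h' := h1 N (e + m) (i + m) hX.1 hY.1 rfl hd
      refine ⟨ι ⊕ Fin 2, inferInstance, c + 1, _, hY, ?_⟩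
      have e1 : i + ((m + 1 : ℕ) : ℤ) = i + m + 1 := by push_cast; ring
      rw [e1]
      exact h'
  have hsu : ∀ (N : A) (m : ℕ) (e : ℕ) (i : ℤ),
      (∃ (ι : Type) (_ : Finite ι) (c : ℕ) (X : Set (ι → k)) (hX : IsSmooth c X),
        Dom1 T N e i hX.1) →
      ∃ (ι : Type) (_ : Finite ι) (c : ℕ) (X : Set (ι → k)) (hX : IsSmooth c X),
        Dom1 T N (e + 2 * m) (i + 3 * m) hX.1 := by
    intro N m
    induction m with
    | zero =>
      intro e i h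
      simpa using h
    | succ m ih =>
      intro e i h
      obtain ⟨ι, fin, c, X, hX, hd⟩ := ih e i h
      obtain ⟨ι', fin', c', X', hX', hd'⟩ := h2 hX (i + 3 * m)
      refine ⟨ι', fin', c', X', hX', ?_⟩
      have e1 : i + 3 * ((m + 1 : ℕ) : ℤ) = i + 3 * m + 3 := by push_cast; ring
      rw [e1]
      exact hd' N (e + 2 * m) hd
  -- a common pair of exponents
  have hcommon : ∀ N N' : A, ∀ (e : ℕ) (i : ℤ) (e' : ℕ) (i' : ℤ), i - e ≤ i' - e' →
      (∃ (ι : Type) (_ : Finite ι) (c : ℕ) (X : Set (ι → k)) (hX : IsSmooth c X),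
        Dom1 T N e i hX.1) →
      (∃ (ι : Type) (_ : Finite ι) (c : ℕ) (X : Set (ι → k)) (hX : IsSmooth c X),
        Dom1 T N' e' i' hX.1) → ∃ (E : ℕ) (I : ℤ), 1 ≤ I ∧
      (∃ (ι : Type) (_ : Finite ι) (c : ℕ) (X : Set (ι → k)) (hX : IsSmooth c X),
        Dom1 T N E I hX.1) ∧
      ∃ (ι : Type) (_ : Finite ι) (c : ℕ) (X : Set (ι → k)) (hX : IsSmooth c X),
        Dom1 T N' E I hX.1 := by
    intro N N' e i e' i' hle hN hN'
    obtain ⟨m, hmm⟩ := Int.eq_ofNat_of_zero_le (sub_nonneg.2 hle)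
    obtain ⟨n, hn⟩ : ∃ n : ℕ, n = (i' - e').natAbs + 1 := ⟨_, rfl⟩
    have a1 := hgm N (e' + n) _ _ (hsu N m e i hN)
    have a2 := hgm N' (e + 2 * m + n) _ _ hN'
    refine ⟨e + 2 * m + (e' + n), i + 3 * m + ((e' + n : ℕ) : ℤ), ?_, a1, ?_⟩
    · push_cast
      omega
    · have e1 : e' + (e + 2 * m + n) = e + 2 * m + (e' + n) := by ring
      have e2 : i' + ((e + 2 * m + n : ℕ) : ℤ) = i + 3 * m + ((e' + n : ℕ) : ℤ) := by
        push_cast
        linarith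
      rw [e1, e2] at a2
      exact a2
  have hcommon' : ∀ N N' : A, ∀ (e : ℕ) (i : ℤ) (e' : ℕ) (i' : ℤ),
      (∃ (ι : Type) (_ : Finite ι) (c : ℕ) (X : Set (ι → k)) (hX : IsSmooth c X),
        Dom1 T N e i hX.1) →
      (∃ (ι : Type) (_ : Finite ι) (c : ℕ) (X : Set (ι → k)) (hX : IsSmooth c X),
        Dom1 T N' e' i' hX.1) → ∃ (E : ℕ) (I : ℤ), 1 ≤ I ∧
      (∃ (ι : Type) (_ : Finite ι) (c : ℕ) (X : Set (ι → k)) (hX : IsSmooth c X),
        Dom1 T N E I hX.1) ∧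
      ∃ (ι : Type) (_ : Finite ι) (c : ℕ) (X : Set (ι → k)) (hX : IsSmooth c X),
        Dom1 T N' E I hX.1 := by
    intro N N' e i e' i' hN hN'
    rcases le_total (i - e) (i' - e') with h | h
    · exact hcommon N N' e i e' i' h hN hN'
    · obtain ⟨E, I, hI, a, b⟩ := hcommon N' N e' i' e i h hN' hN
      exact ⟨E, I, hI, b, a⟩
  rintro N N' ⟨e, i, hN⟩ ⟨e', i', hN'⟩
  obtain ⟨E, I, hI, ⟨ι, fin, c, X, hX, hd⟩, ⟨ι', fin', c', X', hX', hd'⟩⟩ :=
    hcommon' N N' e i e' i' hN hN'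
  rcases X.eq_empty_or_nonempty with hXe | hXn
  · -- `N = 0`
    have hz : IsZero N := h7.2.2 N E (p_d1sum_zero hd (h8 _ hXe.symm I))
    have φ : N ⊞ N' ≅ N' :=
      ⟨biprod.snd, biprod.inr, by
        apply biprod.hom_ext
        · exact hz.eq_of_tgt _ _
        · simp, by simp⟩
    exact ⟨E, I, ι', fin', c', X', hX', ht _ _ _ (hi _ _ (whiskerRightIso φ _)) hd'⟩
  rcases X'.eq_empty_or_nonempty with hXe' | hXn'
  · have hz : IsZero N' := h7.2.2 N' E (p_d1sum_zero hd' (h8 _ hXe'.symm I))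
    have φ : N ⊞ N' ≅ N :=
      ⟨biprod.fst, biprod.inl, by
        apply biprod.hom_ext
        · simp
        · exact hz.eq_of_tgt _ _, by simp⟩
    exact ⟨E, I, ι, fin, c, X, hX, ht _ _ _ (hi _ _ (whiskerRightIso φ _)) hd⟩
  have hP := h4 X X' hX hX'
  obtain ⟨f, hf⟩ := h3 hX.1 hX'.1 hP.1 rfl hXn hXn' I hI
  refine ⟨E, I, ι ⊕ ι', inferInstance, c + c', _, hP, ?_⟩
  exact ht _ _ _ (hm _ _ _ (p_d1sum_dist N N' (tpow T.L E)))
    (ht _ _ _ (hs _ _ _ _ hd hd') (hm _ _ f hf))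

end Pool.Agent.Lib.MP_ae0f86_nt
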