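import Pool.Agent.Lib.MP_ae0f86_nt.StmB

/-!
# MP_ae0f86_nt : [GP descent]
-/

open MvPolynomial

universe v u

namespace Pool.Agent.Lib.MP_ae0f86_nt

noncomputable section

section Descent

variable {ι : Type} {r : ℕ} (F : Fin r → MvPolynomial ι QBar)

/-- The index type of the coefficients of the polynomials `F j`. -/
abbrev p_descent_A : Type := Σ j : Fin r, {m : ι →₀ ℕ // m ∈ (F j).support}

/-- The polynomials with the coefficients `t`. -/
def p_descent_P (t : p_descent_A F → QBar) (j : Fin r) : MvPolynomial ι QBar :=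
  ∑ m : {m : ι →₀ ℕ // m ∈ (F j).support}, monomial m.1 (t ⟨j, m⟩)

/-- The universal polynomials. -/
def p_descent_G (j : Fin r) : MvPolynomial (p_descent_A F ⊕ ι) ℤ :=
  ∑ m : {m : ι →₀ ℕ // m ∈ (F j).support},
    MvPolynomial.X (Sum.inl ⟨j, m⟩) * rename Sum.inr (monomial m.1 1)

private theorem p_descent_evalmap {σ : Type} (p : MvPolynomial σ ℤ) (z : σ → QBar) :
    eval z (MvPolynomial.map (Int.castRingHom QBar) p) = aeval z p := by
  rw [eval_map, aeval_def, algebraMap_int_eq]

private theorem p_descent_evalG (j : Fin r) (z : p_descent_A F ⊕ ι → QBar) :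
    eval z (MvPolynomial.map (Int.castRingHom QBar) (p_descent_G F j)) =
      eval (z ∘ Sum.inr) (p_descent_P F (z ∘ Sum.inl) j) := by
  rw [p_descent_G, p_descent_P, map_sum, map_sum, map_sum]
  refine Finset.sum_congr rfl fun m _ => ?_
  rw [map_mul, map_mul, map_X, eval_X, map_rename, eval_rename, map_monomial, eval_monomial,
    eval_monomial]
  simp

private theorem p_descent_map (τ : QBar ≃ₐ[ℚ] QBar) (t : p_descent_A F → QBar)
    (h : ∀ a : p_descent_A F, τ (coeff a.2.1 (F a.1)) = t a) (j : Fin r) :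
    p_descent_P F t j = MvPolynomial.map (τ : QBar →+* QBar) (F j) := by
  conv_rhs => rw [(F j).as_sum, map_sum]
  rw [p_descent_P, ← Finset.sum_coe_sort (F j).support
    (fun m => MvPolynomial.map (τ : QBar →+* QBar) (monomial m (coeff m (F j))))]
  refine Finset.sum_congr rfl fun m _ => ?_
  rw [map_monomial, ← h ⟨j, m⟩]
  rfl

private theorem p_descent_conj (τ : QBar ≃ₐ[ℚ] QBar) (p : MvPolynomial ι QBar) (x : ι → QBar) :
    eval x (MvPolynomial.map (τ : QBar →+* QBar) p) = τ (eval (fun i => τ.symm (x i)) p) := by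
  induction p using MvPolynomial.induction_on with
  | C a => simp
  | add p q hp hq => simp only [map_add, hp, hq]
  | mul_X p i hp => simp only [map_mul, hp, map_X, eval_X, AlgEquiv.apply_symm_apply]

private theorem p_descent_single_self {α : Type} (z : α ⊕ ι → QBar) (a : α)
    (c : QBar) : grad z (MvPolynomial.X (Sum.inl a) - C c) (Sum.inl a) = 1 := by
  classical
  rw [grad, map_sub, pderiv_C, sub_zero, pderiv_X]
  simp

private theorem p_descent_single_ne {α : Type} (z : α ⊕ ι → QBar) (a : α)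
    (c : QBar) (j : α ⊕ ι) (h : j ≠ Sum.inl a) :
    grad z (MvPolynomial.X (Sum.inl a) - C c) j = 0 := by
  classical
  rw [grad, map_sub, pderiv_C, sub_zero, pderiv_X, Pi.single_eq_of_ne h.symm, map_zero]

private theorem p_descent_inr {α : Type} (z : α ⊕ ι → QBar) (p : MvPolynomial ι QBar) :
    grad z (rename Sum.inr p) = Sum.elim (fun _ => 0) (grad (z ∘ Sum.inr) p) := by
  funext j
  rcases j with a | i
  · simp only [grad, Sum.elim_inl]
    have : pderiv (Sum.inl a : α ⊕ ι) (rename Sum.inr p : MvPolynomial (α ⊕ ι) QBar) = 0 := by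
      apply pderiv_eq_zero_of_notMem_vars
      intro hmem
      classical
      have h2 := vars_rename (Sum.inr : ι → α ⊕ ι) p hmem
      simp at h2
    rw [this, map_zero]
  · simp only [grad, Sum.elim_inr]
    rw [pderiv_rename Sum.inr_injective, eval_rename]

private theorem p_descent_sep {α : Type} {O : Set (α → QBar)} (hO : O.Finite) (t0 : α → QBar) :
    ∃ D : MvPolynomial α QBar, eval t0 D ≠ 0 ∧ ∀ t ∈ O, t ≠ t0 → eval t D = 0 := by
  classical
  have h : ∀ t : α → QBar, ∃ q : MvPolynomial α QBar, t ≠ t0 → eval t0 q ≠ 0 ∧ eval t q = 0 := by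
    intro t
    by_cases ht : t = t0
    · exact ⟨0, fun h => absurd ht h⟩
    · obtain ⟨a, ha⟩ := Function.ne_iff.1 ht
      refine ⟨MvPolynomial.X a - C (t a), fun _ => ⟨?_, ?_⟩⟩
      · rw [map_sub, eval_X, eval_C, sub_ne_zero]
        exact ha.symm
      · rw [map_sub, eval_X, eval_C, sub_self]
  choose q hq using h
  refine ⟨∏ t ∈ hO.toFinset.filter (fun t => t ≠ t0), q t, ?_, ?_⟩
  · rw [map_prod, Finset.prod_ne_zero_iff]
    intro t ht
    rw [Finset.mem_filter] at ht
    exact (hq t ht.2).1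
  · intro t ht hne
    rw [map_prod]
    refine Finset.prod_eq_zero (i := t) ?_ ?_
    · rw [Finset.mem_filter]
      exact ⟨hO.mem_toFinset.2 ht, hne⟩
    · exact (hq t hne).2

private theorem p_descent_cut (h4 : S_cutcard QBar) {α : Type} [Fintype α] {c : ℕ}
    {O : Set (α → QBar)} (hO : O.Finite) (X' : Set (α ⊕ ι → QBar))
    (Xt : (α → QBar) → Set (ι → QBar))
    (hX' : ∀ z, z ∈ X' ↔ z ∘ Sum.inl ∈ O ∧ z ∘ Sum.inr ∈ Xt (z ∘ Sum.inl))
    (hsm : ∀ t ∈ O, ∀ x ∈ Xt t, Cut c (Xt t) x (fun e : Empty => e.elim)) :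
    ∀ z ∈ X', Cut (Fintype.card (α ⊕ Fin c)) X' z (fun e : Empty => e.elim) := by
  intro z hz
  obtain ⟨ht, hx⟩ := (hX' z).1 hz
  obtain ⟨p, s, hs, hiff, hli⟩ := hsm _ ht _ hx
  obtain ⟨D, hD1, hD2⟩ := p_descent_sep hO (z ∘ Sum.inl)
  refine h4 X' z _ (Sum.elim (fun a : α => MvPolynomial.X (Sum.inl a) - C (z (Sum.inl a)))
    (fun b : Fin c => rename Sum.inr (p b))) (rename Sum.inr s * rename Sum.inl D) ?_ ?_ ?_
  · rw [map_mul, eval_rename, eval_rename]
    exact mul_ne_zero hs hD1
  · intro w hw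
    rw [map_mul, eval_rename, eval_rename] at hw
    have hw1 := left_ne_zero_of_mul hw
    have hw2 := right_ne_zero_of_mul hw
    rw [hX' w]
    constructor
    · rintro ⟨hwO, hwX⟩
      have he : w ∘ Sum.inl = z ∘ Sum.inl := by
        by_contra hne
        exact hw2 (hD2 _ hwO hne)
      rintro (a | b)
      · have := congrFun he a
        simp only [Function.comp_apply] at this
        simp [this]
      · rw [Sum.elim_inr, eval_rename]
        rw [he] at hwX
        exact (hiff _ hw1).1 hwX b
    · intro hall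
      have he : w ∘ Sum.inl = z ∘ Sum.inl := by
        funext a
        have := hall (Sum.inl a)
        rw [Sum.elim_inl, map_sub, eval_X, eval_C, sub_eq_zero] at this
        exact this
      rw [he]
      refine ⟨ht, (hiff _ hw1).2 fun b => ?_⟩
      have := hall (Sum.inr b)
      rwa [Sum.elim_inr, eval_rename] at this
  · have hli' : LinearIndependent QBar (fun b : Fin c => grad (z ∘ Sum.inr) (p b)) := by
      have := hli.comp Sum.inl Sum.inl_injective
      exact this
    rw [Fintype.linearIndependent_iff] at hli' ⊢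
    intro g hg
    rw [Fintype.sum_sum_type, Fintype.sum_sum_type] at hg
    simp only [Sum.elim_inl, Sum.elim_inr, Finset.univ_eq_empty, Finset.sum_empty,
      add_zero] at hg
    have hl : ∀ a, g (Sum.inl (Sum.inl a)) = 0 := by
      intro a
      have h := congrFun hg (Sum.inl a)
      rw [Pi.add_apply, Finset.sum_apply, Finset.sum_apply, Finset.sum_eq_single a] at h
      · rw [Pi.smul_apply, p_descent_single_self, smul_eq_mul, mul_one] at h
        rw [Finset.sum_eq_zero] at h
        · simpa using h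
        · intro b _
          rw [Pi.smul_apply, p_descent_inr, Sum.elim_inl, smul_zero]
      · intro a' _ hne
        rw [Pi.smul_apply, p_descent_single_ne _ _ _ _ (fun h => hne (Sum.inl_injective h).symm),
          smul_zero]
      · intro h
        exact absurd (Finset.mem_univ a) h
    have hr : ∀ b, g (Sum.inl (Sum.inr b)) = 0 := by
      refine hli' (fun b => g (Sum.inl (Sum.inr b))) ?_
      funext i
      have h := congrFun hg (Sum.inr i)
      rw [Pi.add_apply, Finset.sum_apply, Finset.sum_apply, Finset.sum_eq_zero, zero_add] at h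
      · rw [Finset.sum_apply]
        refine (Finset.sum_congr rfl fun b _ => ?_).trans h
        rw [Pi.smul_apply, Pi.smul_apply, p_descent_inr, Sum.elim_inr]
      · intro a _
        rw [hl a, zero_smul, Pi.zero_apply]
    rintro ((a | b) | e)
    · exact hl a
    · exact hr b
    · exact e.elim

end Descent

theorem p_descent (h1 : S_fin QBar) (h2 : S_orbit) (h3 : S_conj) (h4 : S_cutcard QBar) :
    S_descent := by
  intro ι _ c X hX
  obtain ⟨r0, F, hF⟩ := h1 X hX.1
  let θ : p_descent_A F → QBar := fun a => coeff a.2.1 (F a.1)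
  obtain ⟨r1, ρ, hρθ, hfin, haut⟩ := h2 θ
  let f : Fin (r1 + r0) → MvPolynomial (p_descent_A F ⊕ ι) ℤ := fun j =>
    Sum.elim (fun l => rename Sum.inl (ρ l)) (fun j => p_descent_G F j) (finSumFinEquiv.symm j)
  let O : Set (p_descent_A F → QBar) := {t | ∀ l, aeval t (ρ l) = 0}
  let Xt : (p_descent_A F → QBar) → Set (ι → QBar) :=
    fun t => {x | ∀ j, eval x (p_descent_P F t j) = 0}
  have hmem : ∀ z, z ∈ zl (fun j => MvPolynomial.map (Int.castRingHom QBar) (f j)) ↔
      z ∘ Sum.inl ∈ O ∧ z ∘ Sum.inr ∈ Xt (z ∘ Sum.inl) := by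
    intro z
    constructor
    · intro h
      refine ⟨fun l => ?_, fun j => ?_⟩
      · have := h (finSumFinEquiv (Sum.inl l))
        simp only [f, Equiv.symm_apply_apply, Sum.elim_inl] at this
        rwa [map_rename, eval_rename, p_descent_evalmap] at this
      · have := h (finSumFinEquiv (Sum.inr j))
        simp only [f, Equiv.symm_apply_apply, Sum.elim_inr] at this
        rwa [p_descent_evalG] at this
    · rintro ⟨ha, hb⟩ j
      obtain ⟨j, rfl⟩ := finSumFinEquiv.surjective j
      simp only [f, Equiv.symm_apply_apply]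
      rcases j with l | j
      · rw [Sum.elim_inl, map_rename, eval_rename, p_descent_evalmap]
        exact ha l
      · rw [Sum.elim_inr, p_descent_evalG]
        exact hb j
  have hXt : ∀ (t : p_descent_A F → QBar) (τ : QBar ≃ₐ[ℚ] QBar), (∀ a, τ (θ a) = t a) →
      Xt t = {x : ι → QBar | (fun i => τ.symm (x i)) ∈ X} := by
    intro t τ hτ
    ext x
    rw [hF]
    constructor
    · intro h j
      have := h j
      rw [p_descent_map F τ t hτ j, p_descent_conj] at this
      exact (map_eq_zero_iff τ τ.injective).1 this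
    · intro h j
      rw [p_descent_map F τ t hτ j, p_descent_conj, h j, map_zero]
  have hθO : θ ∈ O := hρθ
  have hXθ : Xt θ = X := by
    rw [hXt θ AlgEquiv.refl (fun a => rfl)]
    rfl
  have hsmooth : IsSmooth (Fintype.card (p_descent_A F ⊕ Fin c))
      (zl (fun j => MvPolynomial.map (Int.castRingHom QBar) (f j))) := by
    refine ⟨zl_alg _, p_descent_cut h4 (O := O) hfin _ Xt hmem ?_⟩
    intro t ht x hx
    obtain ⟨τ, hτ⟩ := haut t ht
    have h5 := (h3 τ X hX).2
    rw [← hXt t τ hτ] at h5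
    exact h5 x hx
  refine ⟨p_descent_A F ⊕ ι, inferInstance, r1 + r0, _, f, hsmooth, ?_⟩
  have hin : ∀ x ∈ X, (Sum.elim θ x : p_descent_A F ⊕ ι → QBar) ∈
      zl (fun j => MvPolynomial.map (Int.castRingHom QBar) (f j)) := by
    intro x hx
    rw [hmem, Sum.elim_comp_inl, Sum.elim_comp_inr, hXθ]
    exact ⟨hθO, hx⟩
  let Q : p_descent_A F ⊕ ι → MvPolynomial ι QBar :=
    Sum.elim (fun a => C (θ a)) (fun i => MvPolynomial.X i)
  have hQ : ∀ x : ι → QBar, (fun j => eval x (Q j)) = Sum.elim θ x := by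
    intro x
    funext j
    rcases j with a | i
    · simp [Q]
    · simp [Q]
  have halg : ∀ t : p_descent_A F → QBar,
      IsAlg {z : p_descent_A F ⊕ ι → QBar | z ∘ Sum.inl = t} := by
    intro t
    have := IsAlg.zeros (fun a : p_descent_A F =>
      (MvPolynomial.X (Sum.inl a) - C (t a) : MvPolynomial (p_descent_A F ⊕ ι) QBar))
    convert this using 2
    funext z
    apply propext
    simp only [map_sub, eval_X, eval_C, sub_eq_zero]
    exact ⟨fun h a => congrFun h a, fun h => funext h⟩
  refine ⟨AffPair.mk' (AffPair.abs hX.1) (AffPair.abs (zl_alg _)) Q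
    (fun x hx => by rw [hQ]; exact hin x hx) (fun x hx => hx.elim), ?_⟩
  have hfinO : Finite {t : p_descent_A F → QBar // t ∈ O ∧ t ≠ θ} :=
    (hfin.subset (fun t ht => ht.1) : {t : p_descent_A F → QBar | t ∈ O ∧ t ≠ θ}.Finite)
  refine ⟨zl (fun j => MvPolynomial.map (Int.castRingHom QBar) (f j)) ∩ {z | z ∘ Sum.inl = θ},
    zl (fun j => MvPolynomial.map (Int.castRingHom QBar) (f j)) ∩
      ⋃ t : {t : p_descent_A F → QBar // t ∈ O ∧ t ≠ θ}, {z | z ∘ Sum.inl = t.1},
    (zl_alg _).inter (halg θ), (zl_alg _).inter (IsAlg.iUnion fun t => halg t.1), ?_, ?_, ?_⟩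
  · ext z
    constructor
    · rintro (h | h)
      · exact h.1
      · exact h.1
    · intro h
      by_cases hz : z ∘ Sum.inl = θ
      · exact Or.inl ⟨h, hz⟩
      · refine Or.inr ⟨h, ?_⟩
        rw [Set.mem_iUnion]
        exact ⟨⟨z ∘ Sum.inl, ((hmem z).1 h).1, hz⟩, rfl⟩
  · rw [Set.eq_empty_iff_forall_notMem]
    rintro z ⟨⟨_, h1⟩, ⟨_, h2⟩⟩
    rw [Set.mem_iUnion] at h2
    obtain ⟨t, ht⟩ := h2
    exact t.2.2 (ht.symm.trans h1)
  · refine ⟨AffPair.mk' (AffPair.abs hX.1) (AffPair.abs _) Q
      (fun x hx => by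
        rw [hQ]
        exact ⟨hin x hx, Sum.elim_comp_inl _ _⟩) (fun x hx => hx.elim), ?_, fun x => rfl⟩
    refine isIso_of_inv _ (AffPair.mk' (AffPair.abs _) (AffPair.abs hX.1)
      (fun i => MvPolynomial.X (Sum.inr i)) (fun z hz => ?_) (fun z hz => hz.elim)) ?_ ?_
    · have h5 := ((hmem z).1 hz.1).2
      have h6 : z ∘ Sum.inl = θ := hz.2
      rw [h6, hXθ] at h5
      simpa [Function.comp_def] using h5
    · intro x
      funext i
      simp [AffPair.mk', Q]
    · rintro ⟨z, hz1, hz2⟩
      funext j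
      rcases j with a | i
      · have := congrFun hz2 a
        simp [AffPair.mk', Q]
        exact this.symm
      · simp [AffPair.mk', Q]

end

end Pool.Agent.Lib.MP_ae0f86_nt
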