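import Pool.Agent.Lib.MP_ae0f86_nt.StmA

/-!
# MP_ae0f86_nt : piece `[GP divX]`
-/

open MvPolynomial

namespace Pool.Agent.Lib.MP_ae0f86_nt

noncomputable section

/-- `Cut` passes to families which factor injectively through the given one. -/
theorem p_divX_cut_comp {k : Type} [Field k] {ι : Type} {c : ℕ} {X : Set (ι → k)} {x : ι → k}
    {J J' : Type} {l : J → MvPolynomial ι k} {l' : J' → MvPolynomial ι k} (g : J' → J)
    (hg : Function.Injective g) (hl : ∀ j, l' j = l (g j)) (h : Cut c X x l) :
    Cut c X x l' := by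
  obtain ⟨p, s, hs, hX, hli⟩ := h
  refine ⟨p, s, hs, hX, ?_⟩
  have h2 := hli.comp (Sum.map id g) (Sum.map_injective.2 ⟨Function.injective_id, hg⟩)
  convert h2 using 1
  funext a
  rcases a with a | a
  · simp
  · simp [hl]

theorem p_divX {k : Type} [Field k] (h1 : S_blowcut k) : S_divX k := by
  intro D z hz
  haveI := D.fin
  obtain ⟨b, hb, hc⟩ := D.cut (z ∘ Sum.inl) hz.1
  have h2 := h1 D.X D.e D.s D.sec (z ∘ Sum.inl) b (J := Empty) (fun e => e.elim) hz.1 hb
    (p_divX_cut_comp (J' := Empty ⊕ {_u : Unit // ∀ a, eval (z ∘ Sum.inl) (D.s a) = 0})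
      (Sum.elim (fun e => e.elim) id)
      (by rintro (a | a) (b | b) h
          · exact a.elim
          · exact a.elim
          · exact b.elim
          · exact congrArg Sum.inr h)
      (by rintro (a | a)
          · exact a.elim
          · rfl) hc) z hz rfl
  refine p_divX_cut_comp
    (fun u => Sum.inr ⟨u.1, by simpa using u.2⟩) ?_ (fun j => rfl) h2
  intro a b h
  exact Subtype.ext rfl

end

end Pool.Agent.Lib.MP_ae0f86_nt
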