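import Pool.Agent.Lib.MP_ae0f86_nt.StmA

/-!
# MP_ae0f86_nt : piece divY
-/

open MvPolynomial

universe v u

namespace Pool.Agent.Lib.MP_ae0f86_nt

theorem p_divY_grad_inl {k : Type} [Field k] {ι : Type} (z : ι ⊕ Unit → k) (f : MvPolynomial ι k)
    (i : ι) : grad z (rename Sum.inl f) (Sum.inl i) = grad (z ∘ Sum.inl) f i := by
  unfold grad
  rw [pderiv_rename Sum.inl_injective, eval_rename]

theorem p_divY_grad_inr {k : Type} [Field k] {ι : Type} (z : ι ⊕ Unit → k) (f : MvPolynomial ι k)
    (u : Unit) : grad z (rename Sum.inl f) (Sum.inr u) = 0 := by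
  classical
  unfold grad
  rw [pderiv_eq_zero_of_notMem_vars, map_zero]
  intro h
  have := vars_rename (Sum.inl : ι → ι ⊕ Unit) f h
  rw [Finset.mem_image] at this
  obtain ⟨i, _, hi⟩ := this
  exact Sum.inl_ne_inr hi

/-- extension by zero -/
def p_divY_ext (k : Type) [Field k] (ι : Type) : (ι → k) →ₗ[k] (ι ⊕ Unit → k) where
  toFun w := Sum.elim w (fun _ => 0)
  map_add' v w := by
    funext j
    cases j <;> simp
  map_smul' c w := by
    funext j
    cases j <;> simp

theorem p_divY_ext_inj (k : Type) [Field k] (ι : Type) :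
    LinearMap.ker (p_divY_ext k ι) = ⊥ := by
  rw [LinearMap.ker_eq_bot']
  intro w hw
  funext i
  exact congrFun hw (Sum.inl i)

theorem p_divY_grad {k : Type} [Field k] {ι : Type} (z : ι ⊕ Unit → k) (f : MvPolynomial ι k) :
    grad z (rename Sum.inl f) = p_divY_ext k ι (grad (z ∘ Sum.inl) f) := by
  funext j
  rcases j with i | u
  · exact p_divY_grad_inl z f i
  · exact p_divY_grad_inr z f u

theorem p_divY {k : Type} [Field k] (h1 : S_cutcard k) : S_divY k := by
  classical
  intro D z hz
  obtain ⟨hzX, hzs⟩ := hz
  obtain ⟨b, heb, p, s0, hs0, hX, hli⟩ := D.cut _ hzX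
  have hcard : Fintype.card (Option (Fin D.c)) = D.c + 1 := by simp
  rw [← hcard]
  refine h1 _ z (fun _ => MvPolynomial.X (Sum.inr ()))
    (fun o : Option (Fin D.c) => o.elim (rename Sum.inl (D.s b)) (fun a => rename Sum.inl (p a)))
    (rename Sum.inl (s0 * D.e b b)) ?_ ?_ ?_
  · rw [eval_rename, map_mul]
    exact mul_ne_zero hs0 heb
  · intro w hw
    rw [eval_rename, map_mul] at hw
    have hw0 := left_ne_zero_of_mul hw
    have hwe := right_ne_zero_of_mul hw
    have hXw := hX (w ∘ Sum.inl) hw0
    constructor
    · rintro ⟨hwX, hws⟩ (_ | a)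
      · show eval w (rename Sum.inl (D.s b)) = 0
        rw [eval_rename]
        exact hws b
      · show eval w (rename Sum.inl (p a)) = 0
        rw [eval_rename]
        exact hXw.1 hwX a
    · intro h
      have hb : eval (w ∘ Sum.inl) (D.s b) = 0 := by
        have := h none
        change eval w (rename Sum.inl (D.s b)) = 0 at this
        rwa [eval_rename] at this
      have hwX : w ∘ Sum.inl ∈ D.X := by
        refine hXw.2 fun a => ?_
        have := h (some a)
        change eval w (rename Sum.inl (p a)) = 0 at this
        rwa [eval_rename] at this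
      refine ⟨hwX, fun i => ?_⟩
      have e1 : eval (w ∘ Sum.inl) (D.e b b) * eval (w ∘ Sum.inl) (D.s i) =
          eval (w ∘ Sum.inl) (D.e i b) * eval (w ∘ Sum.inl) (D.s b) := by
        rw [← D.sec.sec _ hwX i, ← D.sec.sec _ hwX b, Finset.mul_sum, Finset.mul_sum]
        refine Finset.sum_congr rfl fun c _ => ?_
        rw [← mul_assoc, ← mul_assoc]
        congr 1
        exact D.sec.minors _ hwX b b i c |>.trans (mul_comm _ _)
      rw [hb, mul_zero] at e1
      exact (mul_eq_zero.1 e1).resolve_left hwe
  · have hgX : grad z (MvPolynomial.X (Sum.inr ()) : MvPolynomial (D.ι ⊕ Unit) k) =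
        Sum.elim (fun _ => 0) (fun _ => 1) := by
      funext j
      unfold grad
      rcases j with i | u
      · rw [pderiv_X_of_ne (by simp)]
        simp
      · rw [pderiv_X_self]
        simp
    have hl1 : LinearIndependent k (fun o : Option (Fin D.c) =>
        grad z (o.elim (rename Sum.inl (D.s b)) (fun a => rename Sum.inl (p a)))) := by
      have h2 := (hli.comp (fun o : Option (Fin D.c) => o.elim
        (Sum.inr ⟨(), hzs⟩ : Fin D.c ⊕ {_u : Unit // ∀ a, eval (z ∘ Sum.inl) (D.s a) = 0})
        (fun a => Sum.inl a)) (by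
          rintro (_ | a) (_ | a') h
          · rfl
          · exact absurd h (by simp)
          · exact absurd h (by simp)
          · simpa using h)).map' (p_divY_ext k D.ι) (p_divY_ext_inj k D.ι)
      have e : (fun o : Option (Fin D.c) => grad z (o.elim (rename Sum.inl (D.s b))
          (fun a => rename Sum.inl (p a)))) = (p_divY_ext k D.ι) ∘
          (Sum.elim (fun a => grad (z ∘ Sum.inl) (p a)) fun
            _ : {_u : Unit // ∀ a, eval (z ∘ Sum.inl) (D.s a) = 0} =>
              grad (z ∘ Sum.inl) (D.s b)) ∘ fun o : Option (Fin D.c) =>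
            o.elim (Sum.inr ⟨(), hzs⟩) fun a => Sum.inl a := by
        funext o
        rcases o with _ | a
        · exact p_divY_grad z (D.s b)
        · exact p_divY_grad z (p a)
      rw [e]
      exact h2
    refine LinearIndependent.sum_type hl1 ?_ ?_
    · rw [hgX]
      rw [linearIndependent_iff']
      intro t g hg i hi
      have h3 := congrFun hg (Sum.inr ())
      rw [Finset.sum_apply] at h3
      have h4 : t = {i} := by
        ext j
        rw [Finset.mem_singleton]
        exact ⟨fun _ => Subsingleton.elim _ _, fun h => h ▸ hi⟩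
      rw [h4, Finset.sum_singleton] at h3
      simpa using h3
    · rw [Submodule.disjoint_def]
      intro x hx1 hx2
      have k1 : x (Sum.inr ()) = 0 := by
        have : Submodule.span k (Set.range (fun o : Option (Fin D.c) =>
            grad z (o.elim (rename Sum.inl (D.s b)) (fun a => rename Sum.inl (p a))))) ≤
            LinearMap.ker (LinearMap.proj (Sum.inr ()) : (D.ι ⊕ Unit → k) →ₗ[k] k) := by
          rw [Submodule.span_le]
          rintro _ ⟨o, rfl⟩
          rw [SetLike.mem_coe, LinearMap.mem_ker, LinearMap.proj_apply]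
          rcases o with _ | a
          · exact p_divY_grad_inr z (D.s b) ()
          · exact p_divY_grad_inr z (p a) ()
        exact this hx1
      have k2 : ∀ i, x (Sum.inl i) = 0 := by
        intro i
        have : Submodule.span k (Set.range (fun _ : {_u : Unit // eval z (MvPolynomial.X
            (Sum.inr ()) : MvPolynomial (D.ι ⊕ Unit) k) = 0} => grad z (MvPolynomial.X
            (Sum.inr ()) : MvPolynomial (D.ι ⊕ Unit) k))) ≤
            LinearMap.ker (LinearMap.proj (Sum.inl i) : (D.ι ⊕ Unit → k) →ₗ[k] k) := by
          rw [Submodule.span_le]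
          rintro _ ⟨o, rfl⟩
          rw [SetLike.mem_coe, LinearMap.mem_ker, LinearMap.proj_apply]
          dsimp only
          rw [hgX]
          rfl
        exact this hx2
      funext j
      rcases j with i | u
      · exact k2 i
      · exact k1

end Pool.Agent.Lib.MP_ae0f86_nt
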