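import Pool.Agent.Lib.MP_ae0f86_nt.StmE

/-!
# MP_ae0f86_nt : piece endbetti
-/

open CategoryTheory CategoryTheory.Limits

universe v u

namespace Pool.Agent.Lib.MP_ae0f86_nt

set_option linter.unusedSectionVars false
set_option linter.unusedVariables false

attribute [local instance] CategoryTheory.Abelian.hasFiniteBiproducts

section

variable {A : Type u} [Category.{v} A] [Abelian A] (HB : A ⥤ ModuleCat.{0} ℚ)

private theorem map_comp_apply' {X Y Z : A} (f : X ⟶ Y) (g : Y ⟶ Z) (x : HB.obj X) :
    (HB.map (f ≫ g)).hom x = (HB.map g).hom ((HB.map f).hom x) := by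
  rw [Functor.map_comp]
  rfl

private theorem map_id_apply' {X : A} (x : HB.obj X) : (HB.map (𝟙 X)).hom x = x := by
  rw [CategoryTheory.Functor.map_id]
  rfl

private theorem map_zero_apply' [HB.Additive] {X Y : A} (x : HB.obj X) :
    (HB.map (0 : X ⟶ Y)).hom x = 0 := by
  rw [Functor.map_zero]
  rfl

private theorem map_add_apply' [HB.Additive] {X Y : A} (f g : X ⟶ Y) (x : HB.obj X) :
    (HB.map (f + g)).hom x = (HB.map f).hom x + (HB.map g).hom x := by
  rw [Functor.map_add]
  rfl

private theorem map_sub_apply' [HB.Additive] {X Y : A} (f g : X ⟶ Y) (x : HB.obj X) :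
    (HB.map (f - g)).hom x = (HB.map f).hom x - (HB.map g).hom x := by
  rw [Functor.map_sub]
  rfl

private theorem map_sum_apply' [HB.Additive] {X Y : A} {α : Type} (s : Finset α)
    (f : α → (X ⟶ Y)) (x : HB.obj X) :
    (HB.map (∑ a ∈ s, f a)).hom x = ∑ a ∈ s, (HB.map (f a)).hom x := by
  classical
  induction s using Finset.induction_on with
  | empty => simp
  | insert a s ha ih => rw [Finset.sum_insert ha, Finset.sum_insert ha, map_add_apply', ih]

private theorem map_smul_apply' [Linear ℚ A] [HB.Additive] {X Y : A} (q : ℚ) (f : X ⟶ Y)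
    (x : HB.obj X) : (HB.map (q • f)).hom x = q • (HB.map f).hom x := by
  rw [Functor.map_smul]
  rfl

private theorem surj_of_epi [PreservesFiniteColimits HB] {X Y : A} (f : X ⟶ Y) [Epi f] :
    Function.Surjective (HB.map f).hom :=
  (ModuleCat.epi_iff_surjective _).1 inferInstance

private theorem ker_le_range [HB.Additive] [PreservesFiniteLimits HB]
    [PreservesFiniteColimits HB] {X Y : A} (f : X ⟶ Y) (x : HB.obj X)
    (hx : (HB.map f).hom x = 0) : ∃ y, (HB.map (kernel.ι f)).hom y = x := by
  have h : (ShortComplex.mk (kernel.ι f) f (kernel.condition f)).Exact :=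
    ShortComplex.exact_of_f_is_kernel _ (kernelIsKernel f)
  have h2 := h.map HB
  rw [ShortComplex.moduleCat_exact_iff] at h2
  exact h2 x hx

/-- Functionals vanishing on the kernel of a surjection factor. -/
private theorem factor_dual {V U : Type} [AddCommGroup V] [Module ℚ V] [AddCommGroup U]
    [Module ℚ U] (p : V →ₗ[ℚ] U) (hp : Function.Surjective p) (σ : Module.Dual ℚ V)
    (h : ∀ x, p x = 0 → σ x = 0) : ∃ τ : Module.Dual ℚ U, σ = τ ∘ₗ p := by
  obtain ⟨g, hg⟩ := p.exists_rightInverse_of_surjective (LinearMap.range_eq_top.2 hp)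
  refine ⟨σ ∘ₗ g, LinearMap.ext fun x => ?_⟩
  have h1 : p (x - g (p x)) = 0 := by
    rw [map_sub]
    have := LinearMap.congr_fun hg (p x)
    simp only [LinearMap.comp_apply, LinearMap.id_apply] at this
    rw [this, sub_self]
  have h2 := h _ h1
  rw [map_sub, sub_eq_zero] at h2
  exact h2

private theorem decomp [HB.Additive] {W : A} {r : ℕ} (x : HB.obj (⨁ fun _ : Fin r => W)) :
    x = ∑ a, (HB.map (biproduct.ι (fun _ : Fin r => W) a)).hom
        ((HB.map (biproduct.π (fun _ : Fin r => W) a)).hom x) := by
  have h2 := map_id_apply' HB x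
  rw [← biproduct.total, map_sum_apply'] at h2
  refine h2.symm.trans ?_
  refine Finset.sum_congr rfl fun a _ => ?_
  rw [map_comp_apply']

private theorem pi_iota [HB.Additive] {W : A} {r : ℕ} (a b : Fin r) (x : HB.obj W) :
    (HB.map (biproduct.π (fun _ : Fin r => W) a)).hom
      ((HB.map (biproduct.ι (fun _ : Fin r => W) b)).hom x) = if a = b then x else 0 := by
  rw [← map_comp_apply']
  split_ifs with h
  · subst h
    rw [biproduct.ι_π_self, map_id_apply']
  · rw [biproduct.ι_π_ne _ (Ne.symm h), map_zero_apply']

end

/-- [GP endbetti] -/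
theorem p_endbetti {A : Type u} [Category.{v} A] [Abelian A] (h1 : S_subq A) :
    S_endbetti A := by
  intro HB _ _ _ _ _ hfin W Q n π σQ hπ huniq hex ⟨b, hb⟩
  have hW := hfin W
  have hQ := hfin Q
  -- the transposition
  let T : Module.End ℚ (HB.obj W) →ₗ[ℚ] (Fin n → Module.Dual ℚ (HB.obj W)) :=
    { toFun := fun e l => b l ∘ₗ e
      map_add' := fun e e' => by
        funext l
        exact LinearMap.comp_add _ _ _
      map_smul' := fun q e => by
        funext l
        exact LinearMap.comp_smul _ _ _ }
  have hT : Function.Injective T := by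
    rw [injective_iff_map_eq_zero]
    intro e he
    refine LinearMap.ext fun x => ?_
    refine (Module.forall_dual_apply_eq_zero_iff ℚ (e x)).1 fun σ => ?_
    rw [← b.sum_repr σ, LinearMap.sum_apply]
    refine Finset.sum_eq_zero fun l _ => ?_
    have h := LinearMap.congr_fun (congrFun he l) x
    rw [LinearMap.smul_apply]
    change b l (e x) = 0 at h
    rw [h, smul_zero]
  have hn : Module.finrank ℚ (HB.obj W) = n := by
    have h := Module.finrank_eq_card_basis b
    rw [Subspace.dual_finrank_eq, Fintype.card_fin] at h
    exact h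
  have hdim : Module.finrank ℚ (Module.End ℚ (HB.obj W)) =
      Module.finrank ℚ (Fin n → Module.Dual ℚ (HB.obj W)) := by
    rw [Module.finrank_linearMap, Module.finrank_pi_fintype, hn]
    simp [Subspace.dual_finrank_eq, hn]
  have hTs : Function.Surjective T :=
    (LinearMap.injective_iff_surjective_of_finrank_eq_finrank hdim).1 hT
  let R : Module.Dual ℚ (HB.obj Q) →ₗ[ℚ] (Fin n → Module.Dual ℚ (HB.obj W)) :=
    { toFun := fun τ l => τ ∘ₗ (HB.map (biproduct.ι (fun _ : Fin n => W) l ≫ π)).hom
      map_add' := fun e e' => by
        funext l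
        exact LinearMap.add_comp _ _ _
      map_smul' := fun q e => by
        funext l
        exact LinearMap.smul_comp _ _ _ }
  have hR : Function.Injective R := by
    rw [injective_iff_map_eq_zero]
    intro τ hτ
    refine LinearMap.ext fun y => ?_
    obtain ⟨x, rfl⟩ := surj_of_epi HB π y
    rw [decomp HB x, map_sum, map_sum, LinearMap.zero_apply]
    refine Finset.sum_eq_zero fun l _ => ?_
    rw [← map_comp_apply']
    exact LinearMap.congr_fun (congrFun hτ l) _
  have key : (EndBetti HB W).map T = LinearMap.range R := by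
    ext ρ
    constructor
    · rintro ⟨e, he, rfl⟩
      obtain ⟨τ, hτ⟩ := factor_dual (HB.map π).hom (surj_of_epi HB π)
        (∑ l, b l ∘ₗ e ∘ₗ (HB.map (biproduct.π (fun _ : Fin n => W) l)).hom) (fun x hx => by
          have h2 := he n Q (fun l => biproduct.ι (fun _ : Fin n => W) l ≫ π)
            (fun l => (HB.map (biproduct.π (fun _ : Fin n => W) l)).hom x) (by
              conv_rhs => rw [← hx, decomp HB x, map_sum]
              exact Finset.sum_congr rfl fun l _ => map_comp_apply' HB _ _ _)
          have h3 := congrArg σQ h2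
          rw [map_sum, map_zero] at h3
          rw [← h3, LinearMap.sum_apply]
          refine Finset.sum_congr rfl fun l _ => ?_
          have h4 := LinearMap.congr_fun (hb l)
            (e ((HB.map (biproduct.π (fun _ : Fin n => W) l)).hom x))
          exact h4.symm)
      refine ⟨τ, ?_⟩
      funext l
      refine LinearMap.ext fun x => ?_
      have h5 := LinearMap.congr_fun hτ ((HB.map (biproduct.ι (fun _ : Fin n => W) l)).hom x)
      change τ ((HB.map (biproduct.ι (fun _ : Fin n => W) l ≫ π)).hom x) = b l (e x)
      rw [map_comp_apply']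
      refine h5.symm.trans ?_
      rw [LinearMap.sum_apply]
      simp only [LinearMap.comp_apply, pi_iota]
      rw [Finset.sum_eq_single l]
      · rw [if_pos rfl]
      · intro l' _ hl'
        rw [if_neg hl', map_zero, map_zero]
      · intro h
        exact absurd (Finset.mem_univ l) h
    · rintro ⟨τ, rfl⟩
      obtain ⟨e, he⟩ := hTs (R τ)
      refine ⟨e, ?_, he⟩
      have he' : ∀ l x, b l (e x) =
          τ ((HB.map (biproduct.ι (fun _ : Fin n => W) l ≫ π)).hom x) :=
        fun l x => LinearMap.congr_fun (congrFun he l) x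
      have claim : ∀ (g : W ⟶ Q) (x : HB.obj W),
          σQ ((HB.map g).hom (e x)) = τ ((HB.map g).hom x) := by
        intro g
        let s := σQ ∘ₗ (HB.map g).hom
        let g' : W ⟶ Q := ∑ l, b.repr s l • (biproduct.ι (fun _ : Fin n => W) l ≫ π)
        have hs : ∀ x, s x = σQ ((HB.map g').hom x) := by
          intro x
          rw [map_sum_apply', map_sum]
          conv_lhs => rw [← b.sum_repr s]
          rw [LinearMap.sum_apply]
          refine Finset.sum_congr rfl fun l _ => ?_
          rw [map_smul_apply', map_smul, LinearMap.smul_apply, ← hb l]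
          rfl
        have hg : g = g' := by
          rw [← sub_eq_zero]
          apply huniq
          refine LinearMap.ext fun x => ?_
          rw [LinearMap.comp_apply, map_sub_apply', map_sub, ← hs x]
          change s x - s x = 0
          rw [sub_self]
        intro x
        have h6 : σQ ((HB.map g).hom (e x)) = ∑ l, b.repr s l • b l (e x) := by
          change s (e x) = _
          conv_lhs => rw [← b.sum_repr s]
          rw [LinearMap.sum_apply]
          rfl
        rw [h6]
        conv_rhs => rw [hg, map_sum_apply', map_sum]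
        refine Finset.sum_congr rfl fun l _ => ?_
        rw [he', map_smul_apply', map_smul]
      intro r U f m hm
      let X : A := ⨁ fun _ : Fin r => W
      let F : X ⟶ U := biproduct.desc f
      let mm : HB.obj X := ∑ j, (HB.map (biproduct.ι (fun _ : Fin r => W) j)).hom (m j)
      have hF : ∀ y : Fin r → HB.obj W,
          (HB.map F).hom (∑ j, (HB.map (biproduct.ι (fun _ : Fin r => W) j)).hom (y j)) =
            ∑ j, (HB.map (f j)).hom (y j) := by
        intro y
        rw [map_sum]
        refine Finset.sum_congr rfl fun j _ => ?_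
        rw [← map_comp_apply', biproduct.ι_desc]
      obtain ⟨k, hk⟩ := ker_le_range HB F mm (by rw [hF, hm])
      refine (Module.forall_dual_apply_eq_zero_iff ℚ _).1 fun μ => ?_
      obtain ⟨g, hg⟩ := hex X ⟨r, X, 𝟙 X, 𝟙 X, inferInstance, inferInstance⟩
        (μ ∘ₗ (HB.map F).hom)
      have hkg : kernel.ι F ≫ g = 0 := by
        apply huniq
        refine LinearMap.ext fun x => ?_
        have h7 := LinearMap.congr_fun hg ((HB.map (kernel.ι F)).hom x)
        simp only [LinearMap.comp_apply] at h7
        rw [LinearMap.comp_apply, map_comp_apply', ← h7, ← map_comp_apply', kernel.condition,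
          map_zero_apply', map_zero]
        rfl
      have hgm : (HB.map g).hom mm = 0 := by
        rw [← hk, ← map_comp_apply', hkg, map_zero_apply']
      rw [← hF]
      have h8 := LinearMap.congr_fun hg
        (∑ j, (HB.map (biproduct.ι (fun _ : Fin r => W) j)).hom (e (m j)))
      simp only [LinearMap.comp_apply] at h8
      rw [h8, map_sum, map_sum]
      have h9 : ∀ j, σQ ((HB.map g).hom ((HB.map (biproduct.ι (fun _ : Fin r => W) j)).hom
          (e (m j)))) = τ ((HB.map g).hom
            ((HB.map (biproduct.ι (fun _ : Fin r => W) j)).hom (m j))) := by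
        intro j
        rw [← map_comp_apply', claim, map_comp_apply']
      rw [Finset.sum_congr rfl fun j _ => h9 j, ← map_sum, ← map_sum]
      change τ ((HB.map g).hom mm) = 0
      rw [hgm, map_zero]
  have e1 : Module.finrank ℚ ((EndBetti HB W).map T) = Module.finrank ℚ (EndBetti HB W) :=
    (Submodule.equivMapOfInjective T hT (EndBetti HB W)).finrank_eq.symm
  have e2 : Module.finrank ℚ (LinearMap.range R) = Module.finrank ℚ (HB.obj Q) := by
    rw [LinearMap.finrank_range_of_inj hR, Subspace.dual_finrank_eq]
  rw [← e1, key, e2]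

end Pool.Agent.Lib.MP_ae0f86_nt
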