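import Pool.Agent.Lib.MP_ae0f86_nt.StmE

open CategoryTheory CategoryTheory.Limits MonoidalCategory

universe v u

namespace Pool.Agent.Lib.MP_ae0f86_nt

theorem p_evcomp {A : Type u} [Category.{v} A] [Abelian A] [MonoidalCategory A]
    [SymmetricCategory A] (h1 : S_fpring (A := A)) : S_evcomp (A := A) := by
  intro K _ _ _ HdR HB _ _ c S
  have key : ∀ x, c.evAlg S (toPerAlg HdR HB S x) = c.ev S x := by
    intro x
    obtain ⟨r, rfl⟩ := Submodule.Quotient.mk_surjective _ x
    induction r using Finsupp.induction_linear with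
    | zero => simp
    | add f g hf hg => rw [Submodule.Quotient.mk_add, map_add, map_add, map_add, hf, hg]
    | single s a =>
      have e1 : toPerAlg HdR HB S (Submodule.Quotient.mk (Finsupp.single s a)) =
          a • (Ideal.Quotient.mk (Ideal.span {r | AlgRel HdR HB S r}) (MvPolynomial.X s)) := by
        simp [toPerAlg]
      have e2 : c.ev S (Submodule.Quotient.mk (Finsupp.single s a)) = a • c.per s.N s.ω s.σ := by
        simp [Comparison.ev]
      have e3 : c.evAlg S (Ideal.Quotient.mk (Ideal.span {r | AlgRel HdR HB S r})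
          (MvPolynomial.X s)) = c.per s.N s.ω s.σ := by
        have : c.evAlg S (Ideal.Quotient.mk (Ideal.span {r | AlgRel HdR HB S r})
          (MvPolynomial.X s)) = MvPolynomial.aeval
            (fun s : Symb HdR HB S => c.per s.N s.ω s.σ) (MvPolynomial.X s) := rfl
        rw [this, MvPolynomial.aeval_X]
      rw [e1, e2, map_smul, e3]
  refine ⟨key, fun hS => ?_⟩
  have hb := h1 HdR HB S hS
  have hc : (fun x => c.evAlg S (toPerAlg HdR HB S x)) = c.ev S := funext key
  constructor
  · intro h
    rw [← hc]
    exact h.comp hb.1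
  · intro h x y hxy
    obtain ⟨x, rfl⟩ := hb.2 x
    obtain ⟨y, rfl⟩ := hb.2 y
    rw [key, key] at hxy
    rw [h hxy]

end Pool.Agent.Lib.MP_ae0f86_nt
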