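import Pool.Agent.Lib.MP_ae0f86_nt.StmA

open CategoryTheory CategoryTheory.Limits Opposite MonoidalCategory

universe v u

namespace Pool.Agent.Lib.MP_ae0f86_nt

theorem p_exc {k : Type} [Field k] {A : Type u} [Category.{v} A] [Abelian A] [MonoidalCategory A]
    (T : CohTheory k A) : S_exc T := by
  intro ι _ X Y X' Y' hX hY h hX' hY' h' hXX' hYY' e1 e2
  subst e1
  subst e2
  exact fun i => T.excision i hX hY'

end Pool.Agent.Lib.MP_ae0f86_nt
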