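import Pool.Agent.Lib.MP_ae0f86_nt.StmT

/-!
# MP_ae0f86_nt : [GP fgdim]
-/

universe w

namespace Pool.Agent.Lib.MP_ae0f86_nt

theorem p_fgdim (h1 : S_intdim.{w, 0}) : S_fgdim.{w} := by
  intro K _ R _ _ _ _
  obtain ⟨s, g, ginj, gint⟩ := exists_integral_inj_algHom_of_fg K R
  have hdim : ringKrullDim R = (s : WithBot ℕ∞) := by
    have h := h1 (MvPolynomial (Fin s) K) R g.toRingHom ginj gint
    rw [← h, MvPolynomial.ringKrullDim_of_isNoetherianRing, ringKrullDim_eq_zero_of_field,
      zero_add, Nat.card_eq_fintype_card, Fintype.card_fin]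
  have htr : Algebra.trdeg K R = (s : Cardinal) := by
    algebraize [g.toRingHom]
    have : IsScalarTower K (MvPolynomial (Fin s) K) R :=
      IsScalarTower.of_algebraMap_eq fun x => (g.commutes x).symm
    have : FaithfulSMul (MvPolynomial (Fin s) K) R :=
      (faithfulSMul_iff_algebraMap_injective _ _).mpr ginj
    have hb := (IsTranscendenceBasis.mvPolynomial (Fin s) K).algebraMap_comp (A := R)
    have hc := hb.lift_cardinalMk_eq_trdeg
    simpa using hc.symm
  rw [hdim, htr]
  refine ⟨by simp, ?_⟩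
  intro h
  have h' : ((s : ℕ∞) : WithBot ℕ∞) = ((⊤ : ℕ∞) : WithBot ℕ∞) := h
  rw [WithBot.coe_inj] at h'
  exact ENat.natCast_ne_top s h'

end Pool.Agent.Lib.MP_ae0f86_nt
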