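import Pool.Agent.Lib.MP_ae0f86_nt.StmB

open MvPolynomial

universe v u

namespace Pool.Agent.Lib.MP_ae0f86_nt

theorem p_fin_span {k : Type} [Field k] {ι : Type} (S : Set (MvPolynomial ι k)) (x : ι → k) :
    (∀ f ∈ S, eval x f = 0) ↔ ∀ f ∈ Ideal.span S, eval x f = 0 := by
  have h : (∀ f ∈ S, eval x f = 0) ↔ Ideal.span S ≤ RingHom.ker (eval x) := by
    rw [Ideal.span_le]; rfl
  rw [h]; rfl

theorem p_fin {k : Type} [Field k] : S_fin k := by
  intro ι _ X hX
  obtain ⟨S, rfl⟩ := hX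
  have hfg : (Ideal.span S).FG := IsNoetherian.noetherian _
  obtain ⟨r, f, hf⟩ := Submodule.fg_iff_exists_fin_generating_family.1 hfg
  refine ⟨r, f, ?_⟩
  ext x
  simp only [Set.mem_ofPred_eq, zl]
  rw [p_fin_span S x, ← hf, ← Ideal.span, ← p_fin_span (Set.range f) x, Set.forall_mem_range]

end Pool.Agent.Lib.MP_ae0f86_nt
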