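import Pool.Agent.Lib.MP_ae0f86_nt.StmE

/-!
# MP_ae0f86_nt : [GP fincat] a vanishing formal period vanishes in a finitely generated class
-/

open CategoryTheory CategoryTheory.Limits Opposite MonoidalCategory

universe v u

namespace Pool.Agent.Lib.MP_ae0f86_nt

attribute [local instance] CategoryTheory.Abelian.hasFiniteBiproducts

/-- The span of the relations of the class `S`, mapped into the symbols of `S'`. -/
noncomputable def p_fincat_im {A : Type u} [Category.{v} A] [Abelian A] {K : Type} [Field K]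
    (H : A ⥤ ModuleCat.{0} K) (HB : A ⥤ ModuleCat.{0} ℚ) {S S' : A → Prop}
    (h : ∀ N, S N → S' N) : Submodule K (Symb H HB S' →₀ K) :=
  Submodule.map (Finsupp.lmapDomain K K (symbMap H HB h)) (Submodule.span K {r | LinRel H HB S r})

theorem p_fincat_mono {A : Type u} [Category.{v} A] [Abelian A] {K : Type} [Field K]
    (H : A ⥤ ModuleCat.{0} K) (HB : A ⥤ ModuleCat.{0} ℚ) {S S₁ S' : A → Prop}
    (h : ∀ N, S N → S' N) (h₁ : ∀ N, S₁ N → S' N) (h₂ : ∀ N, S N → S₁ N) :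
    p_fincat_im H HB h ≤ p_fincat_im (K := K) H HB h₁ := by
  unfold p_fincat_im
  rw [Submodule.map_le_iff_le_comap, Submodule.span_le]
  intro r hr
  refine ⟨Finsupp.mapDomain (symbMap H HB h₂) r,
    Submodule.subset_span (symbMap_rel H HB h₂ r hr), ?_⟩
  show Finsupp.mapDomain _ (Finsupp.mapDomain _ r) = Finsupp.mapDomain _ r
  rw [← Finsupp.mapDomain_comp]
  rfl

theorem p_fincat_fin {A : Type u} [Category.{v} A] [Abelian A] {K : Type} [Field K]
    (H : A ⥤ ModuleCat.{0} K) (HB : A ⥤ ModuleCat.{0} ℚ) {S S' : A → Prop}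
    (h : ∀ N, S N → S' N) (s : Symb H HB S) :
    (Finsupp.lmapDomain K K (symbMap H HB h)) s.fin = (symbMap H HB h s).fin := by
  show Finsupp.mapDomain _ _ = _
  rw [Finsupp.mapDomain_single]

theorem p_fincat {A : Type u} [Category.{v} A] [Abelian A] {K : Type} [Field K]
    (H : A ⥤ ModuleCat.{0} K) (HB : A ⥤ ModuleCat.{0} ℚ) (h1 : S_lincl A) :
    S_fincat H HB := by
  intro S' hS' N hN ω σ h0
  obtain ⟨-, hself, hcl, hfam, htr⟩ := h1
  have hc : ∀ {W : A}, S' W → ∀ N, Lin W N → S' N := fun hW => hcl S' _ hS' hW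
  have pair : ∀ {M M' : A}, S' M → S' M' → ∃ W, S' W ∧ Lin W M ∧ Lin W M' := by
    intro M M' hM hM'
    obtain ⟨W, hW, h⟩ := hfam S' hS' 2 ![M, M'] (by
      intro a
      fin_cases a
      · exact hM
      · exact hM')
    exact ⟨W, hW, h 0, h 1⟩
  have key : ∀ x ∈ Submodule.span K {r | LinRel H HB S' r}, ∃ (W : A) (hW : S' W),
      x ∈ p_fincat_im H HB (hc hW) := by
    intro x hx
    induction hx using Submodule.span_induction with
    | mem x hx =>
      rcases hx with ⟨N, hN, ω, ω', σ⟩ | ⟨N, hN, a, ω, σ⟩ | ⟨N, hN, ω, σ, σ'⟩ |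
        ⟨N, hN, q, ω, σ⟩ | ⟨N, N', hN, hN', f, ω, σ'⟩
      · refine ⟨N, hN, _, Submodule.subset_span (LinRel.add_left N (hself N) ω ω' σ), ?_⟩
        simp only [map_sub, p_fincat_fin]
        rfl
      · refine ⟨N, hN, _, Submodule.subset_span (LinRel.smul_left N (hself N) a ω σ), ?_⟩
        simp only [map_sub, map_smul, p_fincat_fin]
        rfl
      · refine ⟨N, hN, _, Submodule.subset_span (LinRel.add_right N (hself N) ω σ σ'), ?_⟩
        simp only [map_sub, p_fincat_fin]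
        rfl
      · refine ⟨N, hN, _, Submodule.subset_span (LinRel.smul_right N (hself N) q ω σ), ?_⟩
        simp only [map_sub, map_smul, p_fincat_fin]
        rfl
      · obtain ⟨W, hW, hM, hM'⟩ := pair hN hN'
        refine ⟨W, hW, _, Submodule.subset_span (LinRel.funct N N' hM hM' f ω σ'), ?_⟩
        simp only [map_sub, p_fincat_fin]
        rfl
    | zero =>
      obtain ⟨W, hW⟩ := hS'.ne
      exact ⟨W, hW, Submodule.zero_mem _⟩
    | add x y _ _ hx hy =>
      obtain ⟨W₁, hW₁, hx⟩ := hx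
      obtain ⟨W₂, hW₂, hy⟩ := hy
      obtain ⟨W, hW, h₁, h₂⟩ := pair hW₁ hW₂
      exact ⟨W, hW, Submodule.add_mem _
        (p_fincat_mono H HB (hc hW₁) (hc hW) (fun N hN => htr W W₁ N h₁ hN) hx)
        (p_fincat_mono H HB (hc hW₂) (hc hW) (fun N hN => htr W W₂ N h₂ hN) hy)⟩
    | smul a x _ hx =>
      obtain ⟨W, hW, hx⟩ := hx
      exact ⟨W, hW, Submodule.smul_mem _ a hx⟩
  obtain ⟨W₁, hW₁, hx⟩ := key _ ((Submodule.Quotient.mk_eq_zero _).1 h0)
  obtain ⟨W, hW, h₁, hWN⟩ := pair hW₁ hN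
  obtain ⟨y, hy, hyx⟩ :=
    p_fincat_mono H HB (hc hW₁) (hc hW) (fun N hN => htr W W₁ N h₁ hN) hx
  refine ⟨W, hW, hWN, (Submodule.Quotient.mk_eq_zero _).2 ?_⟩
  have hinj : Function.Injective (symbMap H HB (hc hW)) := by
    rintro ⟨N₁, m₁, ω₁, σ₁⟩ ⟨N₂, m₂, ω₂, σ₂⟩ h
    simp only [symbMap, Symb.mk.injEq] at h
    obtain ⟨rfl, h2, h3⟩ := h
    simp only [heq_eq_eq] at h2 h3
    subst h2 h3
    rfl
  have : y = Symb.fin ⟨N, hWN, ω, σ⟩ := by
    apply Finsupp.mapDomain_injective hinj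
    refine hyx.trans ?_
    rw [Finsupp.mapDomain_single]
    rfl
  rw [← this]
  exact hy

end Pool.Agent.Lib.MP_ae0f86_nt
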