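import Pool.Agent.Lib.MP_ae0f86_nt.StmT

/-!
# MP_ae0f86_nt : the formal period algebra of `⟨M⟩` is finitely generated
-/

open CategoryTheory CategoryTheory.Limits Opposite MonoidalCategory

universe w v u

namespace Pool.Agent.Lib.MP_ae0f86_nt

noncomputable section

attribute [local instance] CategoryTheory.Abelian.hasFiniteBiproducts

section

variable {A : Type u} [Category.{v} A] [Abelian A] [MonoidalCategory A] [SymmetricCategory A]
  {K : Type} [Field K] (H : A ⥤ ModuleCat.{0} K) (HB : A ⥤ ModuleCat.{0} ℚ)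
  [FibreFunctor H] [FibreFunctor HB] {S : A → Prop}

private theorem p_fintype_to {N : A} (hN : S N) (ω : H.obj N)
    (σ : Module.Dual ℚ (HB.obj N)) :
    toPerAlg H HB S (sym H HB hN ω σ) = asym H HB hN ω σ := by
  unfold toPerAlg sym
  rw [Submodule.liftQ_apply]
  simp [Symb.fin, asym]

private theorem p_fintype_addl {N : A} (hN : S N) (ω ω' : H.obj N)
    (σ : Module.Dual ℚ (HB.obj N)) :
    asym H HB hN (ω + ω') σ = asym H HB hN ω σ + asym H HB hN ω' σ := by
  have h : sym H HB hN (ω + ω') σ = sym H HB hN ω σ + sym H HB hN ω' σ := by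
    unfold sym
    rw [← Submodule.Quotient.mk_add, Submodule.Quotient.eq, ← sub_sub]
    exact Submodule.subset_span (LinRel.add_left N hN ω ω' σ)
  rw [← p_fintype_to, h, map_add, p_fintype_to, p_fintype_to]

private theorem p_fintype_smull {N : A} (hN : S N) (a : K) (ω : H.obj N)
    (σ : Module.Dual ℚ (HB.obj N)) :
    asym H HB hN (a • ω) σ = a • asym H HB hN ω σ := by
  have h : sym H HB hN (a • ω) σ = a • sym H HB hN ω σ := by
    unfold sym
    rw [← Submodule.Quotient.mk_smul, Submodule.Quotient.eq]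
    exact Submodule.subset_span (LinRel.smul_left N hN a ω σ)
  rw [← p_fintype_to, h, map_smul, p_fintype_to]

private theorem p_fintype_addr {N : A} (hN : S N) (ω : H.obj N)
    (σ σ' : Module.Dual ℚ (HB.obj N)) :
    asym H HB hN ω (σ + σ') = asym H HB hN ω σ + asym H HB hN ω σ' := by
  have h : sym H HB hN ω (σ + σ') = sym H HB hN ω σ + sym H HB hN ω σ' := by
    unfold sym
    rw [← Submodule.Quotient.mk_add, Submodule.Quotient.eq, ← sub_sub]
    exact Submodule.subset_span (LinRel.add_right N hN ω σ σ')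
  rw [← p_fintype_to, h, map_add, p_fintype_to, p_fintype_to]

private theorem p_fintype_smulr {N : A} (hN : S N) (q : ℚ) (ω : H.obj N)
    (σ : Module.Dual ℚ (HB.obj N)) :
    asym H HB hN ω (q • σ) = (q : K) • asym H HB hN ω σ := by
  have h : sym H HB hN ω (q • σ) = (q : K) • sym H HB hN ω σ := by
    unfold sym
    rw [← Submodule.Quotient.mk_smul, Submodule.Quotient.eq]
    exact Submodule.subset_span (LinRel.smul_right N hN q ω σ)
  rw [← p_fintype_to, h, map_smul, p_fintype_to]

private theorem p_fintype_mem {N : A} (hN : S N) {I J : Type} (ωb : Module.Basis I K (H.obj N))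
    (d : Module.Basis J ℚ (Module.Dual ℚ (HB.obj N))) (T : Subalgebra K (PerAlg H HB S))
    (hT : ∀ i j, asym H HB hN (ωb i) (d j) ∈ T) (ω : H.obj N)
    (σ : Module.Dual ℚ (HB.obj N)) : asym H HB hN ω σ ∈ T := by
  have key : ∀ i, ∀ σ : Module.Dual ℚ (HB.obj N), asym H HB hN (ωb i) σ ∈ T := by
    intro i σ
    have hσ : σ ∈ Submodule.span ℚ (Set.range d) := by
      rw [d.span_eq]
      exact Submodule.mem_top
    induction hσ using Submodule.span_induction with
    | mem x hx =>
      obtain ⟨j, rfl⟩ := hx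
      exact hT i j
    | zero =>
      have h0 := p_fintype_smulr H HB hN 0 (ωb i) (0 : Module.Dual ℚ (HB.obj N))
      rw [zero_smul, Rat.cast_zero, zero_smul] at h0
      rw [h0]
      exact T.zero_mem
    | add x y _ _ hx hy =>
      rw [p_fintype_addr]
      exact T.add_mem hx hy
    | smul q x _ hx =>
      rw [p_fintype_smulr]
      exact T.smul_mem hx _
  have hω : ω ∈ Submodule.span K (Set.range ωb) := by
    rw [ωb.span_eq]
    exact Submodule.mem_top
  induction hω using Submodule.span_induction with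
  | mem x hx =>
    obtain ⟨i, rfl⟩ := hx
    exact key i σ
  | zero =>
    have h0 := p_fintype_smull H HB hN 0 (0 : H.obj N) σ
    rw [zero_smul, zero_smul] at h0
    rw [h0]
    exact T.zero_mem
  | add x y _ _ hx hy =>
    rw [p_fintype_addl]
    exact T.add_mem hx hy
  | smul a x _ hx =>
    rw [p_fintype_smull]
    exact T.smul_mem hx _

end

theorem p_fintype {A : Type u} [Category.{v} A] [Abelian A] [MonoidalCategory A]
    [SymmetricCategory A] {K : Type} [Field K] (H : A ⥤ ModuleCat.{0} K)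
    (HB : A ⥤ ModuleCat.{0} ℚ) [FibreFunctor H] [FibreFunctor HB] [RigidCategory A]
    (h1 : S_gens H HB) : S_fintype H HB := by
  intro M
  have f1 : Module.Finite K (H.obj M) := FibreFunctor.finite M
  have f2 : Module.Finite ℚ (HB.obj M) := FibreFunctor.finite M
  have f3 : Module.Finite K (H.obj (Mᘁ)) := FibreFunctor.finite (Mᘁ)
  have f4 : Module.Finite ℚ (HB.obj (Mᘁ)) := FibreFunctor.finite (Mᘁ)
  let a := Module.finBasis K (H.obj M)
  let b := Module.finBasis ℚ (Module.Dual ℚ (HB.obj M))
  let a' := Module.finBasis K (H.obj (Mᘁ))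
  let b' := Module.finBasis ℚ (Module.Dual ℚ (HB.obj (Mᘁ)))
  let X : Set (PerAlg H HB (Gen M)) :=
    (Set.range fun p : Fin _ × Fin _ =>
      asym H HB (S := Gen M) (N := M) Gen.base (a p.1) (b p.2)) ∪
    (Set.range fun p : Fin _ × Fin _ =>
      asym H HB (S := Gen M) (N := Mᘁ) (Gen.dual Gen.base) (a' p.1) (b' p.2))
  have hX : X.Finite := (Set.finite_range _).union (Set.finite_range _)
  refine ⟨Subalgebra.fg_def.2 ⟨X, hX, ?_⟩⟩
  rw [eq_top_iff, ← h1 M, Algebra.adjoin_le_iff]
  rintro r (⟨ω, σ, rfl⟩ | ⟨ω, σ, rfl⟩)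
  · exact p_fintype_mem H HB _ a b _
      (fun i j => Algebra.subset_adjoin (Or.inl ⟨(i, j), rfl⟩)) ω σ
  · exact p_fintype_mem H HB _ a' b' _
      (fun i j => Algebra.subset_adjoin (Or.inr ⟨(i, j), rfl⟩)) ω σ

end

end Pool.Agent.Lib.MP_ae0f86_nt
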