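import Pool.Agent.Lib.MP_ae0f86_nt.StmE

/-!
# MP_ae0f86_nt : piece fpring
-/

open CategoryTheory CategoryTheory.Limits MonoidalCategory

universe v u w

namespace Pool.Agent.Lib.MP_ae0f86_nt

set_option linter.unusedSectionVars false
set_option linter.unusedVariables false

attribute [local instance] CategoryTheory.Abelian.hasFiniteBiproducts

/-- A commutative, associative and unital bilinear product makes a vector space an algebra. -/
private theorem exists_ring {K : Type} [Field K] {V : Type w} [AddCommGroup V] [Module K V]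
    (μ : V →ₗ[K] V →ₗ[K] V) (e : V) (hcomm : ∀ x y, μ x y = μ y x)
    (hassoc : ∀ x y z, μ (μ x y) z = μ x (μ y z)) (hone : ∀ x, μ e x = x) :
    ∃ (V' : Type w) (_ : CommRing V') (_ : Algebra K V') (φ : V ≃ₗ[K] V'), φ e = 1 ∧
      ∀ x y, φ (μ x y) = φ x * φ y := by
  let R : CommRing V :=
    { (inferInstance : AddCommGroup V) with
      mul := fun x y => μ x y
      one := e
      mul_assoc := hassoc
      mul_comm := hcomm
      one_mul := hone
      mul_one := fun x => (hcomm x e).trans (hone x)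
      left_distrib := fun x y z => (μ x).map_add y z
      right_distrib := fun x y z => by
        change μ (x + y) z = μ x z + μ y z
        rw [map_add]
        rfl
      zero_mul := fun x => by
        change μ 0 x = 0
        rw [map_zero]
        rfl
      mul_zero := fun x => (μ x).map_zero }
  let _ : Algebra K V := Algebra.ofModule (fun r x y => by
    change μ (r • x) y = r • μ x y
    rw [map_smul]
    rfl) (fun r x y => (μ x).map_smul r y)
  exact ⟨V, R, inferInstance, LinearEquiv.refl K V, rfl, fun _ _ => rfl⟩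

section

variable {A : Type u} [Category.{v} A] [Abelian A] [MonoidalCategory A] [SymmetricCategory A]

private theorem map_id_apply' {K : Type} [Field K] (H : A ⥤ ModuleCat.{0} K) {X : A}
    (x : H.obj X) : (H.map (𝟙 X)).hom x = x := by
  rw [CategoryTheory.Functor.map_id]
  rfl

private theorem ext2 {K : Type} [Field K] (HB : A ⥤ ModuleCat.{0} K) [FibreFunctor HB] {M N : A}
    (σ τ : Module.Dual K (HB.obj (M ⊗ N)))
    (h : ∀ x y, σ (FibreFunctor.mul M N x y) = τ (FibreFunctor.mul M N x y)) : σ = τ := by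
  have h2 : σ ∘ₗ TensorProduct.lift (FibreFunctor.mul (H := HB) M N) =
      τ ∘ₗ TensorProduct.lift (FibreFunctor.mul (H := HB) M N) := by
    refine TensorProduct.ext' fun x y => ?_
    simpa using h x y
  refine LinearMap.ext fun z => ?_
  obtain ⟨t, rfl⟩ := (FibreFunctor.bij (H := HB) M N).2 z
  exact LinearMap.congr_fun h2 t

private theorem ext3 {K : Type} [Field K] (HB : A ⥤ ModuleCat.{0} K) [FibreFunctor HB]
    {M N P : A} (σ τ : Module.Dual K (HB.obj ((M ⊗ N) ⊗ P)))
    (h : ∀ x y z, σ (FibreFunctor.mul (M ⊗ N) P (FibreFunctor.mul M N x y) z) =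
      τ (FibreFunctor.mul (M ⊗ N) P (FibreFunctor.mul M N x y) z)) : σ = τ := by
  refine ext2 HB σ τ fun x' z => ?_
  have h2 := ext2 HB (σ ∘ₗ (FibreFunctor.mul (H := HB) (M ⊗ N) P).flip z)
    (τ ∘ₗ (FibreFunctor.mul (H := HB) (M ⊗ N) P).flip z) (fun x y => h x y z)
  exact LinearMap.congr_fun h2 x'

private theorem exists_one {K : Type} [Field K] (HB : A ⥤ ModuleCat.{0} K) [FibreFunctor HB] :
    ∃ σ : Module.Dual K (HB.obj (𝟙_ A)), σ FibreFunctor.one = 1 := by
  have h := FibreFunctor.one_bij (H := HB)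
  let E : K ≃ₗ[K] HB.obj (𝟙_ A) :=
    LinearEquiv.ofBijective (LinearMap.toSpanSingleton K _ (FibreFunctor.one (H := HB))) h
  refine ⟨E.symm.toLinearMap, ?_⟩
  have : E 1 = FibreFunctor.one (H := HB) := by
    change (1 : K) • FibreFunctor.one (H := HB) = _
    rw [one_smul]
  rw [← this]
  exact E.symm_apply_apply 1

private theorem ext1 {K : Type} [Field K] (HB : A ⥤ ModuleCat.{0} K) [FibreFunctor HB]
    (σ τ : Module.Dual K (HB.obj (𝟙_ A))) (h : σ FibreFunctor.one = τ FibreFunctor.one) :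
    σ = τ := by
  refine LinearMap.ext fun x => ?_
  obtain ⟨a, rfl⟩ := (FibreFunctor.one_bij (H := HB)).2 x
  simp only [map_smul, h]

private theorem main (h1 : ∀ {K : Type} [Field K] (H : A ⥤ ModuleCat.{0} K)
      (HB : A ⥤ ModuleCat.{0} ℚ), S_fprel H HB)
    (h2 : ∀ {K : Type} [Field K] (H : A ⥤ ModuleCat.{0} K) (HB : A ⥤ ModuleCat.{0} ℚ),
      S_single H HB)
    (h3 : S_algrel (A := A)) {K : Type} [Field K] (H : A ⥤ ModuleCat.{0} K)
    (HB : A ⥤ ModuleCat.{0} ℚ) [FibreFunctor H] [FibreFunctor HB] (S : A → Prop)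
    (hS : TClosed S) (σ1 : Module.Dual ℚ (HB.obj (𝟙_ A))) (hσ1 : σ1 FibreFunctor.one = 1) :
    ∃ μ : FP H HB S →ₗ[K] FP H HB S →ₗ[K] FP H HB S,
      (∀ {M N : A} (hM : S M) (hN : S N) (ω : H.obj M) (η : H.obj N)
        (σ : Module.Dual ℚ (HB.obj M)) (τ : Module.Dual ℚ (HB.obj N)),
        μ (sym H HB hM ω σ) (sym H HB hN η τ) =
          sym H HB (hS.tensor hM hN) (FibreFunctor.mul M N ω η) (tdual HB σ τ)) ∧
      (∀ x y, μ x y = μ y x) ∧ (∀ x y z, μ (μ x y) z = μ x (μ y z)) ∧
      (∀ x, μ (sym H HB hS.unit FibreFunctor.one σ1) x = x) := by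
  obtain ⟨r1, r2, r3, r4, r5, r6, r7⟩ := h1 H HB S
  obtain ⟨a1, a2, a3, a4⟩ := h3 H HB S
  have hsingle := h2 H HB S hS.toClosed
  -- the product of symbols
  let m : Symb H HB S → Symb H HB S → FP H HB S := fun s t =>
    sym H HB (hS.tensor s.mem t.mem) (FibreFunctor.mul s.N t.N s.ω t.ω) (tdual HB s.σ t.σ)
  have mcomm : ∀ s t, m s t = m t s := by
    intro s t
    have e : tdual HB s.σ t.σ = tdual HB t.σ s.σ ∘ₗ (HB.map (β_ s.N t.N).hom).hom := by
      refine ext2 HB _ _ fun x y => ?_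
      rw [LinearMap.comp_apply, FibreFunctor.mul_comm, a4, a4, mul_comm]
    change sym H HB _ _ _ = sym H HB _ _ _
    rw [e, r5 (hS.tensor s.mem t.mem) (hS.tensor t.mem s.mem), FibreFunctor.mul_comm]
  let L : Symb H HB S → ((Symb H HB S →₀ K) →ₗ[K] FP H HB S) := fun s =>
    Finsupp.linearCombination K (m s)
  have hL : ∀ s t, L s (Symb.fin t) = m s t := by
    intro s t
    simp [L]
  have hrel : ∀ s, Submodule.span K {r | LinRel H HB S r} ≤ LinearMap.ker (L s) := by
    intro s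
    rw [Submodule.span_le]
    rintro r (⟨N, hN, ω, ω', σ⟩ | ⟨N, hN, a, ω, σ⟩ | ⟨N, hN, ω, σ, σ'⟩ | ⟨N, hN, q, ω, σ⟩ |
      ⟨N, N', hN, hN', f, ω, σ'⟩) <;> rw [SetLike.mem_coe, LinearMap.mem_ker]
    · rw [map_sub, map_sub, hL, hL, hL]
      change sym H HB _ (FibreFunctor.mul s.N N s.ω (ω + ω')) _ - sym H HB _ _ _ -
        sym H HB _ _ _ = 0
      rw [map_add, r1]
      abel
    · rw [map_sub, map_smul, hL, hL]
      change sym H HB _ (FibreFunctor.mul s.N N s.ω (a • ω)) _ - a • sym H HB _ _ _ = 0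
      rw [map_smul, r2, sub_self]
    · rw [map_sub, map_sub, hL, hL, hL]
      have e : tdual HB s.σ (σ + σ') = tdual HB s.σ σ + tdual HB s.σ σ' := by
        refine ext2 HB _ _ fun x y => ?_
        rw [LinearMap.add_apply, a4, a4, a4, LinearMap.add_apply, mul_add]
      change sym H HB _ _ (tdual HB s.σ (σ + σ')) - sym H HB _ _ _ - sym H HB _ _ _ = 0
      rw [e, r3]
      abel
    · rw [map_sub, map_smul, hL, hL]
      have e : tdual HB s.σ (q • σ) = q • tdual HB s.σ σ := by
        refine ext2 HB _ _ fun x y => ?_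
        rw [LinearMap.smul_apply, a4, a4, LinearMap.smul_apply, smul_eq_mul, smul_eq_mul]
        ring
      change sym H HB _ _ (tdual HB s.σ (q • σ)) - (q : K) • sym H HB _ _ _ = 0
      rw [e, r4, sub_self]
    · rw [map_sub, hL, hL]
      have e : tdual HB s.σ (σ' ∘ₗ (HB.map f).hom) =
          tdual HB s.σ σ' ∘ₗ (HB.map (𝟙 s.N ⊗ₘ f)).hom := by
        refine ext2 HB _ _ fun x y => ?_
        rw [LinearMap.comp_apply, FibreFunctor.mul_nat, a4, a4, map_id_apply',
          LinearMap.comp_apply]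
      change sym H HB _ _ (tdual HB s.σ (σ' ∘ₗ (HB.map f).hom)) -
        sym H HB _ (FibreFunctor.mul s.N N' s.ω ((H.map f).hom ω)) (tdual HB s.σ σ') = 0
      rw [e, r5 (hS.tensor s.mem hN) (hS.tensor s.mem hN'), FibreFunctor.mul_nat,
        map_id_apply', sub_self]
  let M : Symb H HB S → (FP H HB S →ₗ[K] FP H HB S) := fun s =>
    Submodule.liftQ _ (L s) (hrel s)
  have hM : ∀ s (r : Symb H HB S →₀ K), M s (Submodule.Quotient.mk r) = L s r := fun s r => rfl
  let L2 : (Symb H HB S →₀ K) →ₗ[K] (FP H HB S →ₗ[K] FP H HB S) :=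
    Finsupp.linearCombination K M
  have hL2 : ∀ s, L2 (Symb.fin s) = M s := by
    intro s
    simp [L2]
  have hL2' : ∀ (r : Symb H HB S →₀ K) (t : Symb H HB S),
      L2 r (Submodule.Quotient.mk (Symb.fin t)) = L t r := by
    intro r t
    induction r using Finsupp.induction_linear with
    | zero => simp
    | add f g hf hg => rw [map_add, LinearMap.add_apply, hf, hg, map_add]
    | single s a =>
      have : (Finsupp.single s a : Symb H HB S →₀ K) = a • Symb.fin s := by
        rw [Finsupp.smul_single, smul_eq_mul, mul_one]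
      rw [this, map_smul, LinearMap.smul_apply, hL2, hM, hL, map_smul, hL, mcomm]
  have hrel2 : Submodule.span K {r | LinRel H HB S r} ≤ LinearMap.ker L2 := by
    intro r hr
    rw [LinearMap.mem_ker]
    refine LinearMap.ext fun x => ?_
    obtain ⟨N, hN, ω, σ, rfl⟩ := hsingle x
    change L2 r (Submodule.Quotient.mk (Symb.fin ⟨N, hN, ω, σ⟩)) = 0
    rw [hL2']
    exact hrel _ hr
  let μ : FP H HB S →ₗ[K] FP H HB S →ₗ[K] FP H HB S := Submodule.liftQ _ L2 hrel2
  have hμ : ∀ {M N : A} (hM : S M) (hN : S N) (ω : H.obj M) (η : H.obj N)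
        (σ : Module.Dual ℚ (HB.obj M)) (τ : Module.Dual ℚ (HB.obj N)),
        μ (sym H HB hM ω σ) (sym H HB hN η τ) =
          sym H HB (hS.tensor hM hN) (FibreFunctor.mul M N ω η) (tdual HB σ τ) := by
    intro M N hM hN ω η σ τ
    have e : μ (sym H HB hM ω σ) (sym H HB hN η τ) =
        L2 (Symb.fin ⟨M, hM, ω, σ⟩) (Submodule.Quotient.mk (Symb.fin ⟨N, hN, η, τ⟩)) := rfl
    rw [e, hL2', hL, mcomm]
  refine ⟨μ, hμ, ?_, ?_, ?_⟩
  · intro x y
    obtain ⟨N, hN, ω, σ, rfl⟩ := hsingle x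
    obtain ⟨N', hN', ω', σ', rfl⟩ := hsingle y
    rw [hμ, hμ]
    exact mcomm ⟨N, hN, ω, σ⟩ ⟨N', hN', ω', σ'⟩
  · intro x y z
    obtain ⟨N, hN, ω, σ, rfl⟩ := hsingle x
    obtain ⟨N', hN', ω', σ', rfl⟩ := hsingle y
    obtain ⟨N'', hN'', ω'', σ'', rfl⟩ := hsingle z
    rw [hμ, hμ, hμ, hμ]
    have e : tdual HB (tdual HB σ σ') σ'' =
        tdual HB σ (tdual HB σ' σ'') ∘ₗ (HB.map (α_ N N' N'').hom).hom := by
      refine ext3 HB _ _ fun x y z => ?_
      rw [LinearMap.comp_apply, FibreFunctor.mul_assoc, a4, a4, a4, a4, mul_assoc]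
    rw [e, r5 (hS.tensor (hS.tensor hN hN') hN'') (hS.tensor hN (hS.tensor hN' hN'')),
      FibreFunctor.mul_assoc]
  · intro x
    obtain ⟨N, hN, ω, σ, rfl⟩ := hsingle x
    rw [hμ]
    have e : tdual HB σ1 σ = σ ∘ₗ (HB.map (λ_ N).hom).hom := by
      refine ext2 HB _ _ fun x y => ?_
      obtain ⟨a, rfl⟩ := (FibreFunctor.one_bij (H := HB)).2 x
      simp only [map_smul, LinearMap.smul_apply, LinearMap.comp_apply]
      rw [FibreFunctor.one_mul, a4, hσ1, one_mul]
    rw [e, r5 (hS.tensor hS.unit hN) hN, FibreFunctor.one_mul]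

end

/-- [GP fpring] -/
theorem p_fpring {A : Type u} [Category.{v} A] [Abelian A] [MonoidalCategory A]
    [SymmetricCategory A]
    (h1 : ∀ {K : Type} [Field K] (H : A ⥤ ModuleCat.{0} K) (HB : A ⥤ ModuleCat.{0} ℚ),
      S_fprel H HB)
    (h2 : ∀ {K : Type} [Field K] (H : A ⥤ ModuleCat.{0} K) (HB : A ⥤ ModuleCat.{0} ℚ),
      S_single H HB)
    (h3 : S_algrel (A := A)) : S_fpring (A := A) := by
  intro K _ _ H HB _ _ S hS
  obtain ⟨σ1, hσ1⟩ := exists_one HB
  obtain ⟨μ, hμ, hcomm, hassoc, hone⟩ := main h1 h2 h3 H HB S hS σ1 hσ1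
  obtain ⟨V', _, _, φ, hφ1, hφ⟩ := exists_ring μ _ hcomm hassoc hone
  obtain ⟨r1, r2, r3, r4, r5, r6, r7⟩ := h1 H HB S
  obtain ⟨a1, a2, a3, a4⟩ := h3 H HB S
  have hsingle := h2 H HB S hS.toClosed
  constructor
  · let F : MvPolynomial (Symb H HB S) K →ₐ[K] V' :=
      MvPolynomial.aeval (fun s => φ (sym H HB s.mem s.ω s.σ))
    have hF : ∀ s, F (MvPolynomial.X s) = φ (sym H HB s.mem s.ω s.σ) := fun s =>
      MvPolynomial.aeval_X _ s
    have hlin : ∀ r : Symb H HB S →₀ K, F (Finsupp.linearCombination K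
        (fun s => (MvPolynomial.X s : MvPolynomial _ K)) r) = φ (Submodule.Quotient.mk r) := by
      intro r
      induction r using Finsupp.induction_linear with
      | zero => simp
      | add f g hf hg => rw [map_add, map_add, hf, hg, Submodule.Quotient.mk_add, map_add]
      | single s a =>
        have : (Finsupp.single s a : Symb H HB S →₀ K) = a • Symb.fin s := by
          rw [Finsupp.smul_single, smul_eq_mul, mul_one]
        rw [Finsupp.linearCombination_single, map_smul, hF, this, Submodule.Quotient.mk_smul,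
          map_smul]
        rfl
    have hker : ∀ a ∈ Ideal.span {r | AlgRel H HB S r}, F a = 0 := by
      have : Ideal.span {r | AlgRel H HB S r} ≤ RingHom.ker F.toRingHom := by
        rw [Ideal.span_le]
        rintro r (⟨r, hr⟩ | ⟨s, s', h, σ, hσ⟩ | ⟨h, σ, hσ⟩) <;>
          simp only [SetLike.mem_coe, RingHom.mem_ker, AlgHom.toRingHom_eq_coe, RingHom.coe_coe]
        · rw [hlin, (Submodule.Quotient.mk_eq_zero _).2 (Submodule.subset_span hr), map_zero]
        · have e : σ = tdual HB s.σ s'.σ := ext2 HB _ _ fun x y => (hσ x y).trans (by rw [a4])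
          rw [map_sub, map_mul, hF, hF, hF, ← hφ, hμ, e, sub_self]
        · have e : σ = σ1 := ext1 HB _ _ (hσ.trans hσ1.symm)
          rw [map_sub, map_one, hF, e, hφ1, sub_self]
      exact fun a ha => this ha
    let Φ : PerAlg H HB S →ₐ[K] V' := Ideal.Quotient.liftₐ _ F hker
    have hΦ : ∀ x, Φ (toPerAlg H HB S x) = φ x := by
      intro x
      obtain ⟨N, hN, ω, σ, rfl⟩ := hsingle x
      rw [a1]
      exact hF ⟨N, hN, ω, σ⟩
    intro x y hxy
    apply φ.injective
    rw [← hΦ, ← hΦ, hxy]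
  · intro y
    obtain ⟨p, rfl⟩ := Ideal.Quotient.mk_surjective y
    induction p using MvPolynomial.induction_on with
    | C a =>
      refine ⟨a • sym H HB hS.unit FibreFunctor.one σ1, ?_⟩
      have e : (MvPolynomial.C a : MvPolynomial (Symb H HB S) K) = a • 1 := by
        rw [MvPolynomial.smul_eq_C_mul, mul_one]
      rw [map_smul, a1, a3 _ _ hσ1, e]
      rfl
    | add p q hp hq =>
      obtain ⟨x, hx⟩ := hp
      obtain ⟨x', hx'⟩ := hq
      exact ⟨x + x', by rw [map_add, map_add, hx, hx']⟩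
    | mul_X p s hp =>
      obtain ⟨x, hx⟩ := hp
      obtain ⟨N, hN, ω, σ, rfl⟩ := hsingle x
      refine ⟨sym H HB (hS.tensor hN s.mem) (FibreFunctor.mul N s.N ω s.ω) (tdual HB σ s.σ), ?_⟩
      rw [a1, map_mul, ← hx, a1, ← a2 hN s.mem]
      rfl

end Pool.Agent.Lib.MP_ae0f86_nt
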