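import Pool.Agent.Lib.MP_ae0f86_nt.StmE

/-!
# MP_ae0f86_nt : the classes generated by an object are tensor-closed
-/

open CategoryTheory CategoryTheory.Limits MonoidalCategory

universe v u

namespace Pool.Agent.Lib.MP_ae0f86_nt

attribute [local instance] CategoryTheory.Abelian.hasFiniteBiproducts

/-- The class of the objects obtained from `M` contains the finite powers of `M`. -/
theorem p_genclosed_pow {A : Type u} [Category.{v} A] [Abelian A] [MonoidalCategory A]
    [SymmetricCategory A] [RigidCategory A] (M : A) :
    ∀ n : ℕ, Gen M (⨁ fun _ : Fin n => M) := by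
  intro n
  induction n with
  | zero =>
    have he : Epi (0 : 𝟙_ A ⟶ ⨁ fun _ : Fin 0 => M) :=
      ⟨fun f g _ => biproduct.hom_ext' _ _ (fun j => j.elim0)⟩
    exact Gen.quot (0 : 𝟙_ A ⟶ ⨁ fun _ : Fin 0 => M) Gen.unit
  | succ n ih =>
    let i : (⨁ fun _ : Fin (n + 1) => M) ⟶ M ⊞ (⨁ fun _ : Fin n => M) :=
      biprod.lift (biproduct.π (fun _ : Fin (n + 1) => M) 0)
        (biproduct.lift fun j : Fin n => biproduct.π (fun _ : Fin (n + 1) => M) j.succ)
    have hi : Mono i := by
      refine ⟨fun f g h => biproduct.hom_ext _ _ (fun j => ?_)⟩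
      refine Fin.cases ?_ (fun j => ?_) j
      · have h0 : i ≫ biprod.fst = biproduct.π (fun _ : Fin (n + 1) => M) 0 :=
          biprod.lift_fst _ _
        rw [← h0, ← Category.assoc, ← Category.assoc, h]
      · have h0 : (i ≫ biprod.snd) ≫ biproduct.π (fun _ : Fin n => M) j =
            biproduct.π (fun _ : Fin (n + 1) => M) j.succ := by
          rw [biprod.lift_snd]
          exact biproduct.lift_π _ _
        rw [← h0, ← Category.assoc, ← Category.assoc, ← Category.assoc, ← Category.assoc, h]
    exact Gen.sub i (Gen.sum Gen.base ih)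

/-- The class of the objects obtained from `M` is tensor-closed. -/
theorem p_genclosed_gen {A : Type u} [Category.{v} A] [Abelian A] [MonoidalCategory A]
    [SymmetricCategory A] [RigidCategory A] (M : A) : TClosed (Gen M) where
  sum := Gen.sum
  sub i _ h := Gen.sub i h
  quot p _ h := Gen.quot p h
  ne := ⟨M, Gen.base⟩
  unit := Gen.unit
  tensor := Gen.tensor

/-- The class of all objects is tensor-closed. -/
theorem p_genclosed_all {A : Type u} [Category.{v} A] [Abelian A] [MonoidalCategory A]
    [SymmetricCategory A] : TClosed (fun _ : A => True) where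
  sum _ _ := trivial
  sub _ _ _ := trivial
  quot _ _ _ := trivial
  ne := ⟨𝟙_ A, trivial⟩
  unit := trivial
  tensor _ _ := trivial

theorem p_genclosed {A : Type u} [Category.{v} A] [Abelian A] [MonoidalCategory A]
    [SymmetricCategory A] [RigidCategory A] (h1 : S_subq A) (h2 : S_subsum A) :
    S_genclosed (A := A) := by
  clear h1 h2
  refine ⟨p_genclosed_gen, p_genclosed_all, ?_, ?_⟩
  · rintro M N ⟨n, N', i, p, hi, hp⟩
    exact Gen.quot p (Gen.sub i (p_genclosed_pow M n))
  · intro M N P hN hP
    induction hP with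
    | base => exact hN
    | unit => exact Gen.unit
    | sum _ _ ih1 ih2 => exact Gen.sum ih1 ih2
    | tensor _ _ ih1 ih2 => exact Gen.tensor ih1 ih2
    | dual _ ih => exact Gen.dual ih
    | sub i _ ih => exact Gen.sub i ih
    | quot p _ ih => exact Gen.quot p ih

end Pool.Agent.Lib.MP_ae0f86_nt
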