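import Pool.Agent.Lib.MP_ae0f86_nt.StmT
import Pool.Agent.Lib.MP_ae0f86_nt.P.Fprel

/-!
# MP_ae0f86_nt : [GP gens] generators of the formal period algebra of `⟨M⟩`
-/

open CategoryTheory CategoryTheory.Limits Opposite MonoidalCategory

universe w v u

namespace Pool.Agent.Lib.MP_ae0f86_nt

attribute [local instance] CategoryTheory.Abelian.hasFiniteBiproducts

section Mates

variable {A : Type u} [Category.{v} A] [MonoidalCategory A] [RigidCategory A]

theorem p_gens_mono_right {X Y : A} (f : X ⟶ Y) [Mono f] (Z : A) : Mono (f ▷ Z) := by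
  have h := (tensorRightAdjunction (ᘁZ : A) Z).rightAdjoint_preservesLimits
  have : Mono ((tensorRight Z).map f) := inferInstance
  exact this

theorem p_gens_epi_left {X Y : A} (f : X ⟶ Y) [Epi f] (Z : A) : Epi (Z ◁ f) := by
  have h := (tensorLeftAdjunction (ᘁZ : A) Z).leftAdjoint_preservesColimits
  have : Epi ((tensorLeft Z).map f) := inferInstance
  exact this

theorem p_gens_epi_mate {X Y : A} (f : X ⟶ Y) [Mono f] : Epi (fᘁ) := by
  refine ⟨fun {Z} g h e => ?_⟩
  have h0 : ∀ g : Xᘁ ⟶ Z, η_ Y (Yᘁ) ≫ Y ◁ (fᘁ ≫ g) = (η_ X (Xᘁ) ≫ X ◁ g) ≫ f ▷ Z := by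
    intro g
    rw [MonoidalCategory.whiskerLeft_comp, ← Category.assoc, coevaluation_comp_rightAdjointMate,
      Category.assoc, Category.assoc, whisker_exchange]
  have h1 : (η_ X (Xᘁ) ≫ X ◁ g) ≫ f ▷ Z = (η_ X (Xᘁ) ≫ X ◁ h) ≫ f ▷ Z := by
    rw [← h0, ← h0, e]
  have := p_gens_mono_right f Z
  have h2 := (cancel_mono _).1 h1
  have h3 := congrArg (tensorLeftHomEquiv (𝟙_ A) X (Xᘁ) Z).symm h2
  rw [tensorLeftHomEquiv_symm_coevaluation_comp_whiskerLeft,
    tensorLeftHomEquiv_symm_coevaluation_comp_whiskerLeft] at h3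
  exact (cancel_epi _).1 h3

theorem p_gens_mono_mate {X Y : A} (f : X ⟶ Y) [Epi f] : Mono (fᘁ) := by
  refine ⟨fun {Z} g h e => ?_⟩
  have h0 : ∀ g : Z ⟶ Yᘁ, (g ≫ fᘁ) ▷ X ≫ ε_ X (Xᘁ) = Z ◁ f ≫ (g ▷ Y ≫ ε_ Y (Yᘁ)) := by
    intro g
    rw [comp_whiskerRight, Category.assoc, rightAdjointMate_comp_evaluation, ← Category.assoc,
      ← Category.assoc, whisker_exchange]
  have h1 : Z ◁ f ≫ (g ▷ Y ≫ ε_ Y (Yᘁ)) = Z ◁ f ≫ (h ▷ Y ≫ ε_ Y (Yᘁ)) := by
    rw [← h0, ← h0, e]
  have := p_gens_epi_left f Z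
  have h2 := (cancel_epi _).1 h1
  have h3 := congrArg (tensorRightHomEquiv Z Y (Yᘁ) (𝟙_ A)) h2
  rw [tensorRightHomEquiv_whiskerRight_comp_evaluation,
    tensorRightHomEquiv_whiskerRight_comp_evaluation] at h3
  exact (cancel_mono _).1 h3

end Mates

section Main

variable {A : Type u} [Category.{v} A] [Abelian A] [MonoidalCategory A] [SymmetricCategory A]
  {K : Type} [Field K] (H : A ⥤ ModuleCat.{0} K) (HB : A ⥤ ModuleCat.{0} ℚ)
  [FibreFunctor H] [FibreFunctor HB]

/-- The linear relations between the classes of symbols in the formal period algebra. -/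
theorem p_gens_rel (h2 : S_algrel (A := A)) (S : A → Prop) :
    (∀ {N : A} (hN : S N) (ω ω' : H.obj N) (σ : Module.Dual ℚ (HB.obj N)),
      asym H HB hN (ω + ω') σ = asym H HB hN ω σ + asym H HB hN ω' σ) ∧
    (∀ {N : A} (hN : S N) (a : K) (ω : H.obj N) (σ : Module.Dual ℚ (HB.obj N)),
      asym H HB hN (a • ω) σ = a • asym H HB hN ω σ) ∧
    (∀ {N : A} (hN : S N) (ω : H.obj N) (σ σ' : Module.Dual ℚ (HB.obj N)),
      asym H HB hN ω (σ + σ') = asym H HB hN ω σ + asym H HB hN ω σ') ∧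
    (∀ {N : A} (hN : S N) (q : ℚ) (ω : H.obj N) (σ : Module.Dual ℚ (HB.obj N)),
      asym H HB hN ω (q • σ) = (q : K) • asym H HB hN ω σ) ∧
    (∀ {N N' : A} (hN : S N) (hN' : S N') (f : N ⟶ N') (ω : H.obj N)
      (σ' : Module.Dual ℚ (HB.obj N')),
      asym H HB hN ω (σ' ∘ₗ (HB.map f).hom) = asym H HB hN' ((H.map f).hom ω) σ') ∧
    (∀ {N : A} (hN : S N) (σ : Module.Dual ℚ (HB.obj N)), asym H HB hN 0 σ = 0) ∧
    (∀ {N : A} (hN : S N) (ω : H.obj N), asym H HB hN ω 0 = 0) := by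
  obtain ⟨e, -, -, -⟩ := h2 H HB S
  obtain ⟨r1, r2, r3, r4, r5, r6, r7⟩ := p_fprel H HB S
  refine ⟨?_, ?_, ?_, ?_, ?_, ?_, ?_⟩
  · intro N hN ω ω' σ
    rw [← e, ← e, ← e, r1, map_add]
  · intro N hN a ω σ
    rw [← e, ← e, r2, map_smul]
  · intro N hN ω σ σ'
    rw [← e, ← e, ← e, r3, map_add]
  · intro N hN q ω σ
    rw [← e, ← e, r4, map_smul]
  · intro N N' hN hN' f ω σ'
    rw [← e, ← e, r5 hN hN' f]
  · intro N hN σ
    rw [← e, r6, map_zero]
  · intro N hN ω
    rw [← e, r7, map_zero]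

/-- If the symbols of bases are in a subalgebra then all symbols are. -/
theorem p_gens_span (h2 : S_algrel (A := A)) {S : A → Prop} (R0 : Subalgebra K (PerAlg H HB S))
    {N : A} (hN : S N) {I J : Type} (ω : Module.Basis I K (H.obj N))
    (β : Module.Basis J ℚ (Module.Dual ℚ (HB.obj N)))
    (h : ∀ i j, asym H HB hN (ω i) (β j) ∈ R0) (x : H.obj N) (σ : Module.Dual ℚ (HB.obj N)) :
    asym H HB hN x σ ∈ R0 := by
  obtain ⟨r1, r2, r3, r4, -, r6, r7⟩ := p_gens_rel H HB h2 S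
  have h3 : ∀ i σ, asym H HB hN (ω i) σ ∈ R0 := by
    intro i σ
    have hσ : σ ∈ Submodule.span ℚ (Set.range β) := by
      rw [β.span_eq]; exact Submodule.mem_top
    induction hσ using Submodule.span_induction with
    | mem x hx => obtain ⟨j, rfl⟩ := hx; exact h i j
    | zero => rw [r7]; exact R0.zero_mem
    | add x y _ _ hx hy => rw [r3]; exact R0.add_mem hx hy
    | smul a x _ hx => rw [r4]; exact R0.smul_mem hx _
  have hx : x ∈ Submodule.span K (Set.range ω) := by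
    rw [ω.span_eq]; exact Submodule.mem_top
  induction hx using Submodule.span_induction with
  | mem x hx => obtain ⟨i, rfl⟩ := hx; exact h3 i σ
  | zero => rw [r6]; exact R0.zero_mem
  | add x y _ _ hx hy => rw [r1]; exact R0.add_mem hx hy
  | smul a x _ hx => rw [r2]; exact R0.smul_mem hx _

variable [RigidCategory A]

/-- Criterion for the symbols of `N^∨`. -/
theorem p_gens_crit (h1 : S_xmat H HB) (h2 : S_algrel (A := A)) {S : A → Prop} (hS : DClosed S)
    (R0 : Subalgebra K (PerAlg H HB S)) {N : A} (hN : S N) {I J : Type}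
    [Fintype I] [DecidableEq I] [Fintype J] [DecidableEq J] (ω : Module.Basis I K (H.obj N))
    (b : Module.Basis J ℚ (HB.obj N)) (Z : Matrix J I (PerAlg H HB S)) (hZ : ∀ j i, Z j i ∈ R0)
    (hXZ : (Matrix.of fun i j => asym H HB hN (ω i) (b.coord j)) * Z = 1)
    (x : H.obj (Nᘁ)) (σ : Module.Dual ℚ (HB.obj (Nᘁ))) :
    asym H HB (hS.dual hN) x σ ∈ R0 := by
  obtain ⟨ω', β', -, hYX⟩ := h1 S hS hN ω b
  have hY : (Matrix.of fun j i => asym H HB (hS.dual hN) (ω' i) (β' j)) = Z := by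
    calc (Matrix.of fun j i => asym H HB (hS.dual hN) (ω' i) (β' j))
        = (Matrix.of fun j i => asym H HB (hS.dual hN) (ω' i) (β' j)) *
          ((Matrix.of fun i j => asym H HB hN (ω i) (b.coord j)) * Z) := by
          rw [hXZ, Matrix.mul_one]
      _ = Z := by rw [← Matrix.mul_assoc, hYX, Matrix.one_mul]
  refine p_gens_span H HB h2 R0 (hS.dual hN) ω' β' (fun i j => ?_) x σ
  have := congrFun (congrFun hY j) i
  rw [Matrix.of_apply] at this
  rw [this]
  exact hZ j i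

omit [RigidCategory A] in
theorem p_gens_sub (h2 : S_algrel (A := A)) {S : A → Prop} (R0 : Subalgebra K (PerAlg H HB S))
    {N N' : A} (hN : S N) (hN' : S N') (i : N' ⟶ N) [Mono i]
    (h : ∀ ω σ, asym H HB hN ω σ ∈ R0) (ω : H.obj N') (σ : Module.Dual ℚ (HB.obj N')) :
    asym H HB hN' ω σ ∈ R0 := by
  obtain ⟨-, -, -, -, r5, -, -⟩ := p_gens_rel H HB h2 S
  have hi : Function.Injective (HB.map i).hom := (ModuleCat.mono_iff_injective _).1 inferInstance
  obtain ⟨g, hg⟩ := LinearMap.exists_leftInverse_of_injective (HB.map i).hom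
    (LinearMap.ker_eq_bot.2 hi)
  have e : σ = (σ ∘ₗ g) ∘ₗ (HB.map i).hom := by
    rw [LinearMap.comp_assoc, hg, LinearMap.comp_id]
  rw [e, r5 hN' hN i]
  exact h _ _

omit [RigidCategory A] in
theorem p_gens_quot (h2 : S_algrel (A := A)) {S : A → Prop} (R0 : Subalgebra K (PerAlg H HB S))
    {N N' : A} (hN : S N) (hN' : S N') (p : N ⟶ N') [Epi p]
    (h : ∀ ω σ, asym H HB hN ω σ ∈ R0) (ω : H.obj N') (σ : Module.Dual ℚ (HB.obj N')) :
    asym H HB hN' ω σ ∈ R0 := by
  obtain ⟨-, -, -, -, r5, -, -⟩ := p_gens_rel H HB h2 S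
  have hp : Function.Surjective (H.map p).hom := (ModuleCat.epi_iff_surjective _).1 inferInstance
  obtain ⟨y, rfl⟩ := hp ω
  rw [← r5 hN hN' p]
  exact h _ _

omit [RigidCategory A] in
/-- The basis of `H(1)`. -/
theorem p_gens_one_basis {F : Type} [Field F] (G : A ⥤ ModuleCat.{0} F) [FibreFunctor G] :
    ∃ b : Module.Basis Unit F (G.obj (𝟙_ A)), b () = FibreFunctor.one := by
  refine ⟨(Module.Basis.singleton Unit F).map (LinearEquiv.ofBijective
    (LinearMap.toSpanSingleton F _ (FibreFunctor.one (H := G))) FibreFunctor.one_bij), ?_⟩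
  rw [Module.Basis.map_apply, Module.Basis.singleton_apply, LinearEquiv.ofBijective_apply,
    LinearMap.toSpanSingleton_apply, one_smul]

omit [RigidCategory A] in
/-- The basis of `H(N ⊞ N')`. -/
theorem p_gens_sum_basis {F : Type} [Field F] (G : A ⥤ ModuleCat.{0} F) [FibreFunctor G]
    {N N' : A} {I I' : Type} (b : Module.Basis I F (G.obj N)) (b' : Module.Basis I' F (G.obj N')) :
    ∃ B : Module.Basis (I ⊕ I') F (G.obj (N ⊞ N')),
      (∀ i, B (Sum.inl i) = (G.map biprod.inl).hom (b i)) ∧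
      (∀ i, B (Sum.inr i) = (G.map biprod.inr).hom (b' i)) ∧
      (∀ i, B.coord (Sum.inl i) ∘ₗ (G.map biprod.inl).hom = b.coord i) ∧
      (∀ i, B.coord (Sum.inl i) ∘ₗ (G.map (biprod.inr : N' ⟶ N ⊞ N')).hom = 0) ∧
      (∀ i, B.coord (Sum.inr i) ∘ₗ (G.map biprod.inr).hom = b'.coord i) ∧
      (∀ i, B.coord (Sum.inr i) ∘ₗ (G.map (biprod.inl : N ⟶ N ⊞ N')).hom = 0) := by
  have hc : ∀ {X Y Z : A} (f : X ⟶ Y) (g : Y ⟶ Z) (x : G.obj X),
      (G.map g).hom ((G.map f).hom x) = (G.map (f ≫ g)).hom x := by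
    intro X Y Z f g x
    rw [G.map_comp, ModuleCat.hom_comp, LinearMap.comp_apply]
  have hid : ∀ {X : A} (x : G.obj X), (G.map (𝟙 X)).hom x = x := by
    intro X x
    rw [G.map_id]; rfl
  have h0 : ∀ {X Y : A} (x : G.obj X), (G.map (0 : X ⟶ Y)).hom x = 0 := by
    intro X Y x
    rw [G.map_zero]; rfl
  let e : (G.obj N × G.obj N') ≃ₗ[F] G.obj (N ⊞ N') := LinearEquiv.ofLinearMap
    (LinearMap.coprod (G.map (biprod.inl : N ⟶ N ⊞ N')).hom
      (G.map (biprod.inr : N' ⟶ N ⊞ N')).hom)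
    (LinearMap.prod (G.map (biprod.fst : N ⊞ N' ⟶ N)).hom
      (G.map (biprod.snd : N ⊞ N' ⟶ N')).hom)
    (by
      ext x
      show (G.map (biprod.inl : N ⟶ N ⊞ N')).hom ((G.map (biprod.fst : N ⊞ N' ⟶ N)).hom x) +
        (G.map (biprod.inr : N' ⟶ N ⊞ N')).hom ((G.map (biprod.snd : N ⊞ N' ⟶ N')).hom x) = x
      rw [hc, hc]
      have : G.map (biprod.fst ≫ biprod.inl) + G.map (biprod.snd ≫ biprod.inr) =
          𝟙 (G.obj (N ⊞ N')) := by
        rw [← G.map_add, biprod.total, G.map_id]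
      have h := congrArg (fun t => (ModuleCat.Hom.hom t) x) this
      exact h)
    (by
      apply LinearMap.ext
      rintro ⟨x, y⟩
      show ((G.map (biprod.fst : N ⊞ N' ⟶ N)).hom ((G.map (biprod.inl : N ⟶ N ⊞ N')).hom x +
        (G.map (biprod.inr : N' ⟶ N ⊞ N')).hom y),
        (G.map (biprod.snd : N ⊞ N' ⟶ N')).hom ((G.map (biprod.inl : N ⟶ N ⊞ N')).hom x +
        (G.map (biprod.inr : N' ⟶ N ⊞ N')).hom y)) = (x, y)
      rw [map_add, map_add, hc, hc, hc, hc, biprod.inl_fst, biprod.inr_fst, biprod.inl_snd,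
        biprod.inr_snd, hid, h0, h0, hid, add_zero, zero_add])
  have he : ∀ x y, e (x, y) = (G.map (biprod.inl : N ⟶ N ⊞ N')).hom x +
      (G.map (biprod.inr : N' ⟶ N ⊞ N')).hom y := fun x y => rfl
  have hes1 : ∀ x, e.symm ((G.map (biprod.inl : N ⟶ N ⊞ N')).hom x) = (x, 0) := by
    intro x
    rw [LinearEquiv.symm_apply_eq, he, map_zero, add_zero]
  have hes2 : ∀ x, e.symm ((G.map (biprod.inr : N' ⟶ N ⊞ N')).hom x) = (0, x) := by
    intro x
    rw [LinearEquiv.symm_apply_eq, he, map_zero, zero_add]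
  refine ⟨(b.prod b').map e, ?_, ?_, ?_, ?_, ?_, ?_⟩
  · intro i
    rw [Module.Basis.map_apply, Module.Basis.prod_apply]
    simp [he]
  · intro i
    rw [Module.Basis.map_apply, Module.Basis.prod_apply]
    simp [he]
  · intro i
    ext x
    simp [Module.Basis.coord_apply, hes1]
  · intro i
    ext x
    simp [Module.Basis.coord_apply, hes2]
  · intro i
    ext x
    simp [Module.Basis.coord_apply, hes2]
  · intro i
    ext x
    simp [Module.Basis.coord_apply, hes1]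

omit [RigidCategory A] in
/-- The basis of `H(M ⊗ N)`. -/
theorem p_gens_tensor_basis {F : Type} [Field F] (G : A ⥤ ModuleCat.{0} F) [FibreFunctor G]
    {M N : A} {I I' : Type} (b : Module.Basis I F (G.obj M)) (b' : Module.Basis I' F (G.obj N)) :
    ∃ B : Module.Basis (I × I') F (G.obj (M ⊗ N)),
      ∀ i i', B (i, i') = FibreFunctor.mul M N (b i) (b' i') := by
  refine ⟨(b.tensorProduct b').map (LinearEquiv.ofBijective _ (FibreFunctor.bij (H := G) M N)),
    ?_⟩
  intro i i'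
  rw [Module.Basis.map_apply, Module.Basis.tensorProduct_apply, LinearEquiv.ofBijective_apply,
    TensorProduct.lift.tmul]

omit [RigidCategory A] in
theorem p_gens_tensor_coord (h2 : S_algrel (A := A)) {M N : A} {I I' : Type}
    (b : Module.Basis I ℚ (HB.obj M)) (b' : Module.Basis I' ℚ (HB.obj N))
    (B : Module.Basis (I × I') ℚ (HB.obj (M ⊗ N)))
    (hB : ∀ i i', B (i, i') = FibreFunctor.mul M N (b i) (b' i')) (j : I) (j' : I') :
    B.coord (j, j') = tdual HB (b.coord j) (b'.coord j') := by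
  classical
  obtain ⟨-, -, -, h⟩ := h2 HB HB (fun _ : A => True)
  refine B.ext ?_
  rintro ⟨i, i'⟩
  rw [Module.Basis.coord_apply, Module.Basis.repr_self, hB, h, Module.Basis.coord_apply,
    Module.Basis.coord_apply, Module.Basis.repr_self, Module.Basis.repr_self,
    Finsupp.single_apply, Finsupp.single_apply, Finsupp.single_apply]
  by_cases h1 : i = j <;> by_cases h2 : i' = j' <;> simp [h1, h2]

variable {S : A → Prop} (hS : DClosed S) (R0 : Subalgebra K (PerAlg H HB S))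

/-- The symbols of `N` and of `N^∨` are in `R0`. -/
def p_gens_Good (N : A) : Prop :=
  ∀ hN : S N, (∀ ω σ, asym H HB hN ω σ ∈ R0) ∧ (∀ ω σ, asym H HB (hS.dual hN) ω σ ∈ R0)

theorem p_gens_good_sub (h2 : S_algrel (A := A)) {N N' : A} (i : N' ⟶ N) [Mono i] (hN : S N)
    (h : p_gens_Good H HB hS R0 N) : p_gens_Good H HB hS R0 N' := by
  intro hN'
  obtain ⟨ha, hb⟩ := h hN
  have := p_gens_epi_mate i
  exact ⟨p_gens_sub H HB h2 R0 hN hN' i ha,
    p_gens_quot H HB h2 R0 (hS.dual hN) (hS.dual hN') (iᘁ) hb⟩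

theorem p_gens_good_quot (h2 : S_algrel (A := A)) {N N' : A} (p : N ⟶ N') [Epi p] (hN : S N)
    (h : p_gens_Good H HB hS R0 N) : p_gens_Good H HB hS R0 N' := by
  intro hN'
  obtain ⟨ha, hb⟩ := h hN
  have := p_gens_mono_mate p
  exact ⟨p_gens_quot H HB h2 R0 hN hN' p ha,
    p_gens_sub H HB h2 R0 (hS.dual hN) (hS.dual hN') (pᘁ) hb⟩

theorem p_gens_good_unit (h1 : S_xmat H HB) (h2 : S_algrel (A := A)) :
    p_gens_Good H HB hS R0 (𝟙_ A) := by
  intro hN
  obtain ⟨ω, hω⟩ := p_gens_one_basis H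
  obtain ⟨b, hb⟩ := p_gens_one_basis HB
  have h3 : asym H HB hN (ω ()) (b.coord ()) = 1 := by
    rw [hω]
    refine (h2 H HB S).2.2.1 hN _ ?_
    rw [← hb, Module.Basis.coord_apply, Module.Basis.repr_self, Finsupp.single_eq_same]
  refine ⟨p_gens_span H HB h2 R0 hN ω b.dualBasis ?_, ?_⟩
  · rintro ⟨⟩ ⟨⟩
    rw [Module.Basis.coe_dualBasis, h3]
    exact R0.one_mem
  · refine p_gens_crit H HB h1 h2 hS R0 hN ω b 1 ?_ ?_
    · rintro ⟨⟩ ⟨⟩
      rw [Matrix.one_apply_eq]
      exact R0.one_mem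
    · rw [Matrix.mul_one]
      ext ⟨⟩ ⟨⟩
      rw [Matrix.of_apply, h3, Matrix.one_apply_eq]

theorem p_gens_good_sum (h1 : S_xmat H HB) (h2 : S_algrel (A := A)) {N N' : A} (hN : S N)
    (hN' : S N') (h : p_gens_Good H HB hS R0 N) (h' : p_gens_Good H HB hS R0 N') :
    p_gens_Good H HB hS R0 (N ⊞ N') := by
  intro hs
  obtain ⟨-, -, -, -, r5, -, r7⟩ := p_gens_rel H HB h2 S
  obtain ⟨ha, hb⟩ := h hN
  obtain ⟨ha', hb'⟩ := h' hN'
  let ω := Module.finBasis K (H.obj N)
  let ω' := Module.finBasis K (H.obj N')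
  let b := Module.finBasis ℚ (HB.obj N)
  let b' := Module.finBasis ℚ (HB.obj N')
  obtain ⟨Ω, hΩ1, hΩ2, -, -, -, -⟩ := p_gens_sum_basis H ω ω'
  obtain ⟨B, -, -, hB1, hB2, hB3, hB4⟩ := p_gens_sum_basis HB b b'
  obtain ⟨η, β, hXY, -⟩ := h1 S hS hN ω b
  obtain ⟨η', β', hXY', -⟩ := h1 S hS hN' ω' b'
  have e11 : ∀ i j, asym H HB hs (Ω (Sum.inl i)) (B.coord (Sum.inl j)) =
      asym H HB hN (ω i) (b.coord j) := by
    intro i j
    rw [hΩ1, ← r5 hN hs biprod.inl, hB1]
  have e12 : ∀ i j, asym H HB hs (Ω (Sum.inl i)) (B.coord (Sum.inr j)) = 0 := by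
    intro i j
    rw [hΩ1, ← r5 hN hs biprod.inl, hB4, r7]
  have e21 : ∀ i j, asym H HB hs (Ω (Sum.inr i)) (B.coord (Sum.inl j)) = 0 := by
    intro i j
    rw [hΩ2, ← r5 hN' hs biprod.inr, hB2, r7]
  have e22 : ∀ i j, asym H HB hs (Ω (Sum.inr i)) (B.coord (Sum.inr j)) =
      asym H HB hN' (ω' i) (b'.coord j) := by
    intro i j
    rw [hΩ2, ← r5 hN' hs biprod.inr, hB3]
  refine ⟨p_gens_span H HB h2 R0 hs Ω B.dualBasis ?_, ?_⟩
  · intro i j
    rw [Module.Basis.coe_dualBasis]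
    rcases i with i | i <;> rcases j with j | j
    · rw [e11]; exact ha _ _
    · rw [e12]; exact R0.zero_mem
    · rw [e21]; exact R0.zero_mem
    · rw [e22]; exact ha' _ _
  · refine p_gens_crit H HB h1 h2 hS R0 hs Ω B (Matrix.fromBlocks
      (Matrix.of fun j i => asym H HB (hS.dual hN) (η i) (β j)) 0 0
      (Matrix.of fun j i => asym H HB (hS.dual hN') (η' i) (β' j))) ?_ ?_
    · intro j i
      rcases i with i | i <;> rcases j with j | j
      · exact hb _ _
      · exact R0.zero_mem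
      · exact R0.zero_mem
      · exact hb' _ _
    · have hX : (Matrix.of fun i j => asym H HB hs (Ω i) (B.coord j)) = Matrix.fromBlocks
          (Matrix.of fun i j => asym H HB hN (ω i) (b.coord j)) 0 0
          (Matrix.of fun i j => asym H HB hN' (ω' i) (b'.coord j)) := by
        ext i j
        rcases i with i | i <;> rcases j with j | j
        · exact e11 i j
        · exact e12 i j
        · exact e21 i j
        · exact e22 i j
      rw [hX, Matrix.fromBlocks_multiply, hXY, hXY']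
      simp

theorem p_gens_good_tensor (h1 : S_xmat H HB) (h2 : S_algrel (A := A)) {N N' : A} (hN : S N)
    (hN' : S N') (h : p_gens_Good H HB hS R0 N) (h' : p_gens_Good H HB hS R0 N') :
    p_gens_Good H HB hS R0 (N ⊗ N') := by
  intro hs
  obtain ⟨-, hmul, -, -⟩ := h2 H HB S
  obtain ⟨ha, hb⟩ := h hN
  obtain ⟨ha', hb'⟩ := h' hN'
  let ω := Module.finBasis K (H.obj N)
  let ω' := Module.finBasis K (H.obj N')
  let b := Module.finBasis ℚ (HB.obj N)
  let b' := Module.finBasis ℚ (HB.obj N')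
  obtain ⟨Ω, hΩ⟩ := p_gens_tensor_basis H ω ω'
  obtain ⟨B, hB⟩ := p_gens_tensor_basis HB b b'
  obtain ⟨η, β, hXY, -⟩ := h1 S hS hN ω b
  obtain ⟨η', β', hXY', -⟩ := h1 S hS hN' ω' b'
  have e : ∀ i i' j j', asym H HB hs (Ω (i, i')) (B.coord (j, j')) =
      asym H HB hN (ω i) (b.coord j) * asym H HB hN' (ω' i') (b'.coord j') := by
    intro i i' j j'
    rw [hΩ, p_gens_tensor_coord HB h2 b b' B hB, hmul hN hN' hs]
  refine ⟨p_gens_span H HB h2 R0 hs Ω B.dualBasis ?_, ?_⟩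
  · rintro ⟨i, i'⟩ ⟨j, j'⟩
    rw [Module.Basis.coe_dualBasis, e]
    exact R0.mul_mem (ha _ _) (ha' _ _)
  · refine p_gens_crit H HB h1 h2 hS R0 hs Ω B (Matrix.kroneckerMap (fun x y => x * y)
      (Matrix.of fun j i => asym H HB (hS.dual hN) (η i) (β j))
      (Matrix.of fun j i => asym H HB (hS.dual hN') (η' i) (β' j))) ?_ ?_
    · rintro ⟨j, j'⟩ ⟨i, i'⟩
      exact R0.mul_mem (hb _ _) (hb' _ _)
    · have hX : (Matrix.of fun i j => asym H HB hs (Ω i) (B.coord j)) =
          Matrix.kroneckerMap (fun x y => x * y)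
          (Matrix.of fun i j => asym H HB hN (ω i) (b.coord j))
          (Matrix.of fun i j => asym H HB hN' (ω' i) (b'.coord j)) := by
        ext ⟨i, i'⟩ ⟨j, j'⟩
        exact e i i' j j'
      rw [hX, ← Matrix.mul_kronecker_mul, hXY, hXY', Matrix.one_kronecker_one]

theorem p_gens_good_dual (h1 : S_xmat H HB) (h2 : S_algrel (A := A)) {N : A} (hN : S N)
    (h : p_gens_Good H HB hS R0 N) : p_gens_Good H HB hS R0 (Nᘁ) := by
  intro hs
  obtain ⟨ha, hb⟩ := h hN
  refine ⟨hb, ?_⟩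
  let ω := Module.finBasis K (H.obj N)
  let b := Module.finBasis ℚ (HB.obj N)
  obtain ⟨η, β, hXY, -⟩ := h1 S hS hN ω b
  let b2 : Module.Basis _ ℚ (HB.obj (Nᘁ)) := β.dualBasis.map (Module.evalEquiv ℚ _).symm
  have hb2 : ∀ j, b2.coord j = β j := by
    intro j
    refine b2.ext fun k => ?_
    rw [Module.Basis.coord_apply, Module.Basis.repr_self]
    have h3 : β j (b2 k) = (Module.evalEquiv ℚ (HB.obj (Nᘁ))) (b2 k) (β j) := rfl
    rw [h3, Module.Basis.map_apply, LinearEquiv.apply_symm_apply,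
      Module.Basis.dualBasis_apply_self, Finsupp.single_apply]
    by_cases hjk : k = j
    · rw [if_pos hjk, if_pos hjk.symm]
    · rw [if_neg hjk, if_neg (fun hh => hjk hh.symm)]
  refine p_gens_crit H HB h1 h2 hS R0 hs η b2
    ((Matrix.of fun i j => asym H HB hN (ω i) (b.coord j)).transpose) ?_ ?_
  · intro j i
    exact ha _ _
  · have hX : (Matrix.of fun i j => asym H HB hs (η i) (b2.coord j)) =
        (Matrix.of fun j i => asym H HB (hS.dual hN) (η i) (β j)).transpose := by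
      ext i j
      show asym H HB hs (η i) (b2.coord j) = asym H HB (hS.dual hN) (η i) (β j)
      rw [hb2]
    rw [hX, ← Matrix.transpose_mul, hXY, Matrix.transpose_one]

theorem p_gens (h1 : S_xmat H HB) (h2 : S_algrel (A := A)) (h3 : S_genclosed (A := A)) :
    S_gens H HB := by
  intro M
  have hS : DClosed (Gen M) := { h3.1 M with dual := fun h => Gen.dual h }
  set R0 := Algebra.adjoin K
    ({r : PerAlg H HB (Gen M) | ∃ ω σ, r = asym H HB (S := Gen M) (N := M) Gen.base ω σ} ∪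
      {r | ∃ ω σ, r = asym H HB (S := Gen M) (N := Mᘁ) (Gen.dual Gen.base) ω σ}) with hR0
  have hgood : ∀ N, Gen M N → p_gens_Good H HB hS R0 N := by
    intro N hN
    induction hN with
    | base =>
      intro hM
      exact ⟨fun ω σ => Algebra.subset_adjoin (Or.inl ⟨ω, σ, rfl⟩),
        fun ω σ => Algebra.subset_adjoin (Or.inr ⟨ω, σ, rfl⟩)⟩
    | unit => exact p_gens_good_unit H HB hS R0 h1 h2
    | sum hN hN' ih ih' => exact p_gens_good_sum H HB hS R0 h1 h2 hN hN' ih ih'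
    | tensor hN hN' ih ih' => exact p_gens_good_tensor H HB hS R0 h1 h2 hN hN' ih ih'
    | dual hN ih => exact p_gens_good_dual H HB hS R0 h1 h2 hN ih
    | sub i hN ih => exact p_gens_good_sub H HB hS R0 h2 i hN ih
    | quot p hN ih => exact p_gens_good_quot H HB hS R0 h2 p hN ih
  rw [eq_top_iff]
  intro r _
  obtain ⟨f, rfl⟩ := Ideal.Quotient.mk_surjective r
  induction f using MvPolynomial.induction_on with
  | C a => exact R0.algebraMap_mem a
  | add p q hp hq => rw [map_add]; exact R0.add_mem (hp trivial) (hq trivial)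
  | mul_X p s hp => rw [map_mul]; exact R0.mul_mem (hp trivial) ((hgood s.N s.mem s.mem).1 s.ω s.σ)

end Main

end Pool.Agent.Lib.MP_ae0f86_nt
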