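import Pool.Agent.Lib.MP_ae0f86_nt.StmU

/-!
# MP_ae0f86_nt : piece geo1
-/

open CategoryTheory CategoryTheory.Limits Opposite MonoidalCategory

universe w v u

namespace Pool.Agent.Lib.MP_ae0f86_nt

noncomputable section

theorem p_geo1 {A : Type u} [Category.{v} A] [Abelian A] [MonoidalCategory A]
    [MonoidalPreadditive A] [SymmetricCategory A] (T : CohTheory QBar A) (h1 : S_d1all T)
    (h2 : S_quadrics) (h3 : S_clopen T) (h4 : S_cubic1 T) (h5 : S_tensmono T) (h6 : S_subq A)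
    (h7 : S_twist T) : S_geo1 T := by
  intro N
  obtain ⟨e, i, ι, hι, c, X, hX, hD⟩ := h1 N
  obtain ⟨n, r, c', q, hc', hq, hsm, g, hg⟩ := h2 X hX
  have hepi := h3 hX.1 (zl_alg _) g hg i
  have s1 := h6.2.2.2.2.1 _ _ _ hepi
  have s2 := h6.1 _ _ _ hD s1
  have h8 := h4 (fun j => MvPolynomial.map (Int.castRingHom QBar) (q j)) c' hc' hsm i
  by_cases hi : 0 ≤ i
  · obtain ⟨f, hf⟩ := h8.1 hi
    obtain ⟨iso⟩ := h7.1 N e c'
    have s3 : IsSubquot ((N ⊗ tpow T.L e) ⊗ tpow T.L c')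
        ((T.h i).obj (op (AffPair.abs (zl_alg (fun j => MvPolynomial.map
          (Int.castRingHom QBar) (q j))))) ⊗ tpow T.L c') := by
      obtain ⟨N', a, b, ha, hb⟩ := s2
      exact ⟨N' ⊗ tpow T.L c', a ▷ tpow T.L c', b ▷ tpow T.L c', (h5 a c').1 ha, (h5 b c').2 hb⟩
    have s4 := h6.2.2.1 _ _ iso.symm
    have s5 := h6.2.2.2.2.1 _ _ f hf
    exact ⟨e + c', n, r, q, i + 2 * c' - 1, hq, h6.1 _ _ _ s4 (h6.1 _ _ _ s3 s5)⟩
  · have hz := h8.2 (not_le.1 hi)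
    refine ⟨e, n, r, q, i, hq, ?_⟩
    obtain ⟨N', a, b, ha, hb⟩ := s2
    have z1 : IsZero N' := IsZero.of_mono a hz
    have z2 : IsZero (N ⊗ tpow T.L e) := IsZero.of_epi b z1
    exact ⟨N ⊗ tpow T.L e, 0, 𝟙 _, ⟨fun x y _ => z2.eq_of_tgt x y⟩, inferInstance⟩

end

end Pool.Agent.Lib.MP_ae0f86_nt
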