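import Pool.Agent.Lib.MP_ae0f86_nt.StmB

/-!
# MP_ae0f86_nt : [GP gmsub]
-/

open CategoryTheory CategoryTheory.Limits MvPolynomial Opposite MonoidalCategory

universe v u

namespace Pool.Agent.Lib.MP_ae0f86_nt

noncomputable section

attribute [local instance] CategoryTheory.Abelian.hasFiniteBiproducts

theorem p_gmsub {k : Type} [Field k] {A : Type u} [Category.{v} A] [Abelian A]
    [MonoidalCategory A] (T : CohTheory k A) (h1 : S_k2 T) : S_gmsub T := by
  intro ι _ X hX Y hY hYe i
  have hD : (∅ : Set (ι → k)) =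
      (X ∩ {x | ∀ a, eval x ((fun _ : Fin 1 => (1 : MvPolynomial ι k)) a) = 0}) ∪ ∅ := by
    symm
    rw [Set.union_empty]
    refine Set.eq_empty_of_forall_notMem ?_
    rintro x ⟨_, hx⟩
    have := hx 0
    simp at this
  have key := h1 (m := 1) (fun _ => 1) hX IsAlg.empty (Set.empty_subset X) IsAlg.empty
    (Set.empty_subset X) hD i
  have e1 : PP (fun _ : Fin 1 => (1 : MvPolynomial ι k)) X = Y := by
    rw [hYe]
    ext z
    simp [PP]
  have e2 : PP (fun _ : Fin 1 => (1 : MvPolynomial ι k)) (∅ : Set (ι → k)) = ∅ := by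
    ext z
    simp [PP]
  have e : PPp (fun _ : Fin 1 => (1 : MvPolynomial ι k)) hX IsAlg.empty (Set.empty_subset X) =
      AffPair.abs hY := by
    simp only [AffPair.mk.injEq, heq_eq_eq, true_and]
    exact ⟨e1, e2⟩
  rw [e] at key
  exact key

end

end Pool.Agent.Lib.MP_ae0f86_nt
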