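import Pool.Agent.Lib.MP_ae0f86_nt.StmE

/-!
# MP_ae0f86_nt : piece herAlg
-/

open CategoryTheory CategoryTheory.Limits Opposite MonoidalCategory

universe v u

namespace Pool.Agent.Lib.MP_ae0f86_nt

noncomputable section

attribute [local instance] CategoryTheory.Abelian.hasFiniteBiproducts

section

variable {A : Type u} [Category.{v} A] [Abelian A] [MonoidalCategory A] [SymmetricCategory A]

private theorem p_herAlg_ev_sym {K : Type} [Field K] [Algebra K ℂ] {HdR : A ⥤ ModuleCat.{0} K}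
    {HB : A ⥤ ModuleCat.{0} ℚ} [FibreFunctor HdR] [FibreFunctor HB] (c : Comparison HdR HB)
    (S : A → Prop) {N : A} (hN : S N) (ω : HdR.obj N) (σ : Module.Dual ℚ (HB.obj N)) :
    c.ev S (sym HdR HB hN ω σ) = c.per N ω σ := by
  unfold Comparison.ev sym
  rw [Submodule.liftQ_apply]
  simp

private theorem p_herAlg_evAlg_asym {K : Type} [Field K] [Algebra K ℂ]
    {HdR : A ⥤ ModuleCat.{0} K}
    {HB : A ⥤ ModuleCat.{0} ℚ} [FibreFunctor HdR] [FibreFunctor HB] (c : Comparison HdR HB)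
    (S : A → Prop) {N : A} (hN : S N) (ω : HdR.obj N) (σ : Module.Dual ℚ (HB.obj N)) :
    c.evAlg S (asym HdR HB hN ω σ) = c.per N ω σ :=
  MvPolynomial.aeval_X (R := K) (fun s : Symb HdR HB S => c.per s.N s.ω s.σ) ⟨N, hN, ω, σ⟩

omit [MonoidalCategory A] [SymmetricCategory A] in
private theorem p_herAlg_fpMap_sym {K : Type} [Field K] (H : A ⥤ ModuleCat.{0} K)
    (HB : A ⥤ ModuleCat.{0} ℚ) {S S' : A → Prop} (h : ∀ N, S N → S' N) {N : A} (hN : S N)
    (ω : H.obj N) (σ : Module.Dual ℚ (HB.obj N)) :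
    fpMap H HB h (sym H HB hN ω σ) = sym H HB (h N hN) ω σ := by
  unfold fpMap sym
  rw [Submodule.mapQ_apply]
  simp [symbMap]

theorem p_herAlg [RigidCategory A]
    (h1 : ∀ {K : Type} [Field K] (H : A ⥤ ModuleCat.{0} K) (HB : A ⥤ ModuleCat.{0} ℚ),
      S_heredity H HB)
    (h2 : S_fpring (A := A)) (h3 : S_evcomp (A := A))
    (h4 : ∀ {K : Type} [Field K] (H : A ⥤ ModuleCat.{0} K) (HB : A ⥤ ModuleCat.{0} ℚ),
      S_single H HB)
    (h5 : S_algrel (A := A)) (h6 : S_genclosed (A := A)) (h7 : S_lincl A) :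
    S_herAlg (A := A) := by
  intro _ K _ _ _ HdR HB _ _ c
  refine ⟨?_, ?_⟩
  · intro S S' hSS' hS hS' hinj
    have hher : Function.Injective (fpMap HdR HB hSS') :=
      h1 HdR HB (FibreFunctor.finite (H := HB)) S S' hSS' hS hS'
    have hcomp : ∀ x, c.ev S x = c.ev S' (fpMap HdR HB hSS' x) := by
      intro x
      obtain ⟨N, hN, ω, σ, rfl⟩ := h4 HdR HB S hS x
      rw [p_herAlg_fpMap_sym, p_herAlg_ev_sym, p_herAlg_ev_sym]
    intro x y hxy
    rw [hcomp, hcomp] at hxy
    exact hher (hinj hxy)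
  · intro hall
    obtain ⟨g1, g2, -, -⟩ := h6
    rw [injective_iff_map_eq_zero]
    intro x hx
    obtain ⟨y, rfl⟩ := (h2 HdR HB (fun _ => True) g2).2 x
    obtain ⟨N, hN, ω, σ, rfl⟩ := h4 HdR HB _ g2.toClosed y
    have hev : c.per N ω σ = 0 := by
      rw [(h3 c _).1, p_herAlg_ev_sym] at hx
      exact hx
    have hN0 : Gen N N := Gen.base
    have h0 : sym HdR HB (S := Gen N) hN0 ω σ = 0 := by
      apply (h2 HdR HB (Gen N) (g1 N)).1
      rw [map_zero]
      apply hall N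
      rw [map_zero, (h3 c _).1, p_herAlg_ev_sym]
      exact hev
    have h0' : sym HdR HB (S := fun _ : A => True) hN ω σ = 0 := by
      have := p_herAlg_fpMap_sym HdR HB (S := Gen N) (S' := fun _ : A => True)
        (fun _ _ => trivial) hN0 ω σ
      rw [h0, map_zero] at this
      exact this.symm
    rw [h0', map_zero]

end

end

end Pool.Agent.Lib.MP_ae0f86_nt
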