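import Pool.Agent.Lib.MP_ae0f86_nt.StmE

open CategoryTheory CategoryTheory.Limits

universe v u

namespace Pool.Agent.Lib.MP_ae0f86_nt

attribute [local instance] CategoryTheory.Abelian.hasFiniteBiproducts

theorem p_heredity_map {A : Type u} [Category.{v} A] [Abelian A] {K : Type} [Field K]
    (H : A ⥤ ModuleCat.{0} K) (HB : A ⥤ ModuleCat.{0} ℚ) {S S' : A → Prop}
    (h : ∀ N, S N → S' N) {N : A} (hN : S N) (ω : H.obj N) (σ : Module.Dual ℚ (HB.obj N)) :
    fpMap H HB h (sym H HB hN ω σ) = sym H HB (h N hN) ω σ := by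
  have : Finsupp.lmapDomain K K (symbMap H HB h) (Symb.fin ⟨N, hN, ω, σ⟩) =
      Symb.fin ⟨N, h N hN, ω, σ⟩ := by
    rw [Finsupp.lmapDomain_apply, Finsupp.mapDomain_single]
    rfl
  unfold fpMap sym
  rw [Submodule.mapQ_apply, this]

theorem p_heredity {A : Type u} [Category.{v} A] [Abelian A] {K : Type} [Field K]
    (H : A ⥤ ModuleCat.{0} K) (HB : A ⥤ ModuleCat.{0} ℚ) (h1 : S_fprel H HB)
    (h2 : S_single H HB) (h3 : S_univ HB) (h4 : S_psi H HB) (h5 : S_fincat H HB) :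
    S_heredity H HB := by
  intro _ _ _ _ _ _ _ _ hfin S S' h hS hS'
  refine (injective_iff_map_eq_zero (fpMap H HB h)).2 fun x hx => ?_
  obtain ⟨N, hN, ω, σ, rfl⟩ := h2 S hS x
  rw [p_heredity_map] at hx
  obtain ⟨W, hW, hN', h0⟩ := h5 S' hS' (h N hN) ω σ hx
  obtain ⟨n, Q, π, σQ, hπ, hu, hex, -, -⟩ := h3 hfin W
  have hQ : Lin W Q := ⟨n, ⟨⨁ fun _ : Fin n => W, 𝟙 _, π, inferInstance, hπ⟩⟩
  obtain ⟨Ψ, hΨ, hΨs⟩ := h4 W Q hQ σQ hu hex
  obtain ⟨f, hf⟩ := hex N hN' σ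
  have hz : (H.map f).hom ω = 0 := by rw [← hΨs N hN' ω f, ← hf, h0, map_zero]
  have hpi : Abelian.factorThruImage f ≫ Abelian.image.ι f = f := Abelian.image.fac f
  have hN'' : S (Abelian.image f) := hS.quot (Abelian.factorThruImage f) hN
  have hi : Function.Injective (H.map (Abelian.image.ι f)).hom :=
    (ModuleCat.mono_iff_injective _).1 inferInstance
  have hp : (H.map (Abelian.factorThruImage f)).hom ω = 0 := by
    apply hi
    rw [map_zero, ← LinearMap.comp_apply, ← ModuleCat.hom_comp, ← H.map_comp, hpi, hz]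
  obtain ⟨-, -, -, -, r5, r6, -⟩ := h1 S
  have hσ : σ = (σQ ∘ₗ (HB.map (Abelian.image.ι f)).hom) ∘ₗ
      (HB.map (Abelian.factorThruImage f)).hom := by
    rw [LinearMap.comp_assoc, ← ModuleCat.hom_comp, ← HB.map_comp, hpi, ← hf]
  rw [hσ, r5 hN hN'' (Abelian.factorThruImage f) ω, hp, r6]

end Pool.Agent.Lib.MP_ae0f86_nt
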