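import Pool.Agent.Lib.MP_ae0f86_nt.StmA

/-!
# MP_ae0f86_nt : homotopy equivalences are quasi-isomorphisms
-/

open CategoryTheory CategoryTheory.Limits Opposite MonoidalCategory

universe v u

namespace Pool.Agent.Lib.MP_ae0f86_nt

theorem p_homot {k : Type} [Field k] {A : Type u} [Category.{v} A] [Abelian A]
    [MonoidalCategory A] (T : CohTheory k A) (h1 : S_sect T) : S_homot T := by
  intro P Q f g F hfg h0 hid i
  have key : (T.h i).map (g ≫ f).op = 𝟙 _ := by
    rw [← h0, op_comp, Functor.map_comp, (h1 Q Unit (fun _ => 0) (fun _ => 1)).2 i,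
      ← Functor.map_comp, ← op_comp, hid, op_id, CategoryTheory.Functor.map_id]
  refine ⟨(T.h i).map g.op, ?_, ?_⟩
  · rw [← Functor.map_comp, ← op_comp, key]
  · rw [← Functor.map_comp, ← op_comp, hfg, op_id, CategoryTheory.Functor.map_id]

end Pool.Agent.Lib.MP_ae0f86_nt
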