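import Pool.Agent.Lib.MP_ae0f86_nt.StmT

/-!
# MP_ae0f86_nt : piece `[GP intdim]`
-/

universe w v u

namespace Pool.Agent.Lib.MP_ae0f86_nt

theorem p_intdim : S_intdim.{w, u} := by
  intro B C _ _ f hf hi
  letI : Algebra B C := f.toAlgebra
  haveI : Algebra.IsIntegral B C := ⟨hi⟩
  apply le_antisymm
  · refine iSup_le fun l => ?_
    obtain ⟨P, -, hP, hPl⟩ := Ideal.exists_ideal_over_prime_of_isIntegral (S := C)
      (RelSeries.head l).asIdeal ⊥ (by
        intro x hx
        have h0 : x = 0 := hf (by
          rw [map_zero]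
          exact hx)
        rw [h0]
        exact zero_mem _)
    haveI := hP
    haveI : P.LiesOver (RelSeries.head l).asIdeal := ⟨hPl.symm⟩
    obtain ⟨L, hL, -, -⟩ := Ideal.exists_ltSeries_of_hasGoingUp (S := C) l P
    rw [← hL]
    exact Order.LTSeries.length_le_krullDim L
  · refine Order.krullDim_le_of_strictMono (PrimeSpectrum.comap (algebraMap B C)) ?_
    intro I J h
    exact Ideal.IsIntegral.comap_lt_comap (R := B) (I := I.asIdeal) (J := J.asIdeal) h

end Pool.Agent.Lib.MP_ae0f86_nt
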