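import Pool.Agent.Lib.MP_ae0f86_nt.StmA

open CategoryTheory CategoryTheory.Limits Opposite MonoidalCategory

universe v u

namespace Pool.Agent.Lib.MP_ae0f86_nt

section

variable {k : Type} [Field k]

/-- `B × {(1, 1)}`. -/
def p_k2_One {ι : Type} (B : Set (ι → k)) : Set (ι ⊕ Fin 2 → k) :=
  {z | z ∘ Sum.inl ∈ B ∧ z (Sum.inr 0) = 1 ∧ z (Sum.inr 1) = 1}

theorem p_k2_One_alg {ι : Type} {B : Set (ι → k)} (hB : IsAlg B) : IsAlg (p_k2_One B) := by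
  have h := (hB.cyl (κ := Fin 2)).inter
    ((IsAlg.zero (MvPolynomial.X (Sum.inr 0) - 1 : MvPolynomial (ι ⊕ Fin 2) k)).inter
      (IsAlg.zero (MvPolynomial.X (Sum.inr 1) - 1 : MvPolynomial (ι ⊕ Fin 2) k)))
  convert h using 1
  ext z
  simp [p_k2_One, sub_eq_zero]

/-- `x ↦ (x, 1, 1)`. -/
def p_k2_e {ι : Type} [Finite ι] {B C : Set (ι → k)} (hB : IsAlg B) (hC : IsAlg C)
    (h : C ⊆ B) {X Y : Set (ι ⊕ Fin 2 → k)} (hX : IsAlg X) (hY : IsAlg Y) (hYX : Y ⊆ X)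
    (h1 : ∀ x ∈ B, (Sum.elim x (fun _ => 1) : ι ⊕ Fin 2 → k) ∈ X)
    (h2 : ∀ x ∈ C, (Sum.elim x (fun _ => 1) : ι ⊕ Fin 2 → k) ∈ Y) :
    pr hB hC h ⟶ pr hX hY hYX :=
  ⟨fun x => ⟨Sum.elim x.1 (fun _ => 1), h1 x.1 x.2⟩,
    ⟨fun j => j.elim (fun i => MvPolynomial.X i) (fun _ => 1), fun x j => by
      rcases j with j | j <;> simp⟩,
    fun x hx => h2 x.1 hx⟩

/-- `(x, u, w) ↦ x`. -/
def p_k2_r {ι : Type} [Finite ι] {B C : Set (ι → k)} (hB : IsAlg B) (hC : IsAlg C)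
    (h : C ⊆ B) {X Y : Set (ι ⊕ Fin 2 → k)} (hX : IsAlg X) (hY : IsAlg Y) (hYX : Y ⊆ X)
    (h1 : ∀ z ∈ X, z ∘ Sum.inl ∈ B) (h2 : ∀ z ∈ Y, z ∘ Sum.inl ∈ C) :
    pr hX hY hYX ⟶ pr hB hC h :=
  ⟨fun z => ⟨z.1 ∘ Sum.inl, h1 z.1 z.2⟩,
    ⟨fun j => MvPolynomial.X (Sum.inl j), fun x j => by simp⟩,
    fun z hz => h2 z.1 hz⟩

end

theorem p_k2 {k : Type} [Field k] {A : Type u} [Category.{v} A] [Abelian A]
    [MonoidalCategory A] (T : CohTheory k A) (h1 : S_zero T) (h2 : S_exc T)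
    (h3 : S_contract T) : S_k2 T := by
  intro ι _ m s B C D hB hC h hD h' hDe i
  -- the sets
  set V : Set (ι → k) := {x | ∀ a, MvPolynomial.eval x (s a) = 0} with hV
  have hVa : IsAlg V := IsAlg.zeros _
  have hDm : ∀ x : ι → k, x ∈ D ↔ x ∈ B ∩ V ∨ x ∈ C := fun x => by
    rw [hDe, Set.mem_union]
  have hBV : IsAlg (B ∩ V) := hB.inter hVa
  have hPB := PP_alg s hB
  have hPC := PP_alg s hC
  have hOne := p_k2_One_alg hB
  let N : Set (ι ⊕ Fin 2 → k) := PP s C ∪ p_k2_One B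
  have hN : IsAlg N := hPC.union hOne
  let W : Set (ι ⊕ Fin 2 → k) := {z | z ∘ Sum.inl ∈ B ∩ V}
  have hW : IsAlg W := hBV.cyl
  let M : Set (ι ⊕ Fin 2 → k) := W ∪ N
  have hM : IsAlg M := hW.union hN
  have hNB : N ⊆ PP s B := by
    rintro z (hz | hz)
    · exact PP_mono s h hz
    · exact ⟨hz.1, Or.inl (by rw [hz.2.1, hz.2.2, mul_one])⟩
  have hMB : M ⊆ PP s B := by
    rintro z (hz | hz)
    · exact ⟨hz.1, Or.inr hz.2⟩
    · exact hNB hz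
  have hNM : N ⊆ M := Set.subset_union_right
  have hCN : PP s C ⊆ N := Set.subset_union_left
  -- (1)
  have q1 : T.QI (inc (pr hB hD h').gm.algX (pr hB hD h').gm.algY (pr hB hD h').gm.sub
      hPB hM hMB (fun z hz => ⟨hz.1, Or.inl hz.2⟩) (by
        rintro z ⟨hz1, hz2, hz3⟩
        rcases hz3 with hz3 | hz3
        · rcases (hDm (z ∘ Sum.inl)).1 hz3 with hz4 | hz4
          · exact Or.inl hz4
          · exact Or.inr (Or.inl ⟨hz4, Or.inl hz2⟩)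
        · exact Or.inr (Or.inr ⟨hz1, hz3, by rw [hz3, one_mul] at hz2; exact hz2⟩))) := by
    refine h2 _ _ _ _ _ _ _ _ ?_ ?_
    · ext z
      constructor
      · rintro ⟨hz1, hz2 | hz2⟩
        · exact Or.inl ⟨hz1, hz2⟩
        · exact Or.inr (Or.inl ⟨hz1, hz2⟩)
      · rintro (hz | hz)
        · exact ⟨hz.1, Or.inl hz.2⟩
        · exact hMB hz
    · ext z
      constructor
      · rintro ⟨hz1, hz2, hz3⟩
        refine ⟨⟨hz1, hz2⟩, ?_⟩
        rcases hz3 with hz3 | hz3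
        · rcases (hDm (z ∘ Sum.inl)).1 hz3 with hz4 | hz4
          · exact Or.inl hz4
          · exact Or.inr (Or.inl ⟨hz4, Or.inl hz2⟩)
        · exact Or.inr (Or.inr ⟨hz1, hz3, by rw [hz3, one_mul] at hz2; exact hz2⟩)
      · rintro ⟨⟨hz1, hz2⟩, hz3⟩
        refine ⟨hz1, hz2, ?_⟩
        rcases hz3 with hz3 | hz3 | hz3
        · exact Or.inl ((hDm (z ∘ Sum.inl)).2 (Or.inl hz3))
        · exact Or.inl ((hDm (z ∘ Sum.inl)).2 (Or.inr hz3.1))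
        · exact Or.inr hz3.2.1
  -- (2)
  have hcon : W ∩ N = conSet (B ∩ V) ((B ∩ V) ∩ C) := by
    ext z
    constructor
    · rintro ⟨hz1, hz2 | hz2⟩
      · exact Or.inl ⟨hz1, hz2.1⟩
      · exact Or.inr ⟨hz1, hz2.2⟩
    · rintro (hz | hz)
      · exact ⟨hz.1, Or.inl ⟨hz.2, Or.inr hz.1.2⟩⟩
      · exact ⟨hz.1, Or.inr ⟨hz.1.1, hz.2⟩⟩
  have hcona : IsAlg (conSet (B ∩ V) ((B ∩ V) ∩ C)) := hcon ▸ hW.inter hN
  have hcons : conSet (B ∩ V) ((B ∩ V) ∩ C) ⊆ {z : ι ⊕ Fin 2 → k | z ∘ Sum.inl ∈ B ∩ V} :=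
    hcon ▸ Set.inter_subset_left
  have z1 := h3 hBV (hBV.inter hC) Set.inter_subset_left hcona hcons
  have q2 : T.QI (inc (hBV.cyl (κ := Fin 2)) hcona hcons hM hN hNM Set.subset_union_left
      (hcon ▸ Set.inter_subset_right)) :=
    h2 _ _ _ _ _ _ _ _ rfl hcon.symm
  have z2 : ∀ j, IsZero ((T.h j).obj (op (pr hM hN hNM))) := fun j => by
    have := q2 j
    exact (z1 j).of_iso (@asIso _ _ _ _ _ this)
  let t2 : AffTriple k := ⟨ι ⊕ Fin 2, inferInstance, PP s B, M, N, hPB, hM, hN, hMB, hNM⟩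
  have m2 : Mono ((T.h (i + 1)).map t2.quot.op) := by
    obtain ⟨w, hw⟩ := T.exact_XY i t2
    exact hw.mono_g ((z2 i).eq_of_src _ _)
  -- (3)
  let t3 : AffTriple k := ⟨ι ⊕ Fin 2, inferInstance, PP s B, N, PP s C, hPB, hN, hPC, hNB, hCN⟩
  have hOC : IsAlg (p_k2_One B ∩ PP s C) := hOne.inter hPC
  have q3 : T.QI (inc hOne hOC Set.inter_subset_left hN hPC hCN Set.subset_union_right
      Set.inter_subset_right) :=
    h2 _ _ _ _ _ _ _ _ (Set.union_comm _ _) rfl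
  have o1 : ∀ x ∈ B, (Sum.elim x (fun _ => 1) : ι ⊕ Fin 2 → k) ∈ p_k2_One B := fun x hx =>
    ⟨by rw [Sum.elim_comp_inl]; exact hx, rfl, rfl⟩
  have o2 : ∀ x ∈ C, (Sum.elim x (fun _ => 1) : ι ⊕ Fin 2 → k) ∈ PP s C := fun x hx =>
    ⟨by rw [Sum.elim_comp_inl]; exact hx, Or.inl (mul_one _)⟩
  let e := p_k2_e hB hC h hOne hOC Set.inter_subset_left o1 (fun x hx => ⟨o1 x (h hx), o2 x hx⟩)
  have he : IsIso e := by
    refine isIso_of_inv e (p_k2_r hB hC h hOne hOC Set.inter_subset_left (fun z hz => hz.1)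
      (fun z hz => hz.2.1)) (fun x => ?_) (fun z => ?_)
    · rfl
    · obtain ⟨z, hz⟩ := z
      funext j
      rcases j with j | j
      · rfl
      · have hj : j = 0 ∨ j = 1 := by fin_cases j <;> simp
        rcases hj with rfl | rfl
        · exact hz.2.1.symm
        · exact hz.2.2.symm
  let g0 := p_k2_e hB hC h hN hPC hCN (fun x hx => Or.inr (o1 x hx)) o2
  have hg0 : T.QI g0 := (CohTheory.QI.of_isIso T e).comp q3
  let f0 := p_k2_e hB hC h hPB hPC (PP_mono s h) (fun x hx => hNB (Or.inr (o1 x hx))) o2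
  let r0 := p_k2_r hB hC h hPB hPC (PP_mono s h) (fun z hz => hz.1) (fun z hz => hz.1)
  have hfr : f0 ≫ r0 = 𝟙 _ := AffPair.hom_ext _ _ fun x => rfl
  have hf0 : g0 ≫ t3.incl = f0 := AffPair.hom_ext _ _ fun x => rfl
  have e3 : Epi ((T.h i).map t3.incl.op) := by
    have a1 : (T.h i).map r0.op ≫ (T.h i).map f0.op = 𝟙 _ := by
      rw [← Functor.map_comp, ← op_comp, hfr, op_id, CategoryTheory.Functor.map_id]
    have a2 : (T.h i).map t3.incl.op ≫ (T.h i).map g0.op = (T.h i).map f0.op := by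
      rw [← Functor.map_comp, ← op_comp, hf0]
    have a3 := hg0 i
    have a4 : (T.h i).map t3.incl.op = (T.h i).map f0.op ≫ inv ((T.h i).map g0.op) := by
      rw [IsIso.eq_comp_inv, a2]
    have a5 : IsSplitEpi ((T.h i).map f0.op) := ⟨⟨⟨_, a1⟩⟩⟩
    rw [a4]
    infer_instance
  have m3 : Mono ((T.h (i + 1)).map t3.quot.op) := by
    obtain ⟨w, hw⟩ := T.exact_XY i t3
    obtain ⟨w', -⟩ := T.exact_YZ i t3
    refine hw.mono_g ?_
    show T.δ i t3 = 0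
    rw [← cancel_epi ((T.h i).map t3.incl.op), w', comp_zero]
  -- conclusion
  obtain ⟨κ⟩ := T.kunneth i (pr hB hD h')
  have iq1 := q1 (i + 1)
  have hinv : Mono (inv ((T.h (i + 1)).map (inc (pr hB hD h').gm.algX (pr hB hD h').gm.algY
      (pr hB hD h').gm.sub hPB hM hMB (fun z hz => ⟨hz.1, Or.inl hz.2⟩) _).op)) := inferInstance
  refine ⟨κ.inv ≫ inv ((T.h (i + 1)).map (inc (pr hB hD h').gm.algX (pr hB hD h').gm.algY
      (pr hB hD h').gm.sub hPB hM hMB (fun z hz => ⟨hz.1, Or.inl hz.2⟩) _).op) ≫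
      (T.h (i + 1)).map t2.quot.op ≫ (T.h (i + 1)).map t3.quot.op, ?_⟩
  have c1 : Mono ((T.h (i + 1)).map t2.quot.op ≫ (T.h (i + 1)).map t3.quot.op) :=
    mono_comp _ _
  have c2 := mono_comp (inv ((T.h (i + 1)).map (inc (pr hB hD h').gm.algX (pr hB hD h').gm.algY
      (pr hB hD h').gm.sub hPB hM hMB (fun z hz => ⟨hz.1, Or.inl hz.2⟩) _).op))
      ((T.h (i + 1)).map t2.quot.op ≫ (T.h (i + 1)).map t3.quot.op)
  exact mono_comp _ _

end Pool.Agent.Lib.MP_ae0f86_nt
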