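import Pool.Agent.Lib.MP_ae0f86_nt.StmT

open CategoryTheory CategoryTheory.Limits Opposite MonoidalCategory

universe w v u

namespace Pool.Agent.Lib.MP_ae0f86_nt

theorem p_lead : S_lead.{w} := by
  intro K _ R _ _ _ x
  set m : Ideal R := RingHom.ker x with hm
  let M2 : Submodule K R := (m ^ 2).restrictScalars K
  let M1 : Submodule K R := m.restrictScalars K
  let π : R →ₗ[K] (R ⧸ M2) := M2.mkQ
  let W : Submodule K (R ⧸ M2) := M1.map π
  have hπ : ∀ a, π a = 0 ↔ a ∈ m ^ 2 := by
    intro a
    have := Submodule.Quotient.mk_eq_zero M2 (x := a)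
    simpa [π, M2] using this
  have hx1 : ∀ k : K, x (algebraMap K R k) = k := by
    intro k; simp
  have hsub : ∀ a : R, a - algebraMap K R (x a) ∈ m := by
    intro a
    rw [hm, RingHom.mem_ker, map_sub, hx1, sub_self]
  -- `W` is finite-dimensional
  have hW : W.FG := by
    obtain ⟨s, hs⟩ := (isNoetherianRing_iff_ideal_fg R).1 inferInstance m
    classical
    refine ⟨s.image π, ?_⟩
    apply le_antisymm
    · rw [Submodule.span_le]
      intro y hy
      simp only [Finset.coe_image, Set.mem_image, Finset.mem_coe] at hy
      obtain ⟨g, hg, rfl⟩ := hy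
      exact Submodule.mem_map_of_mem (by
        change g ∈ m
        rw [← hs]; exact Ideal.subset_span hg)
    · rintro y ⟨a, ha, rfl⟩
      have ha' : a ∈ m := ha
      rw [← hs] at ha'
      change a ∈ Submodule.span R (s : Set R) at ha'
      rw [Submodule.mem_span_finset'] at ha'
      obtain ⟨f, rfl⟩ := ha'
      rw [map_sum]
      refine Submodule.sum_mem _ ?_
      intro g _
      have hg : (g : R) ∈ m := by rw [← hs]; exact Ideal.subset_span g.2
      have e1 : π (f g • (g : R)) = x (f g) • π (g : R) := by
        rw [← sub_eq_zero, ← map_smul, ← map_sub, hπ]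
        have : f g • (g : R) - x (f g) • (g : R) = (f g - algebraMap K R (x (f g))) * g := by
          rw [smul_eq_mul, Algebra.smul_def]; ring
        rw [this, pow_two]
        exact Ideal.mul_mem_mul (hsub _) hg
      rw [e1]
      refine Submodule.smul_mem _ _ (Submodule.subset_span ?_)
      simp only [Finset.coe_image, Set.mem_image, Finset.mem_coe]
      exact ⟨g, g.2, rfl⟩
  have : Module.Finite K W := Module.Finite.iff_fg.2 hW
  let d := Module.finrank K W
  let b : Module.Basis (Fin d) K W := Module.finBasis K W
  have hlift : ∀ i : Fin d, ∃ e : R, e ∈ m ∧ π e = (b i : R ⧸ M2) := by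
    intro i
    obtain ⟨e, he, h⟩ := (b i).2
    exact ⟨e, he, h⟩
  choose e he hbe using hlift
  refine ⟨d, e, fun i => he i, ?_, ?_⟩
  · intro r
    induction r with
    | zero =>
      intro a _
      refine ⟨MvPolynomial.C (x a), MvPolynomial.isHomogeneous_C _ _, ?_⟩
      rw [MvPolynomial.aeval_C, zero_add, pow_one]
      exact hsub a
    | succ r ih =>
      have h1 : ∀ v ∈ m, ∃ L : MvPolynomial (Fin d) K, L.IsHomogeneous 1 ∧
          v - MvPolynomial.aeval e L ∈ m ^ 2 := by
        intro v hv
        let vw : W := ⟨π v, Submodule.mem_map_of_mem hv⟩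
        refine ⟨∑ i, MvPolynomial.C (b.repr vw i) * MvPolynomial.X i, ?_, ?_⟩
        · exact MvPolynomial.IsHomogeneous.sum _ _ _ fun i _ =>
            MvPolynomial.isHomogeneous_C_mul_X _ _
        · rw [← hπ, map_sub, sub_eq_zero]
          have h2 : (vw : R ⧸ M2) = ∑ i, b.repr vw i • (b i : R ⧸ M2) := by
            have h := congrArg W.subtype (b.sum_repr vw)
            rw [map_sum] at h
            simp only [map_smul, Submodule.subtype_apply] at h
            exact h.symm
          change (vw : R ⧸ M2) = _
          rw [h2, map_sum, map_sum]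
          refine Finset.sum_congr rfl fun i _ => ?_
          rw [map_mul, MvPolynomial.aeval_C, MvPolynomial.aeval_X, ← Algebra.smul_def, map_smul,
            hbe]
      intro a ha
      rw [pow_succ] at ha
      refine Submodule.mul_induction_on (C := fun a => ∃ P : MvPolynomial (Fin d) K,
        P.IsHomogeneous (r + 1) ∧ a - MvPolynomial.aeval e P ∈ m ^ (r + 1 + 1)) ha ?_ ?_
      · intro u hu v hv
        obtain ⟨P, hP, hPu⟩ := ih u hu
        obtain ⟨L, hL, hLv⟩ := h1 v hv
        refine ⟨P * L, hP.mul hL, ?_⟩
        have hPe : MvPolynomial.aeval e P ∈ m ^ r := by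
          have h3 : u - MvPolynomial.aeval e P ∈ m ^ r := Ideal.pow_le_pow_right (by omega) hPu
          have h4 := Ideal.sub_mem _ hu h3
          simpa using h4
        have e2 : u * v - MvPolynomial.aeval e (P * L) =
            (u - MvPolynomial.aeval e P) * v +
              MvPolynomial.aeval e P * (v - MvPolynomial.aeval e L) := by
          rw [map_mul]; ring
        rw [e2]
        refine Ideal.add_mem _ ?_ ?_
        · rw [pow_succ]
          exact Ideal.mul_mem_mul hPu hv
        · rw [show r + 1 + 1 = r + 2 from rfl, pow_add]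
          exact Ideal.mul_mem_mul hPe hLv
      · rintro a a' ⟨P, hP, h⟩ ⟨P', hP', h'⟩
        refine ⟨P + P', hP.add hP', ?_⟩
        have := Ideal.add_mem _ h h'
        rw [map_add]
        convert this using 1
        ring
  · intro c
    obtain ⟨l, hl⟩ := LinearMap.exists_extend (p := W) (b.constr K c : W →ₗ[K] K)
    have hlb : ∀ i, l (π (e i)) = c i := by
      intro i
      have h1 := LinearMap.congr_fun hl (b i)
      rw [Module.Basis.constr_basis] at h1
      rw [hbe i]
      exact h1
    let D : R →ₗ[K] K := (l ∘ₗ π) ∘ₗ (LinearMap.id - (Algebra.linearMap K R) ∘ₗ x.toLinearMap)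
    have hD : ∀ a, D a = l (π (a - algebraMap K R (x a))) := fun a => rfl
    refine ⟨D, ?_, ?_⟩
    · intro a a'
      have h2 : π (a * a' - algebraMap K R (x (a * a'))) =
          x a • π (a' - algebraMap K R (x a')) + x a' • π (a - algebraMap K R (x a)) := by
        rw [← sub_eq_zero, ← map_smul, ← map_smul, ← map_add, ← map_sub, hπ]
        have e3 : a * a' - algebraMap K R (x (a * a')) -
            (x a • (a' - algebraMap K R (x a')) + x a' • (a - algebraMap K R (x a))) =
            (a - algebraMap K R (x a)) * (a' - algebraMap K R (x a')) := by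
          rw [Algebra.smul_def, Algebra.smul_def, map_mul, map_mul]; ring
        rw [e3, pow_two]
        exact Ideal.mul_mem_mul (hsub _) (hsub _)
      rw [hD, hD, hD, h2, map_add, map_smul, map_smul, smul_eq_mul, smul_eq_mul]
    · intro i
      have h0 : x (e i) = 0 := he i
      rw [hD, h0, map_zero, sub_zero, hlb]

end Pool.Agent.Lib.MP_ae0f86_nt
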