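import Pool.Agent.Lib.MP_ae0f86_nt.StmT

universe w v u

namespace Pool.Agent.Lib.MP_ae0f86_nt

private theorem leadphi_hom {K : Type} [Field K] {d : ℕ} {r : ℕ} (P : MvPolynomial (Fin d) K)
    (hP : P.IsHomogeneous r) (X : PowerSeries K) (g : Fin d → PowerSeries K) :
    MvPolynomial.aeval (fun i => X * g i) P = X ^ r * MvPolynomial.aeval g P := by
  rw [MvPolynomial.aeval_def, MvPolynomial.aeval_def, MvPolynomial.eval₂_eq',
    MvPolynomial.eval₂_eq', Finset.mul_sum]
  refine Finset.sum_congr rfl fun m hm => ?_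
  have h1 : ∑ i, m i = r := by
    have h2 := hP (MvPolynomial.mem_support_iff.mp hm)
    rw [Finsupp.weight_apply, Finsupp.sum_fintype _ _ (by intro i; simp)] at h2
    simpa using h2
  have h3 : ∏ i, (X * g i) ^ m i = X ^ r * ∏ i, g i ^ m i := by
    simp only [mul_pow]
    rw [Finset.prod_mul_distrib, Finset.prod_pow_eq_pow_sum, h1]
  rw [h3]
  ring

private theorem leadphi_dvd {K : Type} [Field K] (R : Type w) [CommRing R] [Algebra K R]
    (x : R →ₐ[K] K) (Φ : R →ₐ[K] PowerSeries K) (h0 : ∀ a, PowerSeries.coeff 0 (Φ a) = x a)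
    (n : ℕ) (a : R) (ha : a ∈ (RingHom.ker x) ^ n) : (PowerSeries.X : PowerSeries K) ^ n ∣ Φ a := by
  have h1 : RingHom.ker x ≤ (Ideal.span {(PowerSeries.X : PowerSeries K)}).comap Φ := by
    intro b hb
    rw [Ideal.mem_comap, Ideal.mem_span_singleton, PowerSeries.X_dvd_iff,
      ← PowerSeries.coeff_zero_eq_constantCoeff_apply]
    have h2 := h0 b
    rw [RingHom.mem_ker] at hb
    rw [hb] at h2
    exact h2
  have h2 : (RingHom.ker x) ^ n ≤ (Ideal.span {(PowerSeries.X : PowerSeries K) ^ n}).comap Φ := by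
    refine (Ideal.pow_right_mono h1 n).trans ?_
    refine (Ideal.le_comap_pow Φ n).trans ?_
    rw [Ideal.span_singleton_pow]
  have h3 := h2 ha
  rw [Ideal.mem_comap, Ideal.mem_span_singleton] at h3
  exact h3

theorem p_leadphi : S_leadphi.{w} := by
  intro K _ R _ _ x Φ h0 d e he r a ha P hP haP
  have h1 := leadphi_dvd R x Φ h0 r a ha
  rw [PowerSeries.X_pow_dvd_iff] at h1
  refine ⟨?_, h1⟩
  have h2 := leadphi_dvd R x Φ h0 (r + 1) _ haP
  rw [PowerSeries.X_pow_dvd_iff] at h2
  have h3 := h2 r (Nat.lt_succ_self r)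
  rw [map_sub, map_sub, sub_eq_zero] at h3
  rw [h3]
  have h4 : ∀ i, ∃ g : PowerSeries K, Φ (e i) = PowerSeries.X * g := by
    intro i
    have h5 : (PowerSeries.X : PowerSeries K) ∣ Φ (e i) := by
      rw [PowerSeries.X_dvd_iff, ← PowerSeries.coeff_zero_eq_constantCoeff_apply]
      have h6 := h0 (e i)
      rw [he i] at h6
      exact h6
    exact h5
  choose g hg using h4
  have h5 : Φ (MvPolynomial.aeval e P) = PowerSeries.X ^ r * MvPolynomial.aeval g P := by
    rw [← leadphi_hom P hP PowerSeries.X g]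
    have h6 : Φ (MvPolynomial.aeval e P) = MvPolynomial.aeval (fun i => Φ (e i)) P := by
      rw [← MvPolynomial.comp_aeval_apply]
    rw [h6]
    congr 2
    funext i
    exact hg i
  rw [h5]
  have h6 := PowerSeries.coeff_X_pow_mul (MvPolynomial.aeval g P) r 0
  rw [zero_add] at h6
  rw [h6, PowerSeries.coeff_zero_eq_constantCoeff_apply]
  have h7 : (fun i => PowerSeries.coeff 1 (Φ (e i))) = fun i => PowerSeries.constantCoeff (g i) := by
    funext i
    rw [hg i]
    have h8 := PowerSeries.coeff_succ_X_mul 0 (g i)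
    rw [zero_add] at h8
    rw [h8, PowerSeries.coeff_zero_eq_constantCoeff_apply]
  rw [h7, MvPolynomial.aeval_def, MvPolynomial.eval₂_eq', MvPolynomial.eval_eq', map_sum]
  refine Finset.sum_congr rfl fun m _ => ?_
  rw [map_mul, map_prod]
  congr 1
  refine Finset.prod_congr rfl fun i _ => ?_
  rw [map_pow]

end Pool.Agent.Lib.MP_ae0f86_nt
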