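import Pool.Agent.Lib.MP_ae0f86_nt.StmE

/-!
# MP_ae0f86_nt, piece lef: a formal period of the Lefschetz object is invertible
-/

open CategoryTheory CategoryTheory.Limits Opposite MonoidalCategory

universe v u

namespace Pool.Agent.Lib.MP_ae0f86_nt

noncomputable section

attribute [local instance] CategoryTheory.Abelian.hasFiniteBiproducts

/-- a line has a basis vector and a dual coordinate -/
private theorem p_lef_line {F V : Type*} [Field F] [AddCommGroup V] [Module F V]
    (h : Module.finrank F V = 1) :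
    ∃ (v : V) (σ : Module.Dual F V), σ v = 1 ∧ ∀ w, w = σ w • v := by
  obtain ⟨v, hv, hw⟩ := finrank_eq_one_iff'.mp h
  have hb : Function.Bijective (LinearMap.toSpanSingleton F V v) := by
    refine ⟨?_, fun w => ?_⟩
    · rw [injective_iff_map_eq_zero]
      intro a ha
      rw [LinearMap.toSpanSingleton_apply] at ha
      exact (smul_eq_zero.mp ha).resolve_right hv
    · obtain ⟨c, hc⟩ := hw w
      exact ⟨c, by rw [LinearMap.toSpanSingleton_apply]; exact hc⟩
  let e := LinearEquiv.ofBijective (LinearMap.toSpanSingleton F V v) hb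
  have he : ∀ a : F, e a = a • v := fun a => rfl
  refine ⟨v, e.symm.toLinearMap, ?_, fun w => ?_⟩
  · show e.symm v = 1
    rw [LinearEquiv.symm_apply_eq, he, one_smul]
  · show w = e.symm w • v
    rw [← he, LinearEquiv.apply_symm_apply]

variable {A : Type u} [Category.{v} A] [Abelian A] [MonoidalCategory A] [SymmetricCategory A]

/-- the fibres of an invertible object are lines -/
private theorem p_lef_rank {F : Type} [Field F] (H : A ⥤ ModuleCat.{0} F) [FibreFunctor H]
    {L L' : A} (i : L ⊗ L' ≅ 𝟙_ A) :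
    Module.finrank F (H.obj L) = 1 ∧ Module.finrank F (H.obj L') = 1 ∧
      Module.finrank F (H.obj (𝟙_ A)) = 1 := by
  have e1 := (LinearEquiv.ofBijective _ (FibreFunctor.bij (H := H) L L')).finrank_eq
  have e2 := ((H.mapIso i).toLinearEquiv).finrank_eq
  have hb : Function.Bijective
      (LinearMap.toSpanSingleton F (H.obj (𝟙_ A)) (FibreFunctor.one (H := H))) :=
    FibreFunctor.one_bij (H := H)
  have e3 := (LinearEquiv.ofBijective _ hb).finrank_eq
  rw [Module.finrank_self] at e3
  rw [Module.finrank_tensorProduct] at e1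
  have e4 : Module.finrank F (H.obj L) * Module.finrank F (H.obj L') = 1 := by
    rw [e1, e2, ← e3]
  exact ⟨Nat.eq_one_of_mul_eq_one_right e4, Nat.eq_one_of_mul_eq_one_left e4, e3.symm⟩

/-- a generator of the fibre of an invertible object -/
private theorem p_lef_gen {F : Type} [Field F] (H : A ⥤ ModuleCat.{0} F) [FibreFunctor H]
    {L L' : A} (i : L ⊗ L' ≅ 𝟙_ A) :
    ∃ (x : H.obj L) (x' : H.obj L') (σ : Module.Dual F (H.obj L))
      (σ' : Module.Dual F (H.obj L')), σ x = 1 ∧ σ' x' = 1 ∧ (∀ w, w = σ w • x) ∧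
      (∀ w, w = σ' w • x') ∧
      (H.map i.hom).hom (FibreFunctor.mul L L' x x') = FibreFunctor.one := by
  obtain ⟨h1, h2, -⟩ := p_lef_rank H i
  obtain ⟨x, σ, hx, hx'⟩ := p_lef_line h1
  obtain ⟨y, τ, hy, hy'⟩ := p_lef_line h2
  obtain ⟨a, ha⟩ := (FibreFunctor.one_bij (H := H)).2
    ((H.map i.hom).hom (FibreFunctor.mul L L' x y))
  have ha' : a • (FibreFunctor.one (H := H)) =
    (H.map i.hom).hom (FibreFunctor.mul L L' x y) := ha
  have ha0 : a ≠ 0 := by
    intro h0
    rw [h0, zero_smul] at ha'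
    have h3 : FibreFunctor.mul (H := H) L L' x y = 0 := by
      have h4 : ((H.mapIso i).toLinearEquiv) (FibreFunctor.mul (H := H) L L' x y) = 0 := ha'.symm
      exact (LinearEquiv.map_eq_zero_iff _).mp h4
    have h5 : x ⊗ₜ[F] y = 0 := by
      apply (FibreFunctor.bij (H := H) L L').1
      rw [map_zero, TensorProduct.lift.tmul, h3]
    have h6 : TensorProduct.dualDistrib F (H.obj L) (H.obj L') (σ ⊗ₜ τ) (x ⊗ₜ[F] y) = 1 := by
      rw [TensorProduct.dualDistrib_apply, hx, hy, one_mul]
    rw [h5, map_zero] at h6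
    exact zero_ne_one h6
  refine ⟨x, a⁻¹ • y, σ, a • τ, hx, ?_, hx', fun w => ?_, ?_⟩
  · rw [LinearMap.smul_apply, map_smul, hy, smul_eq_mul, smul_eq_mul, mul_one,
      mul_inv_cancel₀ ha0]
  · rw [LinearMap.smul_apply, smul_smul, smul_eq_mul, mul_comm a, mul_assoc, mul_inv_cancel₀ ha0,
      mul_one]
    exact hy' w
  · rw [map_smul, map_smul, ← ha', smul_smul, inv_mul_cancel₀ ha0, one_smul]

theorem p_lef (h1 : S_algrel (A := A)) : S_lef (A := A) := by
  intro K _ _ H HB _ _ L L' i
  obtain ⟨ω, ω', -, -, -, -, -, -, hω⟩ := p_lef_gen H i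
  obtain ⟨x, x', σ, σ', hx, hx', hxs, hxs', hxx⟩ := p_lef_gen HB i
  obtain ⟨φ0, φ, hφ0, hφ⟩ := p_lef_line (p_lef_rank HB i).2.2
  have hone : φ (FibreFunctor.one (H := HB)) ≠ 0 := by
    intro h0
    have h2 := hφ (FibreFunctor.one (H := HB))
    rw [h0, zero_smul] at h2
    have h3 := (FibreFunctor.one_bij (H := HB)).1
    have h4 : (1 : ℚ) = 0 := h3 (by
      show (1 : ℚ) • (FibreFunctor.one (H := HB)) = (0 : ℚ) • (FibreFunctor.one (H := HB))
      rw [h2, smul_zero, smul_zero])
    exact one_ne_zero h4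
  let ψ : Module.Dual ℚ (HB.obj (𝟙_ A)) := (φ (FibreFunctor.one (H := HB)))⁻¹ • φ
  have hψ : ψ (FibreFunctor.one (H := HB)) = 1 := by
    show (φ (FibreFunctor.one (H := HB)))⁻¹ • φ (FibreFunctor.one (H := HB)) = 1
    rw [smul_eq_mul, inv_mul_cancel₀ hone]
  obtain ⟨r1, r2, r3, r4⟩ := h1 H HB (fun _ : A => True)
  have htd : tdual HB σ σ' = ψ ∘ₗ (HB.map i.hom).hom := by
    refine LinearMap.ext fun z => ?_
    obtain ⟨t, rfl⟩ := (FibreFunctor.bij (H := HB) L L').2 z
    induction t using TensorProduct.induction_on with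
    | zero => rw [map_zero, map_zero, map_zero]
    | add a b ha hb => rw [map_add, map_add, map_add, ha, hb]
    | tmul a b =>
      have key : FibreFunctor.mul (H := HB) L L' a b =
          (σ a * σ' b) • FibreFunctor.mul (H := HB) L L' x x' := by
        conv_lhs => rw [hxs a, hxs' b]
        rw [map_smul, map_smul, LinearMap.smul_apply, smul_smul, mul_comm]
      rw [TensorProduct.lift.tmul, r4, LinearMap.comp_apply, key, map_smul, hxx, map_smul, hψ,
        smul_eq_mul, mul_one]
  have hfun : asym H HB (S := fun _ : A => True) (N := L ⊗ L') trivial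
      (FibreFunctor.mul L L' ω ω') (ψ ∘ₗ (HB.map i.hom).hom) =
      asym H HB (S := fun _ : A => True) (N := 𝟙_ A) trivial
        ((H.map i.hom).hom (FibreFunctor.mul L L' ω ω')) ψ := by
    rw [← r1, ← r1]
    congr 1
    exact (Submodule.Quotient.eq _).mpr
      (Submodule.subset_span (LinRel.funct _ _ trivial trivial i.hom _ _))
  refine ⟨ω, σ, IsUnit.of_mul_eq_one (asym H HB (S := fun _ : A => True) (N := L') trivial ω' σ')
    ?_⟩
  rw [r2 trivial trivial trivial, htd, hfun, hω, r3 trivial ψ hψ]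

end

end Pool.Agent.Lib.MP_ae0f86_nt
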