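import Pool.Agent.Lib.MP_ae0f86_nt.StmE

open CategoryTheory CategoryTheory.Limits

universe v u

namespace Pool.Agent.Lib.MP_ae0f86_nt

attribute [local instance] CategoryTheory.Abelian.hasFiniteBiproducts

/-- The zero object belongs to every closed class. -/
theorem p_lincl_zero {A : Type u} [Category.{v} A] [Abelian A] {S : A → Prop} (hS : Closed S)
    {M : A} (hM : IsZero M) : S M := by
  obtain ⟨N, hN⟩ := hS.ne
  have : Epi (0 : N ⟶ M) := ⟨fun g h _ => hM.eq_of_src g h⟩
  exact hS.quot (0 : N ⟶ M) hN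

/-- A closed class is closed under finite direct sums. -/
theorem p_lincl_sum {A : Type u} [Category.{v} A] [Abelian A] {S : A → Prop} (hS : Closed S) :
    ∀ (n : ℕ) (M : Fin n → A), (∀ a, S (M a)) → S (⨁ M) := by
  intro n
  induction n with
  | zero =>
    intro M _
    apply p_lincl_zero hS
    rw [IsZero.iff_id_eq_zero]
    apply biproduct.hom_ext
    intro j
    exact j.elim0
  | succ n ih =>
    intro M hM
    have h1 : S (⨁ fun a : Fin n => M a.castSucc) := ih _ (fun a => hM _)
    have h2 : S ((⨁ fun a : Fin n => M a.castSucc) ⊞ M (Fin.last n)) := hS.sum h1 (hM _)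
    let f : (⨁ M) ⟶ (⨁ fun a : Fin n => M a.castSucc) ⊞ M (Fin.last n) :=
      biprod.lift (biproduct.lift fun a => biproduct.π M a.castSucc) (biproduct.π M (Fin.last n))
    have hf : Mono f := by
      refine Preadditive.mono_of_cancel_zero f (fun {P} g hg => ?_)
      apply biproduct.hom_ext
      intro j
      rw [zero_comp]
      have h3 : g ≫ f ≫ biprod.fst = 0 := by rw [← Category.assoc, hg, zero_comp]
      have h4 : g ≫ f ≫ biprod.snd = 0 := by rw [← Category.assoc, hg, zero_comp]
      have e1 : f ≫ biprod.fst = biproduct.lift fun a : Fin n => biproduct.π M a.castSucc :=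
        biprod.lift_fst _ _
      have e2 : f ≫ biprod.snd = biproduct.π M (Fin.last n) := biprod.lift_snd _ _
      rw [e1] at h3
      rw [e2] at h4
      refine Fin.lastCases h4 (fun a => ?_) j
      have h5 : (g ≫ biproduct.lift fun a : Fin n => biproduct.π M a.castSucc) ≫
          biproduct.π (fun a : Fin n => M a.castSucc) a = 0 := by rw [h3, zero_comp]
      rwa [Category.assoc, biproduct.lift_π] at h5
    exact hS.sub f h2

theorem p_lincl {A : Type u} [Category.{v} A] [Abelian A] (h1 : S_subq A) (h2 : S_subsum A) :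
    S_lincl A := by
  obtain ⟨-, -, -, hmono, hepi, -⟩ := h1
  obtain ⟨hsq, -, -, hadd, hself, -, hiff⟩ := h2
  have hself' : ∀ W : A, Lin W W := fun W => (hiff W W).1 (hself _ W rfl)
  have hcl : ∀ W : A, Closed (Lin W) := fun W =>
    { sum := fun {N N'} hN hN' => (hiff W _).1 (hadd _ _ _ ((hiff W N).2 hN) ((hiff W N').2 hN'))
      sub := fun {N N'} i hi hN => (hiff W _).1 (hsq _ _ _ ((hiff W N).2 hN) (hmono _ _ i hi))
      quot := fun {N N'} p hp hN => (hiff W _).1 (hsq _ _ _ ((hiff W N).2 hN) (hepi _ _ p hp))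
      ne := ⟨W, hself' W⟩ }
  have h3 : ∀ (S : A → Prop) (W : A), Closed S → S W → ∀ N, Lin W N → S N := by
    rintro S W hS hW N ⟨n, N', i, p, hi, hp⟩
    have h4 : S (⨁ fun _ : Fin n => W) := p_lincl_sum hS n _ (fun _ => hW)
    exact hS.quot p (hS.sub i h4)
  refine ⟨hcl, hself', h3, ?_, ?_⟩
  · intro S hS r M hM
    refine ⟨⨁ M, p_lincl_sum hS r M hM, fun a => ?_⟩
    exact (hcl (⨁ M)).sub (biproduct.ι M a) (hself' _)
  · intro W W' N hW hN
    exact h3 (Lin W) W' (hcl W) hW N hN

end Pool.Agent.Lib.MP_ae0f86_nt
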