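import Pool.Agent.Lib.MP_ae0f86_nt.StmE

/-!
# MP_ae0f86_nt : the linear period statement
-/

open CategoryTheory CategoryTheory.Limits

universe v u

namespace Pool.Agent.Lib.MP_ae0f86_nt

noncomputable section

attribute [local instance] CategoryTheory.Abelian.hasFiniteBiproducts

private theorem p_linear_dim {K V W : Type*} [Field K] [AddCommGroup V] [Module K V]
    [AddCommGroup W] [Module K W] [Module.Finite K V] (f : V →ₗ[K] W) :
    Function.Injective f ↔ Module.finrank K (LinearMap.range f) = Module.finrank K V := by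
  have h := LinearMap.finrank_range_add_finrank_ker f
  constructor
  · intro hf
    have h1 : LinearMap.ker f = ⊥ := LinearMap.ker_eq_bot.2 hf
    rw [h1, finrank_bot, add_zero] at h
    exact h
  · intro h1
    have h2 : Module.finrank K (LinearMap.ker f) = 0 := by omega
    exact LinearMap.ker_eq_bot.1 (Submodule.finrank_eq_zero.1 h2)

theorem p_linear {A : Type u} [Category.{v} A] [Abelian A] [MonoidalCategory A]
    [SymmetricCategory A]
    (h1 : ∀ HB : A ⥤ ModuleCat.{0} ℚ, S_univ HB)
    (h2 : ∀ {K : Type} [Field K] (H : A ⥤ ModuleCat.{0} K) (HB : A ⥤ ModuleCat.{0} ℚ),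
      S_psi H HB)
    (h3 : S_rank (A := A)) (h4 : S_endbetti A) (h5 : S_range (A := A)) (h6 : S_lincl A) :
    S_linear (A := A) := by
  intro _ K _ _ HdR HB _ _ c W
  have hK : CharZero K := ((algebraMap K ℂ).charZero_iff (algebraMap K ℂ).injective).2 inferInstance
  obtain ⟨n, Q, π, σQ, hπ, huniq, hex, hn, b, hb⟩ := h1 HB (fun M => FibreFunctor.finite M) W
  have hQ : Lin W Q := ⟨n, ⨁ fun _ : Fin n => W, 𝟙 _, π, inferInstance, hπ⟩
  obtain ⟨Ψ, hΨ, -⟩ := h2 HdR HB W Q hQ σQ huniq hex
  let e : FP HdR HB (Lin W) ≃ₗ[K] HdR.obj Q := LinearEquiv.ofBijective Ψ hΨ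
  have hfin : Module.Finite K (HdR.obj Q) := FibreFunctor.finite Q
  have hfin2 : Module.Finite K (FP HdR HB (Lin W)) := Module.Finite.equiv e.symm
  have hr : Module.finrank K (FP HdR HB (Lin W)) = Module.finrank ℚ (EndBetti HB W) := by
    rw [e.finrank_eq, h3 c Q]
    exact (h4 HB (fun M => FibreFunctor.finite M) W Q n π σQ hπ huniq hex ⟨b, hb⟩).symm
  rw [p_linear_dim, h5 c W, hr]

end

end Pool.Agent.Lib.MP_ae0f86_nt
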