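import Pool.Agent.Lib.MP_ae0f86_nt.StmT

open CategoryTheory CategoryTheory.Limits Opposite MonoidalCategory

universe w v u

namespace Pool.Agent.Lib.MP_ae0f86_nt

theorem p_nullst : S_nullst.{w} := by
  intro K _ _ R _ _ _ m _
  let _ : Field (R ⧸ m) := Ideal.Quotient.field m
  have : Algebra.FiniteType K (R ⧸ m) := inferInstance
  have : Module.Finite K (R ⧸ m) := finite_of_finite_type_of_isJacobsonRing K (R ⧸ m)
  have : Algebra.IsIntegral K (R ⧸ m) := inferInstance
  have hb : Function.Bijective (algebraMap K (R ⧸ m)) :=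
    IsAlgClosed.algebraMap_bijective_of_isIntegral
  let e : K ≃ₐ[K] (R ⧸ m) := AlgEquiv.ofBijective (Algebra.ofId K (R ⧸ m)) hb
  refine ⟨(e.symm : (R ⧸ m) →ₐ[K] K).comp (Ideal.Quotient.mkₐ K m), ?_⟩
  ext a
  rw [RingHom.mem_ker]
  constructor
  · intro h
    have h2 : e.symm (Ideal.Quotient.mk m a) = 0 := h
    have h3 : Ideal.Quotient.mk m a = 0 := by simpa using h2
    exact Ideal.Quotient.eq_zero_iff_mem.1 h3
  · intro h
    have h3 : Ideal.Quotient.mk m a = 0 := Ideal.Quotient.eq_zero_iff_mem.2 h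
    change e.symm (Ideal.Quotient.mk m a) = 0
    rw [h3, map_zero]

end Pool.Agent.Lib.MP_ae0f86_nt
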