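import Pool.Agent.Lib.MP_ae0f86_nt.StmB

/-!
# MP_ae0f86_nt : the conjugates of a tuple of algebraic numbers (piece GP orbit)
-/

open MvPolynomial

namespace Pool.Agent.Lib.MP_ae0f86_nt

/-- Clearing denominators in a polynomial with rational coefficients. -/
private theorem p_orbit_clear {α : Type} (g : MvPolynomial α ℚ) :
    ∃ (d : ℚ) (ρ : MvPolynomial α ℤ), d ≠ 0 ∧
      MvPolynomial.map (Int.castRingHom ℚ) ρ = C d * g := by
  classical
  obtain ⟨b, hb⟩ := IsLocalization.exist_integer_multiples_of_finset (nonZeroDivisors ℤ)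
    (g.support.image (fun m => g.coeff m))
  have hb' : ∀ m ∈ g.support, ∃ z : ℤ, (z : ℚ) = ((b : ℤ) : ℚ) * g.coeff m := by
    intro m hm
    obtain ⟨z, hz⟩ := hb (g.coeff m) (Finset.mem_image_of_mem _ hm)
    refine ⟨z, ?_⟩
    have h := hz
    rw [eq_intCast, zsmul_eq_mul] at h
    exact h
  choose! z hz using hb'
  refine ⟨((b : ℤ) : ℚ), ∑ m ∈ g.support, monomial m (z m), ?_, ?_⟩
  · exact_mod_cast nonZeroDivisors.ne_zero b.2
  · rw [map_sum]
    conv_rhs => rw [g.as_sum, Finset.mul_sum]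
    refine Finset.sum_congr rfl fun m hm => ?_
    rw [map_monomial, C_mul_monomial, eq_intCast, hz m hm]

theorem p_orbit (h1 : S_autext) : S_orbit := by
  classical
  intro α _ θ
  have hfg : (RingHom.ker (aeval θ : MvPolynomial α ℚ →ₐ[ℚ] QBar)).FG :=
    IsNoetherian.noetherian _
  obtain ⟨S, hS⟩ := hfg
  choose d ρ0 hd hρ0 using fun g : MvPolynomial α ℚ => p_orbit_clear g
  have key : ∀ (t : α → QBar) (p : MvPolynomial α ℤ),
      aeval t p = aeval t (MvPolynomial.map (Int.castRingHom ℚ) p) := by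
    intro t p
    rw [aeval_def, aeval_def, eval₂_map]
    congr 1
  have key2 : ∀ (t : α → QBar) (g : MvPolynomial α ℚ),
      aeval t (ρ0 g) = algebraMap ℚ QBar (d g) * aeval t g := by
    intro t g
    rw [key, hρ0, map_mul, algHom_C]
  have hker : ∀ l : Fin S.card, aeval θ (ρ0 (S.equivFin.symm l).1) = 0 := by
    intro l
    rw [key2]
    have hm : ((S.equivFin.symm l).1 : MvPolynomial α ℚ) ∈
        RingHom.ker (aeval θ : MvPolynomial α ℚ →ₐ[ℚ] QBar) := by
      rw [← hS]
      exact Ideal.subset_span (S.equivFin.symm l).2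
    rw [RingHom.mem_ker] at hm
    rw [hm, mul_zero]
  have hτ : ∀ t : α → QBar, (∀ l : Fin S.card, aeval t (ρ0 (S.equivFin.symm l).1) = 0) →
      ∃ τ : QBar ≃ₐ[ℚ] QBar, ∀ a, τ (θ a) = t a := by
    intro t ht
    refine h1 θ t fun p hp => ?_
    have hle : Ideal.span (S : Set (MvPolynomial α ℚ)) ≤
        RingHom.ker (aeval t : MvPolynomial α ℚ →ₐ[ℚ] QBar) := by
      rw [Ideal.span_le]
      intro g hg
      have h := ht (S.equivFin ⟨g, hg⟩)
      rw [Equiv.symm_apply_apply, key2] at h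
      rcases mul_eq_zero.mp h with h | h
      · exact absurd ((map_eq_zero _).mp h) (hd g)
      · exact h
    have hp' : p ∈ Ideal.span (S : Set (MvPolynomial α ℚ)) := by
      rw [hS]
      exact hp
    exact hle hp'
  refine ⟨S.card, fun l => ρ0 (S.equivFin.symm l).1, hker, ?_, hτ⟩
  have hfin : {t : α → QBar | ∀ a, t a ∈ (minpoly ℚ (θ a)).rootSet QBar}.Finite :=
    Set.Finite.pi' fun a => Polynomial.rootSet_finite _ _
  refine hfin.subset fun t ht => ?_
  obtain ⟨τ, hτt⟩ := hτ t ht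
  intro a
  have hint : IsIntegral ℚ (θ a) :=
    ((algebraicClosure.isAlgebraic ℚ ℂ).isAlgebraic (θ a)).isIntegral
  rw [Polynomial.mem_rootSet]
  refine ⟨minpoly.ne_zero hint, ?_⟩
  rw [← hτt a]
  have h := Polynomial.aeval_algHom_apply (τ : QBar →ₐ[ℚ] QBar) (θ a) (minpoly ℚ (θ a))
  rw [minpoly.aeval, map_zero] at h
  exact h

end Pool.Agent.Lib.MP_ae0f86_nt
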