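import Pool.Agent.Lib.MP_ae0f86_nt.StmT

/-!
# MP_ae0f86_nt, piece perfield: the values of `evAlg` are algebraic over the field of periods
-/

open CategoryTheory CategoryTheory.Limits Opposite MonoidalCategory

universe w v u

namespace Pool.Agent.Lib.MP_ae0f86_nt

noncomputable section

attribute [local instance] CategoryTheory.Abelian.hasFiniteBiproducts

/-- the inverse of a matrix with entries in a subfield has entries in the subfield -/
private theorem p_perfield_inv {E F : Type*} [Field E] [Field F] [Algebra E F] {I J : Type}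
    [Fintype I] [DecidableEq I] [Fintype J] [DecidableEq J] (x : I → J → E) (Y : Matrix J I F)
    (h1 : (Matrix.of fun i j => algebraMap E F (x i j)) * Y = 1)
    (h2 : Y * (Matrix.of fun i j => algebraMap E F (x i j)) = 1) (j : J) (i : I) :
    ∃ y : E, algebraMap E F y = Y j i := by
  obtain ⟨π, hπ⟩ := LinearMap.exists_leftInverse_of_injective (Algebra.linearMap E F)
    (LinearMap.ker_eq_bot.mpr (algebraMap E F).injective)
  have hπ1 : ∀ a : E, π (algebraMap E F a) = a := fun a => LinearMap.congr_fun hπ a
  have h3 : (Matrix.of fun i j => algebraMap E F (x i j)) *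
      (Matrix.of fun j i => algebraMap E F (π (Y j i))) = 1 := by
    ext i k
    have h4 := congrFun (congrFun h1 i) k
    rw [Matrix.mul_apply] at h4 ⊢
    simp only [Matrix.of_apply] at h4 ⊢
    have h5 : ∑ j, algebraMap E F (x i j) * algebraMap E F (π (Y j k)) =
        algebraMap E F (π (∑ j, algebraMap E F (x i j) * Y j k)) := by
      rw [map_sum, map_sum]
      refine Finset.sum_congr rfl fun j _ => ?_
      rw [← Algebra.smul_def (x i j) (Y j k), map_smul, smul_eq_mul, map_mul]
    rw [h5, h4]
    by_cases hik : i = k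
    · subst hik
      rw [Matrix.one_apply_eq, ← map_one (algebraMap E F), hπ1]
    · rw [Matrix.one_apply_ne hik, map_zero, map_zero]
  have h6 : Y = Matrix.of fun j i => algebraMap E F (π (Y j i)) := by
    calc Y = Y * ((Matrix.of fun i j => algebraMap E F (x i j)) *
        (Matrix.of fun j i => algebraMap E F (π (Y j i)))) := by rw [h3, Matrix.mul_one]
      _ = _ := by rw [← Matrix.mul_assoc, h2, Matrix.one_mul]
  have h7 := congrFun (congrFun h6 j) i
  rw [Matrix.of_apply] at h7
  exact ⟨π (Y j i), h7.symm⟩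

variable {A : Type u} [Category.{v} A] [Abelian A] [MonoidalCategory A] [SymmetricCategory A]
  [RigidCategory A] {HdR : A ⥤ ModuleCat.{0} QBar} {HB : A ⥤ ModuleCat.{0} ℚ}
  [FibreFunctor HdR] [FibreFunctor HB]

omit [RigidCategory A] in
private theorem p_perfield_ev (c : Comparison HdR HB) {S : A → Prop} {N : A} (hN : S N)
    (ω : HdR.obj N) (σ : Module.Dual ℚ (HB.obj N)) :
    c.evAlg S (asym HdR HB hN ω σ) = c.per N ω σ := by
  exact MvPolynomial.aeval_X (R := QBar) (fun s : Symb HdR HB S => c.per s.N s.ω s.σ)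
    (⟨N, hN, ω, σ⟩ : Symb HdR HB S)

omit [SymmetricCategory A] in
private theorem p_perfield_closed (M : A) : DClosed (Gen M) where
  sum := Gen.sum
  sub := fun i _ h => Gen.sub i h
  quot := fun p _ h => Gen.quot p h
  ne := ⟨M, Gen.base⟩
  unit := Gen.unit
  tensor := Gen.tensor
  dual := Gen.dual

theorem p_perfield (c : Comparison HdR HB) (h1 : S_gens HdR HB) (h2 : S_xmat HdR HB) :
    S_perfield c := by
  intro M
  refine ⟨?_, ?_⟩
  · rintro z ⟨ω, σ, rfl⟩
    exact ⟨asym HdR HB (S := Gen M) (N := M) Gen.base ω σ, p_perfield_ev c _ _ _⟩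
  · let E := IntermediateField.adjoin ℚ (c.Per M)
    let T := algebraicClosure E ℂ
    have hmem : ∀ ω σ, c.per M ω σ ∈ E := fun ω σ =>
      IntermediateField.subset_adjoin ℚ _ ⟨ω, σ, rfl⟩
    have hQ : ∀ q : QBar, (q : ℂ) ∈ T := by
      intro q
      have hq : IsAlgebraic ℚ (q : ℂ) := mem_algebraicClosure_iff.mp q.2
      exact mem_algebraicClosure_iff.mpr (hq.tower_top E)
    have hE : ∀ e : E, algebraMap E ℂ e ∈ T := fun e => T.algebraMap_mem e
    have hq' : ∀ q : ℚ, algebraMap ℚ ℂ q ∈ T := by
      intro q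
      have := hE (algebraMap ℚ E q)
      rwa [← IsScalarTower.algebraMap_apply ℚ E ℂ] at this
    -- the dual object
    have hdual : ∀ (ω : HdR.obj (Mᘁ)) (σ : Module.Dual ℚ (HB.obj (Mᘁ))),
        c.per (Mᘁ) ω σ ∈ T := by
      obtain ⟨ω', β', hXY, hYX⟩ := h2 (Gen M) (p_perfield_closed M) Gen.base
        (Module.finBasis QBar (HdR.obj M)) (Module.finBasis ℚ (HB.obj M))
      have key : ∀ j i, c.per (Mᘁ) (ω' i) (β' j) ∈ T := by
        intro j i
        have e1 := congrArg (fun X => X.map (c.evAlg (Gen M))) hXY
        have e2 := congrArg (fun X => X.map (c.evAlg (Gen M))) hYX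
        simp only [Matrix.map_mul, Matrix.map_one _ (map_zero _) (map_one _)] at e1 e2
        obtain ⟨y, hy⟩ := p_perfield_inv (E := E) (F := ℂ)
          (fun i j => ⟨c.per M (Module.finBasis QBar (HdR.obj M) i)
            ((Module.finBasis ℚ (HB.obj M)).coord j), hmem _ _⟩)
          (Matrix.of fun j i => c.per (Mᘁ) (ω' i) (β' j)) (by
            rw [← e1]
            congr 1
            · ext i j
              exact (p_perfield_ev c _ _ _).symm
            · ext j i
              exact (p_perfield_ev c _ _ _).symm) (by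
            rw [← e2]
            congr 1
            · ext j i
              exact (p_perfield_ev c _ _ _).symm
            · ext i j
              exact (p_perfield_ev c _ _ _).symm) j i
        rw [Matrix.of_apply] at hy
        rw [← hy]
        exact hE y
      intro ω σ
      have hexp : c.per (Mᘁ) ω σ = ∑ i, ∑ j, ((ω'.repr ω i : QBar) : ℂ) *
          (algebraMap ℚ ℂ (β'.repr σ j) * c.per (Mᘁ) (ω' i) (β' j)) := by
        conv_lhs => rw [← ω'.sum_repr ω, ← β'.sum_repr σ]
        rw [map_sum (c.per (Mᘁ)), LinearMap.sum_apply]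
        refine Finset.sum_congr rfl fun i _ => ?_
        rw [map_smul (c.per (Mᘁ)), LinearMap.smul_apply, map_sum, Finset.smul_sum]
        refine Finset.sum_congr rfl fun j _ => ?_
        rw [map_smul, Algebra.smul_def, Algebra.smul_def]
        rfl
      rw [hexp]
      exact sum_mem fun i _ => sum_mem fun j _ => mul_mem (hQ _) (mul_mem (hq' _) (key j i))
    rintro z ⟨r, rfl⟩
    have hr : r ∈ (⊤ : Subalgebra QBar (PerAlg HdR HB (Gen M))) := trivial
    rw [← h1 M] at hr
    show IsAlgebraic E (c.evAlg (Gen M) r)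
    rw [← mem_algebraicClosure_iff]
    show c.evAlg (Gen M) r ∈ T
    induction hr using Algebra.adjoin_induction with
    | mem x hx =>
      rcases hx with ⟨ω, σ, rfl⟩ | ⟨ω, σ, rfl⟩
      · rw [p_perfield_ev]
        exact hE ⟨_, hmem ω σ⟩
      · rw [p_perfield_ev]
        exact hdual ω σ
    | algebraMap q =>
      rw [AlgHom.commutes]
      exact hQ q
    | add x y _ _ hx hy =>
      rw [map_add]
      exact add_mem hx hy
    | mul x y _ _ hx hy =>
      rw [map_mul]
      exact mul_mem hx hy

end

end Pool.Agent.Lib.MP_ae0f86_nt
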