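import Pool.Agent.Lib.MP_ae0f86_nt.StmT

open CategoryTheory CategoryTheory.Limits Opposite MonoidalCategory

universe w v u

namespace Pool.Agent.Lib.MP_ae0f86_nt

section

variable {A : Type u} [Category.{v} A] [Abelian A] [MonoidalCategory A] [SymmetricCategory A]
  {K : Type} [Field K] (H : A ⥤ ModuleCat.{0} K) (HB : A ⥤ ModuleCat.{0} ℚ)
  [FibreFunctor H] [FibreFunctor HB]

private theorem p_phi_rel {S : A → Prop} (r : Symb H HB S →₀ K) (hr : LinRel H HB S r) :
    Ideal.Quotient.mk (Ideal.span {r | AlgRel H HB S r})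
      (Finsupp.linearCombination K
        (fun s => (MvPolynomial.X s : MvPolynomial (Symb H HB S) K)) r) = 0 :=
  Ideal.Quotient.eq_zero_iff_mem.2 (Ideal.subset_span (AlgRel.lin r hr))

private theorem p_phi_mksmul {S : A → Prop} (a : K) (P : MvPolynomial (Symb H HB S) K) :
    Ideal.Quotient.mk (Ideal.span {r | AlgRel H HB S r}) (a • P) =
      a • Ideal.Quotient.mk (Ideal.span {r | AlgRel H HB S r}) P := rfl

private theorem p_phi_add_left {S : A → Prop} {N : A} (hN : S N) (ω ω' : H.obj N)
    (σ : Module.Dual ℚ (HB.obj N)) :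
    asym H HB hN (ω + ω') σ = asym H HB hN ω σ + asym H HB hN ω' σ := by
  have h := p_phi_rel H HB _ (LinRel.add_left N hN ω ω' σ)
  simp only [map_sub, Finsupp.linearCombination_single, one_smul] at h
  rw [sub_sub, sub_eq_zero] at h
  exact h

private theorem p_phi_smul_left {S : A → Prop} {N : A} (hN : S N) (a : K) (ω : H.obj N)
    (σ : Module.Dual ℚ (HB.obj N)) :
    asym H HB hN (a • ω) σ = a • asym H HB hN ω σ := by
  have h := p_phi_rel H HB _ (LinRel.smul_left N hN a ω σ)
  simp only [map_sub, map_smul, Finsupp.linearCombination_single, one_smul] at h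
  rw [sub_eq_zero] at h
  exact h

private theorem p_phi_add_right {S : A → Prop} {N : A} (hN : S N) (ω : H.obj N)
    (σ σ' : Module.Dual ℚ (HB.obj N)) :
    asym H HB hN ω (σ + σ') = asym H HB hN ω σ + asym H HB hN ω σ' := by
  have h := p_phi_rel H HB _ (LinRel.add_right N hN ω σ σ')
  simp only [map_sub, Finsupp.linearCombination_single, one_smul] at h
  rw [sub_sub, sub_eq_zero] at h
  exact h

private theorem p_phi_smul_right {S : A → Prop} {N : A} (hN : S N) (q : ℚ) (ω : H.obj N)
    (σ : Module.Dual ℚ (HB.obj N)) :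
    asym H HB hN ω (q • σ) = (q : K) • asym H HB hN ω σ := by
  have h := p_phi_rel H HB _ (LinRel.smul_right N hN q ω σ)
  simp only [map_sub, map_smul, Finsupp.linearCombination_single, one_smul] at h
  rw [sub_eq_zero] at h
  exact h

private theorem p_phi_funct {S : A → Prop} {N N' : A} (hN : S N) (hN' : S N') (f : N ⟶ N')
    (ω : H.obj N) (σ' : Module.Dual ℚ (HB.obj N')) :
    asym H HB hN ω (σ' ∘ₗ (HB.map f).hom) = asym H HB hN' ((H.map f).hom ω) σ' := by
  have h := p_phi_rel H HB _ (LinRel.funct N N' hN hN' f ω σ')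
  simp only [map_sub, Finsupp.linearCombination_single, one_smul] at h
  rw [sub_eq_zero] at h
  exact h

/-- `ω ↦ asym ω σ` as a linear map -/
private noncomputable def p_phi_L {S : A → Prop} {N : A} (hN : S N)
    (σ : Module.Dual ℚ (HB.obj N)) : H.obj N →ₗ[K] PerAlg H HB S where
  toFun ω := asym H HB hN ω σ
  map_add' ω ω' := p_phi_add_left H HB hN ω ω' σ
  map_smul' a ω := p_phi_smul_left H HB hN a ω σ

private theorem p_phi_leib {M N : A} (tM : H.obj M →ₗ[K] H.obj M) (tN : H.obj N →ₗ[K] H.obj N)
    (tMN : H.obj (M ⊗ N) →ₗ[K] H.obj (M ⊗ N))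
    (h : ∀ ω η, tMN (FibreFunctor.mul M N ω η) =
      FibreFunctor.mul M N (tM ω) η + FibreFunctor.mul M N ω (tN η)) (n : ℕ)
    (ω : H.obj M) (η : H.obj N) :
    (tMN ^ n) (FibreFunctor.mul M N ω η) = ∑ ij ∈ Finset.HasAntidiagonal.antidiagonal n,
      n.choose ij.1 • FibreFunctor.mul M N ((tM ^ ij.1) ω) ((tN ^ ij.2) η) := by
  induction n with
  | zero => simp
  | succ n ih =>
    rw [Finset.sum_antidiagonal_choose_succ_nsmul
      (fun i j => FibreFunctor.mul M N ((tM ^ i) ω) ((tN ^ j) η)), pow_succ',
      Module.End.mul_apply, ih, map_sum]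
    rw [← Finset.sum_add_distrib]
    refine Finset.sum_congr rfl fun ij hij => ?_
    have hc : n.choose ij.2 = n.choose ij.1 := by
      rw [Finset.HasAntidiagonal.mem_antidiagonal] at hij
      rw [← hij, Nat.choose_symm_add]
    rw [map_nsmul, h, hc, nsmul_add, pow_succ', pow_succ', Module.End.mul_apply,
      Module.End.mul_apply, add_comm]

theorem p_phi [RigidCategory A] [CharZero K] (h1 : S_theta H HB) (h2 : S_points.{0,v,u} H HB)
    (h3 : S_algrel (A := A)) : S_phi H HB := by
  intro S hS x D hD
  obtain ⟨θ, hθ, hnat, hleib, hone⟩ := h1 S hS x D hD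
  obtain ⟨-, hmul, hunit, -⟩ := h3 H HB S
  have hnatn : ∀ {N N' : A} (hN : S N) (hN' : S N') (f : N ⟶ N') (n : ℕ) (ω : H.obj N),
      (H.map f).hom ((θ hN ^ n) ω) = (θ hN' ^ n) ((H.map f).hom ω) := by
    intro N N' hN hN' f n
    induction n with
    | zero => intro ω; simp
    | succ n ih =>
      intro ω
      rw [pow_succ, Module.End.mul_apply, ih, hnat hN hN' f, pow_succ, Module.End.mul_apply]
  let P : Pt H HB S (PowerSeries K) :=
    { p := fun {N} hN ω σ => PowerSeries.mk fun n =>
        ((n.factorial : K)⁻¹) * x (asym H HB hN ((θ hN ^ n) ω) σ)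
      add_left := by
        intro N hN ω ω' σ
        ext n
        simp only [PowerSeries.coeff_mk, map_add, p_phi_add_left, mul_add]
      smul_left := by
        intro N hN a ω σ
        ext n
        simp only [PowerSeries.coeff_mk, map_smul, p_phi_smul_left, smul_eq_mul]
        ring
      add_right := by
        intro N hN ω σ σ'
        ext n
        simp only [PowerSeries.coeff_mk, map_add, p_phi_add_right, mul_add]
      smul_right := by
        intro N hN q ω σ
        ext n
        simp only [PowerSeries.coeff_mk, map_smul, p_phi_smul_right, smul_eq_mul]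
        ring
      nat := by
        intro N N' hN hN' f ω σ'
        ext n
        simp only [PowerSeries.coeff_mk]
        rw [p_phi_funct H HB hN hN', hnatn hN hN']
      mul := by
        intro M N hM hN hMN ω η σ τ
        ext n
        rw [PowerSeries.coeff_mul]
        simp only [PowerSeries.coeff_mk]
        rw [p_phi_leib H (θ hM) (θ hN) (θ hMN) (hleib hM hN hMN) n ω η]
        have e1 : asym H HB hMN (∑ ij ∈ Finset.HasAntidiagonal.antidiagonal n,
            n.choose ij.1 • FibreFunctor.mul M N ((θ hM ^ ij.1) ω) ((θ hN ^ ij.2) η))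
            (tdual HB σ τ) = ∑ ij ∈ Finset.HasAntidiagonal.antidiagonal n, n.choose ij.1 •
              (asym H HB hM ((θ hM ^ ij.1) ω) σ * asym H HB hN ((θ hN ^ ij.2) η) τ) := by
          change p_phi_L H HB hMN (tdual HB σ τ) _ = _
          rw [map_sum]
          refine Finset.sum_congr rfl fun ij _ => ?_
          rw [map_nsmul, hmul hM hN hMN]
          rfl
        rw [e1, map_sum, Finset.mul_sum]
        refine Finset.sum_congr rfl fun ij hij => ?_
        rw [Finset.HasAntidiagonal.mem_antidiagonal] at hij
        rw [map_nsmul, map_mul, nsmul_eq_mul]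
        have e2 : ((n.factorial : K)⁻¹) * (n.choose ij.1 : K) =
            ((ij.1.factorial : K)⁻¹) * ((ij.2.factorial : K)⁻¹) := by
          have h4 : n.choose ij.1 * ij.1.factorial * ij.2.factorial = n.factorial := by
            rw [← hij, Nat.choose_symm_add]
            exact Nat.add_choose_mul_factorial_mul_factorial ij.1 ij.2
          have h5 : (n.choose ij.1 : K) * (ij.1.factorial : K) * (ij.2.factorial : K) =
              (n.factorial : K) := by exact_mod_cast h4
          have f1 : (ij.1.factorial : K) ≠ 0 := by exact_mod_cast ij.1.factorial_ne_zero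
          have f2 : (ij.2.factorial : K) ≠ 0 := by exact_mod_cast ij.2.factorial_ne_zero
          have f3 : (n.factorial : K) ≠ 0 := by exact_mod_cast n.factorial_ne_zero
          field_simp
          linear_combination h5
        rw [← mul_assoc, e2]
        ring
      one := by
        intro h σ hσ
        ext n
        simp only [PowerSeries.coeff_mk, PowerSeries.coeff_one]
        cases n with
        | zero => simp [hunit h σ hσ]
        | succ n =>
          rw [pow_succ, Module.End.mul_apply, hone h, map_zero]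
          have e0 : asym H HB h (0 : H.obj (𝟙_ A)) σ = 0 := by
            change p_phi_L H HB h σ 0 = 0
            rw [map_zero]
          rw [e0, map_zero, mul_zero]
          simp }
  obtain ⟨Φ, hΦ⟩ := h2 S (PowerSeries K) P
  have hD1 : D 1 = 0 := by
    have h := hD 1 1
    rw [mul_one, map_one x, one_mul] at h
    have h' : D 1 + D 1 = D 1 + 0 := by rw [add_zero]; exact h.symm
    exact add_left_cancel h'
  have hDk : ∀ k : K, D (algebraMap K _ k) = 0 := by
    intro k
    rw [Algebra.algebraMap_eq_smul_one, map_smul, hD1, smul_zero]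
  refine ⟨Φ, ?_⟩
  intro a
  obtain ⟨Q, rfl⟩ := Ideal.Quotient.mk_surjective a
  induction Q using MvPolynomial.induction_on with
  | C k =>
    have e3 : Ideal.Quotient.mk (Ideal.span {r | AlgRel H HB S r}) (MvPolynomial.C k) =
        algebraMap K (PerAlg H HB S) k := rfl
    rw [e3, AlgHom.commutes, AlgHom.commutes, hDk]
    constructor
    · simp
    · rw [PowerSeries.algebraMap_apply]
      simp
  | add p q hp hq =>
    rw [map_add, map_add, map_add, map_add, map_add, map_add, hp.1, hp.2, hq.1, hq.2]
    exact ⟨rfl, rfl⟩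
  | mul_X p s hp =>
    have e4 : Ideal.Quotient.mk (Ideal.span {r | AlgRel H HB S r}) (MvPolynomial.X s) =
        asym H HB s.mem s.ω s.σ := rfl
    have h5 : Φ (asym H HB s.mem s.ω s.σ) = PowerSeries.mk fun n =>
        ((n.factorial : K)⁻¹) * x (asym H HB s.mem ((θ s.mem ^ n) s.ω) s.σ) :=
      hΦ s.mem s.ω s.σ
    rw [map_mul, e4, map_mul Φ, h5, map_mul x, hD]
    constructor
    · rw [PowerSeries.coeff_mul]
      have e6 : Finset.HasAntidiagonal.antidiagonal 0 = {((0 : ℕ), (0 : ℕ))} := rfl
      rw [e6, Finset.sum_singleton, hp.1]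
      simp
    · rw [PowerSeries.coeff_mul]
      have e5 : Finset.HasAntidiagonal.antidiagonal 1 = {((0 : ℕ), (1 : ℕ)), (1, 0)} := rfl
      rw [e5, Finset.sum_pair (by decide), hp.1, hp.2]
      simp only [PowerSeries.coeff_mk, Nat.factorial, pow_one, pow_zero, Module.End.one_apply]
      rw [← hθ s.mem]
      simp
      ring

end

end Pool.Agent.Lib.MP_ae0f86_nt
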