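import Pool.Agent.Lib.MP_ae0f86_nt.StmT

open CategoryTheory CategoryTheory.Limits Opposite MonoidalCategory

universe w v u

namespace Pool.Agent.Lib.MP_ae0f86_nt

section

variable {A : Type u} [Category.{v} A] [Abelian A] [MonoidalCategory A] [SymmetricCategory A]
  {K : Type} [Field K] (H : A ⥤ ModuleCat.{0} K) (HB : A ⥤ ModuleCat.{0} ℚ)
  [FibreFunctor H] [FibreFunctor HB]

theorem p_pointbij_asym {S : A → Prop} {N : A} (hN : S N) (ω : H.obj N)
    (σ : Module.Dual ℚ (HB.obj N)) :
    toPerAlg H HB S (sym H HB hN ω σ) = asym H HB hN ω σ := by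
  unfold toPerAlg sym asym
  rw [Submodule.liftQ_apply, Finsupp.linearCombination_single, one_smul]

theorem p_pointbij_add_left {S : A → Prop} {N : A} (hN : S N) (ω ω' : H.obj N)
    (σ : Module.Dual ℚ (HB.obj N)) :
    asym H HB hN (ω + ω') σ = asym H HB hN ω σ + asym H HB hN ω' σ := by
  rw [← p_pointbij_asym, ← p_pointbij_asym, ← p_pointbij_asym, ← map_add]
  congr 1
  unfold sym
  rw [← Submodule.Quotient.mk_add, Submodule.Quotient.eq, ← sub_sub]
  exact Submodule.subset_span (LinRel.add_left N hN ω ω' σ)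

theorem p_pointbij_smul_left {S : A → Prop} {N : A} (hN : S N) (a : K) (ω : H.obj N)
    (σ : Module.Dual ℚ (HB.obj N)) :
    asym H HB hN (a • ω) σ = a • asym H HB hN ω σ := by
  rw [← p_pointbij_asym, ← p_pointbij_asym, ← map_smul]
  congr 1
  unfold sym
  rw [← Submodule.Quotient.mk_smul, Submodule.Quotient.eq]
  exact Submodule.subset_span (LinRel.smul_left N hN a ω σ)

theorem p_pointbij_add_right {S : A → Prop} {N : A} (hN : S N) (ω : H.obj N)
    (σ σ' : Module.Dual ℚ (HB.obj N)) :
    asym H HB hN ω (σ + σ') = asym H HB hN ω σ + asym H HB hN ω σ' := by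
  rw [← p_pointbij_asym, ← p_pointbij_asym, ← p_pointbij_asym, ← map_add]
  congr 1
  unfold sym
  rw [← Submodule.Quotient.mk_add, Submodule.Quotient.eq, ← sub_sub]
  exact Submodule.subset_span (LinRel.add_right N hN ω σ σ')

theorem p_pointbij_smul_right {S : A → Prop} {N : A} (hN : S N) (q : ℚ) (ω : H.obj N)
    (σ : Module.Dual ℚ (HB.obj N)) :
    asym H HB hN ω (q • σ) = (q : K) • asym H HB hN ω σ := by
  rw [← p_pointbij_asym, ← p_pointbij_asym, ← map_smul]
  congr 1
  unfold sym
  rw [← Submodule.Quotient.mk_smul, Submodule.Quotient.eq]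
  exact Submodule.subset_span (LinRel.smul_right N hN q ω σ)

end

theorem p_pointbij {A : Type u} [Category.{v} A] [Abelian A] [MonoidalCategory A]
    [SymmetricCategory A] {K : Type} [Field K] (H : A ⥤ ModuleCat.{0} K)
    (HB : A ⥤ ModuleCat.{0} ℚ) [FibreFunctor H] [FibreFunctor HB] [RigidCategory A] [CharZero K]
    (h1 : S_xmat H HB) : S_pointbij H HB := by
  classical
  intro S hS x N hN φ
  have : Module.Finite K (H.obj N) := FibreFunctor.finite N
  have : Module.Finite ℚ (HB.obj N) := FibreFunctor.finite N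
  let ω := Module.finBasis K (H.obj N)
  let b := Module.finBasis ℚ (HB.obj N)
  obtain ⟨ω', β', hXY, hYX⟩ := h1 S hS hN ω b
  let L : Module.Dual ℚ (HB.obj N) → (H.obj N →ₗ[K] K) := fun σ =>
    { toFun := fun η => x (asym H HB hN η σ)
      map_add' := fun η η' => by rw [p_pointbij_add_left, map_add]
      map_smul' := fun a η => by rw [p_pointbij_smul_left, map_smul, RingHom.id_apply] }
  let R : H.obj N → (Module.Dual ℚ (HB.obj N) →ₗ[ℚ] K) := fun η =>
    { toFun := fun σ => x (asym H HB hN η σ)
      map_add' := fun σ σ' => by rw [p_pointbij_add_right, map_add]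
      map_smul' := fun q σ => by
        rw [p_pointbij_smul_right, map_smul, RingHom.id_apply, Rat.smul_def, smul_eq_mul] }
  set X0 : Matrix (Fin (Module.finrank K (H.obj N))) (Fin (Module.finrank ℚ (HB.obj N))) K :=
    (Matrix.of fun i j => asym H HB hN (ω i) (b.coord j)).map x with hX0
  set Y0 : Matrix (Fin (Module.finrank ℚ (HB.obj N))) (Fin (Module.finrank K (H.obj N))) K :=
    (Matrix.of fun j i => asym H HB (hS.dual hN) (ω' i) (β' j)).map x with hY0
  have e1 : X0 * Y0 = 1 := by
    have h := congrArg (fun M => M.map x) hXY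
    rw [Matrix.map_mul] at h
    rw [hX0, hY0, h]
    exact Matrix.map_one x (map_zero x) (map_one x)
  have e2 : Y0 * X0 = 1 := by
    have h := congrArg (fun M => M.map x) hYX
    rw [Matrix.map_mul] at h
    rw [hX0, hY0, h]
    exact Matrix.map_one x (map_zero x) (map_one x)
  have hlin : ∀ (r : Fin (Module.finrank K (H.obj N)) → K) j,
      x (asym H HB hN (∑ i, r i • ω i) (b.coord j)) = Matrix.vecMul r X0 j := by
    intro r j
    have h : L (b.coord j) (∑ i, r i • ω i) = ∑ i, r i * X0 i j := by
      rw [map_sum]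
      refine Finset.sum_congr rfl fun i _ => ?_
      rw [map_smul, smul_eq_mul]
      rfl
    exact h
  refine ⟨∑ i, Matrix.vecMul (fun j => φ (b.coord j)) Y0 i • ω i, ?_, ?_⟩
  · have h : R (∑ i, Matrix.vecMul (fun j => φ (b.coord j)) Y0 i • ω i) = φ := by
      refine b.dualBasis.ext fun j => ?_
      rw [Module.Basis.coe_dualBasis]
      show x (asym H HB hN _ (b.coord j)) = _
      rw [hlin, Matrix.vecMul_vecMul, e2, Matrix.vecMul_one]
    intro σ
    exact congrArg (fun f => f σ) h
  · intro η hη
    have h : ∀ r : Fin (Module.finrank K (H.obj N)) → K,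
        (∀ j, x (asym H HB hN (∑ i, r i • ω i) (b.coord j)) = φ (b.coord j)) →
        r = Matrix.vecMul (fun j => φ (b.coord j)) Y0 := by
      intro r hr
      have h2 : Matrix.vecMul r X0 = fun j => φ (b.coord j) := by
        funext j
        rw [← hlin, hr]
      rw [← h2, Matrix.vecMul_vecMul, e1, Matrix.vecMul_one]
    have h3 : η = ∑ i, ω.repr η i • ω i := (ω.sum_repr η).symm
    have h4 := h (fun i => ω.repr η i) (fun j => by rw [← h3]; exact hη _)
    rw [h3]
    exact Finset.sum_congr rfl fun i _ => by rw [← congrFun h4 i]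

end Pool.Agent.Lib.MP_ae0f86_nt
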