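import Pool.Agent.Lib.MP_ae0f86_nt.StmT

open CategoryTheory CategoryTheory.Limits Opposite MonoidalCategory

universe w v u

namespace Pool.Agent.Lib.MP_ae0f86_nt

attribute [local instance] CategoryTheory.Abelian.hasFiniteBiproducts

/-- A functional on `HB(M ⊗ N)` is determined by its values on products. -/
private theorem points_tdual {A : Type u} [Category.{v} A] [Abelian A] [MonoidalCategory A]
    [SymmetricCategory A] (HB : A ⥤ ModuleCat.{0} ℚ) [FibreFunctor HB] {M N : A}
    (a : Module.Dual ℚ (HB.obj M)) (b : Module.Dual ℚ (HB.obj N))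
    (σ : Module.Dual ℚ (HB.obj (M ⊗ N)))
    (hσ : ∀ x y, σ (FibreFunctor.mul M N x y) = a x * b y) : σ = tdual HB a b := by
  have h : σ ∘ₗ (LinearEquiv.ofBijective _ (FibreFunctor.bij (H := HB) M N)).toLinearMap =
      TensorProduct.dualDistrib ℚ (HB.obj M) (HB.obj N) (a ⊗ₜ b) := by
    apply TensorProduct.ext'
    intro x y
    simp [hσ]
  apply LinearMap.ext
  intro z
  obtain ⟨y, rfl⟩ := (LinearEquiv.ofBijective _ (FibreFunctor.bij (H := HB) M N)).surjective z
  have h2 := LinearMap.congr_fun h y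
  simp only [tdual, LinearMap.comp_apply, LinearEquiv.coe_coe, LinearEquiv.symm_apply_apply]
  exact h2

theorem p_points {A : Type u} [Category.{v} A] [Abelian A] [MonoidalCategory A]
    [SymmetricCategory A] {K : Type} [Field K] (H : A ⥤ ModuleCat.{0} K)
    (HB : A ⥤ ModuleCat.{0} ℚ) [FibreFunctor H] [FibreFunctor HB] : S_points.{w, v, u} H HB := by
  intro S Λ _ _ P
  have key : ∀ r : MvPolynomial (Symb H HB S) K, AlgRel H HB S r →
      MvPolynomial.aeval (R := K) (fun s : Symb H HB S => P.p s.mem s.ω s.σ) r = 0 := by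
    rintro r (⟨r, hr⟩ | ⟨s, s', h, σ, hσ⟩ | ⟨h, σ, hσ⟩)
    · rcases hr with ⟨N, hN, ω, ω', σ⟩ | ⟨N, hN, a, ω, σ⟩ | ⟨N, hN, ω, σ, σ'⟩ |
        ⟨N, hN, q, ω, σ⟩ | ⟨N, N', hN, hN', f, ω, σ'⟩
      · simp [Symb.fin, P.add_left]
      · simp [Symb.fin, P.smul_left]
      · simp [Symb.fin, P.add_right]
      · simp [Symb.fin, P.smul_right]
      · simp [Symb.fin, P.nat hN hN']
    · rw [map_sub, map_mul, MvPolynomial.aeval_X, MvPolynomial.aeval_X, MvPolynomial.aeval_X,
        points_tdual HB _ _ σ hσ, P.mul s.mem s'.mem h, sub_self]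
    · rw [map_sub, map_one, MvPolynomial.aeval_X, P.one h σ hσ, sub_self]
  have hI : ∀ a ∈ Ideal.span {r | AlgRel H HB S r},
      MvPolynomial.aeval (R := K) (fun s : Symb H HB S => P.p s.mem s.ω s.σ) a = 0 := by
    intro a ha
    have : Ideal.span {r | AlgRel H HB S r} ≤
        RingHom.ker (MvPolynomial.aeval (R := K)
          (fun s : Symb H HB S => P.p s.mem s.ω s.σ)).toRingHom := by
      rw [Ideal.span_le]
      intro r hr
      simp only [SetLike.mem_coe, RingHom.mem_ker, AlgHom.toRingHom_eq_coe, RingHom.coe_coe]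
      exact key r hr
    exact this ha
  refine ⟨Ideal.Quotient.liftₐ _
    (MvPolynomial.aeval (R := K) (fun s : Symb H HB S => P.p s.mem s.ω s.σ)) hI, ?_⟩
  intro N hN ω σ
  have : Ideal.Quotient.liftₐ (Ideal.span {r | AlgRel H HB S r})
      (MvPolynomial.aeval (R := K) (fun s : Symb H HB S => P.p s.mem s.ω s.σ)) hI
      (Ideal.Quotient.mk _ (MvPolynomial.X ⟨N, hN, ω, σ⟩)) =
      MvPolynomial.aeval (R := K) (fun s : Symb H HB S => P.p s.mem s.ω s.σ)
        (MvPolynomial.X ⟨N, hN, ω, σ⟩) := Ideal.Quotient.liftₐ_apply _ _ _ _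
  refine this.trans ?_
  rw [MvPolynomial.aeval_X]

end Pool.Agent.Lib.MP_ae0f86_nt
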