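import Pool.Agent.Lib.MP_ae0f86_nt.StmE

/-!
# MP_ae0f86_nt : piece psi
-/

open CategoryTheory CategoryTheory.Limits

universe v u

namespace Pool.Agent.Lib.MP_ae0f86_nt

set_option linter.unusedSectionVars false
set_option linter.unusedVariables false

attribute [local instance] CategoryTheory.Abelian.hasFiniteBiproducts

section

variable {A : Type u} [Category.{v} A] [Abelian A] {K : Type} [Field K] (H : A ⥤ ModuleCat.{0} K)

private theorem map_comp_apply' {X Y Z : A} (f : X ⟶ Y) (g : Y ⟶ Z) (x : H.obj X) :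
    (H.map (f ≫ g)).hom x = (H.map g).hom ((H.map f).hom x) := by
  rw [Functor.map_comp]
  rfl

private theorem map_id_apply' {X : A} (x : H.obj X) : (H.map (𝟙 X)).hom x = x := by
  rw [CategoryTheory.Functor.map_id]
  rfl

private theorem map_add_apply' [H.Additive] {X Y : A} (f g : X ⟶ Y) (x : H.obj X) :
    (H.map (f + g)).hom x = (H.map f).hom x + (H.map g).hom x := by
  rw [Functor.map_add]
  rfl

private theorem map_sub_apply' [H.Additive] {X Y : A} (f g : X ⟶ Y) (x : H.obj X) :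
    (H.map (f - g)).hom x = (H.map f).hom x - (H.map g).hom x := by
  rw [Functor.map_sub]
  rfl

private theorem map_rsmul_apply' [Linear ℚ A] [H.Additive] {X Y : A} (q : ℚ) (f : X ⟶ Y)
    (x : H.obj X) : (H.map (q • f)).hom x = (q : K) • (H.map f).hom x := by
  let F : (X ⟶ Y) →+ H.obj Y :=
    { toFun := fun f => (H.map f).hom x
      map_zero' := by
        rw [Functor.map_zero]
        rfl
      map_add' := fun f g => map_add_apply' H f g x }
  have h := map_ratCast_smul F ℚ K q f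
  rw [Rat.cast_id] at h
  exact h

end

/-- [GP psi] -/
theorem p_psi {A : Type u} [Category.{v} A] [Abelian A] {K : Type} [Field K]
    (H : A ⥤ ModuleCat.{0} K) (HB : A ⥤ ModuleCat.{0} ℚ) (h1 : S_fprel H HB)
    (h2 : S_single H HB) (h3 : S_lincl A) : S_psi H HB := by
  intro _ _ _ _ W Q hQ σQ huniq hex
  have hu : ∀ {N : A} (f g : N ⟶ Q), σQ ∘ₗ (HB.map f).hom = σQ ∘ₗ (HB.map g).hom → f = g := by
    intro N f g hfg
    rw [← sub_eq_zero]
    apply huniq
    refine LinearMap.ext fun x => ?_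
    have h := LinearMap.congr_fun hfg x
    simp only [LinearMap.comp_apply] at h ⊢
    rw [map_sub_apply', map_sub, h, sub_self]
    rfl
  choose φ hφ using fun s : Symb H HB (Lin W) => hex s.N s.mem s.σ
  have hφ' : ∀ (s : Symb H HB (Lin W)) (f : s.N ⟶ Q), s.σ = σQ ∘ₗ (HB.map f).hom → φ s = f :=
    fun s f hf => hu _ _ ((hφ s).symm.trans hf)
  let L : (Symb H HB (Lin W) →₀ K) →ₗ[K] H.obj Q :=
    Finsupp.linearCombination K (fun s => (H.map (φ s)).hom s.ω)
  have hL : ∀ s : Symb H HB (Lin W), L s.fin = (H.map (φ s)).hom s.ω := by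
    intro s
    simp [L]
  have hrel : Submodule.span K {r | LinRel H HB (Lin W) r} ≤ LinearMap.ker L := by
    rw [Submodule.span_le]
    rintro r (⟨N, hN, ω, ω', σ⟩ | ⟨N, hN, a, ω, σ⟩ | ⟨N, hN, ω, σ, σ'⟩ | ⟨N, hN, q, ω, σ⟩ |
      ⟨N, N', hN, hN', f, ω, σ'⟩) <;> rw [SetLike.mem_coe, LinearMap.mem_ker]
    · obtain ⟨f, hf⟩ := hex N hN σ
      rw [map_sub, map_sub, hL, hL, hL, hφ' _ f hf, hφ' _ f hf, hφ' _ f hf, map_add]
      abel
    · obtain ⟨f, hf⟩ := hex N hN σ
      rw [map_sub, map_smul, hL, hL, hφ' _ f hf, hφ' _ f hf, map_smul, sub_self]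
    · obtain ⟨f, hf⟩ := hex N hN σ
      obtain ⟨g, hg⟩ := hex N hN σ'
      have hfg : σ + σ' = σQ ∘ₗ (HB.map (f + g)).hom := by
        refine LinearMap.ext fun x => ?_
        rw [hf, hg]
        simp only [LinearMap.add_apply, LinearMap.comp_apply]
        rw [map_add_apply', map_add]
      rw [map_sub, map_sub, hL, hL, hL, hφ' _ (f + g) hfg, hφ' _ f hf, hφ' _ g hg,
        map_add_apply']
      abel
    · obtain ⟨f, hf⟩ := hex N hN σ
      have hfg : q • σ = σQ ∘ₗ (HB.map (q • f)).hom := by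
        refine LinearMap.ext fun x => ?_
        rw [hf]
        simp only [LinearMap.smul_apply, LinearMap.comp_apply]
        rw [map_rsmul_apply', map_smul, Rat.cast_id]
      rw [map_sub, map_smul, hL, hL, hφ' _ (q • f) hfg, hφ' _ f hf, map_rsmul_apply', sub_self]
    · obtain ⟨g, hg⟩ := hex N' hN' σ'
      have hfg : σ' ∘ₗ (HB.map f).hom = σQ ∘ₗ (HB.map (f ≫ g)).hom := by
        refine LinearMap.ext fun x => ?_
        rw [hg]
        simp only [LinearMap.comp_apply]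
        rw [map_comp_apply']
      rw [map_sub, hL, hL, hφ' _ (f ≫ g) hfg, hφ' _ g hg, map_comp_apply', sub_self]
  let Ψ : FP H HB (Lin W) →ₗ[K] H.obj Q := Submodule.liftQ _ L hrel
  have hΨ : ∀ (N : A) (hN : Lin W N) (ω : H.obj N) (f : N ⟶ Q),
      Ψ (sym H HB hN ω (σQ ∘ₗ (HB.map f).hom)) = (H.map f).hom ω := by
    intro N hN ω f
    have h : Ψ (sym H HB hN ω (σQ ∘ₗ (HB.map f).hom)) =
        L (Symb.fin ⟨N, hN, ω, σQ ∘ₗ (HB.map f).hom⟩) := rfl
    rw [h, hL, hφ' _ f rfl]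
  obtain ⟨r1, r2, r3, r4, r5, r6, r7⟩ := h1 (Lin W)
  refine ⟨Ψ, ⟨?_, fun ω => ?_⟩, hΨ⟩
  · rw [injective_iff_map_eq_zero]
    intro x hx
    obtain ⟨N, hN, ω, σ, rfl⟩ := h2 (Lin W) (h3.1 W) x
    obtain ⟨f, rfl⟩ := hex N hN σ
    rw [hΨ] at hx
    rw [r5 hN hQ f ω σQ, hx, r6]
  · refine ⟨sym H HB hQ ω (σQ ∘ₗ (HB.map (𝟙 Q)).hom), ?_⟩
    rw [hΨ, map_id_apply']

end Pool.Agent.Lib.MP_ae0f86_nt
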