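import Pool.Agent.Lib.MP_ae0f86_nt.StmA

/-! [GP push] -/

open CategoryTheory CategoryTheory.Limits Opposite MonoidalCategory

universe v u

namespace Pool.Agent.Lib.MP_ae0f86_nt

noncomputable section

section

variable {k : Type} [Field k]

private theorem p_push_pr {ι : Type} [Finite ι] {X Y X' Y' : Set (ι → k)} (hX : IsAlg X)
    (hY : IsAlg Y) (h : Y ⊆ X) (hX' : IsAlg X') (hY' : IsAlg Y') (h' : Y' ⊆ X') (e1 : X = X')
    (e2 : Y = Y') : pr hX hY h = pr hX' hY' h' := by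
  subst e1
  subst e2
  rfl

private theorem p_push_S (P : SNC k) : P.S ∅ = P.X := by
  ext x
  simp [SNC.S]

end

theorem p_push {k : Type} [Field k] {A : Type u} [Category.{v} A] [Abelian A]
    [MonoidalCategory A] (T : CohTheory k A) (hblow : S_blow k) (h1 : S_k2 T) (h2 : S_rel T)
    (h3 : S_strata k) : S_push T hblow := by
  intro P j i
  have hfin := P.fin
  have hfinJ := P.finJ
  set K : Set P.J := ∅ with hK
  set I : Set P.J := {i | i ≠ j} with hI
  have hs : LineSection (P.S K) (P.e j) (P.s j) :=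
    ⟨fun x hx => (P.sec j).trace x hx.1, fun x hx => (P.sec j).minors x hx.1,
      fun x hx => (P.sec j).sec x hx.1⟩
  have hD : IsAlg (⋃ j, P.Y j) := IsAlg.iUnion P.algY
  have hDX : (⋃ j, P.Y j) ⊆ P.S K := by
    rw [hK, p_push_S]
    exact Set.iUnion_subset fun _ => Set.inter_subset_left
  have hDeq : (⋃ j, P.Y j) = (P.S K ∩ {x | ∀ a, MvPolynomial.eval x (P.s j a) = 0}) ∪
      P.SU K I := by
    ext x
    rw [hK]
    simp only [SNC.SU, p_push_S, Set.mem_iUnion, Set.mem_union, Set.mem_inter_iff,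
      Set.mem_ofPred_eq, SNC.Y]
    constructor
    · rintro ⟨l, hl1, hl2⟩
      by_cases h : l = j
      · subst h
        exact Or.inl ⟨hl1, hl2⟩
      · exact Or.inr ⟨hl1, ⟨l, h⟩, hl2⟩
    · rintro (⟨hx1, hx2⟩ | ⟨hx1, l, hl⟩)
      · exact ⟨j, hx1, hx2⟩
      · exact ⟨l.1, hx1, hl⟩
  obtain ⟨f, hf⟩ := h1 (P.s j) (P.S_alg K) (P.SU_alg K I) (P.SU_sub K I) hD hDX hDeq i
  have hq := h2 P j K I (by simp [hK]) (by simp [hI]) (by simp [hK]) hs (i + 1)
  have e1 : P.pair = pr (P.S_alg K) hD hDX :=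
    p_push_pr _ _ _ _ _ _ (p_push_S P).symm rfl
  have e2 : (P.blow hblow j).pair = XPp (P.e j) (P.s j) (P.S_alg K) (P.SU_alg K I)
      (P.SU_sub K I) := by
    refine p_push_pr (ι := P.ι ⊕ Option (Fin (P.m j))) _ _ _ _ _ _ ?_ ?_
    · show XP (P.e j) (P.s j) P.X = XP (P.e j) (P.s j) (P.S K)
      rw [hK, p_push_S]
    · ext z
      constructor
      · intro hz
        obtain ⟨l, hl⟩ := Set.mem_iUnion.mp hz
        obtain ⟨⟨hz1, hz2⟩, hz3⟩ := hl
        refine ⟨⟨?_, Set.mem_iUnion.mpr ⟨⟨l.1, l.2⟩, ?_⟩⟩, hz2⟩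
        · rw [hK, p_push_S]
          exact hz1
        · intro a
          have h := hz3 a
          exact (MvPolynomial.eval_rename (σ := P.ι) (τ := P.ι ⊕ Option (Fin (P.m j)))
            Sum.inl z (P.s l.1 a)).symm.trans h
      · rintro ⟨⟨hz1, hz3⟩, hz2⟩
        obtain ⟨l, hl⟩ := Set.mem_iUnion.mp hz3
        rw [hK, p_push_S] at hz1
        refine Set.mem_iUnion.mpr ⟨⟨l.1, l.2⟩, ⟨⟨hz1, hz2⟩, ?_⟩⟩
        intro a
        exact (MvPolynomial.eval_rename (σ := P.ι) (τ := P.ι ⊕ Option (Fin (P.m j)))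
            Sum.inl z (P.s l.1 a)).trans (hl a)
  rw [e1, e2]
  refine ⟨f ≫ inv ((T.h (i + 1)).map (phi (P.S_alg K) (P.SU_alg K I) (P.SU_sub K I) hs).op), ?_⟩
  exact mono_comp _ _

end

end Pool.Agent.Lib.MP_ae0f86_nt
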