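import Pool.Agent.Lib.MP_ae0f86_nt.StmT

set_option autoImplicit false

universe w v u

open CategoryTheory CategoryTheory.Limits Opposite MonoidalCategory

namespace Pool.Agent.Lib.MP_ae0f86_nt

theorem p_q1 {A : Type u} [Category.{v} A] [Abelian A] [MonoidalCategory A]
    [SymmetricCategory A] [RigidCategory A] {HdR : A ⥤ ModuleCat.{0} QBar}
    {HB : A ⥤ ModuleCat.{0} ℚ} [FibreFunctor HdR] [FibreFunctor HB] (c : Comparison HdR HB)
    (h1 : S_domain (HdR := HdR) (HB := HB)) (h2 : S_basedim (HdR := HdR) (HB := HB))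
    (h3 : S_perfield c) (h4 : S_trdeg) (h5 : S_fgdim.{u}) (h6 : S_fgdim.{0}) (h7 : S_surjdim.{u})
    (h8 : S_fintype HdR HB) : S_q1 c := by
  intro M
  haveI := h8 M
  set e := c.evAlg (Gen M) with he
  haveI hft : Algebra.FiniteType QBar e.range :=
    Algebra.FiniteType.of_surjective e.rangeRestrict e.rangeRestrict_surjective
  obtain ⟨hd1, hd2⟩ := h6 QBar e.range
  have htr := h4 (c.Per M) e.range (h3 M).1 (h3 M).2
  rw [htr] at hd1
  constructor
  · rintro ⟨hc, hdim⟩
    haveI hdom : IsDomain (PerAlg HdR HB (Gen M)) := h1 c M hc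
    have hR : ringKrullDim (PerAlg HdR HB (Gen M)) = ringKrullDim e.range := by
      rw [← h2 c M, hdim, hd1]
    have hq : ringKrullDim (PerAlg HdR HB (Gen M) ⧸ RingHom.ker e) =
        ringKrullDim (PerAlg HdR HB (Gen M)) := by
      rw [hR]
      exact ringKrullDim_eq_of_ringEquiv (Ideal.quotientKerEquivRange e).toRingEquiv
    have hk := h7 (PerAlg HdR HB (Gen M)) (RingHom.ker e) (h5 QBar _).2
      (RingHom.ker_ne_top e) hq
    exact (RingHom.injective_iff_ker_eq_bot e).2 hk
  · intro hinj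
    haveI hdom : IsDomain (PerAlg HdR HB (Gen M)) := hinj.isDomain e.toRingHom
    haveI hirr : IrreducibleSpace (PrimeSpectrum (PerAlg HdR HB (Gen M))) :=
      PrimeSpectrum.irreducibleSpace
    refine ⟨IrreducibleSpace.connectedSpace _, ?_⟩
    rw [h2 c M, ← hd1]
    exact ringKrullDim_eq_of_ringEquiv (AlgEquiv.ofInjective e hinj).toRingEquiv

end Pool.Agent.Lib.MP_ae0f86_nt
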