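import Pool.Agent.Lib.MP_ae0f86_nt.StmE

/-!
# MP_ae0f86_nt : piece `range`
-/

open CategoryTheory CategoryTheory.Limits Opposite MonoidalCategory

universe v u

namespace Pool.Agent.Lib.MP_ae0f86_nt

noncomputable section

attribute [local instance] CategoryTheory.Abelian.hasFiniteBiproducts

section

variable {A : Type u} [Category.{v} A] [Abelian A] [MonoidalCategory A] [SymmetricCategory A]
  {K : Type} [Field K] [Algebra K ℂ] {HdR : A ⥤ ModuleCat.{0} K}
  {HB : A ⥤ ModuleCat.{0} ℚ} [FibreFunctor HdR] [FibreFunctor HB] (c : Comparison HdR HB)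

private theorem p_range_ev (S : A → Prop) {N : A} (hN : S N) (ω : HdR.obj N)
    (σ : Module.Dual ℚ (HB.obj N)) :
    c.ev S (sym HdR HB hN ω σ) = c.per N ω σ := by
  unfold Comparison.ev sym Symb.fin
  erw [Submodule.liftQ_apply]
  simp

include c in
/-- periods of a power of `W` are sums of periods of `W` -/
private theorem p_range_pow (W : A) (n : ℕ) (η : HdR.obj (⨁ fun _ : Fin n => W))
    (σ : Module.Dual ℚ (HB.obj (⨁ fun _ : Fin n => W))) :
    c.per _ η σ ∈ Submodule.span K (c.Per W) := by
  have h1 : η = ∑ l : Fin n, (HdR.map (biproduct.ι (fun _ : Fin n => W) l)).hom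
      ((HdR.map (biproduct.π (fun _ : Fin n => W) l)).hom η) := by
    have h2 : (HdR.map (𝟙 (⨁ fun _ : Fin n => W))).hom η = η := by
      rw [HdR.map_id]; rfl
    rw [← biproduct.total, Functor.map_sum] at h2
    conv_lhs => rw [← h2]
    rw [ModuleCat.hom_sum, LinearMap.sum_apply]
    refine Finset.sum_congr rfl fun l _ => ?_
    rw [HdR.map_comp]
    rfl
  rw [h1, map_sum, LinearMap.sum_apply]
  refine Submodule.sum_mem _ fun l _ => ?_
  rw [c.per_nat]
  exact Submodule.subset_span ⟨_, _, rfl⟩

end

theorem p_range {A : Type u} [Category.{v} A] [Abelian A] [MonoidalCategory A]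
    [SymmetricCategory A] : S_range (A := A) := by
  intro K _ _ HdR HB _ _ c W
  have hself : Lin W W := by
    refine ⟨1, W, biproduct.ι (fun _ : Fin 1 => W) 0, 𝟙 W, inferInstance, inferInstance⟩
  apply le_antisymm
  · rintro z ⟨x, rfl⟩
    obtain ⟨r, rfl⟩ := Submodule.Quotient.mk_surjective _ x
    induction r using Finsupp.induction_linear with
    | zero =>
      rw [Submodule.Quotient.mk_zero, map_zero]
      exact Submodule.zero_mem _
    | add f g hf hg =>
      rw [Submodule.Quotient.mk_add, map_add]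
      exact Submodule.add_mem _ hf hg
    | single s a =>
      have hs : (Finsupp.single s a : Symb HdR HB (Lin W) →₀ K) = a • Symb.fin s := by
        simp [Symb.fin]
      rw [hs, Submodule.Quotient.mk_smul, map_smul]
      refine Submodule.smul_mem _ _ ?_
      obtain ⟨N, hN, ω, σ⟩ := s
      change c.ev (Lin W) (sym HdR HB hN ω σ) ∈ _
      rw [p_range_ev]
      obtain ⟨n, N', i, p, hi, hp⟩ := hN
      -- lift along the epimorphism
      have hps : Function.Surjective (HdR.map p).hom := by
        have : Epi (HdR.map p) := inferInstance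
        exact (ModuleCat.epi_iff_surjective _).1 this
      obtain ⟨ω', rfl⟩ := hps ω
      rw [c.per_nat]
      have his : Function.Injective (HB.map i).hom := by
        have : Mono (HB.map i) := inferInstance
        exact (ModuleCat.mono_iff_injective _).1 this
      obtain ⟨σ', hσ'⟩ := LinearMap.exists_leftInverse_of_injective (HB.map i).hom
        (LinearMap.ker_eq_bot.2 his)
      have hσ : (σ ∘ₗ (HB.map p).hom) = ((σ ∘ₗ (HB.map p).hom) ∘ₗ σ') ∘ₗ (HB.map i).hom := by
        rw [LinearMap.comp_assoc, hσ', LinearMap.comp_id]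
      change c.per _ _ (σ ∘ₗ (HB.map p).hom) ∈ _
      rw [hσ]
      change c.per _ _ (BDual.pull ((σ ∘ₗ (HB.map p).hom) ∘ₗ σ') i) ∈ _
      rw [← c.per_nat]
      exact p_range_pow c W n _ _
  · rw [Submodule.span_le]
    rintro z ⟨ω, σ, rfl⟩
    exact ⟨sym HdR HB hself ω σ, p_range_ev c _ _ _ _⟩

end

end Pool.Agent.Lib.MP_ae0f86_nt
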