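import Pool.Agent.Lib.MP_ae0f86_nt.StmU

/-!
# MP_ae0f86_nt : piece [GP reduce5]

The reduction for single integrals.
-/

open CategoryTheory CategoryTheory.Limits Opposite MonoidalCategory

universe w v u

namespace Pool.Agent.Lib.MP_ae0f86_nt

noncomputable section

attribute [local instance] CategoryTheory.Abelian.hasFiniteBiproducts

section

variable {A : Type u} [Category.{v} A] [Abelian A] [MonoidalCategory A] [SymmetricCategory A]

omit [SymmetricCategory A] in
private theorem p_reduce5_tclosed : TClosed (fun _ : A => True) :=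
  { sum := fun _ _ => trivial
    sub := fun _ _ _ => trivial
    quot := fun _ _ _ => trivial
    ne := ⟨𝟙_ A, trivial⟩
    unit := trivial
    tensor := fun _ _ => trivial }

private theorem p_reduce5_ev_sym {K : Type} [Field K] [Algebra K ℂ] {HdR : A ⥤ ModuleCat.{0} K}
    {HB : A ⥤ ModuleCat.{0} ℚ} [FibreFunctor HdR] [FibreFunctor HB] (c : Comparison HdR HB)
    (S : A → Prop) {N : A} (hN : S N) (ω : HdR.obj N) (σ : Module.Dual ℚ (HB.obj N)) :
    c.ev S (sym HdR HB hN ω σ) = c.per N ω σ := by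
  unfold Comparison.ev sym
  rw [Submodule.liftQ_apply]
  simp

private theorem p_reduce5_evAlg_asym {K : Type} [Field K] [Algebra K ℂ]
    {HdR : A ⥤ ModuleCat.{0} K}
    {HB : A ⥤ ModuleCat.{0} ℚ} [FibreFunctor HdR] [FibreFunctor HB] (c : Comparison HdR HB)
    (S : A → Prop) {N : A} (hN : S N) (ω : HdR.obj N) (σ : Module.Dual ℚ (HB.obj N)) :
    c.evAlg S (asym HdR HB hN ω σ) = c.per N ω σ :=
  MvPolynomial.aeval_X (R := K) (fun s : Symb HdR HB S => c.per s.N s.ω s.σ) ⟨N, hN, ω, σ⟩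

/-- A symbol on a subquotient of `W` is equal to a symbol on `W`. -/
private theorem p_reduce5_move {K : Type} [Field K] (H : A ⥤ ModuleCat.{0} K)
    (HB : A ⥤ ModuleCat.{0} ℚ) [FibreFunctor H] [FibreFunctor HB] (h5 : S_fprel H HB)
    {M W : A} (hs : IsSubquot M W) (ω : H.obj M) (σ : Module.Dual ℚ (HB.obj M)) :
    ∃ (ω' : H.obj W) (σ' : Module.Dual ℚ (HB.obj W)),
      sym H HB (S := fun _ : A => True) (N := M) trivial ω σ =
        sym H HB (S := fun _ : A => True) (N := W) trivial ω' σ' := by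
  obtain ⟨N', j, p, hj, hp⟩ := hs
  obtain ⟨-, -, -, -, r5, -, -⟩ := h5 (fun _ : A => True)
  have hsurj : Function.Surjective (H.map p).hom := by
    rw [← ModuleCat.epi_iff_surjective]
    infer_instance
  have hinj : Function.Injective (HB.map j).hom := by
    rw [← ModuleCat.mono_iff_injective]
    infer_instance
  obtain ⟨ω'', rfl⟩ := hsurj ω
  obtain ⟨g, hg⟩ := LinearMap.exists_leftInverse_of_injective (HB.map j).hom
    (LinearMap.ker_eq_bot.2 hinj)
  refine ⟨(H.map j).hom ω'', (σ ∘ₗ (HB.map p).hom) ∘ₗ g, ?_⟩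
  rw [← r5 (N := N') (N' := M) trivial trivial p ω'' σ,
    ← r5 (N := N') (N' := W) trivial trivial j ω'' ((σ ∘ₗ (HB.map p).hom) ∘ₗ g),
    LinearMap.comp_assoc, hg, LinearMap.comp_id]

theorem p_reduce5 (h1 : S_lef (A := A)) (h2 : S_algrel (A := A))
    (h3 : ∀ {K : Type} [Field K] (H : A ⥤ ModuleCat.{0} K) (HB : A ⥤ ModuleCat.{0} ℚ),
      S_single H HB)
    (h4 : S_fpring (A := A))
    (h5 : ∀ {K : Type} [Field K] (H : A ⥤ ModuleCat.{0} K) (HB : A ⥤ ModuleCat.{0} ℚ),
      S_fprel H HB)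
    (_h6 : S_evcomp (A := A)) : S_reduce5 (A := A) := by
  intro _ K _ _ _ HdR HB _ _ c L L' iso 𝒲 hex hinj
  have htc : TClosed (fun _ : A => True) := p_reduce5_tclosed
  rw [injective_iff_map_eq_zero]
  intro x hx
  obtain ⟨y, rfl⟩ := (h4 HdR HB (fun _ => True) htc).2 x
  obtain ⟨N, hN, ω, σ, rfl⟩ := h3 HdR HB _ htc.toClosed y
  obtain ⟨a1, a2, a3, -⟩ := h2 HdR HB (fun _ : A => True)
  rw [a1] at hx ⊢
  obtain ⟨e, W, hW, hsub⟩ := hex N
  obtain ⟨ωL, σL, hu⟩ := h1 HdR HB L L' iso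
  have key : ∀ e : ℕ, ∃ (ω' : HdR.obj (tpow L e)) (σ' : Module.Dual ℚ (HB.obj (tpow L e))),
      asym HdR HB (S := fun _ : A => True) (N := tpow L e) trivial ω' σ' =
        (asym HdR HB (S := fun _ : A => True) (N := L) trivial ωL σL) ^ e := by
    intro e
    induction e with
    | zero =>
      obtain ⟨q, hq⟩ : ∃ φ : Module.Dual ℚ (HB.obj (𝟙_ A)), φ FibreFunctor.one = 1 := by
        let E := LinearEquiv.ofBijective (LinearMap.toSpanSingleton ℚ (HB.obj (𝟙_ A))
          (FibreFunctor.one (H := HB))) (FibreFunctor.one_bij (H := HB))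
        refine ⟨E.symm.toLinearMap, ?_⟩
        show E.symm (FibreFunctor.one (H := HB)) = 1
        rw [LinearEquiv.symm_apply_eq]
        show FibreFunctor.one = (1 : ℚ) • FibreFunctor.one (H := HB)
        rw [one_smul]
      refine ⟨FibreFunctor.one (H := HdR), q, ?_⟩
      rw [pow_zero]
      exact a3 trivial q hq
    | succ e ih =>
      obtain ⟨ω', σ', h⟩ := ih
      refine ⟨FibreFunctor.mul (H := HdR) (tpow L e) L ω' ωL,
        tdual HB (M := tpow L e) (N := L) σ' σL, ?_⟩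
      rw [pow_succ, ← h]
      exact (a2 trivial trivial trivial ω' ωL σ' σL).symm
  obtain ⟨ω', σ', h⟩ := key e
  have hprod := a2 (M := N) (N := tpow L e) hN trivial trivial ω ω' σ σ'
  rw [h] at hprod
  obtain ⟨ωW, σW, hmove⟩ := p_reduce5_move HdR HB (h5 HdR HB) hsub
    (FibreFunctor.mul (H := HdR) N (tpow L e) ω ω') (tdual HB σ σ')
  have hper : c.per W ωW σW = 0 := by
    rw [← p_reduce5_ev_sym c (fun _ : A => True) (N := W) trivial, ← hmove, p_reduce5_ev_sym,
      ← p_reduce5_evAlg_asym c (fun _ : A => True) (N := N ⊗ tpow L e) trivial, ← hprod,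
      map_mul, hx, zero_mul]
  obtain ⟨N0, i, -, ⟨ω0, hω0⟩, hσ0⟩ := hinj W hW ωW σW hper
  change σW ∘ₗ (HB.map i).hom = 0 at hσ0
  have hz : sym HdR HB (S := fun _ : A => True) (N := N ⊗ tpow L e) trivial
      (FibreFunctor.mul (H := HdR) N (tpow L e) ω ω') (tdual HB σ σ') = 0 := by
    obtain ⟨-, -, -, -, r5, -, r7⟩ := h5 HdR HB (fun _ : A => True)
    rw [hmove, ← hω0, ← r5 (N := N0) (N' := W) trivial trivial i ω0 σW, hσ0]
    exact r7 (N := N0) trivial ω0
  have hz' : asym HdR HB (S := fun _ : A => True) (N := N ⊗ tpow L e) trivial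
      (FibreFunctor.mul (H := HdR) N (tpow L e) ω ω') (tdual HB σ σ') = 0 := by
    rw [← a1, hz, map_zero]
  rw [hz'] at hprod
  exact (IsUnit.mul_left_eq_zero (hu.pow e)).1 hprod

end

end

end Pool.Agent.Lib.MP_ae0f86_nt
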