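import Pool.Agent.Lib.MP_ae0f86_nt.StmA

open CategoryTheory CategoryTheory.Limits Opposite MonoidalCategory

universe v u

namespace Pool.Agent.Lib.MP_ae0f86_nt

open MvPolynomial in
/-- Restriction of a line bundle with section to a smaller set. -/
private theorem rel_mono {k : Type} [Field k] {ι : Type} {m : ℕ}
    {e : Fin m → Fin m → MvPolynomial ι k} {s : Fin m → MvPolynomial ι k} {B C : Set (ι → k)}
    (h : C ⊆ B) (hs : LineSection B e s) : LineSection C e s :=
  ⟨fun x hx => hs.trace x (h hx), fun x hx => hs.minors x (h hx), fun x hx => hs.sec x (h hx)⟩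

/-- The inductive step, for arbitrary closed subsets. -/
private theorem rel_step {k : Type} [Field k] {A : Type u} [Category.{v} A] [Abelian A]
    [MonoidalCategory A] (T : CohTheory k A) (h1 : S_exc T) (h2 : S_triB T) {ι : Type} [Finite ι]
    {m : ℕ} {e : Fin m → Fin m → MvPolynomial ι k} {s : Fin m → MvPolynomial ι k}
    {B C C' B1 D : Set (ι → k)} (hB : IsAlg B) (hC : IsAlg C) (hC' : IsAlg C') (hB1 : IsAlg B1)
    (hD : IsAlg D) (hCB : C ⊆ B) (hC'B : C' ⊆ B) (hDB1 : D ⊆ B1) (hs : LineSection B e s)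
    (hs1 : LineSection B1 e s) (e1 : C' = B1 ∪ C) (e2 : D = B1 ∩ C)
    (q1 : T.QI (phi hB hC hCB hs)) (q2 : T.QI (phi hB1 hD hDB1 hs1)) :
    T.QI (phi hB hC' hC'B hs) := by
  have hCC' : C ⊆ C' := by rw [e1]; exact Set.subset_union_right
  have hB1C' : B1 ⊆ C' := by rw [e1]; exact Set.subset_union_left
  have hDC : D ⊆ C := by rw [e2]; exact Set.inter_subset_right
  let t : AffTriple k := ⟨ι ⊕ Fin 2, inferInstance, PP s B, PP s C', PP s C, PP_alg s hB,
    PP_alg s hC', PP_alg s hC, PP_mono s hC'B, PP_mono s hCC'⟩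
  let t' : AffTriple k := ⟨ι ⊕ Option (Fin m), inferInstance, XP e s B, XP e s C', XP e s C,
    XP_alg e s hB, XP_alg e s hC', XP_alg e s hC, XP_mono e s hC'B, XP_mono e s hCC'⟩
  let f : t.Hom t' := ⟨fun z => ⟨fun j => MvPolynomial.eval z.1 (phiPoly s j),
      phi_mem hs z.1 z.2⟩, ⟨phiPoly s, fun _ _ => rfl⟩,
    fun z hz => phi_mem (rel_mono hC'B hs) z.1 hz,
    fun z hz => phi_mem (rel_mono hCB hs) z.1 hz⟩
  have a1 : T.QI f.XZ := q1
  have a2 : T.QI f.YZ := by
    have b1 : T.QI (inc (PP_alg s hB1) (PP_alg s hD) (PP_mono s hDB1) (PP_alg s hC')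
        (PP_alg s hC) (PP_mono s hCC') (PP_mono s hB1C') (PP_mono s hDC)) := by
      apply h1
      · ext z
        simp only [PP, e1, Set.mem_union, Set.mem_ofPred_eq]
        tauto
      · ext z
        simp only [PP, e2, Set.mem_inter_iff, Set.mem_ofPred_eq]
        tauto
    have b2 : T.QI (inc (XP_alg e s hB1) (XP_alg e s hD) (XP_mono e s hDB1) (XP_alg e s hC')
        (XP_alg e s hC) (XP_mono e s hCC') (XP_mono e s hB1C') (XP_mono e s hDC)) := by
      apply h1
      · ext z
        simp only [XP, e1, Set.mem_union, Set.mem_ofPred_eq]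
        tauto
      · ext z
        simp only [XP, e2, Set.mem_inter_iff, Set.mem_ofPred_eq]
        tauto
    have sq : inc (PP_alg s hB1) (PP_alg s hD) (PP_mono s hDB1) (PP_alg s hC')
        (PP_alg s hC) (PP_mono s hCC') (PP_mono s hB1C') (PP_mono s hDC) ≫ f.YZ =
        phi hB1 hD hDB1 hs1 ≫ inc (XP_alg e s hB1) (XP_alg e s hD) (XP_mono e s hDB1)
          (XP_alg e s hC') (XP_alg e s hC) (XP_mono e s hCC') (XP_mono e s hB1C')
          (XP_mono e s hDC) := by
      apply AffPair.hom_ext
      intro x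
      rfl
    refine CohTheory.QI.of_comp_left b1 ?_
    rw [sq]
    exact CohTheory.QI.comp q2 b2
  exact h2 f a1 a2

/-- The statement, for sets which are only propositionally equal to the strata. -/
private theorem rel_aux {k : Type} [Field k] {A : Type u} [Category.{v} A] [Abelian A]
    [MonoidalCategory A] (T : CohTheory k A) (h1 : S_exc T) (h2 : S_triB T) (h3 : S_abs T)
    (h4 : S_strata k) (P : SNC k) (j : P.J) (I : Set P.J) : ∀ (K : Set P.J), j ∉ K → j ∉ I →
    Disjoint K I → ∀ (hs : LineSection (P.S K) (P.e j) (P.s j)),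
    haveI := P.fin
    T.QI (phi (P.S_alg K) (P.SU_alg K I) (P.SU_sub K I) hs) := by
  have := P.fin
  have := P.finJ
  induction I, Set.toFinite I using Set.Finite.induction_on with
  | empty =>
    intro K hK _ _ hs
    have hE : P.SU K ∅ = ∅ := by
      ext x
      simp [SNC.SU]
    let D : LineDiv k := ⟨P.ι, P.fin, P.S K, P.S_alg K, P.c + Nat.card K, P.m j, P.e j, P.s j, hs,
      h4 P K j hK⟩
    have key : T.QI (phi D.algX IsAlg.empty (Set.empty_subset _) D.sec) := h3 D
    have gen : ∀ (C : Set (P.ι → k)) (hC : IsAlg C) (h : C ⊆ P.S K), C = ∅ →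
        T.QI (phi (P.S_alg K) hC h hs) := by
      intro C hC h hCe
      subst hCe
      exact key
    exact gen _ _ _ hE
  | @insert i I hi _ ih =>
    intro K hK hjI hd hs
    have hij : i ≠ j := fun h => hjI (by rw [h]; exact Set.mem_insert _ _)
    have hjI' : j ∉ I := fun h => hjI (Set.mem_insert_of_mem _ h)
    have hiK : i ∉ K := fun h => Set.disjoint_left.1 hd h (Set.mem_insert _ _)
    have hdK : Disjoint K I := hd.mono_right (Set.subset_insert _ _)
    have hjK' : j ∉ insert i K := by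
      rw [Set.mem_insert_iff, not_or]
      exact ⟨hij.symm, hK⟩
    have hdK' : Disjoint (insert i K) I := by
      rw [Set.disjoint_left]
      intro x hx hxI
      rcases Set.mem_insert_iff.1 hx with rfl | hx
      · exact hi hxI
      · exact Set.disjoint_left.1 hdK hx hxI
    have hsub : P.S (insert i K) ⊆ P.S K := by
      intro x hx
      refine ⟨hx.1, ?_⟩
      have h2 := hx.2
      rw [Set.mem_iInter] at h2 ⊢
      intro l
      exact h2 ⟨l.1, Set.mem_insert_of_mem _ l.2⟩
    have hs1 : LineSection (P.S (insert i K)) (P.e j) (P.s j) := rel_mono hsub hs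
    have q1 := ih K hK hjI' hdK hs
    have q2 := ih (insert i K) hjK' hjI' hdK' hs1
    refine rel_step T h1 h2 (P.S_alg K) (P.SU_alg K I) (P.SU_alg K (insert i I))
      (P.S_alg (insert i K)) (P.SU_alg (insert i K) I) (P.SU_sub K I) (P.SU_sub K (insert i I))
      (P.SU_sub (insert i K) I) hs hs1 ?_ ?_ q1 q2
    · ext x
      simp only [SNC.SU, SNC.S, Set.mem_inter_iff, Set.mem_iInter, Set.mem_iUnion,
        Set.mem_ofPred_eq, Set.mem_union, Subtype.forall, Subtype.exists, Set.mem_insert_iff,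
        exists_prop]
      constructor
      · rintro ⟨⟨hx, hK2⟩, l, hl | hl, hl2⟩
        · subst hl
          left
          refine ⟨hx, fun a ha => ?_⟩
          rcases ha with rfl | ha
          · exact hl2
          · exact hK2 a ha
        · right
          exact ⟨⟨hx, hK2⟩, l, hl, hl2⟩
      · rintro (⟨hx, hK2⟩ | ⟨⟨hx, hK2⟩, l, hl, hl2⟩)
        · exact ⟨⟨hx, fun a ha => hK2 a (Or.inr ha)⟩, i, Or.inl rfl, hK2 i (Or.inl rfl)⟩
        · exact ⟨⟨hx, hK2⟩, l, Or.inr hl, hl2⟩
    · ext x
      simp only [SNC.SU, Set.mem_inter_iff]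
      constructor
      · rintro ⟨a, b⟩
        exact ⟨a, hsub a, b⟩
      · rintro ⟨a, _, b⟩
        exact ⟨a, b⟩

theorem p_rel {k : Type} [Field k] {A : Type u} [Category.{v} A] [Abelian A] [MonoidalCategory A]
    (T : CohTheory k A) (h1 : S_exc T) (h2 : S_triB T) (h3 : S_abs T) (h4 : S_strata k) :
    S_rel T := by
  intro P j K I hK hI hd hs
  exact rel_aux T h1 h2 h3 h4 P j I K hK hI hd hs

end Pool.Agent.Lib.MP_ae0f86_nt
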