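import Pool.Agent.Lib.MP_ae0f86_nt.StmA

open CategoryTheory CategoryTheory.Limits Opposite

universe v u

namespace Pool.Agent.Lib.MP_ae0f86_nt

theorem p_sect {k : Type} [Field k] {A : Type u} [Category.{v} A] [Abelian A] [MonoidalCategory A]
    (T : CohTheory k A) : S_sect T := by
  intro P κ _ a b
  have hc : ∀ c : κ → k, P.sect κ c ≫ P.proj κ = 𝟙 P := by
    intro c
    refine AffPair.hom_ext _ _ fun x => ?_
    funext i
    rfl
  have hp := CohTheory.QI.proj T P κ
  refine ⟨?_, fun i => ?_⟩
  · have h1 : T.QI (P.sect κ a ≫ P.proj κ) := by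
      rw [hc]
      exact CohTheory.QI.of_isIso T _
    exact CohTheory.QI.of_comp_right hp h1
  · have := hp i
    have e : ∀ c, (T.h i).map (P.proj κ).op ≫ (T.h i).map (P.sect κ c).op = 𝟙 _ := by
      intro c
      rw [← Functor.map_comp, ← op_comp, hc, op_id, CategoryTheory.Functor.map_id]
    rw [← cancel_epi ((T.h i).map (P.proj κ).op), e, e]

end Pool.Agent.Lib.MP_ae0f86_nt
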