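import Pool.Agent.Lib.MP_ae0f86_nt.StmE

/-!
# MP_ae0f86_nt : [GP single] every formal period is the class of a single symbol
-/

open CategoryTheory CategoryTheory.Limits Opposite MonoidalCategory

universe v u

namespace Pool.Agent.Lib.MP_ae0f86_nt

attribute [local instance] CategoryTheory.Abelian.hasFiniteBiproducts

theorem p_single {A : Type u} [Category.{v} A] [Abelian A] {K : Type} [Field K]
    (H : A ⥤ ModuleCat.{0} K) (HB : A ⥤ ModuleCat.{0} ℚ) (h1 : S_fprel H HB) :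
    S_single H HB := by
  intro _ _ S hS x
  obtain ⟨hadd, hsmul, haddr, hsmulr, hfun, hz, hz'⟩ := h1 S
  obtain ⟨y, rfl⟩ := Submodule.Quotient.mk_surjective _ x
  induction y using Finsupp.induction_linear with
  | zero =>
    obtain ⟨N, hN⟩ := hS.ne
    exact ⟨N, hN, 0, 0, by rw [hz hN]; rfl⟩
  | single s a =>
    refine ⟨s.N, s.mem, a • s.ω, s.σ, ?_⟩
    rw [hsmul]
    show Submodule.Quotient.mk _ = a • (Submodule.Quotient.mk _ : FP H HB S)
    rw [← Submodule.Quotient.mk_smul, Finsupp.smul_single, smul_eq_mul, mul_one]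
  | add f g hf hg =>
    obtain ⟨N, hN, ω, σ, hx⟩ := hf
    obtain ⟨N', hN', ω', σ', hx'⟩ := hg
    have hM : S (N ⊞ N') := hS.sum hN hN'
    refine ⟨N ⊞ N', hM, (H.map (biprod.inl : N ⟶ N ⊞ N')).hom ω +
      (H.map (biprod.inr : N' ⟶ N ⊞ N')).hom ω', σ ∘ₗ (HB.map (biprod.fst : N ⊞ N' ⟶ N)).hom +
      σ' ∘ₗ (HB.map (biprod.snd : N ⊞ N' ⟶ N')).hom, ?_⟩
    rw [Submodule.Quotient.mk_add, hx, hx', hadd]
    congr 1
    · rw [← hfun hN hM]
      congr 1
      rw [LinearMap.add_comp, LinearMap.comp_assoc, LinearMap.comp_assoc, ← ModuleCat.hom_comp,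
        ← ModuleCat.hom_comp, ← HB.map_comp, ← HB.map_comp, biprod.inl_fst, biprod.inl_snd,
        HB.map_id, HB.map_zero]
      simp
    · rw [← hfun hN' hM]
      congr 1
      rw [LinearMap.add_comp, LinearMap.comp_assoc, LinearMap.comp_assoc, ← ModuleCat.hom_comp,
        ← ModuleCat.hom_comp, ← HB.map_comp, ← HB.map_comp, biprod.inr_fst, biprod.inr_snd,
        HB.map_id, HB.map_zero]
      simp

end Pool.Agent.Lib.MP_ae0f86_nt
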