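import Pool.Agent.Lib.MP_ae0f86_nt.StmB

/-! Piece [GP slp]. -/

open MvPolynomial

universe v u

namespace Pool.Agent.Lib.MP_ae0f86_nt

noncomputable section

theorem p_slp_X {τ : Type} (a : τ) : SignQuadric (X a : MvPolynomial τ ℤ) := by
  classical
  constructor
  · rw [totalDegree_X]
    norm_num
  · intro m
    rw [coeff_X]
    split_ifs
    · exact Or.inr (Or.inl rfl)
    · exact Or.inl rfl

theorem p_slp_all (h1 : S_slpext) {σ : Type} [Finite σ] {r : ℕ} (f : Fin r → MvPolynomial σ ℤ)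
    (n : ℕ) : ∃ (κ : Type) (_ : Finite κ) (w : κ → MvPolynomial σ ℤ) (r' : ℕ)
    (q : Fin r' → MvPolynomial (σ ⊕ κ) ℤ), IsProgram w q ∧
      ∀ j : Fin r, j.val < n → ∃ j', w j' = f j := by
  induction n with
  | zero =>
    refine ⟨Empty, inferInstance, fun e => e.elim, 0, fun i => i.elim0, ⟨fun i => i.elim0, ?_⟩,
      fun j hj => absurd hj (Nat.not_lt_zero _)⟩
    intro z
    exact ⟨fun _ e => e.elim, fun _ i => i.elim0⟩
  | succ n ih =>
    obtain ⟨κ, _, w, r', q, hq, hw⟩ := ih
    by_cases hn : n < r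
    · obtain ⟨κ', _, w', r'', q', hq', hm, j0, hj0⟩ := h1 (f ⟨n, hn⟩) w q hq
      refine ⟨κ', inferInstance, w', r'', q', hq', fun j hj => ?_⟩
      rcases Nat.lt_succ_iff_lt_or_eq.mp hj with h | h
      · obtain ⟨j', hj'⟩ := hw j h
        obtain ⟨j'', hj''⟩ := hm j'
        exact ⟨j'', hj''.trans hj'⟩
      · refine ⟨j0, ?_⟩
        rw [hj0]
        congr 1
        exact Fin.ext h.symm
    · exact ⟨κ, inferInstance, w, r', q, hq, fun j _ => hw j (by omega)⟩

theorem p_slp (h1 : S_slpext) : S_slp := by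
  intro σ _ r f
  obtain ⟨κ, _, w, r', q, hq, hw⟩ := p_slp_all h1 f r
  obtain ⟨κ', _, w', r'', q', hq', hm, j0, -⟩ := h1 0 w q hq
  have hall : ∀ j : Fin r, ∃ j', w' j' = f j := by
    intro j
    obtain ⟨j', hj'⟩ := hw j j.2
    obtain ⟨j'', hj''⟩ := hm j'
    exact ⟨j'', hj''.trans hj'⟩
  choose g hg using hall
  refine ⟨κ', inferInstance, ⟨j0⟩, w', r'' + r, Fin.append q' (fun j => X (Sum.inr (g j))), ?_, ?_⟩
  · intro j
    refine Fin.addCases (fun i => ?_) (fun i => ?_) j
    · rw [Fin.append_left]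
      exact hq'.1 i
    · rw [Fin.append_right]
      exact p_slp_X _
  · intro z
    constructor
    · intro hz
      have e1 := (hq'.2 z).mp (fun i => by
        have := hz (Fin.castAdd r i)
        rwa [Fin.append_left] at this)
      refine ⟨fun j => ?_, e1⟩
      have := hz (Fin.natAdd r'' j)
      rw [Fin.append_right, map_X, eval_X, e1, hg] at this
      exact this
    · rintro ⟨h2, h3⟩ j
      refine Fin.addCases (fun i => ?_) (fun i => ?_) j
      · rw [Fin.append_left]
        exact (hq'.2 z).mpr h3 i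
      · rw [Fin.append_right, map_X, eval_X, h3, hg]
        exact h2 i

end

end Pool.Agent.Lib.MP_ae0f86_nt
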