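import Pool.Agent.Lib.MP_ae0f86_nt.StmA

open MvPolynomial

universe v u

namespace Pool.Agent.Lib.MP_ae0f86_nt

private theorem smgm_inl {k : Type} [Field k] {ι κ : Type} (z : ι ⊕ κ → k) (f : MvPolynomial ι k)
    (i : ι) : grad z (rename Sum.inl f) (Sum.inl i) = grad (z ∘ Sum.inl) f i := by
  unfold grad
  rw [pderiv_rename Sum.inl_injective, eval_rename]

private theorem smgm_inr {k : Type} [Field k] {ι κ : Type} (z : ι ⊕ κ → k) (f : MvPolynomial ι k)
    (j : κ) : grad z (rename Sum.inl f) (Sum.inr j) = 0 := by
  classical
  unfold grad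
  rw [pderiv_eq_zero_of_notMem_vars, map_zero]
  intro h
  have h1 := vars_rename Sum.inl f h
  rw [Finset.mem_image] at h1
  obtain ⟨a, _, ha⟩ := h1
  exact absurd ha (by simp)

theorem p_smgm {k : Type} [Field k] (h1 : S_cutcard k) : S_smgm k := by
  classical
  intro ι c X hX
  refine ⟨?_, ?_⟩
  · have h := (hX.1.cyl (κ := Fin 2)).inter
      (IsAlg.zero (MvPolynomial.X (Sum.inr 0) * MvPolynomial.X (Sum.inr 1) - 1 :
        MvPolynomial (ι ⊕ Fin 2) k))
    convert h using 1
    ext z
    simp [sub_eq_zero]
  · rintro z ⟨hz1, hz2⟩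
    obtain ⟨p, s, hs, hp, hli⟩ := hX.2 _ hz1
    have hcard : c + 1 = Fintype.card (Fin c ⊕ Unit) := by simp
    rw [hcard]
    refine h1 _ z _ (Sum.elim (fun a => rename Sum.inl (p a))
      (fun _ => MvPolynomial.X (Sum.inr 0) * MvPolynomial.X (Sum.inr 1) - 1))
      (rename Sum.inl s) ?_ ?_ ?_
    · rw [eval_rename]
      exact hs
    · intro w hw
      rw [eval_rename] at hw
      constructor
      · rintro ⟨hw1, hw2⟩ a
        rcases a with a | a
        · rw [Sum.elim_inl, eval_rename]
          exact (hp _ hw).1 hw1 a
        · simp [hw2]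
      · intro h
        refine ⟨(hp _ hw).2 fun a => ?_, ?_⟩
        · have := h (Sum.inl a)
          rwa [Sum.elim_inl, eval_rename] at this
        · have := h (Sum.inr ())
          simpa [sub_eq_zero] using this
    · rw [Fintype.linearIndependent_iff] at hli ⊢
      intro g hg
      rw [Fintype.sum_sum_type, Fintype.sum_sum_type] at hg
      have hne : z (Sum.inr 1) ≠ 0 := by
        intro h0
        rw [h0, mul_zero] at hz2
        exact zero_ne_one hz2
      have hu : g (Sum.inl (Sum.inr ())) = 0 := by
        have h2 := congrFun hg (Sum.inr 0)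
        simp only [Sum.elim_inl, Sum.elim_inr, Finset.univ_unique, Finset.sum_singleton,
          Finset.univ_eq_empty, Finset.sum_empty, add_zero, Pi.add_apply, Finset.sum_apply,
          Pi.smul_apply, smul_eq_mul, smgm_inr, mul_zero, Finset.sum_const_zero, zero_add,
          Pi.zero_apply] at h2
        unfold grad at h2
        simp [pderiv_X, hne] at h2
        exact h2
      have hrest : ∀ i, g (Sum.inl (Sum.inl i)) = 0 := by
        have h3 : ∑ i : Fin c ⊕ Empty, (Sum.elim (fun a => g (Sum.inl (Sum.inl a)))
            (fun e : Empty => e.elim) i) • (Sum.elim (fun a => grad (z ∘ Sum.inl) (p a))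
            (fun j : Empty => grad (z ∘ Sum.inl) (j.elim : MvPolynomial ι k)) i) = 0 := by
          funext i
          have h2 := congrFun hg (Sum.inl i)
          rw [Fintype.sum_sum_type]
          simp only [Sum.elim_inl, Sum.elim_inr, Finset.univ_unique, Finset.sum_singleton,
            Finset.univ_eq_empty, Finset.sum_empty, add_zero, Pi.add_apply, Finset.sum_apply,
            Pi.smul_apply, smul_eq_mul, smgm_inl,
            Pi.zero_apply] at h2 ⊢
          rw [show (default : Unit) = () from rfl, hu, zero_mul, add_zero] at h2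
          exact h2
        intro i
        exact hli _ h3 (Sum.inl i)
      rintro ((i | i) | i)
      · exact hrest i
      · exact hu
      · exact i.elim

end Pool.Agent.Lib.MP_ae0f86_nt
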