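import Pool.Agent.Lib.MP_ae0f86_nt.StmA

open CategoryTheory.Limits MvPolynomial

universe v u

namespace Pool.Agent.Lib.MP_ae0f86_nt

theorem p_smgraph_grad {k : Type} [Field k] {ι κ : Type} (z : ι ⊕ κ → k)
    (f : MvPolynomial ι k) :
    grad z (rename Sum.inl f : MvPolynomial (ι ⊕ κ) k) =
      Sum.elim (grad (z ∘ Sum.inl) f) (fun _ => 0) := by
  classical
  funext i
  rcases i with i | j
  · simp only [grad, Sum.elim_inl]
    rw [pderiv_rename Sum.inl_injective, eval_rename]
  · simp only [grad, Sum.elim_inr]
    have h : pderiv (Sum.inr j : ι ⊕ κ) (rename Sum.inl f : MvPolynomial (ι ⊕ κ) k) = 0 := by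
      induction f using MvPolynomial.induction_on with
      | C a => simp
      | add p q hp hq => simp [hp, hq]
      | mul_X p n hp => simp [hp, pderiv_X]
    rw [h, map_zero]

theorem p_smgraph {k : Type} [Field k] (h1 : S_cutcard k) : S_smgraph k := by
  classical
  intro ι κ _ c X w hX
  refine ⟨?_, ?_⟩
  · have h := (hX.1.cyl (κ := κ)).inter
      (IsAlg.zeros (fun j => MvPolynomial.X (Sum.inr j) - rename Sum.inl (w j) :
        κ → MvPolynomial (ι ⊕ κ) k))
    convert h using 1
    ext z
    simp [sub_eq_zero, eval_rename]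
  · rintro z ⟨hz, hw⟩
    obtain ⟨p, s, hs, hp, hl⟩ := hX.2 _ hz
    have key := h1 {z : ι ⊕ κ → k | z ∘ Sum.inl ∈ X ∧ ∀ j, z (Sum.inr j) =
      eval (z ∘ Sum.inl) (w j)} z (J := Empty) (α := Fin c ⊕ κ) (fun e => e.elim)
      (Sum.elim (fun a => rename Sum.inl (p a))
        (fun j => MvPolynomial.X (Sum.inr j) - rename Sum.inl (w j))) (rename Sum.inl s)
      (by rwa [eval_rename]) ?_ ?_
    · rwa [Fintype.card_sum, Fintype.card_fin] at key
    · intro y hy
      rw [eval_rename] at hy
      simp only [Set.mem_ofPred_eq, Sum.forall, Sum.elim_inl, Sum.elim_inr, eval_rename, map_sub,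
        eval_X, sub_eq_zero, hp _ hy]
    · rw [Fintype.linearIndependent_iff] at hl ⊢
      intro g hg
      simp only [Fintype.sum_sum_type, Sum.elim_inl, Sum.elim_inr, Finset.univ_eq_empty,
        Finset.sum_empty, add_zero] at hg hl
      have g1 : ∀ (a : Fin c), grad z (rename Sum.inl (p a) : MvPolynomial (ι ⊕ κ) k) =
        Sum.elim (grad (z ∘ Sum.inl) (p a)) (fun _ => 0) := fun a => p_smgraph_grad z (p a)
      have g2 : ∀ (j : κ), grad z (MvPolynomial.X (Sum.inr j) - rename Sum.inl (w j) :
          MvPolynomial (ι ⊕ κ) k) = Sum.elim (fun i => - grad (z ∘ Sum.inl) (w j) i)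
            (fun l => if l = j then 1 else 0) := by
        intro j
        have h3 := p_smgraph_grad z (w j)
        funext i
        have h4 := congrFun h3 i
        simp only [grad] at h4
        rcases i with i | l
        · simp only [grad, map_sub, Sum.elim_inl] at h4 ⊢
          rw [h4]
          simp [pderiv_X]
        · simp only [grad, map_sub, Sum.elim_inr] at h4 ⊢
          rw [h4]
          by_cases hlj : l = j
          · subst hlj; simp [pderiv_X]
          · have : (Sum.inr j : ι ⊕ κ) ≠ Sum.inr l := fun h => hlj (Sum.inr_injective h).symm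
            simp [pderiv_X, hlj, Ne.symm this]
      simp only [g1, g2] at hg
      have e1 : ∀ j : κ, g (Sum.inl (Sum.inr j)) = 0 := by
        intro j
        have := congrFun hg (Sum.inr j)
        simpa [Finset.sum_apply] using this
      have e2 : ∀ a : Fin c, g (Sum.inl (Sum.inl a)) = 0 := by
        have h5 := hl (fun a => a.elim (fun a => g (Sum.inl (Sum.inl a))) (fun _ => 0)) (by
          simp only [Sum.elim_inl]
          funext i
          have := congrFun hg (Sum.inl i)
          simpa [Finset.sum_apply, e1] using this)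
        intro a
        exact h5 (Sum.inl a)
      rintro ((a | j) | e)
      · exact e2 a
      · exact e1 j
      · exact e.elim

end Pool.Agent.Lib.MP_ae0f86_nt
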