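import Pool.Agent.Lib.MP_ae0f86_nt.StmA

/-!
# MP_ae0f86_nt : products of smooth varieties are smooth
-/

open MvPolynomial

namespace Pool.Agent.Lib.MP_ae0f86_nt

theorem p_smprod_grad_inl {k : Type} [Field k] {ι κ : Type} (z : ι ⊕ κ → k)
    (f : MvPolynomial ι k) :
    grad z (rename Sum.inl f) = Sum.elim (grad (z ∘ Sum.inl) f) (0 : κ → k) := by
  funext i
  rcases i with i | i
  · show eval z (pderiv (Sum.inl i) (rename Sum.inl f)) = eval (z ∘ Sum.inl) (pderiv i f)
    rw [pderiv_rename Sum.inl_injective, eval_rename]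
  · show eval z (pderiv (Sum.inr i) (rename Sum.inl f)) = 0
    rw [pderiv_eq_zero_of_notMem_vars, map_zero]
    intro h
    obtain ⟨j, -, hj⟩ := mem_vars_rename _ _ h
    exact Sum.inl_ne_inr hj

theorem p_smprod_grad_inr {k : Type} [Field k] {ι κ : Type} (z : ι ⊕ κ → k)
    (f : MvPolynomial κ k) :
    grad z (rename Sum.inr f) = Sum.elim (0 : ι → k) (grad (z ∘ Sum.inr) f) := by
  funext i
  rcases i with i | i
  · show eval z (pderiv (Sum.inl i) (rename Sum.inr f)) = 0
    rw [pderiv_eq_zero_of_notMem_vars, map_zero]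
    intro h
    obtain ⟨j, -, hj⟩ := mem_vars_rename _ _ h
    exact Sum.inl_ne_inr hj.symm
  · show eval z (pderiv (Sum.inr i) (rename Sum.inr f)) = eval (z ∘ Sum.inr) (pderiv i f)
    rw [pderiv_rename Sum.inr_injective, eval_rename]

/-- Block-diagonal families are linearly independent. -/
theorem p_smprod_block {k : Type} [Field k] {ι κ α β : Type} (f : α → ι → k) (g : β → κ → k)
    (hf : LinearIndependent k f) (hg : LinearIndependent k g) :
    LinearIndependent k (Sum.elim (fun a => Sum.elim (f a) (0 : κ → k))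
      (fun b => Sum.elim (0 : ι → k) (g b)) : α ⊕ β → ι ⊕ κ → k) := by
  have h := linearIndependent_inl_union_inr' hf hg
  have h2 := h.map' (LinearEquiv.sumArrowLequivProdArrow ι κ k k).symm.toLinearMap
    (LinearEquiv.ker _)
  have e : (Sum.elim (fun a => Sum.elim (f a) (0 : κ → k))
      (fun b => Sum.elim (0 : ι → k) (g b)) : α ⊕ β → ι ⊕ κ → k) =
      ⇑(LinearEquiv.sumArrowLequivProdArrow ι κ k k).symm.toLinearMap ∘
      Sum.elim (⇑(LinearMap.inl k (ι → k) (κ → k)) ∘ f)
        (⇑(LinearMap.inr k (ι → k) (κ → k)) ∘ g) := by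
    funext i
    rcases i with a | b
    · funext j
      rcases j with j | j <;> rfl
    · funext j
      rcases j with j | j <;> rfl
  rw [e]
  exact h2

theorem p_smprod_empty {k : Type} [Field k] {α V : Type} [AddCommGroup V] [Module k V]
    (f : α → V) (g : Empty → V) :
    LinearIndependent k (Sum.elim f g) ↔ LinearIndependent k f := by
  have h := linearIndependent_equiv (R := k) (Equiv.sumEmpty α Empty) (f := f)
  rw [← h]
  have : f ∘ (Equiv.sumEmpty α Empty) = Sum.elim f g := by
    funext i
    rcases i with a | e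
    · rfl
    · exact e.elim
  rw [this]

theorem p_smprod {k : Type} [Field k] (h1 : S_cutcard k) : S_smprod k := by
  intro ι ι' c c' X X' hX hX'
  refine ⟨?_, ?_⟩
  · have h := (hX.1.cyl (κ := ι')).inter
      (hX'.1.preimage (ι := ι ⊕ ι') (fun j => MvPolynomial.X (Sum.inr j)))
    convert h using 1
    ext z
    simp [Function.comp_def]
  · intro z hz
    obtain ⟨p, s, hs, hp, hl⟩ := hX.2 _ hz.1
    obtain ⟨p', s', hs', hp', hl'⟩ := hX'.2 _ hz.2
    rw [p_smprod_empty] at hl hl'
    have key := h1 {z : ι ⊕ ι' → k | z ∘ Sum.inl ∈ X ∧ z ∘ Sum.inr ∈ X'} z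
      (fun e : Empty => e.elim)
      (Sum.elim (fun a => rename Sum.inl (p a)) (fun a => rename Sum.inr (p' a)) :
        Fin c ⊕ Fin c' → MvPolynomial (ι ⊕ ι') k)
      (rename Sum.inl s * rename Sum.inr s') ?_ ?_ ?_
    · rw [Fintype.card_sum, Fintype.card_fin, Fintype.card_fin] at key
      exact key
    · rw [map_mul, eval_rename, eval_rename]
      exact mul_ne_zero hs hs'
    · intro w hw
      rw [map_mul, eval_rename, eval_rename] at hw
      have e1 := hp _ (left_ne_zero_of_mul hw)
      have e2 := hp' _ (right_ne_zero_of_mul hw)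
      rw [Set.mem_ofPred_eq, e1, e2]
      constructor
      · rintro ⟨a1, a2⟩ (a | a)
        · rw [Sum.elim_inl, eval_rename]; exact a1 a
        · rw [Sum.elim_inr, eval_rename]; exact a2 a
      · intro h
        refine ⟨fun a => ?_, fun a => ?_⟩
        · have := h (Sum.inl a)
          rwa [Sum.elim_inl, eval_rename] at this
        · have := h (Sum.inr a)
          rwa [Sum.elim_inr, eval_rename] at this
    · rw [p_smprod_empty]
      have hb := p_smprod_block _ _ hl hl'
      have e : (fun a => grad z ((Sum.elim (fun a => rename Sum.inl (p a))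
          (fun a => rename Sum.inr (p' a)) : Fin c ⊕ Fin c' → MvPolynomial (ι ⊕ ι') k) a)) =
          Sum.elim (fun a => Sum.elim (grad (z ∘ Sum.inl) (p a)) (0 : ι' → k))
            (fun b => Sum.elim (0 : ι → k) (grad (z ∘ Sum.inr) (p' b))) := by
        funext i
        rcases i with a | a
        · exact p_smprod_grad_inl z (p a)
        · exact p_smprod_grad_inr z (p' a)
      rw [e]
      exact hb

end Pool.Agent.Lib.MP_ae0f86_nt
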