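import Pool.Agent.Lib.MP_ae0f86_nt.StmA

open CategoryTheory Opposite MonoidalCategory

universe v u

namespace Pool.Agent.Lib.MP_ae0f86_nt

private theorem snc_aux {k : Type} [Field k] {A : Type u} [Category.{v} A] [Abelian A]
    [MonoidalCategory A] [SymmetricCategory A] (T : CohTheory k A) (hblow : S_blow k)
    (h1 : S_push T hblow) (h2 : S_tensmono T) (n : ℕ) : ∀ (P : SNC k), Nat.card P.J = n →
    ∀ i : ℤ, ∃ (ι : Type) (_ : Finite ι) (c : ℕ) (X : Set (ι → k)) (hX : IsSmooth c X),
      ∃ f : (T.h i).obj (op P.pair) ⊗ tpow T.L n ⟶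
        (T.h (i + (n : ℤ))).obj (op (AffPair.abs hX.1)), Mono f := by
  induction n with
  | zero =>
    intro P hP i
    have := P.fin
    have := P.finJ
    have hem : IsEmpty P.J := by
      rcases Nat.card_eq_zero.mp hP with h | h
      · exact h
      · exact absurd P.finJ h.not_finite
    have hX : IsSmooth P.c P.X := by
      refine ⟨P.algX, fun x hx => ?_⟩
      obtain ⟨b, _, p, s, hs, hp, hli⟩ := P.cut x hx
      refine ⟨p, s, hs, hp, ?_⟩
      let m : Fin P.c ⊕ Empty → Fin P.c ⊕ {j : P.J // ∀ a, MvPolynomial.eval x (P.s j a) = 0} :=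
        Sum.map id (fun e => e.elim)
      have hm : Function.Injective m := by
        rintro (a | a) (b | b) h
        · exact congrArg Sum.inl (Sum.inl_injective h)
        · exact b.elim
        · exact a.elim
        · exact a.elim
      have h3 := hli.comp m hm
      convert h3 using 1
      funext t
      rcases t with a | a
      · rfl
      · exact a.elim
    have hpair : P.pair = AffPair.abs hX.1 := by
      unfold SNC.pair AffPair.abs
      congr 1
      exact Set.iUnion_of_empty _
    refine ⟨P.ι, inferInstance, P.c, P.X, hX, ?_⟩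
    have e1 : (T.h i).obj (op P.pair) = (T.h (i + ((0 : ℕ) : ℤ))).obj (op (AffPair.abs hX.1)) := by
      rw [hpair, Nat.cast_zero, add_zero]
    let a : (T.h i).obj (op P.pair) ⊗ 𝟙_ A ⟶ (T.h (i + ((0 : ℕ) : ℤ))).obj
        (op (AffPair.abs hX.1)) := (ρ_ ((T.h i).obj (op P.pair))).hom ≫ eqToHom e1
    have ha : IsIso a := by
      show IsIso ((ρ_ ((T.h i).obj (op P.pair))).hom ≫ eqToHom e1)
      infer_instance
    have hm : Mono a := inferInstance
    exact ⟨a, hm⟩
  | succ n ih =>
    intro P hP i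
    have := P.fin
    have := P.finJ
    have hne : Nonempty P.J := by
      by_contra h
      rw [not_nonempty_iff] at h
      rw [Nat.card_of_isEmpty] at hP
      omega
    obtain ⟨j⟩ := hne
    classical
    have hcard : Nat.card (P.blow hblow j).J = n := by
      have h3 : Nat.card (Option {b : P.J // b ≠ j}) = Nat.card P.J :=
        Nat.card_congr (Equiv.optionSubtypeNe j)
      rw [Finite.card_option] at h3
      have h4 : Nat.card (P.blow hblow j).J = Nat.card {b : P.J // b ≠ j} := rfl
      omega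
    obtain ⟨g, hg⟩ := h1 P j i
    obtain ⟨ι, hι, c, X, hX, f, hf⟩ := ih (P.blow hblow j) hcard (i + 1)
    refine ⟨ι, hι, c, X, hX, ?_⟩
    have hg' : Mono (g ▷ tpow T.L n) := (h2 g n).1 hg
    have e1 : (T.h (i + 1 + (n : ℤ))).obj (op (AffPair.abs hX.1)) =
        (T.h (i + ((n + 1 : ℕ) : ℤ))).obj (op (AffPair.abs hX.1)) := by
      have : i + 1 + (n : ℤ) = i + ((n + 1 : ℕ) : ℤ) := by
        push_cast
        ring
      rw [this]
    let a : (T.h i).obj (op P.pair) ⊗ tpow T.L (n + 1) ⟶
        ((T.h i).obj (op P.pair) ⊗ T.L) ⊗ tpow T.L n :=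
      ((T.h i).obj (op P.pair) ◁ (β_ (tpow T.L n) T.L).hom) ≫
        (α_ ((T.h i).obj (op P.pair)) T.L (tpow T.L n)).inv
    have ha : IsIso a := by
      show IsIso (((T.h i).obj (op P.pair) ◁ (β_ (tpow T.L n) T.L).hom) ≫
        (α_ ((T.h i).obj (op P.pair)) T.L (tpow T.L n)).inv)
      infer_instance
    refine ⟨a ≫ (g ▷ tpow T.L n) ≫ f ≫ eqToHom e1, ?_⟩
    infer_instance

theorem p_snc {k : Type} [Field k] {A : Type u} [Category.{v} A] [Abelian A] [MonoidalCategory A]
    [SymmetricCategory A] (T : CohTheory k A) (hblow : S_blow k) (h1 : S_push T hblow)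
    (h2 : S_tensmono T) : S_snc T :=
  fun P i => snc_aux T hblow h1 h2 _ P rfl i

end Pool.Agent.Lib.MP_ae0f86_nt
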