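import Pool.Agent.Lib.MP_ae0f86_nt.StmA

open MvPolynomial

universe v u

namespace Pool.Agent.Lib.MP_ae0f86_nt

/-- On `X` one has `e_{bb} s_a = e_{ab} s_b`. -/
theorem p_strata_sec {k : Type} [Field k] {ι : Type} {m : ℕ} {X : Set (ι → k)}
    {e : Fin m → Fin m → MvPolynomial ι k} {s : Fin m → MvPolynomial ι k}
    (h : LineSection X e s) (x : ι → k) (hx : x ∈ X) (a b : Fin m) :
    eval x (e b b) * eval x (s a) = eval x (e a b) * eval x (s b) := by
  rw [← h.sec x hx a, ← h.sec x hx b, Finset.mul_sum, Finset.mul_sum]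
  refine Finset.sum_congr rfl fun c _ => ?_
  have := h.minors x hx b b a c
  linear_combination (eval x (s c)) * this

theorem p_strata {k : Type} [Field k] (h1 : S_cutcard k) : S_strata k := by
  intro P K j hj x hx
  classical
  have hfin := P.finJ
  obtain ⟨hxX, hxK⟩ := hx
  have hxK' : ∀ i ∈ K, ∀ a, eval x (P.s i a) = 0 := fun i hi =>
    Set.mem_iInter.1 hxK ⟨i, hi⟩
  obtain ⟨b, hb, p, s0, hs0, hp, hli⟩ := P.cut x hxX
  refine ⟨b j, hb j, ?_⟩
  have : Fintype K := Fintype.ofFinite K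
  have key := h1 (P.S K) x (J := {_u : Unit // ∀ a, eval x (P.s j a) = 0}) (α := Fin P.c ⊕ K)
    (fun _ => P.s j (b j)) (Sum.elim p (fun i => P.s i (b i)))
    (s0 * ∏ i : K, P.e i (b i) (b i)) ?_ ?_ ?_
  · rw [Fintype.card_sum, Fintype.card_fin, ← Nat.card_eq_fintype_card] at key
    exact key
  · rw [map_mul, map_prod]
    exact mul_ne_zero hs0 (Finset.prod_ne_zero_iff.2 fun i _ => hb i)
  · intro z hz
    rw [map_mul, map_prod] at hz
    have hz0 : eval z s0 ≠ 0 := left_ne_zero_of_mul hz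
    have hz1 : ∀ i : K, eval z (P.e i (b i) (b i)) ≠ 0 := fun i =>
      Finset.prod_ne_zero_iff.1 (right_ne_zero_of_mul hz) i (Finset.mem_univ i)
    constructor
    · rintro ⟨hzX, hzK⟩ (a | i)
      · exact (hp z hz0).1 hzX a
      · exact Set.mem_iInter.1 hzK i (b i)
    · intro h
      have hzX : z ∈ P.X := (hp z hz0).2 fun a => h (Sum.inl a)
      refine ⟨hzX, Set.mem_iInter.2 fun i => ?_⟩
      intro a
      have h3 := p_strata_sec (P.sec i) z hzX a (b i)
      have h4 : eval z (P.s i (b i)) = 0 := h (Sum.inr i)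
      rw [h4, mul_zero] at h3
      exact (mul_eq_zero.1 h3).resolve_left (hz1 i)
  · let f : (Fin P.c ⊕ K) ⊕ {_u : Unit // ∀ a, eval x (P.s j a) = 0} →
        Fin P.c ⊕ {i : P.J // ∀ a, eval x (P.s i a) = 0} :=
      Sum.elim (Sum.elim Sum.inl (fun i => Sum.inr ⟨i.1, hxK' i.1 i.2⟩))
        (fun u => Sum.inr ⟨j, u.2⟩)
    have hf : Function.Injective f := by
      rintro ((a | i) | u) ((a' | i') | u') h
      · simpa [f] using h
      · simp [f] at h
      · simp [f] at h
      · simp [f] at h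
      · simp only [f, Sum.elim_inl, Sum.elim_inr, Sum.inr.injEq, Subtype.mk.injEq] at h
        rw [Subtype.ext h]
      · simp only [f, Sum.elim_inl, Sum.elim_inr, Sum.inr.injEq, Subtype.mk.injEq] at h
        exact absurd (h ▸ i.2) hj
      · simp [f] at h
      · simp only [f, Sum.elim_inl, Sum.elim_inr, Sum.inr.injEq, Subtype.mk.injEq] at h
        exact absurd (h ▸ i'.2) hj
      · rw [Subsingleton.elim u u']
    have h5 := hli.comp f hf
    convert h5 using 1
    funext y
    rcases y with (a | i) | u <;> rfl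

end Pool.Agent.Lib.MP_ae0f86_nt
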