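import Pool.Agent.Lib.MP_ae0f86_nt.StmB

/-! [GP subsum] -/

open CategoryTheory CategoryTheory.Limits

universe v u

namespace Pool.Agent.Lib.MP_ae0f86_nt

attribute [local instance] CategoryTheory.Abelian.hasFiniteBiproducts

private theorem p_subsum_b {A : Type u} [Category.{v} A] [Abelian A] (h1 : S_subq A)
    (G : A → Prop) (r : ℕ) (M : Fin r → A) (h : ∀ a, SubSum G (M a)) : SubSum G (⨁ M) := by
  obtain ⟨ht, hs, hi, -, -, -⟩ := h1
  choose n M' hM' hsub using h
  let e : (Σ a : Fin r, Fin (n a)) ≃ Fin (∑ a, n a) := finSigmaFinEquiv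
  let M'' : Fin (∑ a, n a) → A := fun x => M' (e.symm x).1 (e.symm x).2
  refine ⟨∑ a, n a, M'', fun x => hM' _ _, ?_⟩
  refine ht _ _ _ (hs r M (fun a => ⨁ M' a) hsub) (hi _ _ ?_)
  exact (biproductBiproductIso (fun a => Fin (n a)) (fun a => M' a)) ≪≫
    biproduct.whiskerEquiv e (fun j => eqToIso (by
      show M' (e.symm (e j)).1 (e.symm (e j)).2 = M' j.1 j.2
      rw [Equiv.symm_apply_apply]))

private theorem p_subsum_d {A : Type u} [Category.{v} A] [Abelian A] (N N' : A) :
    Mono (biprod.desc (biproduct.ι ![N, N'] 0) (biproduct.ι ![N, N'] 1)) := by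
  have h : biprod.desc (biproduct.ι ![N, N'] 0) (biproduct.ι ![N, N'] 1) ≫
      biprod.lift (biproduct.π ![N, N'] 0) (biproduct.π ![N, N'] 1) = 𝟙 _ := by
    apply biprod.hom_ext' <;> apply biprod.hom_ext
    · simp only [biprod.inl_desc_assoc, Category.assoc, biprod.lift_fst, Category.comp_id,
        biprod.inl_fst]
      exact biproduct.ι_π_self _ _
    · simp only [biprod.inl_desc_assoc, Category.assoc, biprod.lift_snd, Category.comp_id,
        biprod.inl_snd]
      exact biproduct.ι_π_ne _ (by decide)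
    · simp only [biprod.inr_desc_assoc, Category.assoc, biprod.lift_fst, Category.comp_id,
        biprod.inr_fst]
      exact biproduct.ι_π_ne _ (by decide)
    · simp only [biprod.inr_desc_assoc, Category.assoc, biprod.lift_snd, Category.comp_id,
        biprod.inr_snd]
      exact biproduct.ι_π_self _ _
  have : Mono (biprod.desc (biproduct.ι ![N, N'] 0) (biproduct.ι ![N, N'] 1) ≫
      biprod.lift (biproduct.π ![N, N'] 0) (biproduct.π ![N, N'] 1)) := by
    rw [h]; infer_instance
  exact mono_of_mono _ (biprod.lift (biproduct.π ![N, N'] 0) (biproduct.π ![N, N'] 1))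

theorem p_subsum {A : Type u} [Category.{v} A] [Abelian A] (h1 : S_subq A) : S_subsum A := by
  have hb := p_subsum_b h1
  have ha : ∀ (G : A → Prop) (N N' : A), SubSum G N → IsSubquot N' N → SubSum G N' := by
    rintro G N N' ⟨r, M, hM, h⟩ h'
    exact ⟨r, M, hM, h1.1 _ _ _ h' h⟩
  refine ⟨ha, hb, ?_, ?_, ?_, ?_, ?_⟩
  · rintro G G' N hG ⟨r, M, hM, h⟩
    exact ha _ _ _ (hb G' r M fun a => hG _ (hM a)) h
  · intro G N N' hN hN'
    refine ha _ _ _ (hb G 2 ![N, N'] fun a => ?_) (h1.2.2.2.1 _ _ _ (p_subsum_d N N'))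
    fin_cases a
    · exact hN
    · exact hN'
  · intro G M hM
    refine ⟨1, fun _ => M, fun _ => hM, h1.2.2.2.1 _ _ (biproduct.ι (fun _ : Fin 1 => M) 0) ?_⟩
    infer_instance
  · intro G M hM
    exact ⟨0, fun a => a.elim0, fun a => a.elim0, h1.2.2.2.1 _ _ 0 (hM.mono _)⟩
  · intro W N
    constructor
    · rintro ⟨r, M, hM, h⟩
      obtain rfl : M = fun _ => W := funext hM
      exact ⟨r, h⟩
    · rintro ⟨r, h⟩
      exact ⟨r, fun _ => W, fun _ => rfl, h⟩

end Pool.Agent.Lib.MP_ae0f86_nt
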