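import Pool.Agent.Lib.MP_ae0f86_nt.StmU

/-! [GP sumemb] -/

open CategoryTheory CategoryTheory.Limits Opposite MonoidalCategory

universe w v u

namespace Pool.Agent.Lib.MP_ae0f86_nt

attribute [local instance] CategoryTheory.Abelian.hasFiniteBiproducts

/-- Constant maps induce zero in degrees `≥ 1`. -/
private theorem p_sumemb_const {k : Type} [Field k] {A : Type u} [Category.{v} A] [Abelian A]
    [MonoidalCategory A] (T : CohTheory k A) {ι ι' : Type} [Finite ι] [Finite ι']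
    {X : Set (ι → k)} {X' : Set (ι' → k)} (hX : IsAlg X) (hX' : IsAlg X')
    (g : AffPair.abs hX ⟶ AffPair.abs hX') (x' : ι' → k) (hx' : x' ∈ X')
    (hg : ∀ x, (AffPair.Hom.toFun g x).1 = x') (i : ℤ) (hi : 1 ≤ i) :
    (T.h i).map g.op = 0 := by
  let pt : AffPair k := AffPair.abs (ι := Empty) (X := Set.univ) IsAlg.univ
  let a : AffPair.abs hX ⟶ pt :=
    ⟨fun _ => ⟨fun e => e.elim, trivial⟩, ⟨fun e => e.elim, fun _ j => j.elim⟩,
      fun _ h => h.elim⟩
  let b : pt ⟶ AffPair.abs hX' :=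
    ⟨fun _ => ⟨x', hx'⟩, ⟨fun j => MvPolynomial.C (x' j), fun x j => by simp⟩,
      fun _ h => h.elim⟩
  have e : g = a ≫ b := AffPair.hom_ext _ _ fun x => hg x
  have hz : IsZero ((T.h i).obj (op pt)) := by
    refine T.bounded i pt (Or.inr ?_)
    have h0 : Nat.card pt.ι = 0 := by
      show Nat.card Empty = 0
      simp
    rw [h0]
    simp only [Nat.cast_zero, mul_zero]
    omega
  rw [e, op_comp, Functor.map_comp, hz.eq_of_src ((T.h i).map a.op) 0, comp_zero]

theorem p_sumemb {k : Type} [Field k] {A : Type u} [Category.{v} A] [Abelian A]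
    [MonoidalCategory A] (T : CohTheory k A) : S_sumemb T := by
  rintro ι ι' _ _ X X' hX hX' Y hY rfl ⟨x0, hx0⟩ ⟨x0', hx0'⟩ i hi
  let pr1 : AffPair.abs hY ⟶ AffPair.abs hX :=
    ⟨fun z => ⟨z.1 ∘ Sum.inl, z.2.1⟩, ⟨fun j => MvPolynomial.X (Sum.inl j), fun x j => by simp⟩,
      fun _ h => h.elim⟩
  let pr2 : AffPair.abs hY ⟶ AffPair.abs hX' :=
    ⟨fun z => ⟨z.1 ∘ Sum.inr, z.2.2⟩, ⟨fun j => MvPolynomial.X (Sum.inr j), fun x j => by simp⟩,
      fun _ h => h.elim⟩
  let j1 : AffPair.abs hX ⟶ AffPair.abs hY :=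
    ⟨fun x => ⟨Sum.elim x.1 x0', by
        show Sum.elim x.1 x0' ∘ Sum.inl ∈ X ∧ Sum.elim x.1 x0' ∘ Sum.inr ∈ X'
        rw [Sum.elim_comp_inl, Sum.elim_comp_inr]
        exact ⟨x.2, hx0'⟩⟩,
      ⟨fun j => j.elim (fun a => MvPolynomial.X a) (fun b => MvPolynomial.C (x0' b)), by
        intro x j
        rcases j with j | j <;> simp⟩,
      fun _ h => h.elim⟩
  let j2 : AffPair.abs hX' ⟶ AffPair.abs hY :=
    ⟨fun x => ⟨Sum.elim x0 x.1, by
        show Sum.elim x0 x.1 ∘ Sum.inl ∈ X ∧ Sum.elim x0 x.1 ∘ Sum.inr ∈ X'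
        rw [Sum.elim_comp_inl, Sum.elim_comp_inr]
        exact ⟨hx0, x.2⟩⟩,
      ⟨fun j => j.elim (fun a => MvPolynomial.C (x0 a)) (fun b => MvPolynomial.X b), by
        intro x j
        rcases j with j | j <;> simp⟩,
      fun _ h => h.elim⟩
  have e11 : (T.h i).map pr1.op ≫ (T.h i).map j1.op = 𝟙 _ := by
    rw [← Functor.map_comp, ← op_comp]
    have : j1 ≫ pr1 = 𝟙 _ := AffPair.hom_ext _ _ fun x => funext fun _ => rfl
    rw [this, op_id, CategoryTheory.Functor.map_id]
  have e22 : (T.h i).map pr2.op ≫ (T.h i).map j2.op = 𝟙 _ := by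
    rw [← Functor.map_comp, ← op_comp]
    have : j2 ≫ pr2 = 𝟙 _ := AffPair.hom_ext _ _ fun x => funext fun _ => rfl
    rw [this, op_id, CategoryTheory.Functor.map_id]
  have e12 : (T.h i).map pr1.op ≫ (T.h i).map j2.op = 0 := by
    rw [← Functor.map_comp, ← op_comp]
    exact p_sumemb_const T hX' hX _ x0 hx0 (fun x => funext fun _ => rfl) i hi
  have e21 : (T.h i).map pr2.op ≫ (T.h i).map j1.op = 0 := by
    rw [← Functor.map_comp, ← op_comp]
    exact p_sumemb_const T hX hX' _ x0' hx0' (fun x => funext fun _ => rfl) i hi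
  refine ⟨biprod.desc ((T.h i).map pr1.op) ((T.h i).map pr2.op), ?_⟩
  have h : biprod.desc ((T.h i).map pr1.op) ((T.h i).map pr2.op) ≫
      biprod.lift ((T.h i).map j1.op) ((T.h i).map j2.op) = 𝟙 _ := by
    apply biprod.hom_ext' <;> apply biprod.hom_ext
    · simp only [biprod.inl_desc_assoc, Category.assoc, biprod.lift_fst, Category.comp_id,
        biprod.inl_fst, e11]
    · simp only [biprod.inl_desc_assoc, Category.assoc, biprod.lift_snd, Category.comp_id,
        biprod.inl_snd, e12]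
    · simp only [biprod.inr_desc_assoc, Category.assoc, biprod.lift_fst, Category.comp_id,
        biprod.inr_fst, e21]
    · simp only [biprod.inr_desc_assoc, Category.assoc, biprod.lift_snd, Category.comp_id,
        biprod.inr_snd, e22]
  have : Mono (biprod.desc ((T.h i).map pr1.op) ((T.h i).map pr2.op) ≫
      biprod.lift ((T.h i).map j1.op) ((T.h i).map j2.op)) := by
    rw [h]; infer_instance
  exact mono_of_mono _ (biprod.lift ((T.h i).map j1.op) ((T.h i).map j2.op))

end Pool.Agent.Lib.MP_ae0f86_nt
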