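import Pool.Agent.Lib.MP_ae0f86_nt.StmT

set_option autoImplicit false

universe w v u

namespace Pool.Agent.Lib.MP_ae0f86_nt

theorem p_surjdim : S_surjdim.{w} := by
  intro R _ _ I htop hI hdim
  by_contra hne
  obtain ⟨x, hx, hx0⟩ := Submodule.exists_mem_ne_zero_of_ne_bot hne
  have h1 := ringKrullDim_quotient_succ_le_of_nonZeroDivisor (mem_nonZeroDivisors_of_ne_zero hx0)
  have h2 : ringKrullDim (R ⧸ I) ≤ ringKrullDim (R ⧸ Ideal.span {x}) :=
    ringKrullDim_le_of_surjective
      (Ideal.Quotient.factor (S := Ideal.span {x}) (T := I)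
        ((Ideal.span_singleton_le_iff_mem I).2 hx))
      (Ideal.Quotient.factor_surjective _)
  rw [hdim] at h2
  have h3 : ringKrullDim R + 1 ≤ ringKrullDim R := le_trans (add_le_add_left h2 1) h1
  have h4 : ringKrullDim R ≠ ⊥ := by
    intro h
    have := ringKrullDim_nonneg_of_nontrivial (R := R)
    rw [h] at this
    exact absurd this (by simp)
  generalize ringKrullDim R = d at h3 h4 htop
  induction d with
  | bot => exact h4 rfl
  | coe d =>
    induction d with
    | top => exact htop rfl
    | coe d =>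
      have : ((d + 1 : ℕ∞) : WithBot ℕ∞) ≤ ((d : ℕ∞) : WithBot ℕ∞) := by simpa using h3
      have h5 := WithBot.coe_le_coe.1 this
      have h6 : ((d + 1 : ℕ) : ℕ∞) ≤ (d : ℕ∞) := by simpa using h5
      have h7 := Nat.cast_le.1 h6
      omega

end Pool.Agent.Lib.MP_ae0f86_nt
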