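import Pool.Agent.Lib.MP_ae0f86_nt.StmU

/-! [GP suspiso] -/

open CategoryTheory CategoryTheory.Limits Opposite MonoidalCategory

universe w v u

namespace Pool.Agent.Lib.MP_ae0f86_nt

/-- `X × {a}`. -/
private def p_suspiso_S {k : Type} [Field k] {ι : Type} (X : Set (ι → k)) (a : k) :
    Set (ι ⊕ Unit → k) := {z | z ∘ Sum.inl ∈ X ∧ z (Sum.inr ()) = a}

private theorem p_suspiso_alg {k : Type} [Field k] {ι : Type} {X : Set (ι → k)} (hX : IsAlg X)
    (a : k) : IsAlg (p_suspiso_S X a) := by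
  have h := (hX.cyl (κ := Unit)).inter
    (IsAlg.zero (MvPolynomial.X (Sum.inr ()) - MvPolynomial.C a : MvPolynomial (ι ⊕ Unit) k))
  convert h using 1
  ext z
  simp [p_suspiso_S, sub_eq_zero]

private theorem p_suspiso_ext {k : Type} [Field k] {ι : Type} {X : Set (ι → k)} {a : k}
    {z : ι ⊕ Unit → k} (hz : z ∈ p_suspiso_S X a) :
    Sum.elim (z ∘ Sum.inl) (fun _ : Unit => a) = z := by
  funext j
  rcases j with j | j
  · rfl
  · exact hz.2.symm

/-- The map `x ↦ (x, a)`. -/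
private def p_suspiso_f {k : Type} [Field k] {ι : Type} [Finite ι] {X : Set (ι → k)}
    (hX : IsAlg X) (a : k) : AffPair.abs hX ⟶ AffPair.abs (p_suspiso_alg hX a) :=
  ⟨fun x => ⟨Sum.elim x.1 (fun _ => a), by
      show Sum.elim x.1 _ ∘ Sum.inl ∈ X
      rw [Sum.elim_comp_inl]
      exact x.2, rfl⟩,
    ⟨fun j => j.elim (fun i => MvPolynomial.X i) (fun _ => MvPolynomial.C a), by
      intro x j
      rcases j with i | l <;> simp⟩,
    fun _ hx => hx.elim⟩

private theorem p_suspiso_iso {k : Type} [Field k] {ι : Type} [Finite ι] {X : Set (ι → k)}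
    (hX : IsAlg X) (a : k) : IsIso (p_suspiso_f hX a) := by
  let g : AffPair.abs (p_suspiso_alg hX a) ⟶ AffPair.abs hX :=
    ⟨fun z => ⟨z.1 ∘ Sum.inl, z.2.1⟩, ⟨fun j => MvPolynomial.X (Sum.inl j), fun x j => by simp⟩,
      fun _ hx => hx.elim⟩
  exact isIso_of_inv _ g (fun x => funext fun _ => rfl) (fun z => p_suspiso_ext z.2)

theorem p_suspiso {k : Type} [Field k] {A : Type u} [Category.{v} A] [Abelian A]
    [MonoidalCategory A] (T : CohTheory k A) (h1 : S_exc T) (h2 : S_sect T) (_h3 : S_zero T) :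
    S_suspiso T := by
  intro ι _ X hX Z Y hZ hY hYZ hZe hYe i
  have h01 : (0 : k) ≠ 1 := zero_ne_one
  have hS0 : p_suspiso_S X 0 ⊆ Y := by
    intro z hz
    rw [hYe]
    exact ⟨hz.1, Or.inl hz.2⟩
  have hS1 : p_suspiso_S X 1 ⊆ Y := by
    intro z hz
    rw [hYe]
    exact ⟨hz.1, Or.inr hz.2⟩
  have hSZ : p_suspiso_S X (0 : k) ⊆ Z := hS0.trans hYZ
  -- `(X × 0, ∅) → (X × A^1, ∅)` is a quasi-isomorphism
  let t' : AffTriple k := ⟨ι ⊕ Unit, inferInstance, Z, p_suspiso_S X 0, ∅, hZ,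
    p_suspiso_alg hX 0, IsAlg.empty, hSZ, Set.empty_subset _⟩
  have hq0 : T.QI t'.incl := by
    have hs := (h2 (AffPair.abs hX) Unit (fun _ => 0) (fun _ => 0)).1
    let r : (AffPair.abs hX).cyl Unit ⟶ t'.XZ :=
      ⟨fun z => ⟨z.1, by
          have := z.2
          show z.1 ∈ Z
          rw [hZe]
          exact this⟩, ⟨fun j => MvPolynomial.X j, fun x j => by simp⟩, fun _ h => h.elim⟩
    let r' : t'.XZ ⟶ (AffPair.abs hX).cyl Unit :=
      ⟨fun z => ⟨z.1, by
          have h : z.1 ∈ Z := z.2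
          rw [hZe] at h
          exact h⟩, ⟨fun j => MvPolynomial.X j, fun x j => by simp⟩, fun _ h => h.elim⟩
    have hr : IsIso r := isIso_of_inv r r' (fun x => rfl) (fun x => rfl)
    have hf := p_suspiso_iso hX (0 : k)
    have e : p_suspiso_f hX 0 ≫ t'.incl = (AffPair.abs hX).sect Unit (fun _ => 0) ≫ r :=
      AffPair.hom_ext _ _ fun x => rfl
    have h := hs.comp (CohTheory.QI.of_isIso T r)
    rw [← e] at h
    exact CohTheory.QI.of_comp_left (CohTheory.QI.of_isIso T _) h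
  -- so `h^*(X × A^1, X × 0) = 0`
  have hzero : ∀ j : ℤ, IsZero ((T.h j).obj (op t'.XY)) := by
    have hz1 : ∀ j : ℤ, IsZero ((T.h (j + 1)).obj (op t'.XY)) := by
      intro j
      obtain ⟨w1, e1⟩ := T.exact_YZ j t'
      obtain ⟨w2, e2⟩ := T.exact_XY j t'
      obtain ⟨w3, -⟩ := T.exact_XZ (j + 1) t'
      have hi1 := hq0 j
      have hi2 := hq0 (j + 1)
      have hδ : T.δ j t' = 0 := by
        rw [← cancel_epi ((T.h j).map t'.incl.op), comp_zero]
        exact w1
      have hm : Mono ((T.h (j + 1)).map t'.quot.op) := by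
        have := e2.mono_g hδ
        exact this
      have h0 : (T.h (j + 1)).map t'.quot.op = 0 := by
        rw [← cancel_mono ((T.h (j + 1)).map t'.incl.op), zero_comp]
        exact w3
      rw [h0] at hm
      rw [IsZero.iff_id_eq_zero]
      rw [← cancel_mono (0 : (T.h (j + 1)).obj (op t'.XY) ⟶ (T.h (j + 1)).obj (op t'.XZ))]
      simp
    intro j
    have h := hz1 (j - 1)
    rwa [sub_add_cancel] at h
  -- the triple `X × 0 ⊆ Y ⊆ Z`
  let t : AffTriple k := ⟨ι ⊕ Unit, inferInstance, Z, Y, p_suspiso_S X 0, hZ, hY,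
    p_suspiso_alg hX 0, hYZ, hS0⟩
  have hδ : IsIso (T.δ i t) := by
    obtain ⟨w1, e1⟩ := T.exact_YZ i t
    obtain ⟨w2, e2⟩ := T.exact_XY i t
    have hm : Mono (T.δ i t) := by
      have := e1.mono_g ((hzero i).eq_of_src _ _)
      exact this
    have he : Epi (T.δ i t) := by
      have := e2.epi_f ((hzero (i + 1)).eq_of_tgt _ _)
      exact this
    exact isIso_of_mono_of_epi _
  -- excision
  have hY1 : Y = p_suspiso_S X 1 ∪ p_suspiso_S X 0 := by
    rw [hYe]
    ext z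
    constructor
    · rintro ⟨hz, h | h⟩
      · exact Or.inr ⟨hz, h⟩
      · exact Or.inl ⟨hz, h⟩
    · rintro (h | h)
      · exact ⟨h.1, Or.inr h.2⟩
      · exact ⟨h.1, Or.inl h.2⟩
  have hinter : (∅ : Set (ι ⊕ Unit → k)) = p_suspiso_S X 1 ∩ p_suspiso_S X 0 := by
    ext z
    constructor
    · exact fun h => h.elim
    · rintro ⟨ha, hb⟩
      exact h01 (hb.2.symm.trans ha.2)
  have hexc := h1 (p_suspiso_alg hX 1) IsAlg.empty (Set.empty_subset _) hY (p_suspiso_alg hX 0)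
    hS0 hS1 (Set.empty_subset _) hY1 hinter
  have hf := p_suspiso_iso hX (1 : k)
  have hi := hexc i
  exact ⟨(asIso (T.δ i t)).symm ≪≫ asIso ((T.h i).map (inc (p_suspiso_alg hX 1) IsAlg.empty
    (Set.empty_subset _) hY (p_suspiso_alg hX 0) hS0 hS1 (Set.empty_subset _)).op) ≪≫
    asIso ((T.h i).map (p_suspiso_f hX 1).op)⟩

end Pool.Agent.Lib.MP_ae0f86_nt
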