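import Pool.Agent.Lib.MP_ae0f86_nt.StmU

/-! [GP suspsnc] -/

open CategoryTheory MvPolynomial Opposite MonoidalCategory

universe w v u

namespace Pool.Agent.Lib.MP_ae0f86_nt

private theorem p_suspsnc_inl {k : Type} [Field k] {ι κ : Type} (z : ι ⊕ κ → k)
    (f : MvPolynomial ι k) (i : ι) :
    grad z (rename Sum.inl f) (Sum.inl i) = grad (z ∘ Sum.inl) f i := by
  unfold grad
  rw [pderiv_rename Sum.inl_injective, eval_rename]

private theorem p_suspsnc_inr {k : Type} [Field k] {ι κ : Type} (z : ι ⊕ κ → k)
    (f : MvPolynomial ι k) (j : κ) : grad z (rename Sum.inl f) (Sum.inr j) = 0 := by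
  classical
  unfold grad
  rw [pderiv_eq_zero_of_notMem_vars, map_zero]
  intro h
  have h1 := vars_rename Sum.inl f h
  rw [Finset.mem_image] at h1
  obtain ⟨a, _, ha⟩ := h1
  exact absurd ha (by simp)

/-- The sections `t` and `t - 1`. -/
private noncomputable def p_suspsnc_s (k : Type) [Field k] (ι : Type) (j : Fin 2) :
    MvPolynomial (ι ⊕ Unit) k :=
  if j = 0 then MvPolynomial.X (Sum.inr ()) else MvPolynomial.X (Sum.inr ()) - 1

private theorem p_suspsnc_grad_inl {k : Type} [Field k] {ι : Type} (z : ι ⊕ Unit → k)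
    (j : Fin 2) (i : ι) : grad z (p_suspsnc_s k ι j) (Sum.inl i) = 0 := by
  unfold grad p_suspsnc_s
  split_ifs <;> simp

private theorem p_suspsnc_grad_inr {k : Type} [Field k] {ι : Type} (z : ι ⊕ Unit → k)
    (j : Fin 2) : grad z (p_suspsnc_s k ι j) (Sum.inr ()) = 1 := by
  unfold grad p_suspsnc_s
  split_ifs <;> simp

private theorem p_suspsnc_eval {k : Type} [Field k] {ι : Type} (z : ι ⊕ Unit → k)
    (j : Fin 2) : eval z (p_suspsnc_s k ι j) = 0 ↔
      (z (Sum.inr ()) = if j = 0 then 0 else 1) := by
  unfold p_suspsnc_s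
  split_ifs <;> simp [sub_eq_zero]

theorem p_suspsnc {k : Type} [Field k] {A : Type u} [Category.{v} A] [Abelian A]
    [MonoidalCategory A] (T : CohTheory k A) (_h1 : S_cutcard k) : S_suspsnc T := by
  classical
  rintro ι _ c X hX Z Y hZ hY h rfl rfl
  have hsub : ∀ (z : ι ⊕ Unit → k) (j j' : {j : Fin 2 // ∀ _ : Fin 1,
      eval z (p_suspsnc_s k ι j) = 0}), j = j' := by
    intro z j j'
    have e1 := (p_suspsnc_eval z j.1).1 (j.2 0)
    have e2 := (p_suspsnc_eval z j'.1).1 (j'.2 0)
    obtain ⟨j, hj⟩ := j
    obtain ⟨j', hj'⟩ := j'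
    apply Subtype.ext
    dsimp only at e1 e2 ⊢
    rw [e1] at e2
    have h01 : (0 : k) ≠ 1 := zero_ne_one
    fin_cases j <;> fin_cases j'
    · rfl
    · simp at e2
    · simp at e2
    · rfl
  let P : SNC k :=
    { ι := ι ⊕ Unit
      fin := inferInstance
      X := {z | z ∘ Sum.inl ∈ X}
      algX := hZ
      c := c
      J := Fin 2
      finJ := inferInstance
      m := fun _ => 1
      e := fun _ _ _ => 1
      s := fun j _ => p_suspsnc_s k ι j
      sec := fun j => ⟨fun x _ => by simp, fun x _ a b c d => by simp, fun x _ a => by simp⟩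
      cut := by
        intro z hz
        refine ⟨fun _ => 0, fun _ => by simp, ?_⟩
        obtain ⟨p, s, hs, hp, hli⟩ := hX.2 _ hz
        refine ⟨fun a => rename Sum.inl (p a), rename Sum.inl s, by rwa [eval_rename], ?_, ?_⟩
        · intro w hw
          rw [eval_rename] at hw
          simp only [eval_rename]
          exact hp _ hw
        · rw [Fintype.linearIndependent_iff] at hli
          rw [Fintype.linearIndependent_iff]
          intro g hg
          rw [Fintype.sum_sum_type] at hg
          have hrest : ∀ a, g (Sum.inl a) = 0 := by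
            have h3 : ∑ i : Fin c ⊕ Empty, (Sum.elim (fun a => g (Sum.inl a))
                (fun e : Empty => e.elim) i) • (Sum.elim (fun a => grad (z ∘ Sum.inl) (p a))
                (fun j : Empty => grad (z ∘ Sum.inl) (j.elim : MvPolynomial ι k)) i) = 0 := by
              funext i
              have h2 := congrFun hg (Sum.inl i)
              rw [Fintype.sum_sum_type]
              simp only [Sum.elim_inl, Sum.elim_inr, Finset.univ_eq_empty, Finset.sum_empty,
                add_zero, Pi.add_apply, Finset.sum_apply, Pi.smul_apply, smul_eq_mul,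
                p_suspsnc_inl, p_suspsnc_grad_inl, mul_zero, Finset.sum_const_zero,
                Pi.zero_apply] at h2 ⊢
              exact h2
            intro i
            exact hli _ h3 (Sum.inl i)
          rintro (a | j)
          · exact hrest a
          · have h2 := congrFun hg (Sum.inr ())
            simp only [Sum.elim_inl, Sum.elim_inr, Pi.add_apply, Finset.sum_apply,
              Pi.smul_apply, smul_eq_mul, p_suspsnc_inr, mul_zero, Finset.sum_const_zero,
              zero_add, p_suspsnc_grad_inr, mul_one, Pi.zero_apply] at h2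
            rw [Finset.sum_eq_single j (fun b _ hb => absurd (hsub z b j) hb)
              (fun hj => absurd (Finset.mem_univ j) hj)] at h2
            exact h2 }
  refine ⟨P, ?_, fun i => ?_⟩
  · show Nat.card (Fin 2) = 2
    simp
  · have e : P.pair = pr hZ hY h := by
      have hY' : (⋃ j, P.Y j) = {z | z ∘ Sum.inl ∈ X ∧
          (z (Sum.inr ()) = 0 ∨ z (Sum.inr ()) = 1)} := by
        ext z
        rw [Set.mem_iUnion]
        constructor
        · rintro ⟨j, hz, hj⟩
          refine ⟨hz, ?_⟩
          have e1 := (p_suspsnc_eval z j).1 (hj 0)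
          by_cases h0 : j = 0
          · left
            rwa [if_pos h0] at e1
          · right
            rwa [if_neg h0] at e1
        · rintro ⟨hz, h0 | h0⟩
          · exact ⟨(0 : Fin 2), hz, fun _ => (p_suspsnc_eval z 0).2 (by simp [h0])⟩
          · exact ⟨(1 : Fin 2), hz, fun _ => (p_suspsnc_eval z 1).2 (by simp [h0])⟩
      show (⟨ι ⊕ Unit, _, {z | z ∘ Sum.inl ∈ X}, ⋃ j, P.Y j, _, _, _⟩ : AffPair k) = _
      congr 1
    rw [e]
    exact ⟨Iso.refl _⟩

end Pool.Agent.Lib.MP_ae0f86_nt
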