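import Pool.Agent.Lib.MP_ae0f86_nt.StmA

open CategoryTheory CategoryTheory.Limits Opposite MonoidalCategory

universe v u

namespace Pool.Agent.Lib.MP_ae0f86_nt

section

variable {A : Type u} [Category.{v} A] [MonoidalCategory A]

theorem p_tensmono_unit {W : A} (φ : W ≅ 𝟙_ A) {X Y : A} (f : X ⟶ Y) :
    f ▷ W = (X ◁ φ.hom ≫ (ρ_ X).hom) ≫ f ≫ ((ρ_ Y).inv ≫ Y ◁ φ.inv) := by
  have h1 : f ▷ W ≫ Y ◁ φ.hom = X ◁ φ.hom ≫ f ▷ 𝟙_ A := (whisker_exchange f φ.hom).symm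
  have h2 : f ▷ 𝟙_ A ≫ (ρ_ Y).hom = (ρ_ X).hom ≫ f := rightUnitor_naturality f
  have h3 : f ▷ W ≫ (Y ◁ φ.hom ≫ (ρ_ Y).hom) = (X ◁ φ.hom ≫ (ρ_ X).hom) ≫ f := by
    rw [← Category.assoc, h1, Category.assoc, h2, Category.assoc]
  have h4 : (Y ◁ φ.hom ≫ (ρ_ Y).hom) ≫ ((ρ_ Y).inv ≫ Y ◁ φ.inv) = 𝟙 _ := by
    rw [Category.assoc, Iso.hom_inv_id_assoc, ← whiskerLeft_comp, φ.hom_inv_id, whiskerLeft_id]
  calc f ▷ W = f ▷ W ≫ (Y ◁ φ.hom ≫ (ρ_ Y).hom) ≫ ((ρ_ Y).inv ≫ Y ◁ φ.inv) := by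
        rw [h4, Category.comp_id]
    _ = _ := by rw [← Category.assoc, h3, Category.assoc]

theorem p_tensmono_faith {W W' : A} (φ : W ⊗ W' ≅ 𝟙_ A) {X Y : A} (g g' : X ⟶ Y)
    (h : g ▷ W = g' ▷ W) : g = g' := by
  have h1 : g ▷ (W ⊗ W') = g' ▷ (W ⊗ W') := by
    rw [whiskerRight_tensor, whiskerRight_tensor, h]
  rw [p_tensmono_unit φ g, p_tensmono_unit φ g', cancel_epi, cancel_mono] at h1
  exact h1

theorem p_tensmono_mono2 {L t : A} (φ : L ⊗ t ≅ 𝟙_ A) {X Y : A} (f : X ⟶ Y) [Mono f] :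
    Mono (f ▷ L ▷ t) := by
  have h1 : f ▷ L ▷ t = (α_ X L t).hom ≫ f ▷ (L ⊗ t) ≫ (α_ Y L t).inv := by
    rw [whiskerRight_tensor]
    simp
  rw [h1, p_tensmono_unit φ f]
  infer_instance

theorem p_tensmono_epi2 {L t : A} (φ : L ⊗ t ≅ 𝟙_ A) {X Y : A} (f : X ⟶ Y) [Epi f] :
    Epi (f ▷ L ▷ t) := by
  have h1 : f ▷ L ▷ t = (α_ X L t).hom ≫ f ▷ (L ⊗ t) ≫ (α_ Y L t).inv := by
    rw [whiskerRight_tensor]
    simp
  rw [h1, p_tensmono_unit φ f]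
  infer_instance

theorem p_tensmono_mono {L t : A} (φ : L ⊗ t ≅ 𝟙_ A) (ψ : t ⊗ L ≅ 𝟙_ A) {X Y : A} (f : X ⟶ Y)
    (hf : Mono f) : Mono (f ▷ L) := by
  constructor
  intro Z g g' h
  refine p_tensmono_faith ψ g g' ?_
  have h2 : (g ▷ t) ≫ (f ▷ L ▷ t) = (g' ▷ t) ≫ (f ▷ L ▷ t) := by
    rw [← comp_whiskerRight, h, comp_whiskerRight]
  have := p_tensmono_mono2 φ f
  exact (cancel_mono _).1 h2

theorem p_tensmono_epi {L t : A} (φ : L ⊗ t ≅ 𝟙_ A) (ψ : t ⊗ L ≅ 𝟙_ A) {X Y : A} (f : X ⟶ Y)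
    (hf : Epi f) : Epi (f ▷ L) := by
  constructor
  intro Z g g' h
  refine p_tensmono_faith ψ g g' ?_
  have h2 : (f ▷ L ▷ t) ≫ (g ▷ t) = (f ▷ L ▷ t) ≫ (g' ▷ t) := by
    rw [← comp_whiskerRight, h, comp_whiskerRight]
  have := p_tensmono_epi2 φ f
  exact (cancel_epi _).1 h2

end

theorem p_tensmono {k : Type} [Field k] {A : Type u} [Category.{v} A] [Abelian A]
    [MonoidalCategory A] [SymmetricCategory A] (T : CohTheory k A) : S_tensmono T := by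
  intro X Y f n
  have ψ : T.tate ⊗ T.L ≅ 𝟙_ A := (β_ T.tate T.L) ≪≫ T.tateIso
  induction n with
  | zero =>
    refine ⟨fun hf => ?_, fun hf => ?_⟩
    · show Mono (f ▷ 𝟙_ A)
      rw [p_tensmono_unit (Iso.refl _) f]
      infer_instance
    · show Epi (f ▷ 𝟙_ A)
      rw [p_tensmono_unit (Iso.refl _) f]
      infer_instance
  | succ n ih =>
    refine ⟨fun hf => ?_, fun hf => ?_⟩
    · show Mono (f ▷ (tpow T.L n ⊗ T.L))
      have := p_tensmono_mono T.tateIso ψ _ (ih.1 hf)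
      rw [whiskerRight_tensor]
      infer_instance
    · show Epi (f ▷ (tpow T.L n ⊗ T.L))
      have := p_tensmono_epi T.tateIso ψ _ (ih.2 hf)
      rw [whiskerRight_tensor]
      infer_instance

end Pool.Agent.Lib.MP_ae0f86_nt
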