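import Pool.Agent.Lib.MP_ae0f86_nt.StmT
import Pool.Agent.Lib.MP_ae0f86_nt.P.Fprel

/-!
# MP_ae0f86_nt : [GP theta] logarithmic derivative
-/

open CategoryTheory CategoryTheory.Limits Opposite MonoidalCategory
open scoped TensorProduct

universe w v u

namespace Pool.Agent.Lib.MP_ae0f86_nt

noncomputable section

attribute [local instance] CategoryTheory.Abelian.hasFiniteBiproducts

variable {A : Type u} [Category.{v} A] [Abelian A] [MonoidalCategory A] [SymmetricCategory A]
  {K : Type} [Field K] (H : A ⥤ ModuleCat.{0} K) (HB : A ⥤ ModuleCat.{0} ℚ)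
  [FibreFunctor H] [FibreFunctor HB]

theorem p_theta_add_left (h2 : S_algrel (A := A)) {S : A → Prop} {N : A} (hN : S N)
    (ω ω' : H.obj N) (σ : Module.Dual ℚ (HB.obj N)) :
    asym H HB hN (ω + ω') σ = asym H HB hN ω σ + asym H HB hN ω' σ := by
  rw [← (h2 H HB S).1 hN, ← (h2 H HB S).1 hN, ← (h2 H HB S).1 hN, (p_fprel H HB S).1 hN, map_add]

theorem p_theta_smul_left (h2 : S_algrel (A := A)) {S : A → Prop} {N : A} (hN : S N)
    (a : K) (ω : H.obj N) (σ : Module.Dual ℚ (HB.obj N)) :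
    asym H HB hN (a • ω) σ = a • asym H HB hN ω σ := by
  rw [← (h2 H HB S).1 hN, ← (h2 H HB S).1 hN, (p_fprel H HB S).2.1 hN, map_smul]

theorem p_theta_add_right (h2 : S_algrel (A := A)) {S : A → Prop} {N : A} (hN : S N)
    (ω : H.obj N) (σ σ' : Module.Dual ℚ (HB.obj N)) :
    asym H HB hN ω (σ + σ') = asym H HB hN ω σ + asym H HB hN ω σ' := by
  rw [← (h2 H HB S).1 hN, ← (h2 H HB S).1 hN, ← (h2 H HB S).1 hN, (p_fprel H HB S).2.2.1 hN,
    map_add]

theorem p_theta_smul_right (h2 : S_algrel (A := A)) {S : A → Prop} {N : A} (hN : S N)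
    (q : ℚ) (ω : H.obj N) (σ : Module.Dual ℚ (HB.obj N)) :
    asym H HB hN ω (q • σ) = (q : K) • asym H HB hN ω σ := by
  rw [← (h2 H HB S).1 hN, ← (h2 H HB S).1 hN, (p_fprel H HB S).2.2.2.1 hN, map_smul]

theorem p_theta_funct (h2 : S_algrel (A := A)) {S : A → Prop} {N N' : A} (hN : S N)
    (hN' : S N') (f : N ⟶ N') (ω : H.obj N) (σ' : Module.Dual ℚ (HB.obj N')) :
    asym H HB hN ω (σ' ∘ₗ (HB.map f).hom) = asym H HB hN' ((H.map f).hom ω) σ' := by
  rw [← (h2 H HB S).1 hN, ← (h2 H HB S).1 hN', (p_fprel H HB S).2.2.2.2.1 hN hN' f]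

theorem p_theta_zero_left (h2 : S_algrel (A := A)) {S : A → Prop} {N : A} (hN : S N)
    (σ : Module.Dual ℚ (HB.obj N)) : asym H HB hN 0 σ = 0 := by
  rw [← (h2 H HB S).1 hN, (p_fprel H HB S).2.2.2.2.2.1 hN, map_zero]

/-- The functional `σ ↦ f (asym N ω σ)`. -/
def p_theta_pair [CharZero K] (h2 : S_algrel (A := A)) {S : A → Prop}
    (f : PerAlg H HB S →ₗ[K] K) {N : A} (hN : S N) (ω : H.obj N) :
    Module.Dual ℚ (HB.obj N) →ₗ[ℚ] K where
  toFun σ := f (asym H HB hN ω σ)
  map_add' σ σ' := by rw [p_theta_add_right H HB h2 hN, map_add]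
  map_smul' q σ := by
    rw [p_theta_smul_right H HB h2 hN, map_smul, smul_eq_mul, RingHom.id_apply, Rat.smul_def]

theorem p_theta_pair_apply [CharZero K] (h2 : S_algrel (A := A)) {S : A → Prop}
    (f : PerAlg H HB S →ₗ[K] K) {N : A} (hN : S N) (ω : H.obj N)
    (σ : Module.Dual ℚ (HB.obj N)) : p_theta_pair H HB h2 f hN ω σ = f (asym H HB hN ω σ) := rfl

omit [FibreFunctor H] in
theorem p_theta_ext {V : Type*} [AddCommGroup V] [Module ℚ V] {M N : A}
    (g g' : Module.Dual ℚ (HB.obj (M ⊗ N)) →ₗ[ℚ] V)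
    (h : ∀ σ τ, g (tdual HB σ τ) = g' (tdual HB σ τ)) : g = g' := by
  have hM : Module.Finite ℚ (HB.obj M) := FibreFunctor.finite M
  have hN : Module.Finite ℚ (HB.obj N) := FibreFunctor.finite N
  ext φ
  obtain ⟨t, ht⟩ : ∃ t, φ = (TensorProduct.dualDistribEquiv ℚ (HB.obj M) (HB.obj N) t) ∘ₗ
      (LinearEquiv.ofBijective _ (FibreFunctor.bij (H := HB) M N)).symm.toLinearMap := by
    refine ⟨(TensorProduct.dualDistribEquiv ℚ (HB.obj M) (HB.obj N)).symm
      (φ ∘ₗ (LinearEquiv.ofBijective _ (FibreFunctor.bij (H := HB) M N)).toLinearMap), ?_⟩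
    rw [LinearEquiv.apply_symm_apply]
    ext z
    simp
  rw [ht]
  clear ht
  induction t using TensorProduct.induction_on with
  | zero => simp
  | tmul σ τ => exact h σ τ
  | add a b ha hb =>
    rw [map_add, LinearMap.add_comp, map_add, map_add, ha, hb]

theorem p_theta [RigidCategory A] [CharZero K] (h1 : S_pointbij H HB)
    (h2 : S_algrel (A := A)) : S_theta H HB := by
  classical
  intro S hS x D hD
  have hex : ∀ {N : A} (hN : S N) (ω : H.obj N), ∃! ω' : H.obj N, ∀ σ,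
      x (asym H HB hN ω' σ) = D (asym H HB hN ω σ) := by
    intro N hN ω
    exact h1 S hS x hN (p_theta_pair H HB h2 D hN ω)
  have huniq : ∀ {N : A} (hN : S N) (ω ω1 ω2 : H.obj N),
      (∀ σ, x (asym H HB hN ω1 σ) = D (asym H HB hN ω σ)) →
      (∀ σ, x (asym H HB hN ω2 σ) = D (asym H HB hN ω σ)) → ω1 = ω2 :=
    fun hN ω ω1 ω2 e1 e2 => (hex hN ω).unique e1 e2
  let θ0 : ∀ {N : A}, S N → H.obj N → H.obj N := fun hN ω => (hex hN ω).choose
  have hθ0 : ∀ {N : A} (hN : S N) (ω : H.obj N) σ,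
      x (asym H HB hN (θ0 hN ω) σ) = D (asym H HB hN ω σ) :=
    fun hN ω => (hex hN ω).choose_spec.1
  let θ : ∀ {N : A}, S N → (H.obj N →ₗ[K] H.obj N) := fun {N} hN =>
    { toFun := θ0 hN
      map_add' := by
        intro ω ω'
        refine huniq hN (ω + ω') _ _ (hθ0 hN _) ?_
        intro σ
        rw [p_theta_add_left H HB h2 hN, map_add, hθ0, hθ0, ← map_add,
          ← p_theta_add_left H HB h2 hN]
      map_smul' := by
        intro a ω
        refine huniq hN (a • ω) _ _ (hθ0 hN _) ?_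
        intro σ
        rw [RingHom.id_apply, p_theta_smul_left H HB h2 hN, map_smul, hθ0, ← map_smul,
          ← p_theta_smul_left H HB h2 hN] }
  have hθ : ∀ {N : A} (hN : S N) (ω : H.obj N) σ,
      x (asym H HB hN (θ hN ω) σ) = D (asym H HB hN ω σ) := fun hN ω σ => hθ0 hN ω σ
  refine ⟨θ, fun hN ω σ => (hθ hN ω σ).symm, ?_, ?_, ?_⟩
  · intro N N' hN hN' f ω
    refine huniq hN' ((H.map f).hom ω) _ _ ?_ (hθ hN' _)
    intro σ
    rw [← p_theta_funct H HB h2 hN hN', hθ, p_theta_funct H HB h2 hN hN']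
  · intro M N hM hN hMN ω η
    refine huniq hMN (FibreFunctor.mul M N ω η) _ _ (hθ hMN _) ?_
    have key : p_theta_pair H HB h2 x.toLinearMap hMN
        (FibreFunctor.mul M N (θ hM ω) η + FibreFunctor.mul M N ω (θ hN η)) =
        p_theta_pair H HB h2 D hMN (FibreFunctor.mul M N ω η) := by
      apply p_theta_ext
      intro σ τ
      rw [p_theta_pair_apply, p_theta_pair_apply, p_theta_add_left H HB h2 hMN,
        ← (h2 H HB S).2.1 hM hN hMN, ← (h2 H HB S).2.1 hM hN hMN,
        ← (h2 H HB S).2.1 hM hN hMN, hD, AlgHom.toLinearMap_apply, map_add, map_mul, map_mul,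
        hθ, hθ]
      ring
    intro φ
    exact LinearMap.congr_fun key φ
  · intro hS1
    refine huniq hS1 FibreFunctor.one _ _ (hθ hS1 _) ?_
    intro φ
    have hc : coord HB (FibreFunctor.one (H := HB)) = 1 := by
      rw [coord, LinearEquiv.symm_apply_eq, LinearEquiv.ofBijective_apply,
        LinearMap.toSpanSingleton_apply, one_smul]
    have hφ : φ = (φ FibreFunctor.one) • (coord HB).toLinearMap := by
      ext z
      obtain ⟨a, ha⟩ := (FibreFunctor.one_bij (H := HB)).2 z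
      simp only at ha
      rw [← ha, map_smul, map_smul, LinearMap.smul_apply, LinearEquiv.coe_coe, hc]
      simp [mul_comm]
    have h11 : asym H HB hS1 FibreFunctor.one (coord HB).toLinearMap = 1 :=
      (h2 H HB S).2.2.1 hS1 _ hc
    have hD1 : D 1 = 0 := by
      have := hD 1 1
      rw [mul_one, map_one x, one_mul] at this
      exact left_eq_add.mp this
    rw [p_theta_zero_left H HB h2, map_zero, hφ, p_theta_smul_right H HB h2, h11, map_smul, hD1,
      smul_zero]

end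

end Pool.Agent.Lib.MP_ae0f86_nt
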