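import Pool.Agent.Lib.MP_ae0f86_nt.StmT

/-!
# MP_ae0f86_nt : transcendence degrees over `ℚ` and over `QBar`
-/

universe w v u

open CategoryTheory CategoryTheory.Limits Opposite MonoidalCategory

namespace Pool.Agent.Lib.MP_ae0f86_nt

open scoped IntermediateField.algebraAdjoinAdjoin in
theorem p_trdeg_adjoin (P : Set ℂ) :
    Algebra.trdeg ℚ (Algebra.adjoin ℚ P) = Algebra.trdeg ℚ (IntermediateField.adjoin ℚ P) := by
  rw [← trdeg_add_eq ℚ (Algebra.adjoin ℚ P) (A := IntermediateField.adjoin ℚ P),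
    trdeg_eq_zero (R := Algebra.adjoin ℚ P) (A := IntermediateField.adjoin ℚ P), add_zero]

open scoped IntermediateField.algebraAdjoinAdjoin in
theorem p_trdeg_alg (P : Set ℂ) (z : ℂ) (h : IsAlgebraic (IntermediateField.adjoin ℚ P) z) :
    IsAlgebraic (Algebra.adjoin ℚ P) z :=
  (IsFractionRing.isAlgebraic_iff (Algebra.adjoin ℚ P) (IntermediateField.adjoin ℚ P) ℂ).2 h

theorem p_trdeg : S_trdeg := by
  intro P C hPC halg
  have i1 : Algebra.IsAlgebraic ℚ QBar := algebraicClosure.isAlgebraic ℚ ℂ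
  have i2 : FaithfulSMul QBar C :=
    (faithfulSMul_iff_algebraMap_injective QBar C).2 (algebraMap QBar C).injective
  have h1 : Algebra.trdeg ℚ QBar + Algebra.trdeg QBar C = Algebra.trdeg ℚ C :=
    trdeg_add_eq ℚ QBar (A := C)
  have h2 : Algebra.trdeg ℚ QBar = 0 := trdeg_eq_zero
  rw [h2, zero_add] at h1
  rw [h1, ← p_trdeg_adjoin P]
  have hle : Algebra.adjoin ℚ P ≤ C.restrictScalars ℚ := Algebra.adjoin_le hPC
  let alg : Algebra (Algebra.adjoin ℚ P) C := (Subalgebra.inclusion hle).toRingHom.toAlgebra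
  have hcoe : ∀ x : Algebra.adjoin ℚ P, ((algebraMap (Algebra.adjoin ℚ P) C x : C) : ℂ) = x :=
    fun _ => rfl
  have t1 : IsScalarTower ℚ (Algebra.adjoin ℚ P) C :=
    IsScalarTower.of_algebraMap_eq fun x => Subtype.ext rfl
  have t2 : IsScalarTower (Algebra.adjoin ℚ P) C ℂ :=
    IsScalarTower.of_algebraMap_eq fun x => rfl
  have f1 : FaithfulSMul (Algebra.adjoin ℚ P) C := by
    rw [faithfulSMul_iff_algebraMap_injective]
    intro x y hxy
    apply Subtype.ext
    rw [← hcoe x, ← hcoe y, hxy]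
  have a1 : Algebra.IsAlgebraic (Algebra.adjoin ℚ P) C := by
    refine ⟨fun z => ?_⟩
    have := p_trdeg_alg P z (halg z z.2)
    exact (isAlgebraic_algebraMap_iff (R := Algebra.adjoin ℚ P) (S := C) (A := ℂ)
      Subtype.coe_injective).1 this
  rw [← trdeg_add_eq ℚ (Algebra.adjoin ℚ P) (A := C),
    trdeg_eq_zero (R := Algebra.adjoin ℚ P) (A := C), add_zero]

end Pool.Agent.Lib.MP_ae0f86_nt
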