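import Pool.Agent.Lib.MP_ae0f86_nt.StmA

/-!
# MP_ae0f86_nt, piece triA: the five lemma for a morphism of triples, (a)
-/

open CategoryTheory CategoryTheory.Limits Opposite MonoidalCategory

universe v u

namespace Pool.Agent.Lib.MP_ae0f86_nt

noncomputable section

attribute [local instance] CategoryTheory.Abelian.hasFiniteBiproducts

/-- the five lemma, by refinements -/
private theorem p_triA_five {C : Type u} [Category.{v} C] [Abelian C]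
    {A₁ A₂ A₃ A₄ A₅ B₁ B₂ B₃ B₄ B₅ : C}
    {a₁ : A₁ ⟶ A₂} {a₂ : A₂ ⟶ A₃} {a₃ : A₃ ⟶ A₄} {a₄ : A₄ ⟶ A₅}
    {b₁ : B₁ ⟶ B₂} {b₂ : B₂ ⟶ B₃} {b₃ : B₃ ⟶ B₄} {b₄ : B₄ ⟶ B₅}
    (v₁ : A₁ ⟶ B₁) (v₂ : A₂ ⟶ B₂) (v₃ : A₃ ⟶ B₃) (v₄ : A₄ ⟶ B₄) (v₅ : A₅ ⟶ B₅)
    (hA2 : ∃ w, (ShortComplex.mk a₁ a₂ w).Exact)
    (hA3 : ∃ w, (ShortComplex.mk a₂ a₃ w).Exact)
    (hA4 : ∃ w, (ShortComplex.mk a₃ a₄ w).Exact)
    (hB2 : ∃ w, (ShortComplex.mk b₁ b₂ w).Exact)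
    (hB3 : ∃ w, (ShortComplex.mk b₂ b₃ w).Exact)
    (hB4 : ∃ w, (ShortComplex.mk b₃ b₄ w).Exact)
    (c₁ : a₁ ≫ v₂ = v₁ ≫ b₁) (c₂ : a₂ ≫ v₃ = v₂ ≫ b₂) (c₃ : a₃ ≫ v₄ = v₃ ≫ b₃)
    (c₄ : a₄ ≫ v₅ = v₄ ≫ b₄) [Epi v₁] [IsIso v₂] [IsIso v₄] [Mono v₅] : IsIso v₃ := by
  obtain ⟨wA2, eA2⟩ := hA2
  obtain ⟨wA3, eA3⟩ := hA3
  obtain ⟨wA4, eA4⟩ := hA4
  obtain ⟨wB2, eB2⟩ := hB2
  obtain ⟨wB3, eB3⟩ := hB3
  obtain ⟨wB4, eB4⟩ := hB4
  have hmono : Mono v₃ := by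
    refine Preadditive.mono_of_cancel_zero _ fun {X} x hx => ?_
    have h1 : x ≫ a₃ = 0 := by
      rw [← cancel_mono v₄, Category.assoc, c₃, reassoc_of% hx, zero_comp, zero_comp]
    obtain ⟨X1, p1, _, x2, h2⟩ := eA3.exact_up_to_refinements x h1
    dsimp at x2 h2
    have h3 : (x2 ≫ v₂) ≫ b₂ = 0 := by
      rw [Category.assoc, ← c₂, ← reassoc_of% h2, hx, comp_zero]
    obtain ⟨X2, p2, _, y1, h4⟩ := eB2.exact_up_to_refinements (x2 ≫ v₂) h3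
    dsimp at y1 h4
    obtain ⟨X3, p3, _, x1, h5⟩ := surjective_up_to_refinements_of_epi v₁ y1
    have h6 : p3 ≫ p2 ≫ x2 = x1 ≫ a₁ := by
      rw [← cancel_mono v₂, Category.assoc, Category.assoc, h4, Category.assoc, c₁,
        reassoc_of% h5]
    have h7 : (p3 ≫ p2 ≫ p1) ≫ x = 0 := by
      rw [Category.assoc, Category.assoc, h2]
      have : p3 ≫ p2 ≫ x2 ≫ a₂ = (p3 ≫ p2 ≫ x2) ≫ a₂ := by simp only [Category.assoc]
      rw [this, h6, Category.assoc, wA2, comp_zero]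
    rw [← cancel_epi (p3 ≫ p2 ≫ p1), h7, comp_zero]
  have hepi : Epi v₃ := by
    rw [epi_iff_surjective_up_to_refinements]
    intro Y y
    have h1 : (y ≫ b₃ ≫ inv v₄) ≫ a₄ = 0 := by
      rw [← cancel_mono v₅, Category.assoc, c₄, zero_comp, Category.assoc, Category.assoc,
        IsIso.inv_hom_id_assoc, wB4, comp_zero]
    obtain ⟨Y1, p1, _, x3, h2⟩ := eA4.exact_up_to_refinements _ h1
    dsimp at x3 h2
    have h3 : (p1 ≫ y - x3 ≫ v₃) ≫ b₃ = 0 := by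
      rw [Preadditive.sub_comp, Category.assoc, Category.assoc, ← c₃, ← reassoc_of% h2,
        IsIso.inv_hom_id, Category.comp_id, sub_self]
    obtain ⟨Y2, p2, _, y2, h4⟩ := eB3.exact_up_to_refinements _ h3
    dsimp at y2 h4
    refine ⟨Y2, p2 ≫ p1, inferInstance, p2 ≫ x3 + (y2 ≫ inv v₂) ≫ a₂, ?_⟩
    rw [Preadditive.add_comp, Category.assoc, Category.assoc, Category.assoc, Category.assoc, c₂,
      IsIso.inv_hom_id_assoc, ← h4, Preadditive.comp_sub]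
    abel
  exact isIso_of_mono_of_epi v₃

theorem p_triA {k : Type} [Field k] {A : Type u} [Category.{v} A] [Abelian A]
    [MonoidalCategory A] (T : CohTheory k A) : S_triA T := by
  intro t t' f hYZ hXY i
  obtain ⟨j, rfl⟩ : ∃ j : ℤ, i = j + 1 := ⟨i - 1, by ring⟩
  have e1 : f.XZ ≫ t'.quot = t.quot ≫ f.XY := AffPair.hom_ext _ _ fun x => rfl
  have e2 : t.incl ≫ f.XZ = f.YZ ≫ t'.incl := AffPair.hom_ext _ _ fun x => rfl
  have := hYZ j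
  have := hXY (j + 1)
  have := hYZ (j + 1)
  have := hXY (j + 1 + 1)
  refine p_triA_five ((T.h j).map f.YZ.op) ((T.h (j + 1)).map f.XY.op) _
    ((T.h (j + 1)).map f.YZ.op) ((T.h (j + 1 + 1)).map f.XY.op)
    (T.exact_XY j t') (T.exact_XZ (j + 1) t') (T.exact_YZ (j + 1) t')
    (T.exact_XY j t) (T.exact_XZ (j + 1) t) (T.exact_YZ (j + 1) t)
    (T.δ_nat j f).symm ?_ ?_ (T.δ_nat (j + 1) f).symm
  · rw [← Functor.map_comp, ← Functor.map_comp, ← op_comp, ← op_comp, e1]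
  · rw [← Functor.map_comp, ← Functor.map_comp, ← op_comp, ← op_comp, e2]

end

end Pool.Agent.Lib.MP_ae0f86_nt
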