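import Pool.Agent.Lib.MP_ae0f86_nt.StmA

open CategoryTheory CategoryTheory.Limits Opposite MonoidalCategory

universe v u

namespace Pool.Agent.Lib.MP_ae0f86_nt

theorem p_triB_mk4 {A : Type u} [Category.{v} A] [Abelian A] {a1 a2 a3 a4 a5 : A}
    {f1 : a1 ⟶ a2} {f2 : a2 ⟶ a3} {f3 : a3 ⟶ a4} {f4 : a4 ⟶ a5}
    (h1 : ∃ w, (ShortComplex.mk f1 f2 w).Exact) (h2 : ∃ w, (ShortComplex.mk f2 f3 w).Exact)
    (h3 : ∃ w, (ShortComplex.mk f3 f4 w).Exact) :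
    (ComposableArrows.mk₄ f1 f2 f3 f4).Exact := by
  obtain ⟨w1, h1⟩ := h1
  obtain ⟨w2, h2⟩ := h2
  obtain ⟨w3, h3⟩ := h3
  refine ComposableArrows.exact_of_δ₀ h1.exact_toComposableArrows
    (ComposableArrows.exact_of_δ₀ h2.exact_toComposableArrows h3.exact_toComposableArrows)

theorem p_triB_five {A : Type u} [Category.{v} A] [Abelian A] {a1 a2 a3 a4 a5 b1 b2 b3 b4 b5 : A}
    {f1 : a1 ⟶ a2} {f2 : a2 ⟶ a3} {f3 : a3 ⟶ a4} {f4 : a4 ⟶ a5}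
    {g1 : b1 ⟶ b2} {g2 : b2 ⟶ b3} {g3 : b3 ⟶ b4} {g4 : b4 ⟶ b5}
    (h1 : ∃ w, (ShortComplex.mk f1 f2 w).Exact) (h2 : ∃ w, (ShortComplex.mk f2 f3 w).Exact)
    (h3 : ∃ w, (ShortComplex.mk f3 f4 w).Exact)
    (k1 : ∃ w, (ShortComplex.mk g1 g2 w).Exact) (k2 : ∃ w, (ShortComplex.mk g2 g3 w).Exact)
    (k3 : ∃ w, (ShortComplex.mk g3 g4 w).Exact)
    {u1 : a1 ⟶ b1} {u2 : a2 ⟶ b2} {u3 : a3 ⟶ b3} {u4 : a4 ⟶ b4} {u5 : a5 ⟶ b5}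
    (c1 : f1 ≫ u2 = u1 ≫ g1) (c2 : f2 ≫ u3 = u2 ≫ g2) (c3 : f3 ≫ u4 = u3 ≫ g3)
    (c4 : f4 ≫ u5 = u4 ≫ g4)
    (i1 : IsIso u1) (i2 : IsIso u2) (i4 : IsIso u4) (i5 : IsIso u5) : IsIso u3 :=
  Abelian.isIso_of_epi_of_isIso_of_isIso_of_mono
    (R₁ := ComposableArrows.mk₄ f1 f2 f3 f4) (R₂ := ComposableArrows.mk₄ g1 g2 g3 g4)
    (p_triB_mk4 h1 h2 h3) (p_triB_mk4 k1 k2 k3)
    (ComposableArrows.homMk₄ u1 u2 u3 u4 u5 c1 c2 c3 c4)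
    (inferInstanceAs (Epi u1)) i2 i4 (inferInstanceAs (Mono u5))

theorem p_triB {k : Type} [Field k] {A : Type u} [Category.{v} A] [Abelian A]
    [MonoidalCategory A] (T : CohTheory k A) : S_triB T := by
  intro t t' f hXZ hYZ i
  obtain ⟨j, rfl⟩ : ∃ j, i = j + 1 := ⟨i - 1, by ring⟩
  have e1 : t.incl ≫ f.XZ = f.YZ ≫ t'.incl := AffPair.hom_ext _ _ fun _ => rfl
  have e2 : t.quot ≫ f.XY = f.XZ ≫ t'.quot := AffPair.hom_ext _ _ fun _ => rfl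
  have m1 : ∀ n, (T.h n).map t'.incl.op ≫ (T.h n).map f.YZ.op =
      (T.h n).map f.XZ.op ≫ (T.h n).map t.incl.op := by
    intro n
    rw [← Functor.map_comp, ← Functor.map_comp, ← op_comp, ← op_comp, e1]
  have m2 : ∀ n, (T.h n).map t'.quot.op ≫ (T.h n).map f.XZ.op =
      (T.h n).map f.XY.op ≫ (T.h n).map t.quot.op := by
    intro n
    rw [← Functor.map_comp, ← Functor.map_comp, ← op_comp, ← op_comp, e2]
  exact p_triB_five (T.exact_YZ j t') (T.exact_XY j t') (T.exact_XZ (j + 1) t')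
    (T.exact_YZ j t) (T.exact_XY j t) (T.exact_XZ (j + 1) t)
    (m1 j) (T.δ_nat j f).symm (m2 (j + 1)) (m1 (j + 1))
    (hXZ j) (hYZ j) (hXZ (j + 1)) (hYZ (j + 1))

end Pool.Agent.Lib.MP_ae0f86_nt
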