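import Pool.Agent.Lib.MP_ae0f86_nt.StmB

/-! [GP twist] -/

open CategoryTheory CategoryTheory.Limits MonoidalCategory

universe v u

namespace Pool.Agent.Lib.MP_ae0f86_nt

section

variable {A : Type u} [Category.{v} A] [MonoidalCategory A]

private theorem p_twist_add (L : A) (a b : ℕ) :
    Nonempty (tpow L a ⊗ tpow L b ≅ tpow L (a + b)) := by
  induction b with
  | zero => exact ⟨ρ_ _⟩
  | succ b ih =>
    obtain ⟨e⟩ := ih
    exact ⟨(α_ (tpow L a) (tpow L b) L).symm ≪≫ whiskerRightIso e L⟩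

private theorem p_twist_inv [SymmetricCategory A] {L t : A} (φ : L ⊗ t ≅ 𝟙_ A) (m : ℕ) :
    Nonempty (tpow t m ⊗ tpow L m ≅ 𝟙_ A) := by
  induction m with
  | zero => exact ⟨ρ_ _⟩
  | succ m ih =>
    obtain ⟨e⟩ := ih
    let μ : (tpow t m ⊗ t) ⊗ (tpow L m ⊗ L) ≅ (tpow t m ⊗ tpow L m) ⊗ (t ⊗ L) :=
      ⟨tensorμ _ _ _ _, tensorδ _ _ _ _, tensorμ_tensorδ _ _ _ _, tensorδ_tensorμ _ _ _ _⟩
    exact ⟨μ ≪≫ (e ⊗ᵢ (β_ t L ≪≫ φ)) ≪≫ λ_ _⟩

end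

private theorem p_twist_zero {A : Type u} [Category.{v} A] [Preadditive A] [MonoidalCategory A]
    [MonoidalPreadditive A] {X : A} (hX : IsZero X) (Y : A) : IsZero (X ⊗ Y) := by
  rw [IsZero.iff_id_eq_zero] at hX ⊢
  rw [← id_whiskerRight, hX, MonoidalPreadditive.zero_whiskerRight]

theorem p_twist {k : Type} [Field k] {A : Type u} [Category.{v} A] [Abelian A]
    [MonoidalCategory A] [MonoidalPreadditive A] [SymmetricCategory A] (T : CohTheory k A) :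
    S_twist T := by
  refine ⟨fun N a b => ?_, fun N m b => ?_, fun N n hN => ?_⟩
  · obtain ⟨e⟩ := p_twist_add T.L a b
    exact ⟨α_ _ _ _ ≪≫ whiskerLeftIso N e⟩
  · obtain ⟨e⟩ := p_twist_add T.L m b
    obtain ⟨f⟩ := p_twist_inv T.tateIso m
    exact ⟨whiskerLeftIso _ e.symm ≪≫ α_ _ _ _ ≪≫
      whiskerLeftIso N ((α_ _ _ _).symm ≪≫ whiskerRightIso f _ ≪≫ λ_ _)⟩
  · obtain ⟨f⟩ := p_twist_inv T.tateIso n
    have h := p_twist_zero hN (tpow T.tate n)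
    exact h.of_iso ((ρ_ N).symm ≪≫ whiskerLeftIso N (f.symm ≪≫ β_ _ _) ≪≫ (α_ _ _ _).symm)

end Pool.Agent.Lib.MP_ae0f86_nt
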