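import Pool.Agent.Lib.MP_ae0f86_nt.StmE

/-!
# MP_ae0f86_nt : piece univ
-/

open CategoryTheory CategoryTheory.Limits

open scoped ZeroObject

universe v u

namespace Pool.Agent.Lib.MP_ae0f86_nt

set_option linter.unusedSectionVars false
set_option linter.unusedVariables false

attribute [local instance] CategoryTheory.Abelian.hasFiniteBiproducts

section

variable {A : Type u} [Category.{v} A] [Abelian A] (HB : A ⥤ ModuleCat.{0} ℚ)

private theorem map_comp_apply' {X Y Z : A} (f : X ⟶ Y) (g : Y ⟶ Z) (x : HB.obj X) :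
    (HB.map (f ≫ g)).hom x = (HB.map g).hom ((HB.map f).hom x) := by
  rw [Functor.map_comp]
  rfl

private theorem map_id_apply' {X : A} (x : HB.obj X) : (HB.map (𝟙 X)).hom x = x := by
  rw [CategoryTheory.Functor.map_id]
  rfl

private theorem map_zero_apply' [HB.Additive] {X Y : A} (x : HB.obj X) :
    (HB.map (0 : X ⟶ Y)).hom x = 0 := by
  rw [Functor.map_zero]
  rfl

private theorem map_add_apply' [HB.Additive] {X Y : A} (f g : X ⟶ Y) (x : HB.obj X) :
    (HB.map (f + g)).hom x = (HB.map f).hom x + (HB.map g).hom x := by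
  rw [Functor.map_add]
  rfl

private theorem map_sum_apply' [HB.Additive] {X Y : A} {α : Type} (s : Finset α)
    (f : α → (X ⟶ Y)) (x : HB.obj X) :
    (HB.map (∑ a ∈ s, f a)).hom x = ∑ a ∈ s, (HB.map (f a)).hom x := by
  classical
  induction s using Finset.induction_on with
  | empty => simp
  | insert a s ha ih => rw [Finset.sum_insert ha, Finset.sum_insert ha, map_add_apply', ih]

private theorem map_smul_apply' [Linear ℚ A] [HB.Additive] {X Y : A} (q : ℚ) (f : X ⟶ Y)
    (x : HB.obj X) : (HB.map (q • f)).hom x = q • (HB.map f).hom x := by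
  rw [Functor.map_smul]
  rfl

private theorem inj_of_mono [PreservesFiniteLimits HB] {X Y : A} (f : X ⟶ Y) [Mono f] :
    Function.Injective (HB.map f).hom :=
  (ModuleCat.mono_iff_injective _).1 inferInstance

private theorem surj_of_epi [PreservesFiniteColimits HB] {X Y : A} (f : X ⟶ Y) [Epi f] :
    Function.Surjective (HB.map f).hom :=
  (ModuleCat.epi_iff_surjective _).1 inferInstance

private theorem ker_le_range [HB.Additive] [PreservesFiniteLimits HB]
    [PreservesFiniteColimits HB] {X Y : A} (f : X ⟶ Y) (x : HB.obj Y)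
    (hx : (HB.map (cokernel.π f)).hom x = 0) : ∃ y, (HB.map f).hom y = x := by
  have h : (ShortComplex.mk f (cokernel.π f) (cokernel.condition f)).Exact :=
    ShortComplex.exact_of_g_is_cokernel _ (cokernelIsCokernel f)
  have h2 := h.map HB
  rw [ShortComplex.moduleCat_exact_iff] at h2
  exact h2 x hx

/-- Functionals vanishing on the kernel of a surjection factor. -/
private theorem factor_dual {V U : Type} [AddCommGroup V] [Module ℚ V] [AddCommGroup U]
    [Module ℚ U] (p : V →ₗ[ℚ] U) (hp : Function.Surjective p) (σ : Module.Dual ℚ V)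
    (h : ∀ x, p x = 0 → σ x = 0) : ∃ τ : Module.Dual ℚ U, σ = τ ∘ₗ p := by
  obtain ⟨g, hg⟩ := p.exists_rightInverse_of_surjective (LinearMap.range_eq_top.2 hp)
  refine ⟨σ ∘ₗ g, LinearMap.ext fun x => ?_⟩
  have h1 : p (x - g (p x)) = 0 := by
    rw [map_sub]
    have := LinearMap.congr_fun hg (p x)
    simp only [LinearMap.comp_apply, LinearMap.id_apply] at this
    rw [this, sub_self]
  have h2 := h _ h1
  rw [map_sub, sub_eq_zero] at h2
  exact h2

private theorem isIso_of_finrank [HB.Additive] [HB.Faithful] [PreservesFiniteLimits HB]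
    [PreservesFiniteColimits HB] (hfin : ∀ M, Module.Finite ℚ (HB.obj M)) {X Y : A} (f : X ⟶ Y)
    [Mono f] (h : Module.finrank ℚ (HB.obj Y) ≤ Module.finrank ℚ (HB.obj X)) : IsIso f := by
  have := hfin X
  have := hfin Y
  have hinj := inj_of_mono HB f
  have hle := LinearMap.finrank_le_finrank_of_injective (f := (HB.map f).hom) hinj
  have heq : Module.finrank ℚ (HB.obj X) = Module.finrank ℚ (HB.obj Y) := le_antisymm hle h
  have hsurj : Function.Surjective (HB.map f).hom :=
    (LinearMap.injective_iff_surjective_of_finrank_eq_finrank heq).1 hinj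
  have : IsIso (HB.map f) := by
    rw [ConcreteCategory.isIso_iff_bijective]
    exact ⟨hinj, hsurj⟩
  exact isIso_of_reflects_iso f HB

/-- The largest subobject killed by the functional `σ`. -/
private theorem exists_kappa [HB.Additive] [HB.Faithful] [PreservesFiniteLimits HB]
    [PreservesFiniteColimits HB] (hfin : ∀ M, Module.Finite ℚ (HB.obj M)) (V : A)
    (σ : Module.Dual ℚ (HB.obj V)) :
    ∃ (N : A) (κ : N ⟶ V), Mono κ ∧ (∀ x, σ ((HB.map κ).hom x) = 0) ∧
      ∀ (P : A) (f : P ⟶ V), (∀ x, σ ((HB.map f).hom x) = 0) → ∃ t : P ⟶ N, t ≫ κ = f := by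
  classical
  let Pr : ℕ → Prop := fun d => ∃ (N : A) (κ : N ⟶ V), Mono κ ∧
    (∀ x, σ ((HB.map κ).hom x) = 0) ∧ Module.finrank ℚ (HB.obj N) = d
  have hb : ∀ d, Pr d → d ≤ Module.finrank ℚ (HB.obj V) := by
    rintro d ⟨N, κ, hκ, -, rfl⟩
    have := hfin V
    exact LinearMap.finrank_le_finrank_of_injective (inj_of_mono HB κ)
  have h0 : ∃ d, Pr d := ⟨_, 0, (0 : (0 : A) ⟶ V), inferInstance,
    fun x => by rw [map_zero_apply', map_zero], rfl⟩
  obtain ⟨d0, hd0⟩ := h0
  obtain ⟨N, κ, hκ, hσ, hN⟩ := Nat.findGreatest_spec (P := Pr) (hb d0 hd0) hd0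
  refine ⟨N, κ, hκ, hσ, fun P f hf => ?_⟩
  let g : N ⊞ P ⟶ V := biprod.desc κ f
  let e := factorThruImage g
  let m := image.ι g
  have hg : ∀ x, σ ((HB.map g).hom x) = 0 := by
    intro x
    have hx : x = (HB.map biprod.inl).hom ((HB.map (biprod.fst : N ⊞ P ⟶ N)).hom x) +
        (HB.map biprod.inr).hom ((HB.map (biprod.snd : N ⊞ P ⟶ P)).hom x) := by
      rw [← map_comp_apply', ← map_comp_apply', ← map_add_apply', biprod.total, map_id_apply']
    have h1 : ∀ y, σ ((HB.map g).hom ((HB.map (biprod.inl : N ⟶ N ⊞ P)).hom y)) = 0 := by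
      intro y
      rw [← map_comp_apply', biprod.inl_desc, hσ]
    have h2 : ∀ y, σ ((HB.map g).hom ((HB.map (biprod.inr : P ⟶ N ⊞ P)).hom y)) = 0 := by
      intro y
      rw [← map_comp_apply', biprod.inr_desc, hf]
    rw [hx, map_add, map_add, h1, h2, add_zero]
  have hem : e ≫ m = g := image.fac g
  have hm : ∀ y, σ ((HB.map m).hom y) = 0 := by
    intro y
    obtain ⟨x, rfl⟩ := surj_of_epi HB e y
    rw [← map_comp_apply', hem, hg]
  let j := biprod.inl ≫ e
  have hj : j ≫ m = κ := by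
    rw [Category.assoc, hem, biprod.inl_desc]
  have hjm : Mono j := by
    have : Mono (j ≫ m) := by rw [hj]; exact hκ
    exact mono_of_mono j m
  have hle : Module.finrank ℚ (HB.obj (image g)) ≤ Module.finrank ℚ (HB.obj N) := by
    rw [hN]
    exact Nat.le_findGreatest (hb _ ⟨_, m, inferInstance, hm, rfl⟩)
      ⟨_, m, inferInstance, hm, rfl⟩
  have hiso : IsIso j := isIso_of_finrank HB hfin j hle
  refine ⟨biprod.inr ≫ e ≫ inv j, ?_⟩
  rw [Category.assoc, Category.assoc, ← hj, IsIso.inv_hom_id_assoc, hem, biprod.inr_desc]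

end

/-- [GP univ] -/
theorem p_univ {A : Type u} [Category.{v} A] [Abelian A] (HB : A ⥤ ModuleCat.{0} ℚ)
    (h1 : S_subq A) : S_univ HB := by
  intro _ _ _ _ _ hfin W
  have := hfin W
  let n := Module.finrank ℚ (HB.obj W)
  let b : Module.Basis (Fin n) ℚ (Module.Dual ℚ (HB.obj W)) :=
    Module.finBasisOfFinrankEq ℚ _ (Subspace.dual_finrank_eq)
  let V : A := ⨁ fun _ : Fin n => W
  let σ0 : Module.Dual ℚ (HB.obj V) :=
    ∑ l, b l ∘ₗ (HB.map (biproduct.π (fun _ : Fin n => W) l)).hom
  obtain ⟨N', κ, hκ, hσκ, hmax⟩ := exists_kappa HB hfin V σ0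
  let Q := cokernel κ
  let π : V ⟶ Q := cokernel.π κ
  obtain ⟨σQ, hσQ⟩ := factor_dual (HB.map π).hom (surj_of_epi HB π) σ0 (fun x hx => by
    obtain ⟨y, rfl⟩ := ker_le_range HB κ x hx
    exact hσκ y)
  have huniq : ∀ (N : A) (f : N ⟶ Q), σQ ∘ₗ (HB.map f).hom = 0 → f = 0 := by
    intro N f hf
    obtain ⟨t, ht⟩ := hmax (pullback π f) (pullback.fst π f) (fun x => by
      have h2 : σ0 ((HB.map (pullback.fst π f)).hom x) =
          σQ ((HB.map π).hom ((HB.map (pullback.fst π f)).hom x)) := by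
        rw [hσQ]; rfl
      rw [h2, ← map_comp_apply', pullback.condition, map_comp_apply']
      exact LinearMap.congr_fun hf _)
    have h3 : pullback.snd π f ≫ f = 0 := by
      rw [← pullback.condition, ← ht, Category.assoc, cokernel.condition, comp_zero]
    exact (cancel_epi (pullback.snd π f)).1 (by rw [h3, comp_zero])
  have hb : ∀ l, σQ ∘ₗ (HB.map (biproduct.ι (fun _ : Fin n => W) l ≫ π)).hom = b l := by
    intro l
    refine LinearMap.ext fun x => ?_
    rw [LinearMap.comp_apply, map_comp_apply']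
    have h2 : σQ ((HB.map π).hom ((HB.map (biproduct.ι (fun _ : Fin n => W) l)).hom x)) =
        σ0 ((HB.map (biproduct.ι (fun _ : Fin n => W) l)).hom x) := by
      rw [hσQ]; rfl
    rw [h2]
    simp only [σ0, LinearMap.sum_apply, LinearMap.comp_apply]
    rw [Finset.sum_eq_single l]
    · rw [← map_comp_apply', biproduct.ι_π_self, map_id_apply']
    · intro l' _ hl'
      rw [← map_comp_apply', biproduct.ι_π_ne _ (Ne.symm hl'), map_zero_apply', map_zero]
    · intro h
      exact absurd (Finset.mem_univ l) h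
  have hW : ∀ σ : Module.Dual ℚ (HB.obj W), ∃ f : W ⟶ Q, ∀ x, σ x = σQ ((HB.map f).hom x) := by
    intro σ
    refine ⟨∑ l, b.repr σ l • (biproduct.ι (fun _ : Fin n => W) l ≫ π), fun x => ?_⟩
    rw [map_sum_apply', map_sum]
    conv_lhs => rw [← b.sum_repr σ]
    rw [LinearMap.sum_apply]
    refine Finset.sum_congr rfl fun l _ => ?_
    rw [map_smul_apply', map_smul, LinearMap.smul_apply, ← hb l]
    rfl
  have hWn : ∀ (r : ℕ) (σ : Module.Dual ℚ (HB.obj (⨁ fun _ : Fin r => W))),
      ∃ f : (⨁ fun _ : Fin r => W) ⟶ Q, ∀ x, σ x = σQ ((HB.map f).hom x) := by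
    intro r σ
    choose f hf using fun a => hW (σ ∘ₗ (HB.map (biproduct.ι (fun _ : Fin r => W) a)).hom)
    refine ⟨∑ a, biproduct.π _ a ≫ f a, fun x => ?_⟩
    rw [map_sum_apply', map_sum]
    have hx : x = ∑ a, (HB.map (biproduct.ι (fun _ : Fin r => W) a)).hom
        ((HB.map (biproduct.π (fun _ : Fin r => W) a)).hom x) := by
      have h2 := map_id_apply' HB x
      rw [← biproduct.total, map_sum_apply'] at h2
      rw [← h2]
      refine Finset.sum_congr rfl fun a _ => ?_
      rw [h2, map_comp_apply']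
    conv_lhs => rw [hx, map_sum]
    refine Finset.sum_congr rfl fun a _ => ?_
    rw [map_comp_apply', ← hf]
    rfl
  refine ⟨n, Q, π, σQ, inferInstance, huniq, ?_, rfl, b, hb⟩
  rintro N ⟨r, N1, i, p, hi, hp⟩ σ
  obtain ⟨g, hg⟩ := (HB.map i).hom.exists_leftInverse_of_injective
    (LinearMap.ker_eq_bot.2 (inj_of_mono HB i))
  obtain ⟨f, hf⟩ := hWn r ((σ ∘ₗ (HB.map p).hom) ∘ₗ g)
  have hif : ∀ x, σ ((HB.map p).hom x) = σQ ((HB.map (i ≫ f)).hom x) := by
    intro x
    rw [map_comp_apply', ← hf]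
    have := LinearMap.congr_fun hg x
    simp only [LinearMap.comp_apply, LinearMap.id_apply] at this ⊢
    rw [this]
  have hker : kernel.ι p ≫ i ≫ f = 0 := by
    apply huniq
    refine LinearMap.ext fun x => ?_
    rw [LinearMap.comp_apply, map_comp_apply', ← hif, ← map_comp_apply', kernel.condition,
      map_zero_apply', map_zero]
    rfl
  refine ⟨Abelian.epiDesc p (i ≫ f) hker, LinearMap.ext fun y => ?_⟩
  obtain ⟨x, rfl⟩ := surj_of_epi HB p y
  rw [hif, LinearMap.comp_apply, ← map_comp_apply', Abelian.comp_epiDesc]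

end Pool.Agent.Lib.MP_ae0f86_nt
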