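import Pool.Agent.Lib.MP_ae0f86_nt.StmU

/-!
# MP_ae0f86_nt : [GP vanish] vanishing symbols vanish for a trivial reason
-/

open CategoryTheory CategoryTheory.Limits Opposite MonoidalCategory

universe w v u

namespace Pool.Agent.Lib.MP_ae0f86_nt

attribute [local instance] CategoryTheory.Abelian.hasFiniteBiproducts

private theorem p_vanish_closed {A : Type u} [Category.{v} A] [Abelian A] (N : A) :
    Closed (fun _ : A => True) :=
  ⟨fun _ _ => trivial, fun _ _ _ => trivial, fun _ _ _ => trivial, ⟨N, trivial⟩⟩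

private theorem p_vanish_ker {A : Type u} [Category.{v} A] [Abelian A] {K : Type} [Field K]
    (H : A ⥤ ModuleCat.{0} K) [H.Additive] [PreservesFiniteLimits H] {N Q : A} (f : N ⟶ Q)
    (ω : H.obj N) (h : (H.map f).hom ω = 0) :
    ω ∈ LinearMap.range (H.map (kernel.ι f)).hom := by
  have h1 : (ShortComplex.mk (kernel.ι f) f (kernel.condition f)).Exact :=
    ShortComplex.exact_of_f_is_kernel _ (kernelIsKernel f)
  have h2 := h1.map_of_mono_of_preservesKernel H inferInstance inferInstance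
  rw [ShortComplex.moduleCat_exact_iff] at h2
  exact h2 ω h

theorem p_vanish {A : Type u} [Category.{v} A] [Abelian A]
    (h1 : ∀ {K : Type} [Field K] (H : A ⥤ ModuleCat.{0} K) (HB : A ⥤ ModuleCat.{0} ℚ),
      S_fprel H HB)
    (h2 : ∀ HB : A ⥤ ModuleCat.{0} ℚ, S_univ HB)
    (h3 : ∀ {K : Type} [Field K] (H : A ⥤ ModuleCat.{0} K) (HB : A ⥤ ModuleCat.{0} ℚ),
      S_psi H HB)
    (h4 : ∀ {K : Type} [Field K] (H : A ⥤ ModuleCat.{0} K) (HB : A ⥤ ModuleCat.{0} ℚ),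
      S_fincat H HB) : S_vanish (A := A) := by
  intro K _ _ H HB _ _ _ _ _ _ _ _ hfin N ω σ
  constructor
  · intro h
    obtain ⟨W, -, hN', h0⟩ := h4 H HB (fun _ => True) (p_vanish_closed N) (N := N) trivial ω σ h
    obtain ⟨n, Q, π, σQ, hπ, hu, hex, -, -⟩ := h2 HB hfin W
    have hQ : Lin W Q := ⟨n, ⟨⨁ fun _ : Fin n => W, 𝟙 _, π, inferInstance, hπ⟩⟩
    obtain ⟨Ψ, hΨ, hΨs⟩ := h3 H HB W Q hQ σQ hu hex
    obtain ⟨f, hf⟩ := hex N hN' σ
    have hz : (H.map f).hom ω = 0 := by rw [← hΨs N hN' ω f, ← hf, h0, map_zero]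
    refine ⟨kernel f, kernel.ι f, inferInstance, p_vanish_ker H f ω hz, ?_⟩
    change σ ∘ₗ (HB.map (kernel.ι f)).hom = 0
    rw [hf, LinearMap.comp_assoc, ← ModuleCat.hom_comp, ← HB.map_comp, kernel.condition,
      Functor.map_zero, ModuleCat.hom_zero, LinearMap.comp_zero]
  · rintro ⟨N', i, hi, ⟨ω', rfl⟩, hσ⟩
    change σ ∘ₗ (HB.map i).hom = 0 at hσ
    obtain ⟨-, -, -, -, r5, -, r7⟩ := h1 H HB (fun _ : A => True)
    rw [← r5 (N := N') (N' := N) trivial trivial i ω' σ, hσ, r7]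

end Pool.Agent.Lib.MP_ae0f86_nt
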