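import Pool.Agent.Lib.MP_ae0f86_nt.StmT

/-!
# MP_ae0f86_nt : the matrix of symbols is invertible (piece xmat)
-/

open CategoryTheory CategoryTheory.Limits Opposite MonoidalCategory

universe w v u

namespace Pool.Agent.Lib.MP_ae0f86_nt

noncomputable section

variable {A : Type u} [Category.{v} A] [Abelian A] [MonoidalCategory A] [SymmetricCategory A]
  {K : Type} [Field K] (H : A ⥤ ModuleCat.{0} K) (HB : A ⥤ ModuleCat.{0} ℚ)
  [FibreFunctor H] [FibreFunctor HB]

theorem p_xmat_rel {S : A → Prop} {r : Symb H HB S →₀ K} (hr : LinRel H HB S r) :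
    toPerAlg H HB S (Submodule.Quotient.mk r) = 0 := by
  rw [(Submodule.Quotient.mk_eq_zero _).2 (Submodule.subset_span hr), map_zero]

theorem p_xmat_sym {S : A → Prop} (s : Symb H HB S) :
    toPerAlg H HB S (Submodule.Quotient.mk s.fin) = asym H HB s.mem s.ω s.σ := by
  rcases s with ⟨N, hN, ω, σ⟩
  show Finsupp.linearCombination K _ (Finsupp.single _ 1) = _
  rw [Finsupp.linearCombination_single, one_smul]
  rfl

theorem p_xmat_add_left {S : A → Prop} {N : A} (hN : S N) (ω ω' : H.obj N)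
    (σ : Module.Dual ℚ (HB.obj N)) :
    asym H HB hN (ω + ω') σ = asym H HB hN ω σ + asym H HB hN ω' σ := by
  have h := p_xmat_rel H HB (LinRel.add_left N hN ω ω' σ)
  rw [Submodule.Quotient.mk_sub, Submodule.Quotient.mk_sub, map_sub, map_sub,
    p_xmat_sym, p_xmat_sym, p_xmat_sym, sub_sub, sub_eq_zero] at h
  exact h

theorem p_xmat_smul_left {S : A → Prop} {N : A} (hN : S N) (a : K) (ω : H.obj N)
    (σ : Module.Dual ℚ (HB.obj N)) :
    asym H HB hN (a • ω) σ = a • asym H HB hN ω σ := by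
  have h := p_xmat_rel H HB (LinRel.smul_left N hN a ω σ)
  rw [Submodule.Quotient.mk_sub, Submodule.Quotient.mk_smul, map_sub, map_smul,
    p_xmat_sym, p_xmat_sym, sub_eq_zero] at h
  exact h

theorem p_xmat_add_right {S : A → Prop} {N : A} (hN : S N) (ω : H.obj N)
    (σ σ' : Module.Dual ℚ (HB.obj N)) :
    asym H HB hN ω (σ + σ') = asym H HB hN ω σ + asym H HB hN ω σ' := by
  have h := p_xmat_rel H HB (LinRel.add_right N hN ω σ σ')
  rw [Submodule.Quotient.mk_sub, Submodule.Quotient.mk_sub, map_sub, map_sub,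
    p_xmat_sym, p_xmat_sym, p_xmat_sym, sub_sub, sub_eq_zero] at h
  exact h

theorem p_xmat_funct {S : A → Prop} {N N' : A} (hN : S N) (hN' : S N') (f : N ⟶ N')
    (ω : H.obj N) (σ' : Module.Dual ℚ (HB.obj N')) :
    asym H HB hN ω (σ' ∘ₗ (HB.map f).hom) = asym H HB hN' ((H.map f).hom ω) σ' := by
  have h := p_xmat_rel H HB (LinRel.funct N N' hN hN' f ω σ')
  rw [Submodule.Quotient.mk_sub, map_sub, p_xmat_sym, p_xmat_sym, sub_eq_zero] at h
  exact h

theorem p_xmat_sum_left {S : A → Prop} {N : A} (hN : S N) {I : Type} (s : Finset I)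
    (f : I → H.obj N) (σ : Module.Dual ℚ (HB.obj N)) :
    asym H HB hN (∑ i ∈ s, f i) σ = ∑ i ∈ s, asym H HB hN (f i) σ := by
  have h := map_sum (AddMonoidHom.mk' (fun ω => asym H HB hN ω σ)
    (fun ω ω' => p_xmat_add_left H HB hN ω ω' σ)) f s
  exact h

theorem p_xmat_sum_right {S : A → Prop} {N : A} (hN : S N) {I : Type} (s : Finset I)
    (ω : H.obj N) (f : I → Module.Dual ℚ (HB.obj N)) :
    asym H HB hN ω (∑ i ∈ s, f i) = ∑ i ∈ s, asym H HB hN ω (f i) := by
  have h := map_sum (AddMonoidHom.mk' (fun σ => asym H HB hN ω σ)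
    (fun σ σ' => p_xmat_add_right H HB hN ω σ σ')) f s
  exact h

theorem p_xmat_zero_left {S : A → Prop} {N : A} (hN : S N)
    (σ : Module.Dual ℚ (HB.obj N)) : asym H HB hN (0 : H.obj N) σ = 0 := by
  have h := p_xmat_smul_left H HB hN (0 : K) (0 : H.obj N) σ
  rwa [zero_smul, zero_smul] at h

theorem p_xmat_zero_right {S : A → Prop} {N : A} (hN : S N) (ω : H.obj N) :
    asym H HB hN ω (0 : Module.Dual ℚ (HB.obj N)) = 0 := by
  have h := p_xmat_add_right H HB hN ω 0 0
  rw [add_zero] at h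
  exact (left_eq_add.1 h)

theorem p_xmat_coord (F : Type) [Field F] (G : A ⥤ ModuleCat.{0} F) [FibreFunctor G] :
    coord G (FibreFunctor.one (H := G)) = 1 := by
  rw [coord, LinearEquiv.symm_apply_eq]
  simp

theorem p_xmat_coord_smul (F : Type) [Field F] (G : A ⥤ ModuleCat.{0} F) [FibreFunctor G]
    (x : G.obj (𝟙_ A)) : x = coord G x • (FibreFunctor.one (H := G)) := by
  obtain ⟨a, rfl⟩ := (FibreFunctor.one_bij (H := G)).2 x
  simp only [map_smul, p_xmat_coord, smul_eq_mul, mul_one]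

theorem p_xmat_ext {M N : A} (σ τ : Module.Dual ℚ (HB.obj (M ⊗ N))) {I J : Type}
    (b : Module.Basis I ℚ (HB.obj M)) (b' : Module.Basis J ℚ (HB.obj N))
    (h : ∀ i j, σ (FibreFunctor.mul M N (b i) (b' j)) = τ (FibreFunctor.mul M N (b i) (b' j))) :
    σ = τ := by
  have h1 : (FibreFunctor.mul M N).compr₂ σ = (FibreFunctor.mul M N).compr₂ τ := by
    refine b.ext fun i => b'.ext fun j => ?_
    simpa using h i j
  apply LinearMap.ext
  intro z
  obtain ⟨t, rfl⟩ := (FibreFunctor.bij (H := HB) M N).2 z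
  induction t using TensorProduct.induction_on with
  | zero => simp
  | tmul x y =>
    have := LinearMap.congr_fun (LinearMap.congr_fun h1 x) y
    simpa using this
  | add x y hx hy => rw [map_add, map_add, map_add, hx, hy]

theorem p_xmat {A : Type u} [Category.{v} A] [Abelian A] [MonoidalCategory A]
    [SymmetricCategory A] {K : Type} [Field K] (H : A ⥤ ModuleCat.{0} K)
    (HB : A ⥤ ModuleCat.{0} ℚ) [FibreFunctor H] [FibreFunctor HB] [RigidCategory A]
    (h1 : S_dualbasis H) (h2 : S_dualbasis HB) (h3 : S_algrel (A := A)) : S_xmat H HB := by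
  intro S hS N hN I J _ _ _ _ ω b
  obtain ⟨ω', hω1, hω2⟩ := h1 N ω
  obtain ⟨b', hb1, hb2⟩ := h2 N b
  obtain ⟨-, hmul, hone, htd⟩ := h3 H HB S
  have hepair : ∀ (F : Type) [Field F] (G : A ⥤ ModuleCat.{0} F) [FibreFunctor G]
      (x : G.obj (Nᘁ)) (y : G.obj N),
      (G.map (ε_ N (Nᘁ))).hom (FibreFunctor.mul (Nᘁ) N x y) =
        epair G N x y • (FibreFunctor.one (H := G)) := by
    intro F _ G _ x y
    rw [p_xmat_coord_smul F G ((G.map (ε_ N (Nᘁ))).hom (FibreFunctor.mul (Nᘁ) N x y))]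
    rfl
  have hunit : ∀ σ : Module.Dual ℚ (HB.obj (𝟙_ A)), ∀ q : ℚ, (q = 0 ∨ q = 1) →
      σ FibreFunctor.one = q → asym H HB hS.unit FibreFunctor.one σ = if q = 1 then 1 else 0 := by
    intro σ q hq hσ
    rcases hq with hq | hq
    · subst hq
      have h0 : σ = 0 := by
        apply LinearMap.ext
        intro x
        rw [p_xmat_coord_smul ℚ HB x, map_smul, hσ, smul_zero, LinearMap.zero_apply]
      rw [h0, p_xmat_zero_right]
      simp
    · subst hq
      rw [hone hS.unit σ hσ]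
      simp
  refine ⟨ω', b'.dualBasis, ?_, ?_⟩
  · ext i k
    rw [Matrix.mul_apply, Matrix.one_apply]
    simp only [Matrix.of_apply]
    have hD : S (Nᘁ ⊗ N) := hS.tensor (hS.dual hN) hN
    have e1 : ∀ j : J, asym H HB hN (ω i) (b.coord j) *
        asym H HB (hS.dual hN) (ω' k) (b'.dualBasis j) =
        asym H HB hD (FibreFunctor.mul (Nᘁ) N (ω' k) (ω i))
          (tdual HB (b'.dualBasis j) (b.coord j)) := by
      intro j
      rw [_root_.mul_comm, hmul (hS.dual hN) hN hD]
    rw [Finset.sum_congr rfl fun j _ => e1 j, ← p_xmat_sum_right]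
    have e2 : ∑ j, tdual HB (b'.dualBasis j) (b.coord j) =
        (coord HB).toLinearMap ∘ₗ (HB.map (ε_ N (Nᘁ))).hom := by
      refine p_xmat_ext HB _ _ b' b fun l m => ?_
      rw [LinearMap.sum_apply]
      simp only [htd, LinearMap.comp_apply, LinearEquiv.coe_coe]
      rw [hepair ℚ HB, map_smul, p_xmat_coord, hb1]
      simp [Finsupp.single_apply]
    rw [e2, p_xmat_funct H HB hD hS.unit, hepair K H, p_xmat_smul_left, hω1,
      hone hS.unit _ (p_xmat_coord ℚ HB)]
    by_cases hik : i = k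
    · subst hik; simp
    · rw [if_neg hik, if_neg (fun h => hik h.symm), zero_smul]
  · ext j l
    rw [Matrix.mul_apply, Matrix.one_apply]
    simp only [Matrix.of_apply]
    have hD : S (N ⊗ Nᘁ) := hS.tensor hN (hS.dual hN)
    have e1 : ∀ i : I, asym H HB (hS.dual hN) (ω' i) (b'.dualBasis j) *
        asym H HB hN (ω i) (b.coord l) =
        asym H HB hD (FibreFunctor.mul N (Nᘁ) (ω i) (ω' i))
          (tdual HB (b.coord l) (b'.dualBasis j)) := by
      intro i
      rw [_root_.mul_comm, hmul hN (hS.dual hN) hD]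
    rw [Finset.sum_congr rfl fun i _ => e1 i, ← p_xmat_sum_left, ← hω2,
      ← p_xmat_funct H HB hS.unit hD]
    have e2 : ((tdual HB (b.coord l) (b'.dualBasis j)) ∘ₗ (HB.map (η_ N (Nᘁ))).hom)
        FibreFunctor.one = if j = l then 1 else 0 := by
      rw [LinearMap.comp_apply, hb2, map_sum]
      simp only [htd]
      simp [Finsupp.single_apply]
    by_cases hjl : j = l
    · rw [if_pos hjl] at e2
      rw [hunit _ 1 (Or.inr rfl) e2, if_pos rfl, if_pos hjl]
    · rw [if_neg hjl] at e2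
      rw [hunit _ 0 (Or.inl rfl) e2, if_neg (by norm_num), if_neg hjl]

end

end Pool.Agent.Lib.MP_ae0f86_nt
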