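import Pool.Agent.Lib.MP_ae0f86_nt.StmT

/-! [GP conn] -/

open CategoryTheory CategoryTheory.Limits Opposite MonoidalCategory

universe w v u

namespace Pool.Agent.Lib.MP_ae0f86_nt

noncomputable section

private theorem p_conn_idem (R : Type w) [CommRing R] (hc : ConnectedSpace (PrimeSpectrum R))
    (e : R) (he : IsIdempotentElem e) : e = 0 ∨ e = 1 := by
  have h1 : IsClopen (PrimeSpectrum.basicOpen e : Set (PrimeSpectrum R)) :=
    PrimeSpectrum.isClopen_iff.mpr ⟨e, he, rfl⟩
  rcases isClopen_iff.mp h1 with h | h
  · left
    have h2 : PrimeSpectrum.basicOpen e = PrimeSpectrum.basicOpen (0 : R) := by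
      apply TopologicalSpace.Opens.ext
      rw [h, PrimeSpectrum.basicOpen_zero]
      rfl
    exact PrimeSpectrum.basicOpen_injOn_isIdempotentElem he IsIdempotentElem.zero h2
  · right
    have h2 : PrimeSpectrum.basicOpen e = PrimeSpectrum.basicOpen (1 : R) := by
      apply TopologicalSpace.Opens.ext
      rw [h, PrimeSpectrum.basicOpen_one]
      rfl
    exact PrimeSpectrum.basicOpen_injOn_isIdempotentElem he IsIdempotentElem.one h2

theorem p_conn : S_conn.{w} := by
  intro R _ _ hloc hc
  have hnt : Nontrivial R := by
    have : Nonempty (PrimeSpectrum R) := inferInstance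
    exact PrimeSpectrum.nonempty_iff_nontrivial.mp this
  have hnz : NoZeroDivisors R := by
    refine ⟨fun {a b} hab => ?_⟩
    classical
    set I : Ideal R := (Submodule.span R {a}).annihilator with hI
    have hmI : ∀ r : R, r ∈ I ↔ r * a = 0 := fun r => by
      rw [hI, Submodule.mem_annihilator_span_singleton, smul_eq_mul]
    set J : Ideal R := Submodule.annihilator I with hJ
    have hmJ : ∀ r : R, r ∈ J ↔ ∀ i ∈ I, r * i = 0 := fun r => by
      rw [hJ, Submodule.mem_annihilator]
      rfl
    have htop : I ⊔ J = ⊤ := by
      by_contra hne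
      obtain ⟨m, hm, hle⟩ := Ideal.exists_le_maximal _ hne
      have hIm : I ≤ m := le_sup_left.trans hle
      have hJm : J ≤ m := le_sup_right.trans hle
      have hk : ∀ i ∈ I, ∃ s, s ∉ m ∧ s * i = 0 := by
        intro i hi
        rcases hloc m hm i a ((hmI i).mp hi) with h | ⟨s, hs, hsa⟩
        · exact h
        · exact absurd (hIm ((hmI s).mpr hsa)) hs
      obtain ⟨S, hS⟩ := (isNoetherianRing_iff_ideal_fg R).mp inferInstance I
      have hSI : ∀ i ∈ S, i ∈ I := fun i hi => hS ▸ Submodule.subset_span hi
      choose! s hs1 hs2 using hk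
      have hprod : ∏ i ∈ S, s i ∈ J := by
        rw [hmJ]
        have hle2 : I ≤ (Submodule.span R {∏ i ∈ S, s i}).annihilator := by
          rw [← hS]
          refine Submodule.span_le.mpr (fun i hi => ?_)
          show i ∈ (Submodule.span R {∏ i ∈ S, s i}).annihilator
          rw [Submodule.mem_annihilator_span_singleton, smul_eq_mul]
          rw [← Finset.mul_prod_erase S s hi, ← mul_assoc, mul_comm i, hs2 i (hSI i hi), zero_mul]
        intro i hi
        have := hle2 hi
        rw [Submodule.mem_annihilator_span_singleton, smul_eq_mul] at this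
        rw [mul_comm]
        exact this
      obtain ⟨i, hi, hsi⟩ := (hm.isPrime.prod_mem_iff).mp (hJm hprod)
      exact hs1 i (hSI i hi) hsi
    have h1 : (1 : R) ∈ I ⊔ J := by rw [htop]; exact Submodule.mem_top
    obtain ⟨e, he, f, hf, hef⟩ := Submodule.mem_sup.mp h1
    have hfe : f * e = 0 := (hmJ f).mp hf e he
    have hid : IsIdempotentElem e := by
      show e * e = e
      have h2 : e * (e + f) = e := by rw [hef, mul_one]
      rw [mul_add, mul_comm e f, hfe, add_zero] at h2
      exact h2
    rcases p_conn_idem R hc e hid with h0 | h0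
    · right
      rw [h0, zero_add] at hef
      rw [hef] at hf
      have := (hmJ 1).mp hf b ((hmI b).mpr (by rw [mul_comm]; exact hab))
      rwa [one_mul] at this
    · left
      rw [h0] at he
      have := (hmI 1).mp he
      rwa [one_mul] at this
  exact NoZeroDivisors.to_isDomain R

end

end Pool.Agent.Lib.MP_ae0f86_nt
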