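import Pool.Agent.Lib.MP_ae0f86_nt.StmU

/-! [GP d1susp] -/

open CategoryTheory CategoryTheory.Limits Opposite MonoidalCategory

universe w v u

namespace Pool.Agent.Lib.MP_ae0f86_nt

attribute [local instance] CategoryTheory.Abelian.hasFiniteBiproducts

private theorem p_d1susp_tens {k : Type} [Field k] {A : Type u} [Category.{v} A] [Abelian A]
    [MonoidalCategory A] [SymmetricCategory A] (T : CohTheory k A) (h4 : S_tensmono T)
    {N M : A} (n : ℕ) (h : IsSubquot N M) : IsSubquot (N ⊗ tpow T.L n) (M ⊗ tpow T.L n) := by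
  obtain ⟨N', i, p, hi, hp⟩ := h
  exact ⟨N' ⊗ tpow T.L n, i ▷ _, p ▷ _, (h4 i n).1 hi, (h4 p n).2 hp⟩

private theorem p_d1susp_cast {k : Type} [Field k] {A : Type u} [Category.{v} A] [Abelian A]
    [MonoidalCategory A] (T : CohTheory k A) {N : A} {P : AffPair k} {i j : ℤ} (hij : i = j)
    (h : IsSubquot N ((T.h i).obj (op P))) : IsSubquot N ((T.h j).obj (op P)) := by
  subst hij
  exact h

theorem p_d1susp {k : Type} [Field k] {A : Type u} [Category.{v} A] [Abelian A]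
    [MonoidalCategory A] [MonoidalPreadditive A] [SymmetricCategory A] (T : CohTheory k A)
    (h1 : S_suspiso T) (h2 : S_suspsnc T) (h3 : S_snc T) (h4 : S_tensmono T) (h5 : S_subq A)
    (h6 : S_twist T) : S_d1susp T := by
  intro ι _ c X hX i
  have hZ : IsAlg {z : ι ⊕ Unit → k | z ∘ Sum.inl ∈ X} := hX.1.cyl
  have hY : IsAlg {z : ι ⊕ Unit → k | z ∘ Sum.inl ∈ X ∧
      (z (Sum.inr ()) = 0 ∨ z (Sum.inr ()) = 1)} := by
    have h := (hX.1.cyl (κ := Unit)).inter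
      ((IsAlg.zero (MvPolynomial.X (Sum.inr ()) : MvPolynomial (ι ⊕ Unit) k)).union
        (IsAlg.zero (MvPolynomial.X (Sum.inr ()) - 1 : MvPolynomial (ι ⊕ Unit) k)))
    convert h using 1
    ext z
    simp [sub_eq_zero]
  have hsub : {z : ι ⊕ Unit → k | z ∘ Sum.inl ∈ X ∧
      (z (Sum.inr ()) = 0 ∨ z (Sum.inr ()) = 1)} ⊆ {z : ι ⊕ Unit → k | z ∘ Sum.inl ∈ X} :=
    fun z hz => hz.1
  obtain ⟨φ⟩ := h1 hX.1 hZ hY hsub rfl rfl i
  obtain ⟨P, hP, hPi⟩ := h2 hX hZ hY hsub rfl rfl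
  obtain ⟨ψ⟩ := hPi (i + 1)
  obtain ⟨ι', fin, c', X', hX', hf⟩ := h3 P (i + 1)
  rw [hP] at hf
  obtain ⟨f, hf⟩ := hf
  refine ⟨ι', fin, c', X', hX', fun N e hN => ?_⟩
  obtain ⟨ht, -, hi, hm, -, -⟩ := h5
  obtain ⟨τ⟩ := h6.1 N e 2
  have a1 : IsSubquot ((N ⊗ tpow T.L e) ⊗ tpow T.L 2)
      ((T.h i).obj (op (AffPair.abs hX.1)) ⊗ tpow T.L 2) := p_d1susp_tens T h4 2 hN
  have a2 : IsSubquot ((T.h i).obj (op (AffPair.abs hX.1)) ⊗ tpow T.L 2)
      ((T.h (i + 1)).obj (op P.pair) ⊗ tpow T.L 2) :=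
    hi _ _ (whiskerRightIso (ψ ≪≫ φ).symm _)
  have a3 := ht _ _ _ (hi _ _ τ.symm) (ht _ _ _ a1 (ht _ _ _ a2 (hm _ _ f hf)))
  exact p_d1susp_cast T (by push_cast; ring) a3

end Pool.Agent.Lib.MP_ae0f86_nt
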