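import Pool.Agent.Lib.MP_ae0f86_nt.StmT

open CategoryTheory CategoryTheory.Limits Opposite MonoidalCategory

universe w v u

namespace Pool.Agent.Lib.MP_ae0f86_nt

section

variable {A : Type u} [Category.{v} A] [Abelian A] [MonoidalCategory A] [SymmetricCategory A]
  {K : Type} [Field K] (H : A ⥤ ModuleCat.{0} K) [FibreFunctor H]

theorem p_dualbasis_wR {M M' : A} (f : M ⟶ M') (P : A) (x : H.obj M) (y : H.obj P) :
    (H.map (f ▷ P)).hom (FibreFunctor.mul M P x y) =
      FibreFunctor.mul M' P ((H.map f).hom x) y := by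
  rw [← MonoidalCategory.tensorHom_id, FibreFunctor.mul_nat, H.map_id]
  rfl

theorem p_dualbasis_wL {M M' : A} (f : M ⟶ M') (P : A) (x : H.obj P) (y : H.obj M) :
    (H.map (P ◁ f)).hom (FibreFunctor.mul P M x y) =
      FibreFunctor.mul P M' x ((H.map f).hom y) := by
  rw [← MonoidalCategory.id_tensorHom, FibreFunctor.mul_nat, H.map_id]
  rfl

omit [Abelian A] [MonoidalCategory A] [SymmetricCategory A] [FibreFunctor H] in
theorem p_dualbasis_comp {M M' M'' : A} (f : M ⟶ M') (g : M' ⟶ M'') (x : H.obj M) :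
    (H.map (f ≫ g)).hom x = (H.map g).hom ((H.map f).hom x) := by
  rw [H.map_comp]; rfl

theorem p_dualbasis_rho {M : A} (x : H.obj M) :
    (H.map (ρ_ M).hom).hom (FibreFunctor.mul M (𝟙_ A) x FibreFunctor.one) = x := by
  rw [← braiding_leftUnitor, p_dualbasis_comp, FibreFunctor.mul_comm, FibreFunctor.one_mul]

omit [Abelian A] [MonoidalCategory A] [SymmetricCategory A] [FibreFunctor H] in
theorem p_dualbasis_inv {M M' : A} (e : M ≅ M') (x : H.obj M) :
    (H.map e.inv).hom ((H.map e.hom).hom x) = x := by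
  rw [← p_dualbasis_comp, e.hom_inv_id, H.map_id]; rfl

omit [Abelian A] [MonoidalCategory A] [SymmetricCategory A] [FibreFunctor H] in
theorem p_dualbasis_hom {M M' : A} (e : M ≅ M') (x : H.obj M') :
    (H.map e.hom).hom ((H.map e.inv).hom x) = x := by
  rw [← p_dualbasis_comp, e.inv_hom_id, H.map_id]; rfl

theorem p_dualbasis_assocInv {M N P : A} (x : H.obj M) (y : H.obj N) (z : H.obj P) :
    (H.map (α_ M N P).inv).hom (FibreFunctor.mul M (N ⊗ P) x (FibreFunctor.mul N P y z)) =
      FibreFunctor.mul (M ⊗ N) P (FibreFunctor.mul M N x y) z := by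
  rw [← FibreFunctor.mul_assoc, p_dualbasis_inv]

theorem p_dualbasis_eps (N : A) [HasRightDual N] (y : H.obj (Nᘁ)) (x : H.obj N) :
    (H.map (ε_ N (Nᘁ))).hom (FibreFunctor.mul (Nᘁ) N y x) =
      epair H N y x • (FibreFunctor.one : H.obj (𝟙_ A)) := by
  have h : ∀ t : H.obj (𝟙_ A), coord H t • (FibreFunctor.one : H.obj (𝟙_ A)) = t := by
    intro t
    exact (coord H).symm_apply_apply t
  exact (h _).symm

theorem p_dualbasis_z1 (N : A) [HasRightDual N] {I : Type} [Fintype I]
    (ω : I → H.obj N) (a : I → H.obj (Nᘁ))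
    (ht : (H.map (η_ N (Nᘁ))).hom FibreFunctor.one =
      ∑ i, FibreFunctor.mul N (Nᘁ) (ω i) (a i)) (x : H.obj N) :
    ∑ i, epair H N (a i) x • ω i = x := by
  have z := ExactPairing.evaluation_coevaluation N (Nᘁ)
  have e := congrArg (fun f => (H.map (ρ_ N).hom).hom
    ((H.map f).hom (FibreFunctor.mul (𝟙_ A) N FibreFunctor.one x))) z
  simp only [p_dualbasis_comp, p_dualbasis_wR, ht, map_sum, LinearMap.sum_apply,
    FibreFunctor.mul_assoc, p_dualbasis_wL, p_dualbasis_eps, map_smul, p_dualbasis_rho,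
    FibreFunctor.one_mul, p_dualbasis_hom] at e
  exact e

theorem p_dualbasis_z2 (N : A) [HasRightDual N] {I : Type} [Fintype I]
    (ω : I → H.obj N) (a : I → H.obj (Nᘁ))
    (ht : (H.map (η_ N (Nᘁ))).hom FibreFunctor.one =
      ∑ i, FibreFunctor.mul N (Nᘁ) (ω i) (a i)) (y : H.obj (Nᘁ)) :
    ∑ i, epair H N y (ω i) • a i = y := by
  have z := ExactPairing.coevaluation_evaluation N (Nᘁ)
  have e := congrArg (fun f => (H.map (λ_ (Nᘁ)).hom).hom
    ((H.map f).hom (FibreFunctor.mul (Nᘁ) (𝟙_ A) y FibreFunctor.one))) z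
  simp only [p_dualbasis_comp, p_dualbasis_wL, ht, map_sum,
    p_dualbasis_assocInv, p_dualbasis_wR, p_dualbasis_eps, map_smul, LinearMap.smul_apply,
    p_dualbasis_rho, FibreFunctor.one_mul, p_dualbasis_hom] at e
  exact e

end

theorem p_dualbasis {A : Type u} [Category.{v} A] [Abelian A] [MonoidalCategory A]
    [SymmetricCategory A] {K : Type} [Field K] (H : A ⥤ ModuleCat.{0} K) [FibreFunctor H] :
    S_dualbasis H := by
  intro N _ I _ _ ω
  obtain ⟨τ, hτ⟩ := (FibreFunctor.bij (H := H) N (Nᘁ)).2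
    ((H.map (η_ N (Nᘁ))).hom FibreFunctor.one)
  obtain ⟨a', ha'⟩ := TensorProduct.eq_repr_basis_left ω τ
  set a : I → H.obj (Nᘁ) := fun i => a' i with ha
  have ht : (H.map (η_ N (Nᘁ))).hom FibreFunctor.one =
      ∑ i, FibreFunctor.mul N (Nᘁ) (ω i) (a i) := by
    rw [← hτ, ← ha', Finsupp.sum_fintype _ _ (fun i => TensorProduct.tmul_zero _ _), map_sum]
    simp [ha]
  have z1 := p_dualbasis_z1 H N ω a ht
  have z2 := p_dualbasis_z2 H N ω a ht
  have hδ : ∀ i k, epair H N (a i) (ω k) = if i = k then 1 else 0 := by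
    intro i k
    have h := congrArg (fun v => ω.repr v i) (z1 (ω k))
    simp only [map_sum, map_smul, Module.Basis.repr_self, Finsupp.smul_single, smul_eq_mul,
      mul_one, Finsupp.finsetSum_apply, Finsupp.single_apply] at h
    simpa [eq_comm] using h
  have hli : LinearIndependent K a := by
    rw [Fintype.linearIndependent_iff]
    intro g hg k
    have h := congrArg (fun v => epair H N v (ω k)) hg
    simpa [hδ] using h
  have hsp : ⊤ ≤ Submodule.span K (Set.range a) := by
    intro y _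
    rw [← z2 y]
    exact Submodule.sum_mem _ fun i _ => Submodule.smul_mem _ _
      (Submodule.subset_span ⟨i, rfl⟩)
  refine ⟨Module.Basis.mk hli hsp, fun i k => ?_, ?_⟩
  · rw [Module.Basis.mk_apply]; exact hδ i k
  · rw [ht]
    simp only [Module.Basis.mk_apply]

end Pool.Agent.Lib.MP_ae0f86_nt
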