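import Pool.Agent.Lib.MP_ae0f86_nt.StmB

/-! [GP geo] -/

open CategoryTheory CategoryTheory.Limits Opposite MonoidalCategory

universe v u

namespace Pool.Agent.Lib.MP_ae0f86_nt

noncomputable section

attribute [local instance] CategoryTheory.Abelian.hasFiniteBiproducts

theorem p_geo {A : Type u} [Category.{v} A] [Abelian A] [MonoidalCategory A]
    [MonoidalPreadditive A] [SymmetricCategory A] (T : CohTheory QBar A) (h1 : S_domall T)
    (h2 : S_quadrics) (h3 : S_clopen T) (h4 : S_cubic T) (h5 : S_subtens T) (h6 : S_subsum A)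
    (h7 : S_subq A) (h8 : S_twist T) : S_geo T := by
  intro N
  obtain ⟨e, ι, _, c, X, hX, hdom⟩ := h1 N
  obtain ⟨n, r, c', q, hc', hq, hsm, g, hg⟩ := h2 X hX
  obtain ⟨s1, -, s3, -, s5, -, s7⟩ := h6
  obtain ⟨-, -, q3, -, q5, -⟩ := h7
  have hcl : ∀ M, T.cl (AffPair.abs hX.1) M → SubSum (T.cl (AffPair.abs
      (zl_alg (fun j => MvPolynomial.map (Int.castRingHom QBar) (q j))))) M := by
    rintro M ⟨i, rfl⟩
    have he := h3 hX.1 _ g hg i
    exact s1 _ _ _ (s5 _ _ ⟨i, rfl⟩) (q5 _ _ ((T.h i).map g.op) he)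
  have hdom' := s3 _ _ _ hcl hdom
  have htens := h5 _ (fun M => M = T.total (cubic q)) c' (N ⊗ tpow T.L e) (by
    rintro M ⟨i, rfl⟩
    exact (s7 _ _).mpr (h4 _ c' hc' hsm i)) hdom'
  obtain ⟨iso⟩ := h8.1 N e c'
  exact ⟨e + c', n, r, q, hq, (s7 _ _).mp (s1 _ _ _ htens (q3 _ _ iso.symm))⟩

end

end Pool.Agent.Lib.MP_ae0f86_nt
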