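import Pool.Agent.Lib.MP_ae0f86_nt.StmE

/-!
# MP_ae0f86_nt : [GP rank]
-/

open CategoryTheory CategoryTheory.Limits Opposite MonoidalCategory

universe v u

namespace Pool.Agent.Lib.MP_ae0f86_nt

theorem p_rank {A : Type u} [Category.{v} A] [Abelian A] [MonoidalCategory A]
    [SymmetricCategory A] : S_rank (A := A) := by
  intro K _ _ HdR HB _ _ c N
  have e := LinearEquiv.ofBijective _ (c.bij N)
  have h := e.finrank_eq
  rw [Module.finrank_baseChange] at h
  rw [h]
  have h2 := Module.finrank_linearMap ℚ ℂ (Module.Dual ℚ (HB.obj N)) ℂ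
  rw [h2, Module.finrank_self, mul_one, Subspace.dual_finrank_eq]

end Pool.Agent.Lib.MP_ae0f86_nt
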