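import Pool.Agent.Lib.MP_ae0f86_nt.StmA

open MvPolynomial

universe v u

namespace Pool.Agent.Lib.MP_ae0f86_nt

theorem p_smreindex_grad {k : Type} [Field k] {ι ι' : Type} (ε : ι ≃ ι')
    (p : MvPolynomial ι k) (z : ι' → k) :
    grad z (rename ε p) = LinearMap.funLeft k k ε.symm (grad (z ∘ ε) p) := by
  funext j
  obtain ⟨i, rfl⟩ := ε.surjective j
  simp only [grad, LinearMap.funLeft_apply, Equiv.symm_apply_apply]
  rw [pderiv_rename ε.injective, eval_rename]

theorem p_smreindex {k : Type} [Field k] : S_smreindex k := by
  intro ι ι' ε c X hX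
  obtain ⟨hA, hC⟩ := hX
  refine ⟨?_, ?_⟩
  · have h := hA.preimage (ι := ι') (fun i => MvPolynomial.X (ε i))
    convert h using 2
    funext z
    simp [Function.comp_def]
  · intro z hz
    obtain ⟨p, s, hs, hp, hl⟩ := hC (z ∘ ε) hz
    refine ⟨fun a => rename ε (p a), rename ε s, ?_, ?_, ?_⟩
    · rw [eval_rename]; exact hs
    · intro y hy
      rw [eval_rename] at hy
      have := hp (y ∘ ε) hy
      simp only [eval_rename]
      exact this
    · have h1 := hl.map' (LinearMap.funLeft k k ε.symm)
        (LinearMap.ker_eq_bot.2 (LinearMap.funLeft_injective_of_surjective k k _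
          ε.symm.surjective))
      refine (congrArg (fun v => LinearIndependent k v) ?_).mpr h1
      funext a
      rcases a with a | e
      · simp only [Function.comp_apply, Sum.elim_inl]
        exact p_smreindex_grad ε (p a) z
      · exact e.elim

end Pool.Agent.Lib.MP_ae0f86_nt
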