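import Pool.Agent.Lib.MP_ae0f86_nt.StmB

/-!
# MP_ae0f86_nt : elementary properties of subquotients
-/

open CategoryTheory CategoryTheory.Limits

universe v u

namespace Pool.Agent.Lib.MP_ae0f86_nt

attribute [local instance] CategoryTheory.Abelian.hasFiniteBiproducts

theorem p_subq_trans {A : Type u} [Category.{v} A] [Abelian A] (M N P : A)
    (h1 : IsSubquot M N) (h2 : IsSubquot N P) : IsSubquot M P := by
  obtain ⟨M', i1, p1, hi1, hp1⟩ := h1
  obtain ⟨N', i2, p2, hi2, hp2⟩ := h2
  have := hi1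
  have := hp1
  have := hi2
  have := hp2
  have e1 : Epi (pullback.fst i1 p2) := Abelian.epi_pullback_of_epi_g i1 p2
  have e2 : Mono (pullback.snd i1 p2) := inferInstance
  exact ⟨pullback i1 p2, pullback.snd i1 p2 ≫ i2, pullback.fst i1 p2 ≫ p1, mono_comp _ _,
    epi_comp _ _⟩

theorem p_subq {A : Type u} [Category.{v} A] [Abelian A] : S_subq A := by
  refine ⟨p_subq_trans, ?_, ?_, ?_, ?_, ?_⟩
  · intro r M N h
    choose M' i p hi hp using h
    have := hi
    have := hp
    exact ⟨⨁ M', biproduct.map i, biproduct.map p, inferInstance, inferInstance⟩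
  · intro M N e
    exact ⟨M, e.hom, 𝟙 M, inferInstance, inferInstance⟩
  · intro M N f hf
    exact ⟨M, f, 𝟙 M, hf, inferInstance⟩
  · intro M N f hf
    exact ⟨M, 𝟙 M, f, inferInstance, hf⟩
  · rintro M N M' N' ⟨K, i, p, hi, hp⟩ ⟨K', i', p', hi', hp'⟩
    have := hi
    have := hp
    have := hi'
    have := hp'
    exact ⟨K ⊞ K', biprod.map i i', biprod.map p p', inferInstance, inferInstance⟩

end Pool.Agent.Lib.MP_ae0f86_nt
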