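import Pool.Agent.Lib.MP_ae0f86_nt.StmA

/-! # [GP thomQI] -/

open CategoryTheory Opposite MonoidalCategory

universe v u

namespace Pool.Agent.Lib.MP_ae0f86_nt

theorem p_thomQI {k : Type} [Field k] {A : Type u} [Category.{v} A] [Abelian A]
    [MonoidalCategory A] (T : CohTheory k A) : S_thomQI T := by
  intro P Q f hf i
  obtain ⟨j, rfl⟩ : ∃ j : ℤ, i = j + 2 := ⟨i - 2, by ring⟩
  have h1 : IsIso ((T.h j).map f.D.op) := hf j
  have h2 := T.thom_nat j f
  have h3 : (T.h (j + 2)).map f.U.op =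
      ((T.thom j Q).hom ≫ ((T.h j).map f.D.op ▷ _)) ≫ (T.thom j P).inv := by
    rw [← h2, Category.assoc, Iso.hom_inv_id, Category.comp_id]
  rw [h3]
  infer_instance

end Pool.Agent.Lib.MP_ae0f86_nt
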