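import Pool.Agent.Lib.MP_ae0f86_nt.StmA

/-! [GP triC] Five lemma for a morphism of triples, part (c). -/

open CategoryTheory CategoryTheory.Limits Opposite MonoidalCategory

universe v u

namespace Pool.Agent.Lib.MP_ae0f86_nt

section Five

variable {C : Type u} [Category.{v} C] [Abelian C]

/-- The five lemma, with the rows given arrow by arrow. -/
theorem p_triC_five {X₁ X₂ X₃ X₄ X₅ Y₁ Y₂ Y₃ Y₄ Y₅ : C}
    {f₁ : X₁ ⟶ X₂} {f₂ : X₂ ⟶ X₃} {f₃ : X₃ ⟶ X₄} {f₄ : X₄ ⟶ X₅}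
    {g₁ : Y₁ ⟶ Y₂} {g₂ : Y₂ ⟶ Y₃} {g₃ : Y₃ ⟶ Y₄} {g₄ : Y₄ ⟶ Y₅}
    {a₁ : X₁ ⟶ Y₁} {a₂ : X₂ ⟶ Y₂} {a₃ : X₃ ⟶ Y₃} {a₄ : X₄ ⟶ Y₄} {a₅ : X₅ ⟶ Y₅}
    (c₁ : f₁ ≫ a₂ = a₁ ≫ g₁) (c₂ : f₂ ≫ a₃ = a₂ ≫ g₂) (c₃ : f₃ ≫ a₄ = a₃ ≫ g₃)
    (c₄ : f₄ ≫ a₅ = a₄ ≫ g₄)
    (e₂ : ∃ w, (ShortComplex.mk f₁ f₂ w).Exact) (e₃ : ∃ w, (ShortComplex.mk f₂ f₃ w).Exact)
    (e₄ : ∃ w, (ShortComplex.mk f₃ f₄ w).Exact)
    (e₂' : ∃ w, (ShortComplex.mk g₁ g₂ w).Exact) (e₃' : ∃ w, (ShortComplex.mk g₂ g₃ w).Exact)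
    (e₄' : ∃ w, (ShortComplex.mk g₃ g₄ w).Exact)
    (h₁ : Epi a₁) (h₂ : IsIso a₂) (h₄ : IsIso a₄) (h₅ : Mono a₅) : IsIso a₃ := by
  obtain ⟨w₂, e₂⟩ := e₂
  obtain ⟨w₃, e₃⟩ := e₃
  obtain ⟨w₄, e₄⟩ := e₄
  obtain ⟨w₂', e₂'⟩ := e₂'
  obtain ⟨w₃', e₃'⟩ := e₃'
  obtain ⟨w₄', e₄'⟩ := e₄'
  have hmono : Mono a₃ := by
    apply Preadditive.mono_of_cancel_zero
    intro A a ha
    have h1 : a ≫ f₃ = 0 := by
      rw [← cancel_mono a₄, Category.assoc, c₃, reassoc_of% ha, zero_comp, zero_comp]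
    obtain ⟨A', π, _, x₂, hx⟩ := e₃.exact_up_to_refinements a h1
    dsimp at x₂ hx
    have h2 : (x₂ ≫ a₂) ≫ g₂ = 0 := by
      rw [Category.assoc, ← c₂, ← Category.assoc, ← hx, Category.assoc, ha, comp_zero]
    obtain ⟨A'', π', _, y₁, hy⟩ := e₂'.exact_up_to_refinements _ h2
    dsimp at y₁ hy
    obtain ⟨A₃, π'', _, x₁, hx₁⟩ := surjective_up_to_refinements_of_epi a₁ y₁
    have h3 : π'' ≫ π' ≫ x₂ = x₁ ≫ f₁ := by
      rw [← cancel_mono a₂, Category.assoc, Category.assoc, hy, reassoc_of% hx₁, Category.assoc, c₁]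
    rw [← cancel_epi π, ← cancel_epi π', ← cancel_epi π'', hx, reassoc_of% h3, w₂]
    simp
  have hepi : Epi a₃ := by
    rw [epi_iff_surjective_up_to_refinements]
    intro A y₃
    obtain ⟨A₁, π₁, _, x₄, hx₄⟩ := surjective_up_to_refinements_of_epi a₄ (y₃ ≫ g₃)
    have h1 : x₄ ≫ f₄ = 0 := by
      rw [← cancel_mono a₅, Category.assoc, c₄, zero_comp, ← reassoc_of% hx₄, w₄', comp_zero,
        comp_zero]
    obtain ⟨A₂, π₂, _, x₃, hx₃⟩ := e₄.exact_up_to_refinements x₄ h1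
    dsimp at x₃ hx₃
    have h2 : (π₂ ≫ π₁ ≫ y₃ - x₃ ≫ a₃) ≫ g₃ = 0 := by
      rw [Preadditive.sub_comp, Category.assoc, Category.assoc, hx₄, reassoc_of% hx₃,
        Category.assoc, c₃, sub_self]
    obtain ⟨A₃, π₃, _, y₂, hy₂⟩ := e₃'.exact_up_to_refinements _ h2
    dsimp at y₂ hy₂
    obtain ⟨A₄, π₄, _, x₂, hx₂⟩ := surjective_up_to_refinements_of_epi a₂ y₂
    refine ⟨A₄, π₄ ≫ π₃ ≫ π₂ ≫ π₁, inferInstance, π₄ ≫ π₃ ≫ x₃ + x₂ ≫ f₂, ?_⟩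
    have h3 : π₃ ≫ π₂ ≫ π₁ ≫ y₃ = π₃ ≫ x₃ ≫ a₃ + y₂ ≫ g₂ := by
      rw [← hy₂, Preadditive.comp_sub]
      abel
    simp only [Category.assoc, Preadditive.add_comp, c₂]
    rw [h3, Preadditive.comp_add, reassoc_of% hx₂]
  exact isIso_of_mono_of_epi a₃

end Five

theorem p_triC_quot {k : Type} [Field k] {t t' : AffTriple k} (f : t.Hom t') :
    t.quot ≫ f.XY = f.XZ ≫ t'.quot := AffPair.hom_ext _ _ fun _ => rfl

theorem p_triC_incl {k : Type} [Field k] {t t' : AffTriple k} (f : t.Hom t') :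
    t.incl ≫ f.XZ = f.YZ ≫ t'.incl := AffPair.hom_ext _ _ fun _ => rfl

theorem p_triC {k : Type} [Field k] {A : Type u} [Category.{v} A] [Abelian A] [MonoidalCategory A]
    (T : CohTheory k A) : S_triC T := by
  intro t t' f hXZ hXY i
  have q : ∀ i, (T.h i).map t'.quot.op ≫ (T.h i).map f.XZ.op =
      (T.h i).map f.XY.op ≫ (T.h i).map t.quot.op := by
    intro i
    rw [← Functor.map_comp, ← Functor.map_comp, ← op_comp, ← op_comp, p_triC_quot]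
  have r : (T.h i).map t'.incl.op ≫ (T.h i).map f.YZ.op =
      (T.h i).map f.XZ.op ≫ (T.h i).map t.incl.op := by
    rw [← Functor.map_comp, ← Functor.map_comp, ← op_comp, ← op_comp, p_triC_incl]
  have h1 := hXY i
  have h5 := hXZ (i + 1)
  exact p_triC_five (q i) r (T.δ_nat i f).symm (q (i + 1)) (T.exact_XZ i t') (T.exact_YZ i t')
    (T.exact_XY i t') (T.exact_XZ i t) (T.exact_YZ i t) (T.exact_XY i t) inferInstance (hXZ i)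
    (hXY (i + 1)) inferInstance

end Pool.Agent.Lib.MP_ae0f86_nt
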